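import Pool.Agent.H81.LP.Defs

/-!
# Module C1: elementary properties of `K n`

The integrand is positive, continuous, decreasing in `X`, and for `X > 0` it is at most
`exp (-∑ exp (v i)) · (1/2) X^(-1/2) exp (∑ v_i / 2)` (because `exp (-z) ≤ (1/2) z^(-1/2)` for
`z > 0`: `√z exp (-z) ≤ 1/√(2e) < 1/2`), a product of the integrable functions
`exp (-exp t + t/2)` whose integral is `Γ(1/2) = √π` (`Real.Gamma_one_half_eq`; substitute
`x = exp t` in `Real.GammaIntegral`; also `∫ exp (-exp t + t) = 1`).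
Continuity on `(0, ∞)`: dominated convergence.
`K_le_inv`: the same with `exp (-z) ≤ 1/z`: `K n X ≤ 1/X`.
`K_small_power`: the same with `exp (-z) ≤ C z^(-ε)` and `Γ(ε)`.
-/

namespace H81.LP

open MeasureTheory

/-- integral of `exp (-exp t + a t)` over the line -/
theorem exp_gamma_integrable {a : ℝ} (ha : 0 < a) :
    Integrable (fun t : ℝ => Real.exp (-Real.exp t + a * t)) ∧
    ∫ t : ℝ, Real.exp (-Real.exp t + a * t) = Real.Gamma a := by
  have hder : ∀ x ∈ (Set.univ : Set ℝ), HasDerivWithinAt Real.exp (Real.exp x) Set.univ x :=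
    fun x _ => (Real.hasDerivAt_exp x).hasDerivWithinAt
  have hinj : Set.InjOn Real.exp (Set.univ : Set ℝ) := Real.exp_injective.injOn
  have him : Real.exp '' (Set.univ : Set ℝ) = Set.Ioi 0 := by
    rw [Set.image_univ, Real.range_exp]
  have hfun : (fun t : ℝ => |Real.exp t| • (fun x : ℝ => Real.exp (-x) * x ^ (a - 1)) (Real.exp t)) =
      fun t : ℝ => Real.exp (-Real.exp t + a * t) := by
    funext t
    simp only [smul_eq_mul]
    rw [abs_of_pos (Real.exp_pos t), ← Real.exp_mul, ← Real.exp_add, ← Real.exp_add]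
    congr 1
    ring
  constructor
  · have h1 := MeasureTheory.integrableOn_image_iff_integrableOn_abs_deriv_smul
      MeasurableSet.univ hder hinj (fun x : ℝ => Real.exp (-x) * x ^ (a - 1))
    rw [him, hfun, MeasureTheory.integrableOn_univ] at h1
    exact h1.1 (Real.GammaIntegral_convergent ha)
  · have h1 := MeasureTheory.integral_image_eq_integral_abs_deriv_smul
      MeasurableSet.univ hder hinj (fun x : ℝ => Real.exp (-x) * x ^ (a - 1))
    rw [him, hfun, MeasureTheory.setIntegral_univ] at h1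
    rw [Real.Gamma_eq_integral ha]
    exact h1.symm

/-- the product function -/
theorem prod_gamma (n : ℕ) {a : ℝ} (ha : 0 < a) :
    Integrable (fun v : Fin n → ℝ => ∏ i, Real.exp (-Real.exp (v i) + a * v i)) ∧
    ∫ v : Fin n → ℝ, ∏ i, Real.exp (-Real.exp (v i) + a * v i) = (Real.Gamma a) ^ n := by
  obtain ⟨h1, h2⟩ := exp_gamma_integrable ha
  constructor
  · exact MeasureTheory.Integrable.fintype_prod (f := fun (_ : Fin n) (t : ℝ) =>
      Real.exp (-Real.exp t + a * t)) (fun _ => h1)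
  · have := MeasureTheory.integral_fintype_prod_volume_eq_prod (ι := Fin n)
      (fun (_ : Fin n) (t : ℝ) => Real.exp (-Real.exp t + a * t))
    rw [this]
    simp only [h2, Finset.prod_const, Finset.card_univ, Fintype.card_fin]

/-- the elementary inequality -/
theorem exp_neg_le_rpow {a z : ℝ} (ha : 0 < a) (hz : 0 < z) :
    Real.exp (-z) ≤ Real.exp (a * Real.log a - a) * z ^ (-a) := by
  rw [Real.rpow_def_of_pos hz, ← Real.exp_add]
  apply Real.exp_le_exp.2
  have h1 : Real.log (z / a) ≤ z / a - 1 := Real.log_le_sub_one_of_pos (by positivity)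
  rw [Real.log_div hz.ne' ha.ne'] at h1
  have h2 : a * (Real.log z - Real.log a) ≤ a * (z / a - 1) := mul_le_mul_of_nonneg_left h1 ha.le
  have h3 : a * (z / a - 1) = z - a := by
    field_simp
  nlinarith

theorem integrand_le (n : ℕ) {a X : ℝ} (ha : 0 < a) (hX : 0 < X) (v : Fin n → ℝ) :
    Real.exp (-(∑ i, Real.exp (v i)) - X * Real.exp (-(∑ i, v i))) ≤
      Real.exp (a * Real.log a - a) * X ^ (-a) *
        ∏ i, Real.exp (-Real.exp (v i) + a * v i) := by
  have h1 : Real.exp (-(X * Real.exp (-(∑ i, v i)))) ≤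
      Real.exp (a * Real.log a - a) * (X * Real.exp (-(∑ i, v i))) ^ (-a) :=
    exp_neg_le_rpow ha (by positivity)
  have h2 : (X * Real.exp (-(∑ i, v i))) ^ (-a) = X ^ (-a) * Real.exp (a * ∑ i, v i) := by
    rw [Real.mul_rpow hX.le (Real.exp_pos _).le, ← Real.exp_mul]
    congr 2
    ring
  have h3 : ∏ i, Real.exp (-Real.exp (v i) + a * v i) =
      Real.exp (-(∑ i, Real.exp (v i))) * Real.exp (a * ∑ i, v i) := by
    rw [← Real.exp_sum, Finset.sum_add_distrib, Finset.sum_neg_distrib, ← Finset.mul_sum,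
      Real.exp_add]
  rw [sub_eq_add_neg, Real.exp_add, h3]
  rw [h2] at h1
  calc Real.exp (-(∑ i, Real.exp (v i))) * Real.exp (-(X * Real.exp (-(∑ i, v i))))
      ≤ Real.exp (-(∑ i, Real.exp (v i))) *
        (Real.exp (a * Real.log a - a) * (X ^ (-a) * Real.exp (a * ∑ i, v i))) :=
        mul_le_mul_of_nonneg_left h1 (Real.exp_pos _).le
    _ = _ := by ring

theorem K_integrable (n : ℕ) {X : ℝ} (hX : 0 < X) :
    Integrable (fun v : Fin n → ℝ =>
      Real.exp (-(∑ i, Real.exp (v i)) - X * Real.exp (-(∑ i, v i)))) := by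
  have h1 := ((prod_gamma n (a := 1) one_pos).1.const_mul
    (Real.exp (1 * Real.log 1 - 1) * X ^ (-1 : ℝ)))
  refine h1.mono' ?_ ?_
  · apply Continuous.aestronglyMeasurable
    fun_prop
  · refine Filter.Eventually.of_forall (fun v => ?_)
    rw [Real.norm_eq_abs, abs_of_pos (Real.exp_pos _)]
    exact integrand_le n one_pos hX v

theorem K_gen (n : ℕ) {a X : ℝ} (ha : 0 < a) (hX : 0 < X) :
    K n X ≤ Real.exp (a * Real.log a - a) * X ^ (-a) * (Real.Gamma a) ^ n := by
  unfold K
  calc ∫ v : Fin n → ℝ, Real.exp (-(∑ i, Real.exp (v i)) - X * Real.exp (-(∑ i, v i)))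
      ≤ ∫ v : Fin n → ℝ, Real.exp (a * Real.log a - a) * X ^ (-a) *
        ∏ i, Real.exp (-Real.exp (v i) + a * v i) :=
        integral_mono (K_integrable n hX) ((prod_gamma n ha).1.const_mul _)
          (fun v => integrand_le n ha hX v)
    _ = _ := by
      rw [integral_const_mul, (prod_gamma n ha).2]

theorem K_zero (X : ℝ) : K 0 X = Real.exp (-X) := by
  unfold K
  rw [MeasureTheory.Measure.volume_pi_eq_dirac]
  simp

theorem K_pos (n : ℕ) {X : ℝ} (hX : 0 < X) : 0 < K n X := by
  unfold K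
  exact MeasureTheory.integral_exp_pos (K_integrable n hX)

theorem K_anti (n : ℕ) {X Y : ℝ} (hX : 0 < X) (hXY : X ≤ Y) : K n Y ≤ K n X := by
  unfold K
  apply integral_mono (K_integrable n (hX.trans_le hXY)) (K_integrable n hX)
  intro v
  apply Real.exp_le_exp.2
  have := mul_le_mul_of_nonneg_right hXY (Real.exp_pos (-(∑ i, v i))).le
  linarith

theorem K_continuousOn (n : ℕ) : ContinuousOn (K n) (Set.Ioi 0) := by
  intro X₀ hX₀
  have hX0 : 0 < X₀ := hX₀
  apply ContinuousAt.continuousWithinAt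
  unfold K
  apply MeasureTheory.continuousAt_of_dominated (bound := fun v : Fin n → ℝ =>
    Real.exp (-(∑ i, Real.exp (v i)) - (X₀ / 2) * Real.exp (-(∑ i, v i))))
  · refine Filter.Eventually.of_forall (fun X => ?_)
    apply Continuous.aestronglyMeasurable
    fun_prop
  · filter_upwards [eventually_gt_nhds (show X₀ / 2 < X₀ by linarith)] with X hX
    refine Filter.Eventually.of_forall (fun v => ?_)
    rw [Real.norm_eq_abs, abs_of_pos (Real.exp_pos _)]
    apply Real.exp_le_exp.2
    have := mul_le_mul_of_nonneg_right hX.le (Real.exp_pos (-(∑ i, v i))).le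
    linarith
  · exact K_integrable n (by linarith)
  · refine Filter.Eventually.of_forall (fun v => ?_)
    apply Continuous.continuousAt
    fun_prop

theorem K_le (n : ℕ) {X : ℝ} (hX : 0 < X) : K n X ≤ 1 / 2 * (√Real.pi) ^ n / √X := by
  have h1 := K_gen n (a := 1 / 2) (by norm_num) hX
  rw [Real.Gamma_one_half_eq] at h1
  have h2 : Real.exp (1 / 2 * Real.log (1 / 2) - 1 / 2) ≤ 1 / 2 := by
    have h3 : (1 / 2 : ℝ) = Real.exp (Real.log (1 / 2)) := (Real.exp_log (by norm_num)).symm
    conv_rhs => rw [h3]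
    apply Real.exp_le_exp.2
    have h4 : Real.log (1 / 2) = -Real.log 2 := by
      rw [one_div, Real.log_inv]
    rw [h4]
    have h5 : Real.log 2 < 1 := by
      have := Real.log_two_lt_d9
      linarith
    linarith
  have h3 : X ^ (-(1 / 2) : ℝ) = 1 / √X := by
    rw [Real.rpow_neg hX.le, Real.sqrt_eq_rpow, one_div (X ^ (1 / 2 : ℝ))]
  rw [h3] at h1
  calc K n X ≤ Real.exp (1 / 2 * Real.log (1 / 2) - 1 / 2) * (1 / √X) * (√Real.pi) ^ n := h1
    _ ≤ 1 / 2 * (1 / √X) * (√Real.pi) ^ n := by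
        apply mul_le_mul_of_nonneg_right _ (by positivity)
        exact mul_le_mul_of_nonneg_right h2 (by positivity)
    _ = _ := by ring

theorem K_le_inv (n : ℕ) {X : ℝ} (hX : 0 < X) : K n X ≤ 1 / X := by
  have h1 := K_gen n (a := 1) one_pos hX
  rw [Real.Gamma_one, one_pow, mul_one, Real.log_one, Real.rpow_neg_one] at h1
  have h2 : Real.exp (1 * 0 - 1) ≤ 1 := by
    rw [Real.exp_le_one_iff]
    norm_num
  calc K n X ≤ Real.exp (1 * 0 - 1) * X⁻¹ := h1
    _ ≤ 1 * X⁻¹ := mul_le_mul_of_nonneg_right h2 (by positivity)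
    _ = 1 / X := by rw [one_mul, one_div]

theorem K_small_power (n : ℕ) {ε : ℝ} (hε : 0 < ε) :
    ∃ C : ℝ, ∀ X : ℝ, 0 < X → K n X ≤ C * X ^ (-ε) := by
  refine ⟨Real.exp (ε * Real.log ε - ε) * (Real.Gamma ε) ^ n, fun X hX => ?_⟩
  have h1 := K_gen n hε hX
  calc K n X ≤ _ := h1
    _ = _ := by ring

end H81.LP
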