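import Pool.Agent.H81.LP.PoissonG

/-!
# Module A1b: functional equation of the theta series

Apply `poisson_gauss` (imported, may be cited) to `M = √λ · diag (exp w_i(u)) · g`:
`∑_i (M m)_i² = λ ∑ exp (2 w_i(u)) (g m)_i²`, `|det M| = (√λ)^(n+1) |det g|` because
`∑_i w_i(u) = 0`, and `M⁻ᵀ = (√λ)⁻¹ · diag (exp (-w_i(u))) · (g⁻¹)ᵀ` with `w(-u) = -w(u)`.
-/

namespace H81.LP

open MeasureTheory

theorem w_sum {n : ℕ} (u : Fin n → ℝ) : ∑ i, w u i = 0 := by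
  rw [Fin.sum_univ_succ]
  simp [w]

theorem w_neg {n : ℕ} (u : Fin n → ℝ) (i : Fin (n + 1)) : w (-u) i = - w u i := by
  refine Fin.cases ?_ (fun j => ?_) i
  · simp [w]
  · simp [w]

theorem w_add {n : ℕ} (u v : Fin n → ℝ) (i : Fin (n + 1)) : w (u + v) i = w u i + w v i := by
  refine Fin.cases ?_ (fun j => ?_) i
  · simp [w, Finset.sum_add_distrib]
    ring
  · simp [w]

/-- the scaled matrix -/
noncomputable def feM {n : ℕ} (g : Matrix (Fin (n + 1)) (Fin (n + 1)) ℝ) (lam : ℝ)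
    (u : Fin n → ℝ) : Matrix (Fin (n + 1)) (Fin (n + 1)) ℝ :=
  Matrix.diagonal (fun i => √lam * Real.exp (w u i)) * g

theorem feM_det {n : ℕ} (g : Matrix (Fin (n + 1)) (Fin (n + 1)) ℝ) (lam : ℝ)
    (u : Fin n → ℝ) : (feM g lam u).det = (√lam) ^ (n + 1) * g.det := by
  unfold feM
  rw [Matrix.det_mul, Matrix.det_diagonal, Finset.prod_mul_distrib, ← Real.exp_sum, w_sum,
    Real.exp_zero, mul_one, Finset.prod_const, Finset.card_univ, Fintype.card_fin]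

theorem feM_gv {n : ℕ} (g : Matrix (Fin (n + 1)) (Fin (n + 1)) ℝ) (lam : ℝ)
    (u : Fin n → ℝ) (m : Fin (n + 1) → ℤ) (i : Fin (n + 1)) :
    gv (feM g lam u) m i = √lam * Real.exp (w u i) * gv g m i := by
  unfold gv feM
  rw [← Matrix.mulVec_mulVec, Matrix.mulVec_diagonal]

theorem feM_inv_gv {n : ℕ} (g : Matrix (Fin (n + 1)) (Fin (n + 1)) ℝ) (hg : g.det ≠ 0)
    {lam : ℝ} (hl : 0 < lam) (u : Fin n → ℝ) (m : Fin (n + 1) → ℤ) (i : Fin (n + 1)) :
    gv ((feM g lam u)⁻¹).transpose m i =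
      (√lam * Real.exp (w u i))⁻¹ * gv (g⁻¹).transpose m i := by
  have hs : √lam ≠ 0 := (Real.sqrt_pos.2 hl).ne'
  have hinv : (feM g lam u)⁻¹ =
      g⁻¹ * Matrix.diagonal (fun i => (√lam * Real.exp (w u i))⁻¹) := by
    apply Matrix.inv_eq_right_inv
    unfold feM
    rw [Matrix.mul_assoc, ← Matrix.mul_assoc g, Matrix.mul_nonsing_inv g (isUnit_iff_ne_zero.2 hg),
      Matrix.one_mul, Matrix.diagonal_mul_diagonal]
    rw [← Matrix.diagonal_one]
    congr 1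
    funext i
    exact mul_inv_cancel₀ (mul_ne_zero hs (Real.exp_pos _).ne')
  rw [hinv, Matrix.transpose_mul, Matrix.diagonal_transpose]
  unfold gv
  rw [← Matrix.mulVec_mulVec, Matrix.mulVec_diagonal]

theorem feM_term {n : ℕ} (g : Matrix (Fin (n + 1)) (Fin (n + 1)) ℝ)
    {lam : ℝ} (hl : 0 < lam) (u : Fin n → ℝ) (m : Fin (n + 1) → ℤ) :
    Real.exp (-(Real.pi * ∑ i, (gv (feM g lam u) m i) ^ 2)) = thTerm g lam u m := by
  have hsum : ∑ i, (gv (feM g lam u) m i) ^ 2 =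
      lam * ∑ i, Real.exp (2 * w u i) * (gv g m i) ^ 2 := by
    rw [Finset.mul_sum]
    refine Finset.sum_congr rfl fun i _ => ?_
    rw [feM_gv, mul_pow, mul_pow, Real.sq_sqrt hl.le, ← Real.exp_nat_mul]
    push_cast
    ring
  unfold thTerm
  rw [hsum, mul_assoc]

theorem feM_inv_term {n : ℕ} (g : Matrix (Fin (n + 1)) (Fin (n + 1)) ℝ) (hg : g.det ≠ 0)
    {lam : ℝ} (hl : 0 < lam) (u : Fin n → ℝ) (m : Fin (n + 1) → ℤ) :
    Real.exp (-(Real.pi * ∑ i, (gv ((feM g lam u)⁻¹).transpose m i) ^ 2)) =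
      thTerm (g⁻¹).transpose lam⁻¹ (-u) m := by
  have hsum : ∑ i, (gv ((feM g lam u)⁻¹).transpose m i) ^ 2 =
      lam⁻¹ * ∑ i, Real.exp (2 * w (-u) i) * (gv (g⁻¹).transpose m i) ^ 2 := by
    rw [Finset.mul_sum]
    refine Finset.sum_congr rfl fun i _ => ?_
    rw [feM_inv_gv g hg hl, mul_pow, mul_inv, mul_pow, inv_pow, Real.sq_sqrt hl.le, w_neg,
      ← Real.exp_neg, ← Real.exp_nat_mul]
    push_cast
    ring
  unfold thTerm
  rw [hsum, mul_assoc]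

theorem thTerm_summable {n : ℕ} (g : Matrix (Fin (n + 1)) (Fin (n + 1)) ℝ) (hg : g.det ≠ 0)
    {lam : ℝ} (hl : 0 < lam) (u : Fin n → ℝ) : Summable (thTerm g lam u) := by
  have hs : 0 < √lam := Real.sqrt_pos.2 hl
  have h := gauss_summable (feM g lam u) (by
    rw [feM_det]
    exact mul_ne_zero (pow_ne_zero _ hs.ne') hg)
  simpa only [feM_term g hl u] using h

theorem theta_fe {n : ℕ} (g : Matrix (Fin (n + 1)) (Fin (n + 1)) ℝ) (hg : g.det ≠ 0)
    {lam : ℝ} (hl : 0 < lam) (u : Fin n → ℝ) :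
    Th g lam u = |g.det|⁻¹ * ((√lam) ^ (n + 1))⁻¹ * Th (g⁻¹).transpose lam⁻¹ (-u) := by
  have hs : 0 < √lam := Real.sqrt_pos.2 hl
  have h := poisson_gauss (feM g lam u) (by
    rw [feM_det]
    exact mul_ne_zero (pow_ne_zero _ hs.ne') hg)
  simp only [feM_term g hl u, feM_inv_term g hg hl u] at h
  unfold Th
  rw [h, feM_det, abs_mul, abs_of_pos (pow_pos hs _), mul_inv]
  ring

end H81.LP
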