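import Pool.Agent.H81.LP.Defs

/-!
# Module A5a: `K n` as an integral over the diagonal group

* `En u ≥ n + 1`: arithmetic-geometric inequality (or `exp x ≥ 1 + x`), as `∑ w_i(u) = 0`.
* growth: with `|u|_1 = ∑ |u_i|`: some `w_i(u) ≥ |u|_1 / (2 (n+1))` (if `n ≥ 1`: positive and negative
  parts of `w` have the same sum, at least `|u|_1/2`), so `En u ≥ exp (|u|_1/(n+1))`, and
  `exp (a |u|_1 - t En u)` is integrable (bounded by `C exp (-|u|_1)`; the function
  `exp (-∑|u_i|)` is a product of integrable functions, `MeasureTheory.Integrable.fintype_prod`).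
* `K n (t^(n+1)) = 2^n ∫ exp (-t En u) du`: substitute `v_i = 2 u_i + log t` in the definition of
  `K n`: `∑ exp (v_i) = t ∑ exp (2 u_i)`,
  `t^(n+1) exp (-∑ v_i) = t exp (-2 ∑ u_i)`.
-/

namespace H81.LP

open MeasureTheory

theorem EnK_sum_w {n : ℕ} (u : Fin n → ℝ) : ∑ i, w u i = 0 := by
  rw [Fin.sum_univ_succ]
  simp [w]

theorem EnK_En_eq {n : ℕ} (u : Fin n → ℝ) :
    En u = Real.exp (2 * (-(∑ i, u i))) + ∑ i, Real.exp (2 * u i) := by
  rw [En, Fin.sum_univ_succ]
  simp [w]

theorem En_ge {n : ℕ} (u : Fin n → ℝ) : (n + 1 : ℝ) ≤ En u := by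
  have h : ∑ i : Fin (n + 1), (2 * w u i + 1) ≤ En u :=
    Finset.sum_le_sum fun i _ => Real.add_one_le_exp _
  have h2 : ∑ i : Fin (n + 1), (2 * w u i + 1) = (n + 1 : ℝ) := by
    rw [Finset.sum_add_distrib, ← Finset.mul_sum, EnK_sum_w]
    simp
  linarith

theorem En_continuous {n : ℕ} : Continuous (fun u : Fin n → ℝ => En u) := by
  have : (fun u : Fin n → ℝ => En u) =
      fun u : Fin n → ℝ => Real.exp (2 * (-(∑ i, u i))) + ∑ i, Real.exp (2 * u i) := by
    funext u
    exact EnK_En_eq u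
  rw [this]
  fun_prop

theorem EnK_growth {n : ℕ} (u : Fin n → ℝ) :
    Real.exp ((∑ i, |u i|) / ((n + 1 : ℝ) ^ 2)) ≤ En u := by
  have hE1 : (1 : ℝ) ≤ En u := by
    have := En_ge u
    have hn : (0 : ℝ) ≤ n := Nat.cast_nonneg n
    linarith
  have hE0 : 0 < En u := by linarith
  set L := Real.log (En u) with hL
  have hL0 : 0 ≤ L := Real.log_nonneg hE1
  have hw : ∀ i : Fin (n + 1), 2 * w u i ≤ L := by
    intro i
    rw [hL, Real.le_log_iff_exp_le hE0]
    exact Finset.single_le_sum (f := fun i => Real.exp (2 * w u i))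
      (fun j _ => (Real.exp_pos _).le) (Finset.mem_univ i)
  have hui : ∀ i : Fin n, w u i.succ = u i := by
    intro i
    simp [w]
  have habs : ∀ i : Fin n, |u i| ≤ (n + 1) * L := by
    intro i
    have hn : (0 : ℝ) ≤ n := Nat.cast_nonneg n
    rw [abs_le]
    constructor
    · have h1 : ∑ j ∈ Finset.univ.erase i.succ, w u j + w u i.succ = ∑ j, w u j :=
        Finset.sum_erase_add _ _ (Finset.mem_univ _)
      have h2 : ∑ j ∈ Finset.univ.erase i.succ, w u j ≤
          ∑ j ∈ Finset.univ.erase (i.succ), L := by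
        refine Finset.sum_le_sum fun j _ => ?_
        have := hw j
        linarith
      rw [Finset.sum_const, Finset.card_erase_of_mem (Finset.mem_univ _), Finset.card_univ,
        Fintype.card_fin, nsmul_eq_mul] at h2
      rw [EnK_sum_w, hui] at h1
      have h3 : (((n + 1 - 1 : ℕ)) : ℝ) = n := by simp
      rw [h3] at h2
      nlinarith
    · have h1 := hw i.succ
      rw [hui] at h1
      nlinarith
  have hsum : ∑ i, |u i| ≤ n * ((n + 1) * L) := by
    have : ∑ i, |u i| ≤ ∑ _i : Fin n, ((n + 1 : ℝ) * L) :=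
      Finset.sum_le_sum fun i _ => habs i
    simpa using this
  have hn : (0 : ℝ) ≤ n := Nat.cast_nonneg n
  have : (∑ i, |u i|) / ((n + 1 : ℝ) ^ 2) ≤ L := by
    rw [div_le_iff₀ (by positivity)]
    nlinarith [mul_nonneg hn hL0]
  calc Real.exp ((∑ i, |u i|) / ((n + 1 : ℝ) ^ 2)) ≤ Real.exp L := Real.exp_le_exp.mpr this
    _ = En u := Real.exp_log hE0

theorem EnK_integrable_exp_neg_abs : Integrable (fun x : ℝ => Real.exp (-|x|)) := by
  have h1 : IntegrableOn (fun x : ℝ => Real.exp (-|x|)) (Set.Ioi 0) := by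
    refine (integrableOn_exp_neg_Ioi 0).congr_fun (fun x hx => ?_) measurableSet_Ioi
    simp only [Set.mem_Ioi] at hx
    simp [abs_of_pos hx]
  have h2 : IntegrableOn (fun x : ℝ => Real.exp (-|x|)) (Set.Iic 0) := by
    refine (integrableOn_exp_Iic 0).congr_fun (fun x hx => ?_) measurableSet_Iic
    simp only [Set.mem_Iic] at hx
    simp [abs_of_nonpos hx]
  have h3 := h2.union h1
  rwa [Set.Iic_union_Ioi, integrableOn_univ] at h3

theorem EnK_integrable_exp_neg_sum {n : ℕ} :
    Integrable (fun u : Fin n → ℝ => Real.exp (-(∑ i, |u i|))) := by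
  have h : Integrable (fun u : Fin n → ℝ => ∏ i, Real.exp (-|u i|)) :=
    Integrable.fintype_prod (f := fun (_ : Fin n) (x : ℝ) => Real.exp (-|x|))
      (fun _ => EnK_integrable_exp_neg_abs)
  refine h.congr (Filter.Eventually.of_forall fun u => ?_)
  simp only
  rw [← Real.exp_sum, Finset.sum_neg_distrib]

theorem En_integrable {n : ℕ} {t : ℝ} (ht : 0 < t) (a : ℝ) :
    Integrable (fun u : Fin n → ℝ => Real.exp (a * ∑ i, |u i|) * Real.exp (-(t * En u))) := by
  set c : ℝ := 1 / ((n + 1 : ℝ) ^ 2) with hc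
  have hc0 : 0 < c := by positivity
  set D : ℝ := (a + 1) ^ 2 / (2 * t * c ^ 2) with hD
  refine (EnK_integrable_exp_neg_sum (n := n)).const_mul (Real.exp D) |>.mono' ?_ ?_
  · apply Continuous.aestronglyMeasurable
    have := En_continuous (n := n)
    fun_prop
  · refine Filter.Eventually.of_forall fun u => ?_
    rw [Real.norm_of_nonneg (by positivity), ← Real.exp_add, ← Real.exp_add]
    apply Real.exp_le_exp.mpr
    set r := ∑ i, |u i| with hr
    have hr0 : 0 ≤ r := Finset.sum_nonneg fun i _ => abs_nonneg _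
    have h1 : Real.exp (c * r) ≤ En u := by
      have := EnK_growth u
      rw [← hr] at this
      rwa [hc, one_div, mul_comm, ← div_eq_mul_inv]
    have h2 := Real.quadratic_le_exp_of_nonneg (mul_nonneg hc0.le hr0)
    have h3 : (c * r) ^ 2 / 2 ≤ En u := by
      have : 0 ≤ c * r := mul_nonneg hc0.le hr0
      nlinarith
    have h4 : t * ((c * r) ^ 2 / 2) ≤ t * En u := mul_le_mul_of_nonneg_left h3 ht.le
    have h5 : (a + 1) * r - t * ((c * r) ^ 2 / 2) ≤ D := by
      rw [hD, le_div_iff₀ (by positivity)]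
      nlinarith [sq_nonneg ((a + 1) - t * c ^ 2 * r)]
    linarith

theorem K_eq_En {n : ℕ} {t : ℝ} (ht : 0 < t) :
    K n (t ^ (n + 1)) = 2 ^ n * ∫ u : Fin n → ℝ, Real.exp (-(t * En u)) := by
  set F : (Fin n → ℝ) → ℝ := fun v =>
    Real.exp (-(∑ i, Real.exp (v i)) - t ^ (n + 1) * Real.exp (-(∑ i, v i))) with hF
  have hK : K n (t ^ (n + 1)) = ∫ v, F v := rfl
  have h1 : ∫ u : Fin n → ℝ, F ((2 : ℝ) • u + fun _ => Real.log t) =
      |((2 : ℝ) ^ n)⁻¹| * ∫ v, F v := by
    have h := Measure.integral_comp_smul (volume : Measure (Fin n → ℝ))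
      (fun v => F (v + fun _ => Real.log t)) 2
    rw [Module.finrank_fin_fun, smul_eq_mul] at h
    rw [h]
    congr 1
    exact integral_add_right_eq_self (μ := (volume : Measure (Fin n → ℝ))) F _
  have h2 : ∀ u : Fin n → ℝ, F ((2 : ℝ) • u + fun _ => Real.log t) = Real.exp (-(t * En u)) := by
    intro u
    rw [hF]
    simp only [Pi.add_apply, Pi.smul_apply, smul_eq_mul]
    congr 1
    rw [EnK_En_eq]
    have e1 : ∑ i, Real.exp (2 * u i + Real.log t) = t * ∑ i, Real.exp (2 * u i) := by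
      rw [Finset.mul_sum]
      refine Finset.sum_congr rfl fun i _ => ?_
      rw [Real.exp_add, Real.exp_log ht, mul_comm]
    have e2 : t ^ (n + 1) * Real.exp (-∑ i, (2 * u i + Real.log t)) =
        t * Real.exp (2 * (-(∑ i, u i))) := by
      have : -∑ i, (2 * u i + Real.log t) = 2 * (-(∑ i, u i)) + (-(n * Real.log t)) := by
        rw [Finset.sum_add_distrib, ← Finset.mul_sum]
        simp
        ring
      rw [this, Real.exp_add, Real.exp_neg (n * Real.log t), Real.exp_nat_mul, Real.exp_log ht]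
      have htn : t ^ n ≠ 0 := pow_ne_zero _ ht.ne'
      field_simp
      exact pow_succ t n
    rw [e1, e2]
    ring
  simp only [h2] at h1
  rw [hK, h1, abs_of_pos (by positivity)]
  field_simp

end H81.LP
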