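import Pool.Agent.H81.LP.Defs

/-!
# Module A3: a lattice with bounded theta series is admissible

Let `y = g m`, `m ≠ 0`.  For every `u` the sum contains the terms of `k m`, `k = 0, …, L`
(different integer vectors), so `∑_{k=0}^{L} exp (-π λ k² ∑ exp (2 w_i(u)) y_i²) ≤ C`.
Choose `L` with `(L + 1) / e > C` and `ρ > 0` with `π λ L² ρ² ≤ 1`.  If `∏ |y_i|` is less than
`τ^(n+1)`, `τ = ρ/√(n+1)`, then there is `u` with `exp (w_i(u)) |y_i| ≤ τ` for all `i`
(take `δ > 0` with `∏ (|y_i| + δ) < τ^(n+1)` by continuity, `a_i = log τ - log (|y_i| + δ)`,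
`A = ∑ a_i > 0` and `w_i(u) = a_i - A/(n+1)`; every vector with sum zero is `w u` for a
unique `u`), so all terms with `k ≤ L` are at least `1/e`: contradiction.
Hence `c = τ^(n+1)` works for all `m ≠ 0`.
-/

namespace H81.LP

open MeasureTheory

theorem exists_w {n : ℕ} (v : Fin (n + 1) → ℝ) (hv : ∑ i, v i = 0) :
    ∃ u : Fin n → ℝ, ∀ i, w u i = v i := by
  refine ⟨fun i => v i.succ, fun i => ?_⟩
  rw [Fin.sum_univ_succ] at hv
  unfold w
  refine Fin.cases ?_ (fun j => ?_) i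
  · rw [Fin.cons_zero]
    linarith
  · rw [Fin.cons_succ]

private theorem exists_small {n : ℕ} (y : Fin (n + 1) → ℝ) {τ : ℝ} (hτ : 0 < τ)
    (hy : |∏ i, y i| < τ ^ (n + 1)) : ∃ u : Fin n → ℝ, ∀ i, Real.exp (w u i) * |y i| ≤ τ := by
  have hcont : Continuous (fun δ : ℝ => ∏ i, (|y i| + δ)) := by fun_prop
  have h0 : ∏ i, (|y i| + 0) < τ ^ (n + 1) := by
    simp only [add_zero]
    rwa [← Finset.abs_prod]
  obtain ⟨δ, hδ0, hδ⟩ : ∃ δ : ℝ, 0 < δ ∧ ∏ i, (|y i| + δ) < τ ^ (n + 1) := by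
    have h1 : ∀ᶠ δ in nhds (0 : ℝ), ∏ i, (|y i| + δ) < τ ^ (n + 1) :=
      hcont.continuousAt.eventually_lt continuousAt_const h0
    have h2 : ∀ᶠ δ in nhdsWithin (0 : ℝ) (Set.Ioi 0), ∏ i, (|y i| + δ) < τ ^ (n + 1) :=
      h1.filter_mono nhdsWithin_le_nhds
    obtain ⟨δ, h3, h4⟩ := (h2.and self_mem_nhdsWithin).exists
    exact ⟨δ, h4, h3⟩
  have hpos : ∀ i, 0 < |y i| + δ := fun i => by positivity
  set a : Fin (n + 1) → ℝ := fun i => Real.log τ - Real.log (|y i| + δ) with ha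
  have hA : 0 < ∑ i, a i := by
    rw [ha, Finset.sum_sub_distrib, ← Real.log_prod (fun i _ => (hpos i).ne')]
    simp only [Finset.sum_const, Finset.card_univ, Fintype.card_fin, nsmul_eq_mul]
    have h1 := Real.log_lt_log (Finset.prod_pos fun i _ => hpos i) hδ
    rw [Real.log_pow] at h1
    linarith
  have hn : (0 : ℝ) < ((n + 1 : ℕ) : ℝ) := by positivity
  obtain ⟨u, hu⟩ := exists_w (fun i => a i - (∑ j, a j) / ((n + 1 : ℕ) : ℝ)) (by
    rw [Finset.sum_sub_distrib, Finset.sum_const, Finset.card_univ, Fintype.card_fin,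
      nsmul_eq_mul, mul_div_cancel₀ _ hn.ne', sub_self])
  refine ⟨u, fun i => ?_⟩
  rw [hu i]
  calc Real.exp (a i - (∑ j, a j) / ((n + 1 : ℕ) : ℝ)) * |y i|
      ≤ Real.exp (a i) * (|y i| + δ) := by
        refine mul_le_mul (Real.exp_le_exp.mpr ?_) (by linarith) (abs_nonneg _)
          (Real.exp_pos _).le
        have : 0 < (∑ j, a j) / ((n + 1 : ℕ) : ℝ) := div_pos hA hn
        linarith
    _ = τ := by
        rw [ha]
        simp only
        rw [Real.exp_sub, Real.exp_log hτ, Real.exp_log (hpos i), div_mul_cancel₀ _ (hpos i).ne']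

theorem dual_adm {n : ℕ} (g : Matrix (Fin (n + 1)) (Fin (n + 1)) ℝ) {lam : ℝ} (hl : 0 < lam)
    (C : ℝ) (hC : ∀ u : Fin n → ℝ, Summable (thTerm g lam u) ∧ Th g lam u ≤ C) :
    ∃ c : ℝ, 0 < c ∧ ∀ m : Fin (n + 1) → ℤ, m ≠ 0 → c ≤ |∏ i, gv g m i| := by
  obtain ⟨L, hL⟩ := exists_nat_gt (C * Real.exp 1)
  set τ : ℝ := Real.sqrt (1 / (Real.pi * lam * ((L : ℝ) + 1) ^ 2 * ((n : ℝ) + 1))) with hτ
  have hin : 0 < 1 / (Real.pi * lam * ((L : ℝ) + 1) ^ 2 * ((n : ℝ) + 1)) := by positivity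
  have hτ0 : 0 < τ := Real.sqrt_pos.mpr hin
  have hτ2 : τ ^ 2 = 1 / (Real.pi * lam * ((L : ℝ) + 1) ^ 2 * ((n : ℝ) + 1)) :=
    Real.sq_sqrt hin.le
  refine ⟨τ ^ (n + 1), by positivity, fun m hm => ?_⟩
  by_contra hcon
  push Not at hcon
  obtain ⟨u, hu⟩ := exists_small (gv g m) hτ0 hcon
  obtain ⟨hs, hT⟩ := hC u
  have hsum : ∑ i, Real.exp (2 * w u i) * (gv g m i) ^ 2 ≤ ((n : ℝ) + 1) * τ ^ 2 := by
    calc ∑ i, Real.exp (2 * w u i) * (gv g m i) ^ 2 ≤ ∑ _i : Fin (n + 1), τ ^ 2 := by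
          refine Finset.sum_le_sum fun i _ => ?_
          have h1 : Real.exp (2 * w u i) * (gv g m i) ^ 2 = (Real.exp (w u i) * |gv g m i|) ^ 2 := by
            rw [mul_pow, sq_abs, ← Real.exp_nat_mul]
            norm_num
          rw [h1]
          exact pow_le_pow_left₀ (by positivity) (hu i) 2
      _ = ((n : ℝ) + 1) * τ ^ 2 := by
          rw [Finset.sum_const, Finset.card_univ, Fintype.card_fin, nsmul_eq_mul]
          push_cast
          ring
  have hterm : ∀ k : ℕ, k ≤ L → Real.exp (-1) ≤ thTerm g lam u ((k : ℤ) • m) := by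
    intro k hk
    unfold thTerm
    apply Real.exp_le_exp.mpr
    have h1 : ∀ i, gv g ((k : ℤ) • m) i = (k : ℝ) * gv g m i := by
      intro i
      unfold gv Matrix.mulVec dotProduct
      rw [Finset.mul_sum]
      refine Finset.sum_congr rfl fun j _ => ?_
      simp only [Pi.smul_apply, smul_eq_mul]
      push_cast
      ring
    have h2 : ∑ i, Real.exp (2 * w u i) * (gv g ((k : ℤ) • m) i) ^ 2 =
        (k : ℝ) ^ 2 * ∑ i, Real.exp (2 * w u i) * (gv g m i) ^ 2 := by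
      rw [Finset.mul_sum]
      refine Finset.sum_congr rfl fun i _ => ?_
      rw [h1 i]
      ring
    rw [h2]
    have hkL : (k : ℝ) ^ 2 ≤ ((L : ℝ) + 1) ^ 2 := by
      apply pow_le_pow_left₀ (by positivity)
      have : (k : ℝ) ≤ L := by exact_mod_cast hk
      linarith
    have h3 : Real.pi * lam * ((k : ℝ) ^ 2 * ∑ i, Real.exp (2 * w u i) * (gv g m i) ^ 2) ≤ 1 := by
      calc Real.pi * lam * ((k : ℝ) ^ 2 * ∑ i, Real.exp (2 * w u i) * (gv g m i) ^ 2)
          ≤ Real.pi * lam * (((L : ℝ) + 1) ^ 2 * (((n : ℝ) + 1) * τ ^ 2)) := by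
            have h4 : 0 ≤ ∑ i, Real.exp (2 * w u i) * (gv g m i) ^ 2 :=
              Finset.sum_nonneg fun i _ => by positivity
            gcongr
        _ = 1 := by
            rw [hτ2]
            field_simp
    linarith
  have hinj : Function.Injective (fun k : ℕ => ((k : ℤ) • m : Fin (n + 1) → ℤ)) := by
    intro a b hab
    have h1 : ((a : ℤ) • m) = ((b : ℤ) • m) := hab
    obtain ⟨i, hi⟩ := Function.ne_iff.mp hm
    have h2 := congrFun h1 i
    simp only [Pi.smul_apply, smul_eq_mul] at h2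
    have h3 := mul_right_cancel₀ hi h2
    exact_mod_cast h3
  have h5 : ∑ k ∈ Finset.range (L + 1), thTerm g lam u ((k : ℤ) • m) ≤ Th g lam u := by
    unfold Th
    rw [← Finset.sum_image (f := thTerm g lam u) (g := fun k : ℕ => ((k : ℤ) • m : Fin (n + 1) → ℤ))
      (fun a _ b _ h => hinj h)]
    exact hs.sum_le_tsum _ (fun m' _ => (Real.exp_pos _).le)
  have h6 : ((L : ℝ) + 1) * Real.exp (-1) ≤ ∑ k ∈ Finset.range (L + 1),
      thTerm g lam u ((k : ℤ) • m) := by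
    calc ((L : ℝ) + 1) * Real.exp (-1) = ∑ _k ∈ Finset.range (L + 1), Real.exp (-1) := by
          rw [Finset.sum_const, Finset.card_range, nsmul_eq_mul]
          push_cast
          ring
      _ ≤ _ := Finset.sum_le_sum fun k hk =>
          hterm k (Nat.lt_succ_iff.mp (Finset.mem_range.mp hk))
  have h7 : ((L : ℝ) + 1) * Real.exp (-1) ≤ C := h6.trans (h5.trans hT)
  have h8 : ((L : ℝ) + 1) ≤ C * Real.exp 1 := by
    have h9 : ((L : ℝ) + 1) = ((L : ℝ) + 1) * Real.exp (-1) * Real.exp 1 := by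
      rw [mul_assoc, ← Real.exp_add]
      norm_num
    rw [h9]
    exact mul_le_mul_of_nonneg_right h7 (Real.exp_pos _).le
  linarith

/-- polar coordinates -/
theorem polar {n : ℕ} (x : Fin (n + 1) → ℝ) (hx : ∀ i, x i ≠ 0) :
    ∃ β : Fin n → ℝ, ∀ i, (x i) ^ 2 =
      ((∏ i, x i) ^ 2) ^ ((1 : ℝ) / (n + 1)) * Real.exp (2 * w β i) := by
  have hn : (0 : ℝ) < ((n + 1 : ℕ) : ℝ) := by positivity
  obtain ⟨β, hβ⟩ := exists_w (fun i => Real.log |x i| -
    (∑ j, Real.log |x j|) / ((n + 1 : ℕ) : ℝ)) (by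
    rw [Finset.sum_sub_distrib, Finset.sum_const, Finset.card_univ, Fintype.card_fin,
      nsmul_eq_mul, mul_div_cancel₀ _ hn.ne', sub_self])
  refine ⟨β, fun i => ?_⟩
  have hP : (∏ i, x i) ≠ 0 := Finset.prod_ne_zero_iff.mpr fun i _ => hx i
  have h1 : Real.log ((∏ i, x i) ^ 2) = 2 * ∑ j, Real.log |x j| := by
    rw [← Real.log_prod (fun j _ => abs_ne_zero.mpr (hx j)), ← Finset.abs_prod,
      Real.log_abs, Real.log_pow]
    norm_num
  rw [hβ i, Real.rpow_def_of_pos (by positivity), h1, ← Real.exp_add]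
  have h2 : 2 * (∑ j, Real.log |x j|) * (1 / ((n : ℝ) + 1)) +
      2 * (Real.log |x i| - (∑ j, Real.log |x j|) / ((n + 1 : ℕ) : ℝ)) =
      Real.log |x i| + Real.log |x i| := by
    push_cast
    ring
  rw [h2, Real.exp_add, Real.exp_log (abs_pos.mpr (hx i)), ← sq, sq_abs]

end H81.LP
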