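import Pool.Agent.H81.LP.Key
import Pool.Agent.H81.LP.ThetaFE
import Pool.Agent.H81.LP.DualAdm

/-!
# Module A6: one half of the averaged Poisson formula

`key`, `polar`, `w_add`, `w_sum` may be cited.  Let `W(u) = exp (-ε ∑ |u_i|)`,
`μ_j = (Y_j)^(1/(n+1))/π`.  By Tonelli (all terms nonnegative, the theta series bounded,
`∫ W < ∞`)
`∫ W ∑_j γ_j Th g μ_j = ∑_m ∫ W(u) ∑_j γ_j exp (-π μ_j ∑_i exp (2 w_i(u)) (g m)_i²) du`.
The term `m = 0` is `(∑ γ_j) ∫ W`.  For `m ≠ 0` put `x = g m`, `s = (∏ x_i)² ≥ c0² > 0` and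
`x_i² = s^(1/(n+1)) exp (2 w_i(β))` (`polar`); then
`π μ_j ∑_i exp (2 w_i(u)) x_i² = (Y_j s)^(1/(n+1)) En (u + β)` and the translation `u → u - β` turns
the term into the integral of `key` (with `ε`, `s`, `β`), so it is `≥ 0` for `ε ≤ ε0`.
-/

namespace H81.LP

open MeasureTheory

private theorem half_int_one {ε : ℝ} (hε : 0 < ε) :
    Integrable (fun x : ℝ => Real.exp (-(ε * |x|))) := by
  rw [← integrableOn_univ, ← Set.Iic_union_Ioi (a := (0 : ℝ)), integrableOn_union]
  constructor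
  · have h1 := integrableOn_exp_mul_Iic hε 0
    apply h1.congr_fun _ measurableSet_Iic
    intro x hx
    simp only
    rw [abs_of_nonpos hx]
    congr 1
    ring
  · have h1 := integrableOn_exp_mul_Ioi (a := -ε) (by linarith) 0
    apply h1.congr_fun _ measurableSet_Ioi
    intro x hx
    simp only
    rw [abs_of_pos hx]
    congr 1
    ring

theorem W_integrable {n : ℕ} {ε : ℝ} (hε : 0 < ε) :
    Integrable (fun u : Fin n → ℝ => Real.exp (-(ε * ∑ i, |u i|))) := by
  have h1 := Integrable.fintype_prod (ι := Fin n) (μ := fun _ => (volume : Measure ℝ))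
    (f := fun _ x => Real.exp (-(ε * |x|))) (fun _ => half_int_one hε)
  have h2 : (fun u : Fin n → ℝ => Real.exp (-(ε * ∑ i, |u i|))) =
      fun u => ∏ i, Real.exp (-(ε * |u i|)) := by
    funext u
    rw [← Real.exp_sum, Finset.sum_neg_distrib, Finset.mul_sum]
  rw [h2]
  exact h1

private theorem half_term_cont {n : ℕ} (g : Matrix (Fin (n + 1)) (Fin (n + 1)) ℝ) (lam : ℝ)
    (m : Fin (n + 1) → ℤ) : Continuous (fun u : Fin n → ℝ => thTerm g lam u m) := by
  have hw : ∀ i, Continuous (fun u : Fin n → ℝ => w u i) := by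
    intro i
    unfold w
    refine Fin.cases ?_ ?_ i
    · simp only [Fin.cons_zero]
      fun_prop
    · intro j
      simp only [Fin.cons_succ]
      fun_prop
  unfold thTerm
  apply Real.continuous_exp.comp
  apply Continuous.neg
  apply Continuous.mul continuous_const
  apply continuous_finsetSum
  intro i _
  apply Continuous.mul _ continuous_const
  apply Real.continuous_exp.comp
  exact continuous_const.mul (hw i)

private theorem half_pos_term {n : ℕ} (g : Matrix (Fin (n + 1)) (Fin (n + 1)) ℝ) (lam : ℝ)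
    (u : Fin n → ℝ) (m : Fin (n + 1) → ℤ) : 0 < thTerm g lam u m := Real.exp_pos _

/-- integrability and interchange for one Gaussian -/
private theorem half_one {n : ℕ} (g : Matrix (Fin (n + 1)) (Fin (n + 1)) ℝ) (lam : ℝ) (C : ℝ)
    (hC : ∀ u : Fin n → ℝ, Summable (thTerm g lam u) ∧ Th g lam u ≤ C) {ε : ℝ} (hε : 0 < ε) :
    Integrable (fun u : Fin n → ℝ => Real.exp (-(ε * ∑ i, |u i|)) * Th g lam u) ∧
    (∀ m, Integrable (fun u : Fin n → ℝ => Real.exp (-(ε * ∑ i, |u i|)) * thTerm g lam u m)) ∧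
    HasSum (fun m => ∫ u : Fin n → ℝ, Real.exp (-(ε * ∑ i, |u i|)) * thTerm g lam u m)
      (∫ u : Fin n → ℝ, Real.exp (-(ε * ∑ i, |u i|)) * Th g lam u) := by
  have hW := W_integrable (n := n) hε
  have hWc : Continuous (fun u : Fin n → ℝ => Real.exp (-(ε * ∑ i, |u i|))) := by fun_prop
  have hterm_le : ∀ u m, thTerm g lam u m ≤ Th g lam u := by
    intro u m
    exact (hC u).1.le_tsum m (fun m' _ => (half_pos_term g lam u m').le)
  have hCW : Integrable (fun u : Fin n → ℝ => C * Real.exp (-(ε * ∑ i, |u i|))) :=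
    hW.const_mul C
  have hint : ∀ m, Integrable (fun u : Fin n → ℝ =>
      Real.exp (-(ε * ∑ i, |u i|)) * thTerm g lam u m) := by
    intro m
    apply hCW.mono'
    · exact (hWc.mul (half_term_cont g lam m)).aestronglyMeasurable
    · apply Filter.Eventually.of_forall
      intro u
      rw [Real.norm_eq_abs, abs_of_pos (mul_pos (Real.exp_pos _) (half_pos_term g lam u m)),
        mul_comm C]
      exact mul_le_mul_of_nonneg_left ((hterm_le u m).trans (hC u).2) (Real.exp_pos _).le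
  have hpart : ∀ (S : Finset (Fin (n + 1) → ℤ)) (u : Fin n → ℝ),
      ∑ m ∈ S, Real.exp (-(ε * ∑ i, |u i|)) * thTerm g lam u m ≤
        C * Real.exp (-(ε * ∑ i, |u i|)) := by
    intro S u
    rw [← Finset.mul_sum, mul_comm C]
    apply mul_le_mul_of_nonneg_left _ (Real.exp_pos _).le
    exact ((hC u).1.sum_le_tsum S (fun m _ => (half_pos_term g lam u m).le)).trans (hC u).2
  have hsum : Summable (fun m => ∫ u : Fin n → ℝ,
      ‖Real.exp (-(ε * ∑ i, |u i|)) * thTerm g lam u m‖) := by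
    have hnorm : ∀ m, (∫ u : Fin n → ℝ, ‖Real.exp (-(ε * ∑ i, |u i|)) * thTerm g lam u m‖) =
        ∫ u : Fin n → ℝ, Real.exp (-(ε * ∑ i, |u i|)) * thTerm g lam u m := by
      intro m
      congr 1
      funext u
      rw [Real.norm_eq_abs, abs_of_pos (mul_pos (Real.exp_pos _) (half_pos_term g lam u m))]
    apply summable_of_sum_le (c := ∫ u : Fin n → ℝ, C * Real.exp (-(ε * ∑ i, |u i|)))
    · intro m
      exact integral_nonneg fun u => norm_nonneg _
    · intro S
      rw [Finset.sum_congr rfl (fun m _ => hnorm m),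
        ← integral_finsetSum _ (fun m _ => hint m)]
      exact integral_mono (integrable_finsetSum _ (fun m _ => hint m)) hCW (hpart S)
  have heq : ∀ u : Fin n → ℝ, ∑' m, Real.exp (-(ε * ∑ i, |u i|)) * thTerm g lam u m =
      Real.exp (-(ε * ∑ i, |u i|)) * Th g lam u := by
    intro u
    rw [tsum_mul_left]
    rfl
  have hhs := hasSum_integral_of_summable_integral_norm hint hsum
  simp only [heq] at hhs
  refine ⟨?_, hint, hhs⟩
  apply hCW.mono'
  · apply aestronglyMeasurable_of_tendsto_ae (u := Filter.atTop)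
      (f := fun (S : Finset (Fin (n + 1) → ℤ)) (u : Fin n → ℝ) =>
        ∑ m ∈ S, Real.exp (-(ε * ∑ i, |u i|)) * thTerm g lam u m)
    · intro S
      exact (integrable_finsetSum S (fun m _ => hint m)).aestronglyMeasurable
    · apply Filter.Eventually.of_forall
      intro u
      have h1 : HasSum (fun m => Real.exp (-(ε * ∑ i, |u i|)) * thTerm g lam u m)
          (Real.exp (-(ε * ∑ i, |u i|)) * Th g lam u) := (hC u).1.hasSum.mul_left _
      exact h1
  · apply Filter.Eventually.of_forall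
    intro u
    have h0 : 0 ≤ Th g lam u := (half_pos_term g lam u 0).le.trans (hterm_le u 0)
    rw [Real.norm_eq_abs, abs_of_nonneg (mul_nonneg (Real.exp_pos _).le h0), mul_comm C]
    exact mul_le_mul_of_nonneg_left (hC u).2 (Real.exp_pos _).le

theorem half {n N : ℕ} (g : Matrix (Fin (n + 1)) (Fin (n + 1)) ℝ) {c0 : ℝ} (hc0 : 0 < c0)
    (hadm : ∀ m : Fin (n + 1) → ℤ, m ≠ 0 → c0 ≤ |∏ i, gv g m i|)
    (γ Y : Fin N → ℝ) (hY : ∀ j, 0 < Y j) (j0 : Fin N)
    (hj0 : ∀ j, j ≠ j0 → Y j0 < Y j) (hγ : 0 < γ j0)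
    (hpos : ∀ s, c0 ^ 2 ≤ s → 0 < ∑ j, γ j * K n (Y j * s))
    (hbd : ∀ j, ∃ C : ℝ, ∀ u : Fin n → ℝ,
      Summable (thTerm g ((Y j) ^ ((1 : ℝ) / (n + 1)) / Real.pi) u) ∧
        Th g ((Y j) ^ ((1 : ℝ) / (n + 1)) / Real.pi) u ≤ C) :
    ∃ ε0 : ℝ, 0 < ε0 ∧ ∀ ε, 0 < ε → ε ≤ ε0 →
      (∀ j, Integrable (fun u : Fin n → ℝ => Real.exp (-(ε * ∑ i, |u i|)) *
        Th g ((Y j) ^ ((1 : ℝ) / (n + 1)) / Real.pi) u)) ∧
      (∑ j, γ j) * ∫ u : Fin n → ℝ, Real.exp (-(ε * ∑ i, |u i|)) ≤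
        ∫ u : Fin n → ℝ, Real.exp (-(ε * ∑ i, |u i|)) *
          ∑ j, γ j * Th g ((Y j) ^ ((1 : ℝ) / (n + 1)) / Real.pi) u := by
  obtain ⟨ε0, hε0, hkey⟩ := key (n := n) γ Y hY j0 hj0 hγ (s0 := c0 ^ 2) (by positivity) hpos
  refine ⟨ε0, hε0, ?_⟩
  intro ε hε hεle
  choose C hC using hbd
  have hone := fun j => half_one g ((Y j) ^ ((1 : ℝ) / (n + 1)) / Real.pi) (C j) (hC j) hε
  refine ⟨fun j => (hone j).1, ?_⟩
  set lam : Fin N → ℝ := fun j => (Y j) ^ ((1 : ℝ) / (n + 1)) / Real.pi with hlam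
  -- the interchange
  have hleft : ∫ u : Fin n → ℝ, Real.exp (-(ε * ∑ i, |u i|)) * ∑ j, γ j * Th g (lam j) u =
      ∑ j, γ j * ∫ u : Fin n → ℝ, Real.exp (-(ε * ∑ i, |u i|)) * Th g (lam j) u := by
    have h1 : ∀ u : Fin n → ℝ, Real.exp (-(ε * ∑ i, |u i|)) * ∑ j, γ j * Th g (lam j) u =
        ∑ j, γ j * (Real.exp (-(ε * ∑ i, |u i|)) * Th g (lam j) u) := by
      intro u
      rw [Finset.mul_sum]
      apply Finset.sum_congr rfl
      intro j _
      ring
    simp only [h1]
    rw [integral_finsetSum _ (fun j _ => ((hone j).1).const_mul _)]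
    apply Finset.sum_congr rfl
    intro j _
    rw [integral_const_mul]
  have hHS : HasSum (fun m => ∑ j, γ j * ∫ u : Fin n → ℝ,
      Real.exp (-(ε * ∑ i, |u i|)) * thTerm g (lam j) u m)
      (∑ j, γ j * ∫ u : Fin n → ℝ, Real.exp (-(ε * ∑ i, |u i|)) * Th g (lam j) u) := by
    apply hasSum_sum
    intro j _
    exact ((hone j).2.2).mul_left (γ j)
  have hterm : ∀ m, ∑ j, γ j * ∫ u : Fin n → ℝ,
      Real.exp (-(ε * ∑ i, |u i|)) * thTerm g (lam j) u m =
      ∫ u : Fin n → ℝ, Real.exp (-(ε * ∑ i, |u i|)) * ∑ j, γ j * thTerm g (lam j) u m := by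
    intro m
    have h1 : ∀ u : Fin n → ℝ, Real.exp (-(ε * ∑ i, |u i|)) * ∑ j, γ j * thTerm g (lam j) u m =
        ∑ j, γ j * (Real.exp (-(ε * ∑ i, |u i|)) * thTerm g (lam j) u m) := by
      intro u
      rw [Finset.mul_sum]
      apply Finset.sum_congr rfl
      intro j _
      ring
    simp only [h1]
    rw [integral_finsetSum _ (fun j _ => ((hone j).2.1 m).const_mul _)]
    apply Finset.sum_congr rfl
    intro j _
    rw [integral_const_mul]
  have hzero : ∑ j, γ j * ∫ u : Fin n → ℝ,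
      Real.exp (-(ε * ∑ i, |u i|)) * thTerm g (lam j) u 0 =
      (∑ j, γ j) * ∫ u : Fin n → ℝ, Real.exp (-(ε * ∑ i, |u i|)) := by
    rw [Finset.sum_mul]
    apply Finset.sum_congr rfl
    intro j _
    congr 2
    funext u
    have h1 : thTerm g (lam j) u 0 = 1 := by
      unfold thTerm gv
      simp [Matrix.mulVec, dotProduct]
    rw [h1, mul_one]
  have hnonneg : ∀ m, m ≠ 0 → 0 ≤ ∑ j, γ j * ∫ u : Fin n → ℝ,
      Real.exp (-(ε * ∑ i, |u i|)) * thTerm g (lam j) u m := by
    intro m hm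
    rw [hterm m]
    set x := gv g m with hx
    have hprod := hadm m hm
    rw [← hx] at hprod
    have hx0 : ∀ i, x i ≠ 0 := by
      intro i hi
      have h1 : ∏ i, x i = 0 := Finset.prod_eq_zero (Finset.mem_univ i) hi
      rw [h1, abs_zero] at hprod
      linarith
    obtain ⟨β, hβ⟩ := polar x hx0
    set s := (∏ i, x i) ^ 2 with hs
    have hs0 : c0 ^ 2 ≤ s := by
      rw [hs, ← sq_abs (∏ i, x i)]
      exact pow_le_pow_left₀ hc0.le hprod 2
    have hspos : 0 < s := lt_of_lt_of_le (by positivity) hs0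
    have hk := hkey ε hε hεle s hs0 β
    have hval : ∀ (u : Fin n → ℝ) j, thTerm g (lam j) u m =
        Real.exp (-((Y j * s) ^ ((1 : ℝ) / (n + 1)) * En (u + β))) := by
      intro u j
      unfold thTerm
      rw [← hx]
      congr 2
      have h1 : ∀ i, Real.exp (2 * w u i) * x i ^ 2 =
          s ^ ((1 : ℝ) / (n + 1)) * Real.exp (2 * w (u + β) i) := by
        intro i
        rw [hβ i, w_add, mul_add, Real.exp_add]
        ring
      rw [Finset.sum_congr rfl (fun i _ => h1 i), ← Finset.mul_sum, hlam]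
      simp only
      rw [Real.mul_rpow (hY j).le hspos.le]
      unfold En
      have hpi : Real.pi ≠ 0 := Real.pi_ne_zero
      field_simp
    simp only [hval]
    have htrans := integral_add_right_eq_self (μ := (volume : Measure (Fin n → ℝ)))
      (fun u : Fin n → ℝ => Real.exp (-(ε * ∑ i, |u i - β i|)) *
        ∑ j, γ j * Real.exp (-((Y j * s) ^ ((1 : ℝ) / (n + 1)) * En u))) β
    rw [← htrans] at hk
    simpa using hk
  rw [hleft, ← hzero]
  apply le_hasSum hHS 0
  intro m hm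
  exact hnonneg m hm

end H81.LP
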