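import Pool.Agent.H81.LP.Defs

/-!
# Module A2: the theta series of an admissible lattice is uniformly bounded

Assume `|∏ (g m)_i| ≥ 1` for all integer `m ≠ 0`.  For fixed `u` put
`x(m)_i = exp (w_i(u)) (g m)_i`.  For `m ≠ 0`: `∏ |x(m)_i| = |∏ (g m)_i| ≥ 1` as `∑ w_i(u) = 0`,
hence `∑ x(m)_i² ≥ n + 1 ≥ 1` by the arithmetic-geometric inequality (or simply: some
`|x(m)_i| ≥ 1`).
So two different points `x(m), x(m')` have some coordinate with `|x(m)_i - x(m')_i| ≥ 1`
(`x(m) - x(m') = x(m - m')`), and therefore `m ↦ (⌊x(m)_i⌋)_i` is injective.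
With `k_i = ⌊x_i⌋`: `x_i² ≥ k_i²/2 - 1` (because `k_i² ≤ 2 x_i² + 2`), so
`exp (-π λ ∑ x_i²) ≤ exp (π λ (n+1)) ∏ exp (-π λ k_i²/2)` and the sum over `m` is at most
`exp (π λ (n+1)) (∑_{k ∈ ℤ} exp (-π λ k²/2))^(n+1)`, independent of `u`
(`tsum` over an injective map is at most the whole sum; product of sums:
`Finset.prod_univ_sum`-type statement for `tsum`, e.g. `tsum_prod`/`Summable.tsum_...` by
induction on `n`, or bound all finite partial sums).
-/

namespace H81.LP

open MeasureTheory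

theorem theta_bdd {n : ℕ} (g : Matrix (Fin (n + 1)) (Fin (n + 1)) ℝ)
    (hadm : ∀ m : Fin (n + 1) → ℤ, m ≠ 0 → 1 ≤ |∏ i, gv g m i|) {lam : ℝ} (hl : 0 < lam) :
    ∃ C : ℝ, ∀ u : Fin n → ℝ, Summable (thTerm g lam u) ∧ Th g lam u ≤ C := by
  classical
  set G : ℤ → ℝ := fun k => Real.exp (Real.pi * lam) *
    Real.exp (-(Real.pi * lam * ((k : ℝ) ^ 2 / 2))) with hG
  have hGs : Summable G := by
    have h := summable_pow_mul_jacobiTheta₂_term_bound 0 (T := lam / 2) (by positivity) 0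
    refine (h.mul_left (Real.exp (Real.pi * lam))).congr fun k => ?_
    simp only [hG, pow_zero, one_mul, mul_zero, zero_mul, sub_zero]
    congr 2
    ring
  have hG0 : ∀ k, 0 ≤ G k := fun k => by positivity
  have hfin : ∀ T : Finset (Fin (n + 1) → ℤ),
      ∑ k ∈ T, ∏ i, G (k i) ≤ (∑' k, G k) ^ (n + 1) := by
    intro T
    calc ∑ k ∈ T, ∏ i, G (k i)
        ≤ ∑ k ∈ Fintype.piFinset (fun i => T.image (fun k => k i)), ∏ i, G (k i) := by
          apply Finset.sum_le_sum_of_subset_of_nonneg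
          · intro k hk
            rw [Fintype.mem_piFinset]
            intro i
            exact Finset.mem_image_of_mem _ hk
          · intro k _ _
            exact Finset.prod_nonneg fun i _ => hG0 _
      _ = ∏ i, ∑ j ∈ T.image (fun k => k i), G j := (Finset.prod_univ_sum _ _).symm
      _ ≤ ∏ i : Fin (n + 1), (∑' k, G k) :=
          Finset.prod_le_prod (fun i _ => Finset.sum_nonneg fun j _ => hG0 j)
            (fun i _ => hGs.sum_le_tsum _ (fun j _ => hG0 j))
      _ = (∑' k, G k) ^ (n + 1) := by simp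
  refine ⟨(∑' k, G k) ^ (n + 1), fun u => ?_⟩
  set x : (Fin (n + 1) → ℤ) → Fin (n + 1) → ℝ := fun m i => Real.exp (w u i) * gv g m i with hx
  have hsub : ∀ m m' i, x m i - x m' i = x (m - m') i := by
    intro m m' i
    simp only [hx, gv]
    rw [← mul_sub]
    congr 1
    simp [Matrix.mulVec, dotProduct, mul_sub, Finset.sum_sub_distrib]
  have hw : ∑ i, w u i = 0 := by simp [w, Fin.sum_univ_succ]
  have hprod : ∀ m, ∏ i, x m i = ∏ i, gv g m i := by
    intro m
    simp only [hx]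
    rw [Finset.prod_mul_distrib, ← Real.exp_sum, hw, Real.exp_zero, one_mul]
  have hinj : Function.Injective (fun (m : Fin (n + 1) → ℤ) (i : Fin (n + 1)) => ⌊x m i⌋) := by
    intro m m' h
    by_contra hne
    have h1 : ∀ i, |x (m - m') i| < 1 := by
      intro i
      rw [← hsub]
      exact Int.abs_sub_lt_one_of_floor_eq_floor (congrFun h i)
    have h2 := hadm (m - m') (sub_ne_zero.2 hne)
    rw [← hprod, Finset.abs_prod, Fin.prod_univ_succ] at h2
    have h3 : ∏ i : Fin n, |x (m - m') i.succ| ≤ 1 :=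
      Finset.prod_le_one (fun i _ => abs_nonneg _) (fun i _ => (h1 _).le)
    have h4 := mul_le_mul_of_nonneg_left h3 (abs_nonneg (x (m - m') 0))
    linarith [h1 0]
  have hterm : ∀ m, thTerm g lam u m ≤ ∏ i, G (⌊x m i⌋) := by
    intro m
    have h1 : thTerm g lam u m = ∏ i, Real.exp (-(Real.pi * lam * (x m i) ^ 2)) := by
      rw [← Real.exp_sum]
      unfold thTerm
      congr 1
      rw [Finset.sum_neg_distrib, Finset.mul_sum]
      congr 1
      refine Finset.sum_congr rfl fun i _ => ?_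
      simp only [hx]
      rw [mul_pow, ← Real.exp_nat_mul]
      push_cast
      ring
    rw [h1]
    refine Finset.prod_le_prod (fun i _ => (Real.exp_pos _).le) fun i _ => ?_
    simp only [hG]
    rw [← Real.exp_add]
    apply Real.exp_le_exp.2
    have h2 := Int.floor_le (x m i)
    have h3 := Int.lt_floor_add_one (x m i)
    have h4 : ((⌊x m i⌋ : ℤ) : ℝ) ^ 2 ≤ 2 * (x m i) ^ 2 + 2 := by
      nlinarith [sq_nonneg (x m i + (x m i - (⌊x m i⌋ : ℤ)))]
    have h5 : 0 < Real.pi * lam := by positivity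
    nlinarith
  have hsum : ∀ s : Finset (Fin (n + 1) → ℤ),
      ∑ m ∈ s, thTerm g lam u m ≤ (∑' k, G k) ^ (n + 1) := by
    intro s
    calc ∑ m ∈ s, thTerm g lam u m ≤ ∑ m ∈ s, ∏ i, G (⌊x m i⌋) :=
          Finset.sum_le_sum fun m _ => hterm m
      _ = ∑ k ∈ s.image (fun (m : Fin (n + 1) → ℤ) (i : Fin (n + 1)) => ⌊x m i⌋),
            ∏ i, G (k i) := by
          rw [Finset.sum_image (fun a _ b _ h => hinj h)]
      _ ≤ _ := hfin _
  have hnn : ∀ m, 0 ≤ thTerm g lam u m := fun m => (Real.exp_pos _).le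
  exact ⟨summable_of_sum_le hnn hsum, Real.tsum_le_of_sum_le hnn hsum⟩

end H81.LP
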