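import Pool.Agent.H81.LP.Defs

/-!
# Module B2a: the derivative of `Lap`

Since `(1/y) exp (-(s/y)) ≤ (2/(e s)) exp (-((s/2)/y))`, the class `LapOK` is closed under
`φ ↦ φ(y)/y`, and by dominated convergence (`hasDerivAt_integral_of_dominated_loc_of_deriv_le`,
on the ball of radius `s/2` with the bound `exp (-((s/2)/y)) |φ y| / y / y`)
`(Lap φ)' (s) = -Lap (φ/y) (s)`.  Linearity: routine.
-/

namespace H81.LP

open MeasureTheory

theorem LapOK.div {φ : ℝ → ℝ} (h : LapOK φ) : LapOK (fun y => φ y / y) := by
  intro s hs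
  have h1 := h (s / 2) (by positivity)
  have h2 : Integrable (fun y : ℝ => (Real.exp (-((s / 2) / y)) / y) *
      (Real.exp (-((s / 2) / y)) * φ y / y)) (volume.restrict (Set.Ioi 0)) := by
    refine Integrable.bdd_mul (c := 2 / s) h1 ?_ ?_
    · exact Measurable.aestronglyMeasurable (by fun_prop)
    · refine (ae_restrict_mem measurableSet_Ioi).mono fun y hy => ?_
      have hy0 : 0 < y := hy
      rw [Real.norm_of_nonneg (by positivity), div_le_div_iff₀ hy0 hs, Real.exp_neg,
        inv_mul_le_iff₀ (Real.exp_pos _)]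
      have h3 := Real.add_one_le_exp (s / 2 / y)
      have h4 : s = (s / 2 / y) * (2 * y) := by
        field_simp
      calc s = (s / 2 / y) * (2 * y) := h4
        _ ≤ Real.exp (s / 2 / y) * (2 * y) := by
            refine mul_le_mul_of_nonneg_right ?_ (by positivity)
            linarith
  refine h2.congr ?_
  refine Filter.Eventually.of_forall fun y => ?_
  simp only
  have e1 : Real.exp (-(s / y)) = Real.exp (-((s / 2) / y)) * Real.exp (-((s / 2) / y)) := by
    rw [← Real.exp_add]
    congr 1
    ring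
  rw [e1]
  ring

theorem LapOK.const_mul {φ : ℝ → ℝ} (h : LapOK φ) (a : ℝ) : LapOK (fun y => a * φ y) := by
  intro s hs
  refine ((h s hs).const_mul a).congr (Filter.Eventually.of_forall fun y => ?_)
  simp only
  ring

theorem LapOK.sub {φ ψ : ℝ → ℝ} (h : LapOK φ) (h' : LapOK ψ) : LapOK (fun y => φ y - ψ y) := by
  intro s hs
  refine (Integrable.sub (h s hs) (h' s hs)).congr (Filter.Eventually.of_forall fun y => ?_)
  simp only [Pi.sub_apply]
  ring

theorem LapOK.sum {ι : Type*} (s : Finset ι) (φ : ι → ℝ → ℝ) (h : ∀ i ∈ s, LapOK (φ i)) :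
    LapOK (fun y => ∑ i ∈ s, φ i y) := by
  intro t ht
  refine (integrable_finsetSum s (fun i hi => h i hi t ht)).congr
    (Filter.Eventually.of_forall fun y => ?_)
  simp only
  rw [Finset.mul_sum, Finset.sum_div]

theorem Lap_hasDerivAt {φ : ℝ → ℝ} (h : LapOK φ) {s : ℝ} (hs : 0 < s) :
    HasDerivAt (Lap φ) (-(Lap (fun y => φ y / y) s)) s := by
  have hd := h.div
  have key := hasDerivAt_integral_of_dominated_loc_of_deriv_le
    (μ := volume.restrict (Set.Ioi (0 : ℝ))) (s := Metric.ball s (s / 2)) (x₀ := s)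
    (F := fun t y => Real.exp (-(t / y)) * φ y / y)
    (F' := fun t y => -(Real.exp (-(t / y)) * (φ y / y) / y))
    (bound := fun y => ‖Real.exp (-((s / 2) / y)) * (φ y / y) / y‖)
    (Metric.ball_mem_nhds s (by positivity))
    ?_ (h s hs) (hd s hs).aestronglyMeasurable.neg ?_ (hd (s / 2) (by positivity)).norm ?_
  · have h1 := key.2
    rw [integral_neg] at h1
    exact h1
  · filter_upwards [lt_mem_nhds hs] with t ht
    exact (h t ht).aestronglyMeasurable
  · refine (ae_restrict_mem measurableSet_Ioi).mono fun y hy t ht => ?_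
    have hy0 : 0 < y := hy
    rw [Metric.mem_ball, Real.dist_eq, abs_lt] at ht
    rw [norm_neg, norm_div, norm_div, norm_mul, norm_mul, Real.norm_of_nonneg (Real.exp_pos _).le,
      Real.norm_of_nonneg (Real.exp_pos _).le]
    have h1 : Real.exp (-(t / y)) ≤ Real.exp (-((s / 2) / y)) := by
      apply Real.exp_le_exp.2
      have : s / 2 / y ≤ t / y := div_le_div_of_nonneg_right (by linarith) hy0.le
      linarith
    gcongr
  · refine (ae_restrict_mem measurableSet_Ioi).mono fun y hy t ht => ?_
    have hy0 : 0 < y := hy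
    have h1 : HasDerivAt (fun t : ℝ => -(t / y)) (-(1 / y)) t :=
      ((hasDerivAt_id t).div_const y).neg
    have h2 := ((h1.exp).mul_const (φ y)).div_const y
    refine h2.congr_deriv ?_
    ring

end H81.LP
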