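import Pool.Agent.H81.LP.Half
import Pool.Agent.H81.LP.ThetaBdd

/-!
# Module A7: the linear programming inequality

`theta_fe`, `theta_bdd`, `dual_adm`, `half`, `W_integrable` may be cited.  `D = |det g|`,
`λ_j = X_j^(1/(n+1))/π`, `h = (g⁻¹)ᵀ`, `W(u) = exp (-ε ∑ |u_i|)`, `I = ∫ W > 0`.

* `theta_bdd`: all `Th g λ u` are bounded, hence by `theta_fe` all `Th h λ⁻¹ u` are bounded, and
  `dual_adm` gives `c > 0` with `|∏ (h m)_i| ≥ c` for `m ≠ 0`.
* `half` for `g`, `γ = -c`, `Y = X`, `c0 = 1`: `∫ W ∑ c_j Th g λ_j ≤ (∑ c_j) I`.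
* `half` for `h`, `γ_j = ω_j = c_j/√X_j`, `Y_j = π^(2(n+1))/X_j` (so that
  `Y_j^(1/(n+1))/π = λ_j⁻¹`), `c0 = c`; the sign condition is `dual` with `s` replaced by
  `π^(2(n+1)) s`: `(∑ ω_j) I ≤ ∫ W ∑ ω_j Th h λ_j⁻¹`.
* By `theta_fe` and `(√λ_j)^(n+1) = √X_j / (√π)^(n+1)`:
  `∑ c_j Th g λ_j u = D⁻¹ (√π)^(n+1) ∑ ω_j Th h λ_j⁻¹ (-u)`, and `u → -u` preserves `W` and the
  integral.  Together `(√π)^(n+1) (∑ ω_j) I ≤ D (∑ c_j) I`.
-/

namespace H81.LP

open MeasureTheory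

private theorem lam_inv (n : ℕ) {x : ℝ} (hx : 0 < x) :
    (Real.pi ^ (2 * (n + 1)) / x) ^ ((1 : ℝ) / (n + 1)) / Real.pi =
      (x ^ ((1 : ℝ) / (n + 1)) / Real.pi)⁻¹ := by
  have hpi := Real.pi_pos
  have hp : ((1 : ℝ) / (n + 1)) = (((n + 1 : ℕ) : ℝ))⁻¹ := by
    push_cast
    rw [one_div]
  rw [hp, Real.div_rpow (by positivity) hx.le, pow_mul,
    Real.pow_rpow_inv_natCast (by positivity) (by omega), inv_div]
  have : (0 : ℝ) < x ^ (((n + 1 : ℕ) : ℝ))⁻¹ := Real.rpow_pos_of_pos hx _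
  field_simp

private theorem sqrt_lam (n : ℕ) {x : ℝ} (hx : 0 < x) :
    (√(x ^ ((1 : ℝ) / (n + 1)) / Real.pi)) ^ (n + 1) = √x / (√Real.pi) ^ (n + 1) := by
  have hpi := Real.pi_pos
  have hp : ((1 : ℝ) / (n + 1)) = (((n + 1 : ℕ) : ℝ))⁻¹ := by
    push_cast
    rw [one_div]
  have hxp : (0 : ℝ) < x ^ (((n + 1 : ℕ) : ℝ))⁻¹ := Real.rpow_pos_of_pos hx _
  rw [hp, Real.sqrt_div hxp.le, div_pow]
  congr 1
  have h1 : (x ^ (((n + 1 : ℕ) : ℝ))⁻¹) ^ (n + 1) = x :=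
    Real.rpow_inv_natCast_pow hx.le (by omega)
  have h2 : ((√(x ^ (((n + 1 : ℕ) : ℝ))⁻¹)) ^ (n + 1)) ^ 2 = x := by
    rw [← pow_mul, mul_comm (n + 1) 2, pow_mul, Real.sq_sqrt hxp.le, h1]
  conv_rhs => rw [← h2]
  rw [Real.sqrt_sq (by positivity)]

theorem main_ineq {n N : ℕ} (c X : Fin N → ℝ) (h : Cond n c X)
    (g : Matrix (Fin (n + 1)) (Fin (n + 1)) ℝ) (hg : g.det ≠ 0)
    (hadm : ∀ m : Fin (n + 1) → ℤ, m ≠ 0 → 1 ≤ |∏ i, gv g m i|) :
    (√Real.pi) ^ (n + 1) * ∑ j, c j / √(X j) ≤ |g.det| * ∑ j, c j := by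
  have hpi := Real.pi_pos
  have hD : 0 < |g.det| := abs_pos.mpr hg
  obtain ⟨j0, hj0, hc0⟩ := h.first
  obtain ⟨j1, hj1, hc1⟩ := h.last
  set p : ℝ := (1 : ℝ) / (n + 1) with hp
  set lam : Fin N → ℝ := fun j => (X j) ^ p / Real.pi with hlam
  have hlpos : ∀ j, 0 < lam j := fun j => div_pos (Real.rpow_pos_of_pos (h.Xpos j) _) hpi
  set g' : Matrix (Fin (n + 1)) (Fin (n + 1)) ℝ := (g⁻¹).transpose with hg'
  have hdet' : g'.det ≠ 0 := by
    rw [hg', Matrix.det_transpose]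
    have h1 : (g⁻¹).det * g.det = 1 := by
      rw [← Matrix.det_mul, Matrix.nonsing_inv_mul g (isUnit_iff_ne_zero.mpr hg), Matrix.det_one]
    exact left_ne_zero_of_mul_eq_one h1
  -- the dual theta series
  have hfe : ∀ j (u : Fin n → ℝ), Th g (lam j) u =
      |g.det|⁻¹ * ((√(lam j)) ^ (n + 1))⁻¹ * Th g' (lam j)⁻¹ (-u) := fun j u =>
    theta_fe g hg (hlpos j) u
  have hbd' : ∀ j, ∃ C : ℝ, ∀ u : Fin n → ℝ, Summable (thTerm g' (lam j)⁻¹ u) ∧
      Th g' (lam j)⁻¹ u ≤ C := by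
    intro j
    obtain ⟨C, hC⟩ := theta_bdd g hadm (hlpos j)
    refine ⟨|g.det| * (√(lam j)) ^ (n + 1) * C, fun u => ⟨?_, ?_⟩⟩
    · exact thTerm_summable g' hdet' (inv_pos.mpr (hlpos j)) u
    · have h1 := hfe j (-u)
      rw [neg_neg] at h1
      have h2 := (hC (-u)).2
      rw [h1] at h2
      have h3 : 0 < √(lam j) := Real.sqrt_pos.mpr (hlpos j)
      have h4 : 0 < |g.det| * (√(lam j)) ^ (n + 1) := by positivity
      calc Th g' (lam j)⁻¹ u = (|g.det| * (√(lam j)) ^ (n + 1)) *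
            (|g.det|⁻¹ * ((√(lam j)) ^ (n + 1))⁻¹ * Th g' (lam j)⁻¹ u) := by
            field_simp
        _ ≤ (|g.det| * (√(lam j)) ^ (n + 1)) * C := mul_le_mul_of_nonneg_left h2 h4.le
  obtain ⟨C1, hC1⟩ := hbd' j0
  obtain ⟨cc, hcc, hadm'⟩ := dual_adm g' (inv_pos.mpr (hlpos j0)) C1 hC1
  -- first half
  obtain ⟨ε1, hε1, H1⟩ := half g one_pos hadm (fun j => -c j) X h.Xpos j0 hj0
    (by simpa using hc0)
    (by
      intro s hs
      have h1 := h.prim s (by simpa using hs)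
      simp only [neg_mul, Finset.sum_neg_distrib]
      linarith)
    (fun j => theta_bdd g hadm (hlpos j))
  -- second half
  have hYpos : ∀ j, 0 < Real.pi ^ (2 * (n + 1)) / X j := fun j =>
    div_pos (by positivity) (h.Xpos j)
  obtain ⟨ε2, hε2, H2⟩ := half g' hcc hadm' (fun j => c j / √(X j))
    (fun j => Real.pi ^ (2 * (n + 1)) / X j) hYpos j1
    (by
      intro j hj
      exact div_lt_div_of_pos_left (by positivity) (h.Xpos j) (hj1 j hj))
    (div_pos hc1 (Real.sqrt_pos.mpr (h.Xpos j1)))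
    (by
      intro s hs
      have hs0 : 0 < s := lt_of_lt_of_le (by positivity) hs
      have h1 := h.dual (Real.pi ^ (2 * (n + 1)) * s) (by positivity)
      refine h1.trans_eq (Finset.sum_congr rfl fun j _ => ?_)
      rw [div_mul_eq_mul_div (Real.pi ^ (2 * (n + 1))) (X j) s])
    (by
      intro j
      rw [lam_inv n (h.Xpos j)]
      exact hbd' j)
  set ε := min ε1 ε2 with hε
  have hεpos : 0 < ε := lt_min hε1 hε2
  obtain ⟨-, K1⟩ := H1 ε hεpos (min_le_left _ _)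
  obtain ⟨-, K2⟩ := H2 ε hεpos (min_le_right _ _)
  set W : (Fin n → ℝ) → ℝ := fun u => Real.exp (-(ε * ∑ i, |u i|)) with hW
  set I : ℝ := ∫ u : Fin n → ℝ, W u with hI
  have hIpos : 0 < I := integral_exp_pos (W_integrable hεpos)
  -- rewrite the two inequalities
  have K1' : ∫ u : Fin n → ℝ, W u * ∑ j, c j * Th g (lam j) u ≤ (∑ j, c j) * I := by
    have e1 : ∫ u : Fin n → ℝ, W u * ∑ j, (-c j) * Th g ((X j) ^ p / Real.pi) u =
        - ∫ u : Fin n → ℝ, W u * ∑ j, c j * Th g (lam j) u := by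
      rw [← integral_neg]
      refine integral_congr_ae (Filter.Eventually.of_forall fun u => ?_)
      simp only [neg_mul, Finset.sum_neg_distrib, mul_neg, hlam]
    have e2 : (∑ j, -c j) * I = -((∑ j, c j) * I) := by
      rw [Finset.sum_neg_distrib, neg_mul]
    have K1'' : (∑ j, -c j) * I ≤
        ∫ u : Fin n → ℝ, W u * ∑ j, (-c j) * Th g ((X j) ^ p / Real.pi) u := K1
    rw [e1, e2] at K1''
    linarith
  have K2' : (∑ j, c j / √(X j)) * I ≤
      ∫ u : Fin n → ℝ, W u * ∑ j, (c j / √(X j)) * Th g' (lam j)⁻¹ u := by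
    refine K2.trans_eq ?_
    refine integral_congr_ae (Filter.Eventually.of_forall fun u => ?_)
    simp only
    congr 1
    refine Finset.sum_congr rfl fun j _ => ?_
    rw [← hp] at *
    rw [hp, lam_inv n (h.Xpos j)]
  -- the functional equation
  have hW' : ∀ u, W (-u) = W u := by
    intro u
    simp only [hW, Pi.neg_apply, abs_neg]
  have K3 : ∫ u : Fin n → ℝ, W u * ∑ j, c j * Th g (lam j) u =
      |g.det|⁻¹ * (√Real.pi) ^ (n + 1) *
        ∫ u : Fin n → ℝ, W u * ∑ j, (c j / √(X j)) * Th g' (lam j)⁻¹ u := by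
    rw [← integral_neg_eq_self (fun u : Fin n → ℝ =>
      W u * ∑ j, (c j / √(X j)) * Th g' (lam j)⁻¹ u), ← integral_const_mul]
    refine integral_congr_ae (Filter.Eventually.of_forall fun u => ?_)
    have h7 : ∑ j, c j * Th g (lam j) u = (|g.det|⁻¹ * (√Real.pi) ^ (n + 1)) *
        ∑ j, (c j / √(X j)) * Th g' (lam j)⁻¹ (-u) := by
      rw [Finset.mul_sum]
      refine Finset.sum_congr rfl fun j _ => ?_
      rw [hfe j u, sqrt_lam n (h.Xpos j)]
      have h3 : 0 < √(X j) := Real.sqrt_pos.mpr (h.Xpos j)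
      have h4 : 0 < √Real.pi := Real.sqrt_pos.mpr hpi
      field_simp
    simp only
    rw [hW', h7]
    ring
  have hspi : 0 < (√Real.pi) ^ (n + 1) := by
    have := Real.sqrt_pos.mpr hpi
    positivity
  rw [K3] at K1'
  have h5 : |g.det|⁻¹ * (√Real.pi) ^ (n + 1) * ((∑ j, c j / √(X j)) * I) ≤ (∑ j, c j) * I :=
    (mul_le_mul_of_nonneg_left K2' (by positivity)).trans K1'
  have h6 : (√Real.pi) ^ (n + 1) * (∑ j, c j / √(X j)) * I ≤ (|g.det| * ∑ j, c j) * I := by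
    calc (√Real.pi) ^ (n + 1) * (∑ j, c j / √(X j)) * I =
        |g.det| * (|g.det|⁻¹ * (√Real.pi) ^ (n + 1) * ((∑ j, c j / √(X j)) * I)) := by
          field_simp
      _ ≤ |g.det| * ((∑ j, c j) * I) := mul_le_mul_of_nonneg_left h5 hD.le
      _ = (|g.det| * ∑ j, c j) * I := by ring
  exact le_of_mul_le_mul_right h6 hIpos

/-- the version used at the end: scale `g` by `t > 0` with `t^(n+1) |det g| = B` -/
theorem bound_of_cond {n N : ℕ} (c X : Fin N → ℝ) (h : Cond n c X) {B : ℝ} (hB : 0 < B)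
    (hlt : B * ∑ j, c j < (√Real.pi) ^ (n + 1) * ∑ j, c j / √(X j))
    (g : Matrix (Fin (n + 1)) (Fin (n + 1)) ℝ) (hg : g.det ≠ 0) :
    ∃ m : Fin (n + 1) → ℤ, m ≠ 0 ∧ |∏ i, gv g m i| < |g.det| / B := by
  by_contra hcon
  push Not at hcon
  have hD : 0 < |g.det| := abs_pos.mpr hg
  set t : ℝ := (B / |g.det|) ^ (((n + 1 : ℕ) : ℝ))⁻¹ with ht
  have ht0 : 0 < t := Real.rpow_pos_of_pos (div_pos hB hD) _
  have htp : t ^ (n + 1) = B / |g.det| :=
    Real.rpow_inv_natCast_pow (div_pos hB hD).le (by omega)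
  have hdet : (t • g).det = t ^ (n + 1) * g.det := by
    rw [Matrix.det_smul, Fintype.card_fin]
  have habs : |(t • g).det| = B := by
    rw [hdet, abs_mul, abs_of_pos (by positivity), htp]
    field_simp
  have hgv : ∀ m : Fin (n + 1) → ℤ, ∏ i, gv (t • g) m i = t ^ (n + 1) * ∏ i, gv g m i := by
    intro m
    have h1 : ∀ i, gv (t • g) m i = t * gv g m i := by
      intro i
      unfold gv
      rw [Matrix.smul_mulVec]
      rfl
    simp_rw [h1]
    rw [Finset.prod_mul_distrib, Finset.prod_const, Finset.card_univ, Fintype.card_fin]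
  have hm := main_ineq c X h (t • g) (by
    rw [hdet]
    exact mul_ne_zero (by positivity) hg) (by
    intro m hm0
    have h1 := hcon m hm0
    rw [hgv, abs_mul, abs_of_pos (by positivity : (0 : ℝ) < t ^ (n + 1)), htp]
    rw [div_le_iff₀ hB] at h1
    rw [div_mul_eq_mul_div, le_div_iff₀ hD]
    linarith)
  rw [habs] at hm
  linarith

end H81.LP
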