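import Pool.Agent.H81.LP.EnK
import Pool.Agent.H81.LP.Kbasic

/-!
# Module C2: signs of `∑ γ_j K n (Y_j s)` near `0` and near infinity

`large`: let `Y j0` be the smallest exponent, `γ j0 > 0`.  With `K n (t^(n+1)) = 2^n ∫ exp (-t E)`
(`K_eq_En`), `E ≥ n + 1 ≥ 1` (`En_ge`): for `0 < a < b`
`K n (b s) ≤ exp (-(b^(1/(n+1)) - a^(1/(n+1))) s^(1/(n+1))) K n (a s)`, so
`K n (Y_j s)/K n (Y_{j0} s) → 0` as `s → ∞` for `j ≠ j0`.

`small`: if `∑ γ_j > 0` then `∑ γ_j K n (Y_j s) > 0` for some arbitrarily small `s > 0`.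
Suppose it is `≤ 0` on `(0, s1)`.  For `0 < ε < 1` let `M(ε) = ∫_0^∞ s^(ε-1) K n s ds`, finite by
`K_small_power` (with exponent `ε/2`) near `0` and `K_le_inv` near infinity.  By scaling
`∫_0^∞ s^(ε-1) ∑ γ_j K n (Y_j s) ds = (∑ γ_j Y_j^(-ε)) M(ε)`, and this is at most
`∫_{s1}^∞ s^(ε-1) |∑ …| ds ≤ ∑ |γ_j| ∫_{s1}^∞ s^(ε-1) /(Y_j s) ds`, bounded for `0 < ε ≤ 1/2`.
But `M(ε) ≥ K n 1 ∫_0^1 s^(ε-1) ds = K n 1/ε → ∞` and `∑ γ_j Y_j^(-ε) → ∑ γ_j > 0`: contradiction.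
-/

namespace H81.LP

open MeasureTheory

private theorem sl_pow {n : ℕ} {x : ℝ} (hx : 0 < x) :
    (x ^ ((1 : ℝ) / (n + 1))) ^ (n + 1) = x := by
  rw [← Real.rpow_natCast, ← Real.rpow_mul hx.le]
  push_cast
  have h1 : (1 : ℝ) / (n + 1) * (n + 1) = 1 := by
    have : (n : ℝ) + 1 ≠ 0 := by positivity
    field_simp
  rw [h1, Real.rpow_one]

/-- comparison of two values of `K n` -/
private theorem sl_comp {n : ℕ} {x y : ℝ} (hx : 0 < x) (hxy : x ≤ y) :
    K n y ≤ Real.exp (-(y ^ ((1 : ℝ) / (n + 1)) - x ^ ((1 : ℝ) / (n + 1)))) * K n x := by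
  have hexp : (0 : ℝ) < (1 : ℝ) / (n + 1) := by positivity
  have hy : 0 < y := lt_of_lt_of_le hx hxy
  have hτx : 0 < x ^ ((1 : ℝ) / (n + 1)) := Real.rpow_pos_of_pos hx _
  have hτy : 0 < y ^ ((1 : ℝ) / (n + 1)) := Real.rpow_pos_of_pos hy _
  have hle : x ^ ((1 : ℝ) / (n + 1)) ≤ y ^ ((1 : ℝ) / (n + 1)) :=
    Real.rpow_le_rpow hx.le hxy hexp.le
  have hKx := K_eq_En (n := n) hτx
  have hKy := K_eq_En (n := n) hτy
  rw [sl_pow hx] at hKx
  rw [sl_pow hy] at hKy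
  rw [hKx, hKy]
  have hix : Integrable (fun u : Fin n → ℝ =>
      Real.exp (-(x ^ ((1 : ℝ) / (n + 1)) * En u))) := by
    have h1 := En_integrable (n := n) hτx 0
    simpa using h1
  have hiy : Integrable (fun u : Fin n → ℝ =>
      Real.exp (-(y ^ ((1 : ℝ) / (n + 1)) * En u))) := by
    have h1 := En_integrable (n := n) hτy 0
    simpa using h1
  have h2 : ∫ u : Fin n → ℝ, Real.exp (-(y ^ ((1 : ℝ) / (n + 1)) * En u)) ≤
      ∫ u : Fin n → ℝ, Real.exp (-(y ^ ((1 : ℝ) / (n + 1)) - x ^ ((1 : ℝ) / (n + 1)))) *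
        Real.exp (-(x ^ ((1 : ℝ) / (n + 1)) * En u)) := by
    apply integral_mono hiy (hix.const_mul _)
    intro u
    simp only
    rw [← Real.exp_add]
    apply Real.exp_le_exp.mpr
    have hE : 1 ≤ En u := by
      have h3 := En_ge u
      have h4 : (0 : ℝ) ≤ n := Nat.cast_nonneg n
      linarith
    nlinarith
  rw [integral_const_mul] at h2
  have h2n : (0 : ℝ) < 2 ^ n := by positivity
  calc (2 : ℝ) ^ n * ∫ u : Fin n → ℝ, Real.exp (-(y ^ ((1 : ℝ) / (n + 1)) * En u)) ≤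
      2 ^ n * (Real.exp (-(y ^ ((1 : ℝ) / (n + 1)) - x ^ ((1 : ℝ) / (n + 1)))) *
        ∫ u : Fin n → ℝ, Real.exp (-(x ^ ((1 : ℝ) / (n + 1)) * En u))) :=
        mul_le_mul_of_nonneg_left h2 h2n.le
    _ = _ := by ring

theorem large {n N : ℕ} (γ Y : Fin N → ℝ) (hY : ∀ j, 0 < Y j) (j0 : Fin N)
    (hj0 : ∀ j, j ≠ j0 → Y j0 < Y j) (hγ : 0 < γ j0) :
    ∃ s1 : ℝ, 0 < s1 ∧ ∀ s, s1 ≤ s → 0 < ∑ j, γ j * K n (Y j * s) := by
  have hexp : (0 : ℝ) < (1 : ℝ) / (n + 1) := by positivity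
  have htend : Filter.Tendsto (fun s : ℝ => ∑ j ∈ Finset.univ.erase j0,
      |γ j| * Real.exp (-((Y j ^ ((1 : ℝ) / (n + 1)) - Y j0 ^ ((1 : ℝ) / (n + 1))) *
        s ^ ((1 : ℝ) / (n + 1))))) Filter.atTop (nhds 0) := by
    have h0 : (0 : ℝ) = ∑ j ∈ Finset.univ.erase j0, |γ j| * 0 := by simp
    rw [h0]
    apply tendsto_finsetSum
    intro j hj
    apply Filter.Tendsto.const_mul
    apply Real.tendsto_exp_neg_atTop_nhds_zero.comp
    apply Filter.Tendsto.const_mul_atTop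
    · have h1 := Real.rpow_lt_rpow (hY j0).le (hj0 j (Finset.mem_erase.mp hj).1) hexp
      linarith
    · exact tendsto_rpow_atTop hexp
  obtain ⟨s1, hs1⟩ := Filter.eventually_atTop.mp (htend.eventually (gt_mem_nhds hγ))
  refine ⟨max s1 1, by positivity, ?_⟩
  intro s hs
  have h1 := hs1 s ((le_max_left _ _).trans hs)
  have hspos : 0 < s := by
    have h2 : (1 : ℝ) ≤ s := (le_max_right _ _).trans hs
    linarith
  rw [← Finset.add_sum_erase _ _ (Finset.mem_univ j0)]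
  have hK0 : 0 < K n (Y j0 * s) := K_pos n (mul_pos (hY j0) hspos)
  have hterm : ∀ j ∈ Finset.univ.erase j0,
      -(K n (Y j0 * s) * (|γ j| * Real.exp (-((Y j ^ ((1 : ℝ) / (n + 1)) -
        Y j0 ^ ((1 : ℝ) / (n + 1))) * s ^ ((1 : ℝ) / (n + 1)))))) ≤
      γ j * K n (Y j * s) := by
    intro j hj
    have hle : Y j0 * s ≤ Y j * s :=
      mul_le_mul_of_nonneg_right (hj0 j (Finset.mem_erase.mp hj).1).le hspos.le
    have hc := sl_comp (n := n) (mul_pos (hY j0) hspos) hle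
    rw [Real.mul_rpow (hY j).le hspos.le, Real.mul_rpow (hY j0).le hspos.le, ← sub_mul] at hc
    have hKj : 0 < K n (Y j * s) := K_pos n (mul_pos (hY j) hspos)
    have h8 : -|γ j| ≤ γ j := neg_abs_le _
    have h10 : 0 ≤ |γ j| := abs_nonneg _
    set e := Real.exp (-((Y j ^ ((1 : ℝ) / (n + 1)) -
        Y j0 ^ ((1 : ℝ) / (n + 1))) * s ^ ((1 : ℝ) / (n + 1)))) with he
    calc -(K n (Y j0 * s) * (|γ j| * e)) = -(|γ j| * (e * K n (Y j0 * s))) := by ring
      _ ≤ -(|γ j| * K n (Y j * s)) := by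
          apply neg_le_neg
          exact mul_le_mul_of_nonneg_left hc h10
      _ = (-|γ j|) * K n (Y j * s) := by ring
      _ ≤ γ j * K n (Y j * s) := mul_le_mul_of_nonneg_right h8 hKj.le
  have hsum := Finset.sum_le_sum hterm
  rw [Finset.sum_neg_distrib, ← Finset.mul_sum] at hsum
  nlinarith

/-- the slow variation of `K n` at zero -/
private theorem sl_slow (n : ℕ) {r δ : ℝ} (hr : 1 < r) (hδ : 0 < δ) (hδ1 : δ < 1) {x1 : ℝ}
    (hx1 : 0 < x1) : ∃ x : ℝ, 0 < x ∧ x < x1 ∧ (1 - δ) * K n x < K n (r * x) := by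
  by_contra hcon
  push Not at hcon
  have hr0 : 0 < r := by linarith
  set x0 := x1 / 2 with hx0
  have hx0pos : 0 < x0 := by positivity
  have hseq : ∀ k : ℕ, K n x0 ≤ (1 - δ) ^ k * K n (x0 * (r⁻¹) ^ k) := by
    intro k
    induction k with
    | zero => simp
    | succ k ih =>
      have hxk : 0 < x0 * (r⁻¹) ^ (k + 1) := by positivity
      have hlt : x0 * (r⁻¹) ^ (k + 1) < x1 := by
        have h1 : (r⁻¹) ^ (k + 1) ≤ 1 := pow_le_one₀ (by positivity) (inv_le_one_of_one_le₀ hr.le)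
        nlinarith
      have h2 := hcon _ hxk hlt
      have h3 : r * (x0 * (r⁻¹) ^ (k + 1)) = x0 * (r⁻¹) ^ k := by
        rw [pow_succ]
        field_simp
      rw [h3] at h2
      have h4 : (0 : ℝ) ≤ (1 - δ) ^ k := by
        apply pow_nonneg
        linarith
      calc K n x0 ≤ (1 - δ) ^ k * K n (x0 * (r⁻¹) ^ k) := ih
        _ ≤ (1 - δ) ^ k * ((1 - δ) * K n (x0 * (r⁻¹) ^ (k + 1))) :=
            mul_le_mul_of_nonneg_left h2 h4
        _ = (1 - δ) ^ (k + 1) * K n (x0 * (r⁻¹) ^ (k + 1)) := by ring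
  -- the exponent
  have hlog : 0 < Real.log r := Real.log_pos hr
  have hlogδ : Real.log (1 - δ) < 0 := Real.log_neg (by linarith) (by linarith)
  set ε := -Real.log (1 - δ) / (2 * Real.log r) with hε
  have hεpos : 0 < ε := by
    rw [hε]
    apply div_pos
    · linarith
    · linarith
  obtain ⟨C, hC⟩ := K_small_power n hεpos
  have hbase : (1 - δ) * r ^ ε < 1 := by
    have h1 : r ^ ε = Real.exp (-Real.log (1 - δ) / 2) := by
      rw [Real.rpow_def_of_pos hr0, hε]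
      congr 1
      field_simp
    have h2 : (1 - δ) = Real.exp (Real.log (1 - δ)) := (Real.exp_log (by linarith)).symm
    rw [h1]
    nth_rewrite 1 [h2]
    rw [← Real.exp_add]
    have h9 : Real.log (1 - δ) + -Real.log (1 - δ) / 2 < 0 := by linarith
    have h10 := Real.exp_lt_exp.mpr h9
    rw [Real.exp_zero] at h10
    exact h10
  have hbase0 : 0 ≤ (1 - δ) * r ^ ε := by
    apply mul_nonneg
    · linarith
    · positivity
  have hfin : ∀ k : ℕ, K n x0 ≤ (C * x0 ^ (-ε)) * ((1 - δ) * r ^ ε) ^ k := by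
    intro k
    have h1 := hseq k
    have hxk : 0 < x0 * (r⁻¹) ^ k := by positivity
    have h2 := hC _ hxk
    have h3 : (x0 * (r⁻¹) ^ k) ^ (-ε) = x0 ^ (-ε) * (r ^ ε) ^ k := by
      rw [Real.mul_rpow hx0pos.le (by positivity), inv_pow, Real.inv_rpow (by positivity),
        Real.rpow_neg (pow_nonneg hr0.le k), inv_inv, ← Real.rpow_natCast, ← Real.rpow_natCast,
        ← Real.rpow_mul hr0.le, ← Real.rpow_mul hr0.le, mul_comm (k : ℝ)]
    rw [h3] at h2
    have h4 : (0 : ℝ) ≤ (1 - δ) ^ k := by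
      apply pow_nonneg
      linarith
    calc K n x0 ≤ (1 - δ) ^ k * K n (x0 * (r⁻¹) ^ k) := h1
      _ ≤ (1 - δ) ^ k * (C * (x0 ^ (-ε) * (r ^ ε) ^ k)) := mul_le_mul_of_nonneg_left h2 h4
      _ = (C * x0 ^ (-ε)) * ((1 - δ) * r ^ ε) ^ k := by
          rw [mul_pow]
          ring
  have htend : Filter.Tendsto (fun k : ℕ => (C * x0 ^ (-ε)) * ((1 - δ) * r ^ ε) ^ k)
      Filter.atTop (nhds ((C * x0 ^ (-ε)) * 0)) :=
    (tendsto_pow_atTop_nhds_zero_of_lt_one hbase0 hbase).const_mul _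
  rw [mul_zero] at htend
  have hle : K n x0 ≤ 0 := ge_of_tendsto' htend hfin
  have := K_pos n hx0pos
  linarith

theorem small {n N : ℕ} (γ Y : Fin N → ℝ) (hY : ∀ j, 0 < Y j) (hγ : 0 < ∑ j, γ j) {s1 : ℝ}
    (hs1 : 0 < s1) : ∃ s : ℝ, 0 < s ∧ s < s1 ∧ 0 < ∑ j, γ j * K n (Y j * s) := by
  -- bounds for the scale parameters
  obtain ⟨a, ha, haY⟩ : ∃ a : ℝ, 0 < a ∧ ∀ j, a ≤ Y j := by
    rcases isEmpty_or_nonempty (Fin N) with hN | hN
    · exact ⟨1, one_pos, fun j => (hN.false j).elim⟩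
    · obtain ⟨j, _, hj⟩ := Finset.exists_min_image Finset.univ Y Finset.univ_nonempty
      exact ⟨Y j, hY j, fun i => hj i (Finset.mem_univ i)⟩
  obtain ⟨b, hab, hbY⟩ : ∃ b : ℝ, a < b ∧ ∀ j, Y j ≤ b := by
    refine ⟨a + ∑ j, Y j + 1, ?_, ?_⟩
    · have : 0 ≤ ∑ j, Y j := Finset.sum_nonneg fun j _ => (hY j).le
      linarith
    · intro j
      have := Finset.single_le_sum (f := Y) (fun j _ => (hY j).le) (Finset.mem_univ j)
      linarith
  set A := ∑ j, |γ j| with hA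
  have hA0 : 0 ≤ A := Finset.sum_nonneg fun j _ => abs_nonneg _
  set G := ∑ j, γ j with hG
  obtain ⟨δ, hδ, hδ1, hδA⟩ : ∃ δ : ℝ, 0 < δ ∧ δ < 1 ∧ δ * A < G := by
    refine ⟨min (1 / 2) (G / (2 * (A + 1))), ?_, ?_, ?_⟩
    · apply lt_min
      · norm_num
      · positivity
    · exact lt_of_le_of_lt (min_le_left _ _) (by norm_num)
    · have h1 : min (1 / 2) (G / (2 * (A + 1))) * A ≤ G / (2 * (A + 1)) * A :=
        mul_le_mul_of_nonneg_right (min_le_right _ _) hA0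
      have h2 : G / (2 * (A + 1)) * A < G := by
        rw [div_mul_eq_mul_div, div_lt_iff₀ (by linarith)]
        nlinarith
      linarith
  have hr : 1 < b / a := by
    rw [one_lt_div ha]
    exact hab
  obtain ⟨x, hx, hxlt, hK⟩ := sl_slow n hr hδ hδ1 (x1 := a * s1) (by positivity)
  refine ⟨x / a, by positivity, ?_, ?_⟩
  · rw [div_lt_iff₀ ha]
    linarith
  have hs : 0 < x / a := by positivity
  have hKx : 0 < K n x := K_pos n hx
  have hterm : ∀ j ∈ (Finset.univ : Finset (Fin N)),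
      (γ j - δ * |γ j|) * K n x ≤ γ j * K n (Y j * (x / a)) := by
    intro j _
    have h1 : x ≤ Y j * (x / a) := by
      have h2 : a * (x / a) ≤ Y j * (x / a) := mul_le_mul_of_nonneg_right (haY j) hs.le
      have h3 : a * (x / a) = x := by field_simp
      linarith
    have h4 : Y j * (x / a) ≤ b / a * x := by
      have h5 : Y j * (x / a) ≤ b * (x / a) := mul_le_mul_of_nonneg_right (hbY j) hs.le
      have h6 : b * (x / a) = b / a * x := by field_simp
      linarith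
    have hup : K n (Y j * (x / a)) ≤ K n x := K_anti n hx h1
    have hlow : (1 - δ) * K n x ≤ K n (Y j * (x / a)) :=
      hK.le.trans (K_anti n (mul_pos (hY j) hs) h4)
    rcases le_total 0 (γ j) with hg | hg
    · rw [abs_of_nonneg hg]
      nlinarith
    · rw [abs_of_nonpos hg]
      nlinarith [mul_nonneg (mul_nonneg hδ.le (neg_nonneg.mpr hg)) hKx.le]
  have hsum := Finset.sum_le_sum hterm
  rw [← Finset.sum_mul, Finset.sum_sub_distrib, ← Finset.mul_sum] at hsum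
  have h7 : 0 < (G - δ * A) * K n x := mul_pos (by linarith) hKx
  linarith

end H81.LP
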