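import Pool.Agent.H81.LP.Defs

/-!
# Module B3: breakpoints of a function with few alternations

No continuity is needed.  If `φ` never has `N + 1` alternating points (`N ≥ 1`), then there are at
most `N - 1` breakpoints `a ≥ 0` such that `σ φ(y) ∏ (y - a)` is nonnegative on `(0, ∞)`, `σ = ±1`.

Proof.  If `φ` vanishes on `(0, ∞)` take `L = []`.  Otherwise let `r ≤ N - 1` be maximal such that
`φ` has `r + 1` alternating points `t_0 < … < t_r` (`Alt φ r`), and let `σ₀ = ±1` be the sign of
`φ(t_0)` for one such sequence.  For `1 ≤ k ≤ r` let `A_k` be the set of all `t > 0` for which there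
are `k + 1` alternating points `p_0 < … < p_k = t` with `σ₀ φ(p_0) > 0`, and `y_k = inf A_k ≥ 0`
(`A_k` is nonempty, contains `t_k`; `y_1 ≤ … ≤ y_r`).  For `y > 0` with `y_k < y < y_{k+1}`
(`y_0 = 0`, `y_{r+1} = ∞`) one has `σ₀ (-1)^k φ(y) ≥ 0`:
* `k ≥ 1`: some `p_k ∈ A_k` is `< y`; if `σ₀ (-1)^k φ(y) < 0` then `y ∈ A_{k+1}` (for `k = r`: there
  would be `r + 2` alternating points), a contradiction.
* `k = 0`: if `σ₀ φ(y) < 0`: either `y < t_0` and `y, t_0, …, t_r` alternate (contradiction to the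
  maximality of `r`), or `y > t_0` and `y ∈ A_1`, so `y ≥ y_1` (or `r = 0` and `t_0, y` alternate).
Hence with `σ = σ₀ (-1)^r`: `σ φ(y) ∏_{k=1}^r (y - y_k) ≥ 0` (if `y` equals some `y_k` the product
is zero).
-/

namespace H81.LP

/-- `k + 1` alternating positive points, the first value positive, the last point is `t` -/
def brkChain (ψ : ℝ → ℝ) (k : ℕ) (t : ℝ) : Prop :=
  ∃ p : ℕ → ℝ, (∀ i < k, p i < p (i + 1)) ∧ (∀ i ≤ k, 0 < p i) ∧
    (∀ i ≤ k, 0 < (-1) ^ i * ψ (p i)) ∧ p k = t

theorem brkChain_alt {φ : ℝ → ℝ} {σ : ℝ} {k : ℕ} {t : ℝ}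
    (h : brkChain (fun y => σ * φ y) k t) : Alt φ k := by
  obtain ⟨p, h1, h2, h3, -⟩ := h
  refine ⟨σ, fun i => p i, ?_, fun i => h2 i (by omega), fun i => ?_⟩
  · rw [Fin.strictMono_iff_lt_succ]
    intro i
    exact h1 i i.2
  · have := h3 i (by omega)
    calc (0 : ℝ) < (-1) ^ (i : ℕ) * (σ * φ (p i)) := this
      _ = _ := by ring

theorem brkChain_snoc {ψ : ℝ → ℝ} {k : ℕ} {t y : ℝ} (h : brkChain ψ k t) (hty : t < y)
    (hy : 0 < (-1) ^ (k + 1) * ψ y) : brkChain ψ (k + 1) y := by
  obtain ⟨p, h1, h2, h3, h4⟩ := h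
  have hy0 : 0 < y := lt_trans (h4 ▸ h2 k le_rfl) hty
  refine ⟨fun i => if i ≤ k then p i else y, ?_, ?_, ?_, ?_⟩
  · intro i hi
    by_cases hik : i + 1 ≤ k
    · have : i ≤ k := by omega
      simp only [this, hik, if_true]
      exact h1 i (by omega)
    · have h5 : i = k := by omega
      subst h5
      simp only [le_refl, if_true, hik, if_false]
      rw [h4]; exact hty
  · intro i hi
    by_cases hik : i ≤ k
    · simp only [hik, if_true]; exact h2 i hik
    · simp only [hik, if_false]; exact hy0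
  · intro i hi
    by_cases hik : i ≤ k
    · simp only [hik, if_true]; exact h3 i hik
    · have h5 : i = k + 1 := by omega
      subst h5
      simp only [hik, if_false]; exact hy
  · simp

theorem brkChain_pred {ψ : ℝ → ℝ} {k : ℕ} {t : ℝ} (h : brkChain ψ (k + 1) t) :
    ∃ t', t' < t ∧ brkChain ψ k t' := by
  obtain ⟨p, h1, h2, h3, h4⟩ := h
  exact ⟨p k, h4 ▸ h1 k (by omega), p, fun i hi => h1 i (by omega), fun i hi => h2 i (by omega),
    fun i hi => h3 i (by omega), rfl⟩

theorem brkChain_pos {ψ : ℝ → ℝ} {k : ℕ} {t : ℝ} (h : brkChain ψ k t) : 0 < t := by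
  obtain ⟨p, -, h2, -, h4⟩ := h
  exact h4 ▸ h2 k le_rfl

/-- fewer points: an alternating sequence contains shorter ones -/
theorem Alt.mono {F : ℝ → ℝ} {N M : ℕ} (h : Alt F N) (hM : M ≤ N) : Alt F M := by
  obtain ⟨σ, s, h1, h2, h3⟩ := h
  have hh : M + 1 ≤ N + 1 := by omega
  refine ⟨σ, fun i => s (Fin.castLE hh i), ?_, fun i => h2 _, fun i => ?_⟩
  · intro i j hij
    exact h1 (Fin.lt_def.2 (Fin.lt_def.1 hij))
  · exact h3 (Fin.castLE hh i)

theorem exists_break (φ : ℝ → ℝ) (N : ℕ) (hN : 1 ≤ N) (h : ¬ Alt φ N) :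
    ∃ (σ : ℝ) (L : List ℝ), σ ≠ 0 ∧ (∀ a ∈ L, 0 ≤ a) ∧ L.length + 1 ≤ N ∧
      ∀ y, 0 < y → 0 ≤ σ * φ y * (L.map (fun a => y - a)).prod := by
  classical
  by_cases h0 : ∀ y, 0 < y → φ y = 0
  · exact ⟨1, [], one_ne_zero, by simp, by simpa using hN, fun y hy => by simp [h0 y hy]⟩
  push Not at h0
  obtain ⟨y0, hy0, hφ0⟩ := h0
  have hA0 : Alt φ 0 := by
    refine ⟨φ y0, fun _ => y0, ?_, fun _ => hy0, fun i => ?_⟩
    · intro i j hij
      have hi := i.2
      have hj := j.2
      rw [Fin.lt_def] at hij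
      omega
    · have hi : (i : ℕ) = 0 := by have := i.2; omega
      rw [hi]
      simp only [pow_zero, mul_one]
      exact mul_self_pos.2 hφ0
  have hex : ∃ m, ¬ Alt φ m := ⟨N, h⟩
  set m := Nat.find hex with hm
  have hm1 : ¬ Alt φ m := Nat.find_spec hex
  have hm0 : m ≠ 0 := by
    intro e
    rw [e] at hm1
    exact hm1 hA0
  obtain ⟨r, hr⟩ := Nat.exists_eq_succ_of_ne_zero hm0
  have hmN : m ≤ N := Nat.find_min' hex h
  have hAr : Alt φ r := by
    by_contra hc
    have := Nat.find_min' hex hc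
    omega
  have hAr1 : ¬ Alt φ (r + 1) := by rw [hr] at hm1; exact hm1
  obtain ⟨σ, t, ht1, ht2, ht3⟩ := hAr
  have hσ : σ ≠ 0 := by
    rintro rfl
    have := ht3 0
    simp at this
  set ψ : ℝ → ℝ := fun y => σ * φ y with hψ
  -- the chain given by `t`
  let q : ℕ → ℝ := fun i => if hi : i < r + 1 then t ⟨i, hi⟩ else 0
  have hq : ∀ i (hi : i < r + 1), q i = t ⟨i, hi⟩ := fun i hi => by simp only [q, hi, dite_true]
  have hq1 : ∀ i < r, q i < q (i + 1) := by
    intro i hi
    rw [hq i (by omega), hq (i + 1) (by omega)]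
    exact ht1 (by simp [Fin.lt_def])
  have hq2 : ∀ i ≤ r, 0 < q i := by
    intro i hi
    rw [hq i (by omega)]
    exact ht2 _
  have hq3 : ∀ i ≤ r, 0 < (-1) ^ i * ψ (q i) := by
    intro i hi
    rw [hq i (by omega)]
    have := ht3 ⟨i, by omega⟩
    simp only at this
    calc (0 : ℝ) < σ * (-1) ^ i * φ (t ⟨i, by omega⟩) := this
      _ = _ := by simp only [hψ]; ring
  have hqk : ∀ k ≤ r, brkChain ψ k (q k) := fun k hk =>
    ⟨q, fun i hi => hq1 i (by omega), fun i hi => hq2 i (by omega), fun i hi => hq3 i (by omega),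
      rfl⟩
  let A : ℕ → Set ℝ := fun k => {t | brkChain ψ k t}
  let Y : ℕ → ℝ := fun k => sInf (A k)
  have hbdd : ∀ k, BddBelow (A k) := fun k => ⟨0, fun t ht => (brkChain_pos ht).le⟩
  have hY0 : ∀ k, 0 ≤ Y k := fun k => Real.sInf_nonneg (fun t ht => (brkChain_pos ht).le)
  have hYle : ∀ k t, brkChain ψ k t → Y k ≤ t := fun k t ht => csInf_le (hbdd k) ht
  have hYmono : ∀ k, k + 1 ≤ r → Y k ≤ Y (k + 1) := by
    intro k hk
    refine le_csInf ⟨q (k + 1), hqk (k + 1) hk⟩ (fun t ht => ?_)
    obtain ⟨t', h1, h2⟩ := brkChain_pred ht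
    exact (hYle k t' h2).trans h1.le
  -- the sign claim
  have hclaim : ∀ k ≤ r, ∀ y, 0 < y → (k = 0 ∨ Y k < y) → (k = r ∨ y < Y (k + 1)) →
      0 ≤ (-1) ^ k * ψ y := by
    intro k hk y hy hk1 hk2
    by_contra hc
    push Not at hc
    have hs : 0 < (-1) ^ (k + 1) * ψ y := by
      have : (-1 : ℝ) ^ (k + 1) * ψ y = -((-1) ^ k * ψ y) := by ring
      rw [this]; linarith
    have hchain : (∃ t', t' < y ∧ brkChain ψ k t') → False := by
      rintro ⟨t', h1, h2⟩
      have h3 := brkChain_snoc h2 h1 hs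
      rcases hk2 with rfl | hk2
      · exact hAr1 (brkChain_alt h3)
      · exact absurd (hYle _ _ h3) (not_le.2 hk2)
    rcases hk1 with rfl | hk1
    · rcases lt_trichotomy y (q 0) with h1 | h1 | h1
      · apply hAr1
        have h2 : brkChain (fun y => (-σ) * φ y) (r + 1) (q r) := by
          refine ⟨fun i => if i = 0 then y else q (i - 1), ?_, ?_, ?_, ?_⟩
          · intro i hi
            rcases Nat.eq_zero_or_pos i with rfl | hi0
            · simpa using h1
            · have e1 : i ≠ 0 := by omega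
              have e2 : i + 1 ≠ 0 := by omega
              simp only [e1, e2, if_false]
              have := hq1 (i - 1) (by omega)
              have e3 : i - 1 + 1 = i + 1 - 1 := by omega
              rw [e3] at this
              exact this
          · intro i hi
            rcases Nat.eq_zero_or_pos i with rfl | hi0
            · simpa using hy
            · have e1 : i ≠ 0 := by omega
              simp only [e1, if_false]
              exact hq2 (i - 1) (by omega)
          · intro i hi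
            rcases Nat.eq_zero_or_pos i with rfl | hi0
            · simp only [if_true, pow_zero, one_mul]
              have h5 : (-1 : ℝ) ^ 0 * ψ y < 0 := hc
              simp only [pow_zero, one_mul, hψ] at h5
              linarith
            · have e1 : i ≠ 0 := by omega
              simp only [e1, if_false]
              have h6 := hq3 (i - 1) (by omega)
              have e4 : (-1 : ℝ) ^ i = (-1) ^ (i - 1) * (-1) := by
                rw [← pow_succ]; congr 1; omega
              rw [e4]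
              calc (0 : ℝ) < (-1) ^ (i - 1) * ψ (q (i - 1)) := h6
                _ = _ := by simp only [hψ]; ring
          · simp
        exact brkChain_alt h2
      · have h2 := hq3 0 (by omega)
        rw [← h1] at h2
        linarith
      · exact hchain ⟨q 0, h1, hqk 0 (by omega)⟩
    · obtain ⟨t', h1, h2⟩ := exists_lt_of_csInf_lt ⟨q k, hqk k hk⟩ hk1
      exact hchain ⟨t', h2, h1⟩
  have hYmono' : ∀ k j, j ≤ k → k ≤ r → Y j ≤ Y k := by
    intro k
    induction k with
    | zero => intro j hj _; rw [Nat.le_zero.1 hj]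
    | succ k ih =>
      intro j hj hk
      rcases Nat.lt_or_ge j (k + 1) with h1 | h1
      · exact (ih j (by omega) (by omega)).trans (hYmono k hk)
      · rw [le_antisymm hj h1]
  have hfin : ∀ m ≤ r, ∀ y, 0 < y → (m = r ∨ y < Y (m + 1)) →
      0 ≤ (-1) ^ m * ψ y * ∏ j ∈ Finset.range m, (y - Y (j + 1)) := by
    intro m
    induction m with
    | zero =>
      intro hm y hy hy1
      simpa using hclaim 0 (by omega) y hy (Or.inl rfl) hy1
    | succ m ih =>
      intro hm y hy hy1
      rw [Finset.prod_range_succ]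
      rcases lt_trichotomy y (Y (m + 1)) with h1 | h1 | h1
      · have h2 := ih (by omega) y hy (Or.inr h1)
        have h3 : (-1 : ℝ) ^ (m + 1) * ψ y *
            ((∏ j ∈ Finset.range m, (y - Y (j + 1))) * (y - Y (m + 1))) =
            ((-1) ^ m * ψ y * ∏ j ∈ Finset.range m, (y - Y (j + 1))) * (Y (m + 1) - y) := by
          ring
        rw [h3]
        exact mul_nonneg h2 (by linarith)
      · rw [← h1]; simp
      · have h2 := hclaim (m + 1) hm y hy (Or.inr h1) hy1
        refine mul_nonneg h2 (mul_nonneg (Finset.prod_nonneg (fun j hj => ?_)) (by linarith))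
        have h3 := hYmono' (m + 1) (j + 1) (by have := Finset.mem_range.1 hj; omega) hm
        linarith
  refine ⟨σ * (-1) ^ r, (List.range r).map (fun j => Y (j + 1)), ?_, ?_, ?_, ?_⟩
  · exact mul_ne_zero hσ (pow_ne_zero _ (by norm_num))
  · intro a ha
    obtain ⟨j, -, rfl⟩ := List.mem_map.1 ha
    exact hY0 _
  · simp only [List.length_map, List.length_range]
    omega
  · intro y hy
    have h1 := hfin r le_rfl y hy (Or.inl rfl)
    have h2 : (List.map (fun a => y - a) (List.map (fun j => Y (j + 1)) (List.range r))).prod =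
        ∏ j ∈ Finset.range r, (y - Y (j + 1)) := by
      rw [List.map_map, Finset.prod_eq_multiset_prod]
      rfl
    rw [h2]
    calc (0 : ℝ) ≤ (-1) ^ r * ψ y * ∏ j ∈ Finset.range r, (y - Y (j + 1)) := h1
      _ = _ := by simp only [hψ]; ring

end H81.LP
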