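import Pool.Agent.H81.LP.Defs

/-!
# Module B1: exponential sums have few sign changes

`N` exponentials with different exponents: no `N + 1` points (real, here positive) with strictly
alternating signs.  Induction on `N` (for all real points, see `expSum_noAlt`): `N = 0`: `F = 0`.
Step: multiply by `exp (X_0 s)` (positive): `G(s) = exp (X_0 s) F(s)` has the same signs and
`G' (s) = ∑_{j ≥ 1} c_j (X_0 - X_j) exp ((X_0 - X_j) s)` is (up to renaming) an exponential sum
with `N - 1` terms; between two consecutive points of an alternating sequence of `G` the mean value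
theorem gives a point where `G'` has the sign of the increment, and these signs alternate.
-/

namespace H81.LP

open MeasureTheory

/-- alternation on the real line, without the positivity of the points -/
def AltR (F : ℝ → ℝ) (N : ℕ) : Prop :=
  ∃ (σ : ℝ) (s : Fin (N + 1) → ℝ), StrictMono s ∧
    ∀ i : Fin (N + 1), 0 < σ * (-1) ^ (i : ℕ) * F (s i)

theorem expSum_altR_deriv {N : ℕ} (G G' : ℝ → ℝ) (hG : ∀ x, HasDerivAt G (G' x) x)
    (h : AltR G (N + 1)) : AltR G' N := by
  obtain ⟨σ, s, hs, hσ⟩ := h
  have hex : ∀ i : Fin (N + 1), ∃ t : ℝ, s i.castSucc < t ∧ t < s i.succ ∧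
      G' t = (G (s i.succ) - G (s i.castSucc)) / (s i.succ - s i.castSucc) := by
    intro i
    have hlt : s i.castSucc < s i.succ := hs (Fin.castSucc_lt_succ)
    obtain ⟨t, ht, he⟩ := exists_hasDerivAt_eq_slope G G' hlt
      (fun x _ => (hG x).continuousAt.continuousWithinAt) (fun x _ => hG x)
    exact ⟨t, ht.1, ht.2, he⟩
  choose t ht1 ht2 ht3 using hex
  refine ⟨-σ, t, ?_, ?_⟩
  · intro i j hij
    have h1 : s i.succ ≤ s j.castSucc := by
      apply hs.monotone
      rw [Fin.le_def]
      simp only [Fin.val_succ, Fin.val_castSucc]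
      exact hij
    linarith [ht2 i, ht1 j]
  · intro i
    have hlt : s i.castSucc < s i.succ := hs (Fin.castSucc_lt_succ)
    have hpos : 0 < s i.succ - s i.castSucc := by linarith
    have h1 := hσ i.castSucc
    have h2 := hσ i.succ
    simp only [Fin.val_castSucc] at h1
    simp only [Fin.val_succ, pow_succ] at h2
    rw [ht3 i]
    have e : -σ * (-1) ^ (i : ℕ) * ((G (s i.succ) - G (s i.castSucc)) / (s i.succ - s i.castSucc))
        = (σ * ((-1) ^ (i : ℕ) * -1) * G (s i.succ) + σ * (-1) ^ (i : ℕ) * G (s i.castSucc)) /
          (s i.succ - s i.castSucc) := by ring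
    rw [e]
    exact div_pos (by linarith) hpos

theorem expSum_noAltR (N : ℕ) (c X : Fin N → ℝ) (hX : Function.Injective X) :
    ¬ AltR (fun s => ∑ j, c j * Real.exp (-(X j * s))) N := by
  induction N with
  | zero =>
    rintro ⟨σ, s, -, h⟩
    have := h 0
    simp at this
  | succ N ih =>
    intro hA
    have hinj : Function.Injective (fun j : Fin N => X j.succ - X 0) := by
      intro i j hij
      have h1 : X i.succ = X j.succ := by
        have : X i.succ - X 0 = X j.succ - X 0 := hij
        linarith
      exact Fin.succ_injective _ (hX h1)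
    apply ih (fun j => c j.succ * (X 0 - X j.succ)) (fun j => X j.succ - X 0) hinj
    apply expSum_altR_deriv
      (fun s => c 0 + ∑ j : Fin N, c j.succ * Real.exp (-((X j.succ - X 0) * s)))
    · intro x
      have h1 : ∀ j : Fin N, HasDerivAt
          (fun s : ℝ => c j.succ * Real.exp (-((X j.succ - X 0) * s)))
          (c j.succ * (X 0 - X j.succ) * Real.exp (-((X j.succ - X 0) * x))) x := by
        intro j
        have h2 : HasDerivAt (fun s : ℝ => -((X j.succ - X 0) * s)) (X 0 - X j.succ) x := by
          have h3 := ((hasDerivAt_id x).const_mul (X j.succ - X 0)).neg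
          have e : -((X j.succ - X 0) * 1) = X 0 - X j.succ := by ring
          rw [e] at h3
          exact h3
        have h4 := (h2.exp).const_mul (c j.succ)
        have e2 : c j.succ * (X 0 - X j.succ) * Real.exp (-((X j.succ - X 0) * x)) =
            c j.succ * (Real.exp (-((X j.succ - X 0) * x)) * (X 0 - X j.succ)) := by ring
        rw [e2]
        exact h4
      have h5 := HasDerivAt.fun_sum (u := Finset.univ) (fun j _ => h1 j)
      exact (h5.const_add (c 0))
    · obtain ⟨σ, s, hs, hσ⟩ := hA
      refine ⟨σ, s, hs, fun i => ?_⟩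
      have h6 : (c 0 + ∑ j : Fin N, c j.succ * Real.exp (-((X j.succ - X 0) * s i))) =
          Real.exp (X 0 * s i) * ∑ j, c j * Real.exp (-(X j * s i)) := by
        rw [Fin.sum_univ_succ, mul_add, Finset.mul_sum]
        congr 1
        · rw [← mul_assoc, mul_comm (Real.exp _) (c 0), mul_assoc, ← Real.exp_add]
          simp
        · refine Finset.sum_congr rfl (fun j _ => ?_)
          rw [← mul_assoc, mul_comm (Real.exp _) (c j.succ), mul_assoc, ← Real.exp_add]
          congr 2
          ring
      have h7 := hσ i
      have h8 := Real.exp_pos (X 0 * s i)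
      simp only at h7 ⊢
      rw [h6]
      calc (0 : ℝ) < Real.exp (X 0 * s i) *
            (σ * (-1) ^ (i : ℕ) * ∑ j, c j * Real.exp (-(X j * s i))) := mul_pos h8 h7
        _ = _ := by ring

theorem expSum_noAlt (N : ℕ) (c X : Fin N → ℝ) (hX : Function.Injective X) :
    ¬ Alt (fun s => ∑ j, c j * Real.exp (-(X j * s))) N := by
  rintro ⟨σ, s, hs, -, h⟩
  exact expSum_noAltR N c X hX ⟨σ, s, hs, h⟩

end H81.LP
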