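import Pool.Agent.H81.LP.LapDeriv

/-!
# Module B2b: `Lap` does not increase the number of sign changes

Let `L` be a list of numbers `≥ 0` and `0 ≤ σ φ(y) ∏_{a ∈ L} (y - a)` for all `y > 0`.  Then `Lap φ`
has no `L.length + 2` alternating points.  Induction on `L` (for all `φ`, `σ`).

`L = []`: `0 ≤ σ φ`, so `0 ≤ σ Lap φ (s)` for all `s > 0`, which excludes two points with strictly
opposite signs.
`L = a :: L'`, `a = 0`: `y - 0 > 0`, so `0 ≤ σ φ(y) ∏_{L'} (y - b)`; fewer alternations by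
induction (an alternating sequence with `r + 3` points contains one with `r + 2`).
`L = a :: L'`, `a > 0`: let `G(s) = exp (s/a) Lap φ (s)`; by `Lap_hasDerivAt`
`G'(s) = exp (s/a) (Lap φ (s)/a - Lap (φ/y) (s)) = exp (s/a) Lap φ₁ (s)`,
`φ₁(y) = φ(y)/a - φ(y)/y = φ(y) (y - a)/(a y)`, and `0 ≤ σ φ₁(y) ∏_{L'} (y - b)`.
If `Lap φ` (so `G`) has `L'.length + 3` alternating points then, by the mean value theorem, `G'` and
so `Lap φ₁` has `L'.length + 2` alternating points: contradiction with the induction hypothesis.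
-/

namespace H81.LP

open MeasureTheory

theorem Alt.pred {F : ℝ → ℝ} {N : ℕ} (h : Alt F (N + 1)) : Alt F N := by
  obtain ⟨τ, s, hs, hpos, hsg⟩ := h
  refine ⟨τ, fun i => s i.castSucc, ?_, fun i => hpos _, fun i => ?_⟩
  · intro i j hij
    exact hs (Fin.castSucc_lt_castSucc_iff.mpr hij)
  · have := hsg i.castSucc
    simpa using this

/-- `Lap (φ/a - φ/y)` -/
theorem Lap_sub_div {φ : ℝ → ℝ} (h : LapOK φ) (a : ℝ) {s : ℝ} (hs : 0 < s) :
    Lap (fun y => (1 / a) * φ y - φ y / y) s = (1 / a) * Lap φ s - Lap (fun y => φ y / y) s := by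
  unfold Lap
  rw [← integral_const_mul, ← integral_sub ((h s hs).const_mul _) (h.div s hs)]
  refine integral_congr_ae (Filter.Eventually.of_forall fun y => ?_)
  simp only
  ring

theorem Lap_nonneg_of {φ : ℝ → ℝ} (σ : ℝ) (hsign : ∀ y, 0 < y → 0 ≤ σ * φ y) (s : ℝ) :
    0 ≤ σ * Lap φ s := by
  unfold Lap
  rw [← integral_const_mul]
  refine setIntegral_nonneg measurableSet_Ioi fun y hy => ?_
  have hy' : 0 < y := hy
  have : σ * (Real.exp (-(s / y)) * φ y / y) = Real.exp (-(s / y)) * (σ * φ y) / y := by ring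
  rw [this]
  exact div_nonneg (mul_nonneg (Real.exp_pos _).le (hsign y hy')) hy'.le

theorem Lap_alt_step {φ : ℝ → ℝ} (h : LapOK φ) {a : ℝ} (_ha : 0 < a) {N : ℕ}
    (hA : Alt (Lap φ) (N + 1)) : Alt (Lap (fun y => (1 / a) * φ y - φ y / y)) N := by
  obtain ⟨τ, s, hs, hpos, hsg⟩ := hA
  let G : ℝ → ℝ := fun x => Real.exp (x / a) * Lap φ x
  let G' : ℝ → ℝ := fun x => Real.exp (x / a) * Lap (fun y => (1 / a) * φ y - φ y / y) x
  have hG : ∀ x, 0 < x → HasDerivAt G (G' x) x := by
    intro x hx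
    have h1 : HasDerivAt (fun x : ℝ => Real.exp (x / a)) (Real.exp (x / a) * (1 / a)) x :=
      ((hasDerivAt_id x).div_const a).exp
    have h2 := h1.mul (Lap_hasDerivAt h hx)
    have e : G' x = Real.exp (x / a) * (1 / a) * Lap φ x +
        Real.exp (x / a) * (-(Lap (fun y => φ y / y) x)) := by
      show Real.exp (x / a) * Lap (fun y => (1 / a) * φ y - φ y / y) x = _
      rw [Lap_sub_div h a hx]
      ring
    rw [e]
    exact h2
  have hmvt : ∀ i : Fin (N + 1), ∃ t, s i.castSucc < t ∧ t < s i.succ ∧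
      G' t = (G (s i.succ) - G (s i.castSucc)) / (s i.succ - s i.castSucc) := by
    intro i
    have hlt : s i.castSucc < s i.succ := hs (Fin.castSucc_lt_succ)
    have hp : 0 < s i.castSucc := hpos _
    obtain ⟨t, ht, hte⟩ := exists_hasDerivAt_eq_slope G G' hlt
      (fun x hx => (hG x (lt_of_lt_of_le hp hx.1)).continuousAt.continuousWithinAt)
      (fun x hx => hG x (lt_trans hp hx.1))
    exact ⟨t, ht.1, ht.2, hte⟩
  choose t ht1 ht2 ht3 using hmvt
  refine ⟨-τ, t, ?_, fun i => lt_trans (hpos _) (ht1 i), fun i => ?_⟩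
  · intro i j hij
    have h1 : s i.succ ≤ s j.castSucc := by
      refine hs.monotone ?_
      rw [Fin.le_def]
      simp only [Fin.val_succ, Fin.val_castSucc]
      exact hij
    exact lt_of_lt_of_le (ht2 i) (h1.trans (ht1 j).le)
  · have hlt : s i.castSucc < s i.succ := hs (Fin.castSucc_lt_succ)
    have e1 := hsg i.castSucc
    have e2 := hsg i.succ
    simp only [Fin.val_castSucc] at e1
    simp only [Fin.val_succ, pow_succ] at e2
    have g1 : 0 < τ * (-1) ^ (i : ℕ) * G (s i.castSucc) := by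
      have : τ * (-1) ^ (i : ℕ) * G (s i.castSucc) =
          Real.exp (s i.castSucc / a) * (τ * (-1) ^ (i : ℕ) * Lap φ (s i.castSucc)) := by
        show τ * (-1) ^ (i : ℕ) * (Real.exp (s i.castSucc / a) * Lap φ (s i.castSucc)) = _
        ring
      rw [this]
      exact mul_pos (Real.exp_pos _) e1
    have g2 : τ * (-1) ^ (i : ℕ) * G (s i.succ) < 0 := by
      have : τ * (-1) ^ (i : ℕ) * G (s i.succ) =
          -(Real.exp (s i.succ / a) * (τ * ((-1) ^ (i : ℕ) * -1) * Lap φ (s i.succ))) := by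
        show τ * (-1) ^ (i : ℕ) * (Real.exp (s i.succ / a) * Lap φ (s i.succ)) = _
        ring
      rw [this]
      exact neg_lt_zero.mpr (mul_pos (Real.exp_pos _) e2)
    have g3 : 0 < -τ * (-1) ^ (i : ℕ) * G' (t i) := by
      rw [ht3 i]
      have : -τ * (-1) ^ (i : ℕ) * ((G (s i.succ) - G (s i.castSucc)) /
          (s i.succ - s i.castSucc)) = (τ * (-1) ^ (i : ℕ) * G (s i.castSucc) -
          τ * (-1) ^ (i : ℕ) * G (s i.succ)) / (s i.succ - s i.castSucc) := by
        ring
      rw [this]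
      exact div_pos (by linarith) (sub_pos.mpr hlt)
    have g4 : -τ * (-1) ^ (i : ℕ) * G' (t i) = Real.exp (t i / a) *
        (-τ * (-1) ^ (i : ℕ) * Lap (fun y => (1 / a) * φ y - φ y / y) (t i)) := by
      show -τ * (-1) ^ (i : ℕ) * (Real.exp (t i / a) *
        Lap (fun y => (1 / a) * φ y - φ y / y) (t i)) = _
      ring
    rw [g4] at g3
    exact (mul_pos_iff_of_pos_left (Real.exp_pos _)).mp g3

theorem Lap_noAlt (L : List ℝ) (hL : ∀ a ∈ L, 0 ≤ a) {φ : ℝ → ℝ} (h : LapOK φ) (σ : ℝ)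
    (hσ : σ ≠ 0) (hsign : ∀ y, 0 < y → 0 ≤ σ * φ y * (L.map (fun a => y - a)).prod) :
    ¬ Alt (Lap φ) (L.length + 1) := by
  induction L generalizing φ with
  | nil =>
    rintro ⟨τ, s, hs, hpos, hsg⟩
    have hn : ∀ x, 0 ≤ σ * Lap φ x := by
      refine fun x => Lap_nonneg_of σ (fun y hy => ?_) x
      simpa using hsign y hy
    have e0 := hsg 0
    have e1 := hsg 1
    have n0 := hn (s 0)
    have n1 := hn (s 1)
    simp only [Fin.val_zero, pow_zero, mul_one] at e0
    have v1 : ((1 : Fin (([] : List ℝ).length + 1 + 1)) : ℕ) = 1 := rfl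
    rw [v1, pow_one] at e1
    have p1 : τ * Lap φ (s 0) * (τ * -1 * Lap φ (s 1)) > 0 := mul_pos e0 e1
    have p2 : 0 ≤ σ * Lap φ (s 0) * (σ * Lap φ (s 1)) := mul_nonneg n0 n1
    have p3 : 0 < σ ^ 2 := by positivity
    have p4 : 0 ≤ Lap φ (s 0) * Lap φ (s 1) := by
      have : σ * Lap φ (s 0) * (σ * Lap φ (s 1)) = σ ^ 2 * (Lap φ (s 0) * Lap φ (s 1)) := by ring
      rw [this] at p2
      exact nonneg_of_mul_nonneg_right p2 p3
    have p5 : τ * Lap φ (s 0) * (τ * -1 * Lap φ (s 1)) =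
        -(τ ^ 2 * (Lap φ (s 0) * Lap φ (s 1))) := by ring
    rw [p5] at p1
    have p6 : 0 ≤ τ ^ 2 * (Lap φ (s 0) * Lap φ (s 1)) := mul_nonneg (sq_nonneg _) p4
    linarith
  | cons a L ih =>
    have hL' : ∀ b ∈ L, 0 ≤ b := fun b hb => hL b (List.mem_cons_of_mem _ hb)
    rcases (hL a List.mem_cons_self).eq_or_lt with ha | ha
    · intro hA
      refine ih hL' h (fun y hy => ?_) (Alt.pred hA)
      have := hsign y hy
      rw [List.map_cons, List.prod_cons, ← ha, sub_zero] at this
      have e : σ * φ y * (y * (L.map (fun a => y - a)).prod) =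
          y * (σ * φ y * (L.map (fun a => y - a)).prod) := by ring
      rw [e] at this
      exact nonneg_of_mul_nonneg_right this hy
    · intro hA
      refine ih hL' ((h.const_mul (1 / a)).sub h.div) (fun y hy => ?_) (Lap_alt_step h ha hA)
      have := hsign y hy
      rw [List.map_cons, List.prod_cons] at this
      have e : σ * (1 / a * φ y - φ y / y) * (L.map (fun a => y - a)).prod =
          (σ * φ y * ((y - a) * (L.map (fun a => y - a)).prod)) / (a * y) := by
        field_simp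
      rw [e]
      positivity

end H81.LP
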