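import Pool.Agent.H81.LP.Krec
import Pool.Agent.H81.LP.ExpSum
import Pool.Agent.H81.LP.LapVar
import Pool.Agent.H81.LP.Break

/-!
# Module B5: total positivity of `K n`

`N` functions `K n (X_j s)` with different `X_j > 0`: no linear combination has `N + 1` points with
strictly alternating signs.  Induction on `n`: `K 0 (X s) = exp (-X s)` is `expSum_noAlt`
(`K_zero`); the step is `exists_break`, `Lap_noAlt`, `K_lin_succ` and `Alt.mono` (an alternation
`Alt F (N)` gives `Alt F (L.length + 1)`; note that `Alt` only uses values at positive points).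
The case `N = 0` is trivial (`0 < 0`).
-/

namespace H81.LP

theorem noAlt (n N : ℕ) (c X : Fin N → ℝ) (hX : ∀ j, 0 < X j) (hinj : Function.Injective X) :
    ¬ Alt (fun s => ∑ j, c j * K n (X j * s)) N := by
  induction n with
  | zero =>
    have h := expSum_noAlt N c X hinj
    have he : (fun s => ∑ j, c j * K 0 (X j * s)) =
        fun s => ∑ j, c j * Real.exp (-(X j * s)) := by
      funext s
      simp only [K_zero]
    rw [he]
    exact h
  | succ n ih =>
    intro hA
    rcases Nat.eq_zero_or_pos N with h0 | hN
    · subst h0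
      obtain ⟨σ, s, -, -, h⟩ := hA
      have := h 0
      simp at this
    · obtain ⟨σ, L, hσ, hL, hlen, hsign⟩ := exists_break _ N hN ih
      refine Lap_noAlt L hL (K_lin_lapOK n c X hX) σ hσ hsign ?_
      refine Alt.mono ?_ hlen
      obtain ⟨τ, s, hs, hpos, h⟩ := hA
      refine ⟨τ, s, hs, hpos, fun i => ?_⟩
      rw [← K_lin_succ n c X hX (hpos i)]
      exact h i

end H81.LP
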