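import Pool.Agent.H81.LP.Kbasic

/-!
# Module B4: recursion for `K n`

`K_succ`: Fubini (`Fin (n+1) → ℝ` is `ℝ × (Fin n → ℝ)`, e.g.
`MeasureTheory.volume_preserving_piFinSuccAbove`), since
`exp (-∑ exp (v_i) - X exp (-∑ v_i)) = exp (-exp v_0) exp (-∑' exp (v_i) - (X exp (-v_0)) exp (-∑' v_i))`.
`K_succ'`: substitute `y = X exp (-t)` (that is `t = log (X/y)`, `dt = -dy/y`).
`K_lapOK`: `K n y ≤ (1/2) (√π)^n y^(-1/2)` (`K_le`) near `0` against `exp (-s/y)`, and near infinity
`K n y / y ≤ 1/y²` (`K_le_inv`).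
`K_lin_succ`: substitute `y = X_j z` in each term: `K (n+1) (X_j s) = ∫ exp (-(s/z)) K n (X_j z) dz/z`.
-/

namespace H81.LP

open MeasureTheory

/-- `K (n + 1) X` as an integral over `ℝ × (Fin n → ℝ)` -/
theorem krec_prod (n : ℕ) {X : ℝ} (hX : 0 < X) :
    Integrable (fun p : ℝ × (Fin n → ℝ) => Real.exp (-Real.exp p.1) *
      Real.exp (-(∑ i, Real.exp (p.2 i)) - (X * Real.exp (-p.1)) * Real.exp (-(∑ i, p.2 i))))
      ((volume : Measure ℝ).prod (volume : Measure (Fin n → ℝ))) ∧
    K (n + 1) X = ∫ p : ℝ × (Fin n → ℝ), Real.exp (-Real.exp p.1) *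
      Real.exp (-(∑ i, Real.exp (p.2 i)) - (X * Real.exp (-p.1)) * Real.exp (-(∑ i, p.2 i)))
      ∂((volume : Measure ℝ).prod (volume : Measure (Fin n → ℝ))) := by
  have he := volume_preserving_piFinSuccAbove (fun _ : Fin (n + 1) => ℝ) 0
  set e := MeasurableEquiv.piFinSuccAbove (fun _ : Fin (n + 1) => ℝ) 0 with hedef
  let g : ℝ × (Fin n → ℝ) → ℝ := fun p => Real.exp (-Real.exp p.1) *
    Real.exp (-(∑ i, Real.exp (p.2 i)) - (X * Real.exp (-p.1)) * Real.exp (-(∑ i, p.2 i)))
  have hg : ∀ v : Fin (n + 1) → ℝ, g (e v) =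
      Real.exp (-(∑ i, Real.exp (v i)) - X * Real.exp (-(∑ i, v i))) := by
    intro v
    have h1 : (e v).1 = v 0 := rfl
    have h2 : ∀ i, (e v).2 i = v i.succ := fun i => rfl
    simp only [g, h1, h2, Fin.sum_univ_succ, neg_add]
    rw [Real.exp_add (-v 0), ← Real.exp_add]
    congr 1
    ring
  have hint : Integrable g (volume : Measure (ℝ × (Fin n → ℝ))) := by
    rw [← he.integrable_comp_emb e.measurableEmbedding]
    have : (g ∘ e) = fun v : Fin (n + 1) → ℝ =>
      Real.exp (-(∑ i, Real.exp (v i)) - X * Real.exp (-(∑ i, v i))) := by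
      funext v
      exact hg v
    rw [this]
    exact K_integrable (n + 1) hX
  refine ⟨hint, ?_⟩
  have h1 : K (n + 1) X = ∫ v : Fin (n + 1) → ℝ, g (e v) := by
    unfold K
    congr 1
    funext v
    exact (hg v).symm
  rw [h1, he.integral_comp' (g := g)]
  rfl

private theorem krec_fubini (n : ℕ) {X : ℝ} (hX : 0 < X) :
    Integrable (fun t : ℝ => Real.exp (-Real.exp t) * K n (X * Real.exp (-t))) ∧
    K (n + 1) X = ∫ t : ℝ, Real.exp (-Real.exp t) * K n (X * Real.exp (-t)) := by
  obtain ⟨hint, hE⟩ := krec_prod n hX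
  have hinner : ∀ t : ℝ, ∫ u : Fin n → ℝ, Real.exp (-Real.exp t) *
      Real.exp (-(∑ i, Real.exp (u i)) - (X * Real.exp (-t)) * Real.exp (-(∑ i, u i))) =
      Real.exp (-Real.exp t) * K n (X * Real.exp (-t)) := by
    intro t
    rw [integral_const_mul]
    rfl
  constructor
  · have h := Integrable.integral_prod_left hint
    simpa only [hinner] using h
  · rw [hE, integral_prod _ hint]
    simp only [hinner]

theorem K_succ (n : ℕ) {X : ℝ} (hX : 0 < X) :
    K (n + 1) X = ∫ t : ℝ, Real.exp (-Real.exp t) * K n (X * Real.exp (-t)) :=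
  (krec_fubini n hX).2

private theorem krec_subst (n : ℕ) {a s : ℝ} (ha : 0 < a) (hs : 0 < s) :
    IntegrableOn (fun y => Real.exp (-(s / y)) * K n (a * y) / y) (Set.Ioi 0) ∧
    ∫ y in Set.Ioi 0, Real.exp (-(s / y)) * K n (a * y) / y = K (n + 1) (a * s) := by
  have himg : (fun t : ℝ => s * Real.exp (-t)) '' Set.univ = Set.Ioi 0 := by
    ext y
    simp only [Set.image_univ, Set.mem_range, Set.mem_Ioi]
    constructor
    · rintro ⟨t, rfl⟩
      positivity
    · intro hy
      refine ⟨-Real.log (y / s), ?_⟩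
      rw [neg_neg, Real.exp_log (by positivity)]
      field_simp
  have hder : ∀ t ∈ (Set.univ : Set ℝ), HasDerivWithinAt (fun t : ℝ => s * Real.exp (-t))
      (-(s * Real.exp (-t))) Set.univ t := by
    intro t _
    have h1 : HasDerivAt (fun t : ℝ => s * Real.exp (-t)) (s * (Real.exp (-t) * (-1))) t := by
      apply HasDerivAt.const_mul
      exact (hasDerivAt_neg t).exp
    have h2 : s * (Real.exp (-t) * (-1)) = -(s * Real.exp (-t)) := by ring
    rw [h2] at h1
    exact h1.hasDerivWithinAt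
  have hinj : Set.InjOn (fun t : ℝ => s * Real.exp (-t)) Set.univ := by
    intro t1 _ t2 _ h
    simp only at h
    have h1 : Real.exp (-t1) = Real.exp (-t2) := mul_left_cancel₀ hs.ne' h
    have h2 := Real.exp_injective h1
    linarith
  have hfun : ∀ t : ℝ, |-(s * Real.exp (-t))| •
      (Real.exp (-(s / (s * Real.exp (-t)))) * K n (a * (s * Real.exp (-t))) /
        (s * Real.exp (-t))) =
      Real.exp (-Real.exp t) * K n (a * s * Real.exp (-t)) := by
    intro t
    have h1 : 0 < s * Real.exp (-t) := by positivity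
    rw [abs_neg, abs_of_pos h1, smul_eq_mul]
    have h2 : s / (s * Real.exp (-t)) = Real.exp t := by
      rw [Real.exp_neg]
      field_simp
    rw [h2, mul_assoc a s]
    field_simp
  have has : 0 < a * s := mul_pos ha hs
  obtain ⟨hI, hE⟩ := krec_fubini n has
  constructor
  · rw [← himg, integrableOn_image_iff_integrableOn_abs_deriv_smul MeasurableSet.univ hder hinj]
    simp only [hfun]
    exact hI.integrableOn
  · rw [← himg, integral_image_eq_integral_abs_deriv_smul MeasurableSet.univ hder hinj]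
    simp only [hfun]
    rw [setIntegral_univ, hE]

theorem K_succ' (n : ℕ) {X : ℝ} (hX : 0 < X) :
    K (n + 1) X = ∫ y in Set.Ioi 0, Real.exp (-(X / y)) * K n y / y := by
  have h := (krec_subst n one_pos hX).2
  simp only [one_mul] at h
  exact h.symm

theorem K_lapOK (n : ℕ) {a : ℝ} (ha : 0 < a) : LapOK (fun y => K n (a * y)) := by
  intro s hs
  exact (krec_subst n ha hs).1

theorem K_lin_lapOK (n : ℕ) {N : ℕ} (c X : Fin N → ℝ) (hX : ∀ j, 0 < X j) :
    LapOK (fun y => ∑ j, c j * K n (X j * y)) := by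
  intro s hs
  have h : ∀ j ∈ (Finset.univ : Finset (Fin N)), IntegrableOn (fun y => c j *
      (Real.exp (-(s / y)) * K n (X j * y) / y)) (Set.Ioi 0) := by
    intro j _
    exact (krec_subst n (hX j) hs).1.const_mul (c j)
  have h2 := integrable_finsetSum (μ := volume.restrict (Set.Ioi (0 : ℝ))) Finset.univ h
  have h3 : (fun y : ℝ => Real.exp (-(s / y)) * (∑ j, c j * K n (X j * y)) / y) =
      fun y : ℝ => ∑ j, c j * (Real.exp (-(s / y)) * K n (X j * y) / y) := by
    funext y
    rw [Finset.mul_sum, Finset.sum_div]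
    apply Finset.sum_congr rfl
    intro j _
    ring
  show IntegrableOn (fun y : ℝ => Real.exp (-(s / y)) * (∑ j, c j * K n (X j * y)) / y)
    (Set.Ioi 0)
  rw [h3]
  exact h2

theorem K_lin_succ (n : ℕ) {N : ℕ} (c X : Fin N → ℝ) (hX : ∀ j, 0 < X j) {s : ℝ} (hs : 0 < s) :
    ∑ j, c j * K (n + 1) (X j * s) = Lap (fun y => ∑ j, c j * K n (X j * y)) s := by
  have h : ∀ j ∈ (Finset.univ : Finset (Fin N)), IntegrableOn (fun y => c j *
      (Real.exp (-(s / y)) * K n (X j * y) / y)) (Set.Ioi 0) := by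
    intro j _
    exact (krec_subst n (hX j) hs).1.const_mul (c j)
  have h3 : (fun y : ℝ => Real.exp (-(s / y)) * (∑ j, c j * K n (X j * y)) / y) =
      fun y : ℝ => ∑ j, c j * (Real.exp (-(s / y)) * K n (X j * y) / y) := by
    funext y
    rw [Finset.mul_sum, Finset.sum_div]
    apply Finset.sum_congr rfl
    intro j _
    ring
  unfold Lap
  simp only [h3]
  rw [integral_finsetSum Finset.univ h]
  apply Finset.sum_congr rfl
  intro j _
  rw [integral_const_mul, (krec_subst n (hX j) hs).2]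

end H81.LP
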