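import Pool.Agent.H81.LP.Defs

/-!
# Module D2: bounds for the sums `S n X`

`q = 64/49 = (8/7)²`, `q^(k/2) = (8/7)^k`.
* `thetaHalf`: `∑_k exp (-(q^k)) (8/7)^k ≤ 67/10` (true value `√π/hh = 6.6369`).  For `k ≤ -K`:
  `exp ≤ 1` and a geometric series; for `k ≥ K'`: `exp (-x) ≤ m!/x^m`; in between upper bounds for
  `exp (-(q^k))` (e.g. `Real.exp_bound`, `exp (-x) ≤ 1/(1 + x + x²/2 + …)`, or: the chain
  `exp (-(q^(k+1)))^49 = exp (-(q^k))^64`).  One percent of accuracy is enough.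
* `thetaFive`: `∑_k exp (-(q^k)) (q^k)^5 ≤ 91` (true value `24/hh = 89.87`), one percent again.
* `S n X ≥ 0`; `S n X ≤ (1/2) (67/10)^n X^(-1/2)`, by induction: `exp (-x) ≤ (1/2) x^(-1/2)` and
  `∑_k exp (-(q^k)) (X q^(-k))^(-1/2) = X^(-1/2) ∑_k exp (-(q^k)) (8/7)^k`; at the same time the
  series converge (comparison).  In the same way `S n X ≤ 120 · 91^n X^(-5)`
  from `exp (-x) ≤ 120/x^5`.
-/

namespace H81.LP

open Finset

private theorem sb_eb {x r e : ℝ} (m : ℕ) (hr : 0 ≤ r) (hrx : r ≤ x)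
    (h : 1 ≤ e * ∑ i ∈ range m, r ^ i / (i.factorial : ℝ)) : Real.exp (-x) ≤ e := by
  have h1 : ∑ i ∈ range m, r ^ i / (i.factorial : ℝ) ≤ Real.exp r := Real.sum_le_exp_of_nonneg hr m
  have h0 : 0 ≤ ∑ i ∈ range m, r ^ i / (i.factorial : ℝ) :=
    Finset.sum_nonneg (fun i _ => by positivity)
  have he : 0 ≤ e := by
    by_contra hc
    push Not at hc
    have := mul_nonpos_of_nonpos_of_nonneg hc.le h0
    linarith
  have h2 : Real.exp (-x) ≤ Real.exp (-r) := Real.exp_le_exp.mpr (by linarith)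
  have h3 : 1 ≤ e * Real.exp r := h.trans (mul_le_mul_of_nonneg_left h1 he)
  have h4 : Real.exp r * Real.exp (-r) = 1 := by rw [← Real.exp_add]; simp
  have h5 : 0 < Real.exp (-r) := Real.exp_pos _
  calc Real.exp (-x) ≤ 1 * Real.exp (-r) := by linarith
    _ ≤ e * Real.exp r * Real.exp (-r) := mul_le_mul_of_nonneg_right h3 h5.le
    _ = e := by rw [mul_assoc, h4, mul_one]

private theorem sb_tail (f : ℕ → ℝ) (hf0 : ∀ i, 0 ≤ f i) (K : ℕ) (c r : ℝ) (hr0 : 0 ≤ r)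
    (hr1 : r < 1) (h : ∀ i, f (i + K) ≤ c * r ^ i) :
    Summable f ∧ ∑' i, f i ≤ ∑ i ∈ range K, f i + c / (1 - r) := by
  have hg : Summable (fun i : ℕ => c * r ^ i) := (summable_geometric_of_lt_one hr0 hr1).mul_left c
  have h1 : Summable (fun i => f (i + K)) :=
    Summable.of_nonneg_of_le (fun i => hf0 _) h hg
  have h2 : Summable f := (summable_nat_add_iff K).mp h1
  refine ⟨h2, ?_⟩
  rw [← h2.sum_add_tsum_nat_add K]
  have h3 : ∑' i, f (i + K) ≤ ∑' i : ℕ, c * r ^ i := h1.tsum_le_tsum h hg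
  rw [tsum_mul_left, tsum_geometric_of_lt_one hr0 hr1] at h3
  rw [div_eq_mul_inv]
  linarith

private theorem sb_int (f : ℤ → ℝ) (A B : ℝ)
    (h1 : Summable (fun n : ℕ => f n) ∧ ∑' n : ℕ, f n ≤ A)
    (h2 : Summable (fun n : ℕ => f (-(n + 1))) ∧ ∑' n : ℕ, f (-(n + 1)) ≤ B) :
    Summable f ∧ ∑' k : ℤ, f k ≤ A + B := by
  refine ⟨Summable.of_nat_of_neg_add_one h1.1 h2.1, ?_⟩
  rw [tsum_of_nat_of_neg_add_one h1.1 h2.1]
  linarith [h1.2, h2.2]

private theorem q_nat (n : ℕ) : q ^ (n : ℤ) = (64 / 49 : ℝ) ^ n := by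
  unfold q
  exact zpow_natCast _ n

private theorem q_neg (n : ℕ) : q ^ (-((n : ℤ) + 1)) = (49 / 64 : ℝ) ^ (n + 1) := by
  unfold q
  rw [zpow_neg, show ((n : ℤ) + 1) = ((n + 1 : ℕ) : ℤ) by push_cast; rfl, zpow_natCast, ← inv_pow]
  norm_num

private theorem e_nat (n : ℕ) : (8 / 7 : ℝ) ^ (n : ℤ) = (8 / 7 : ℝ) ^ n := zpow_natCast _ n

private theorem e_neg (n : ℕ) : (8 / 7 : ℝ) ^ (-((n : ℤ) + 1)) = (7 / 8 : ℝ) ^ (n + 1) := by
  rw [zpow_neg, show ((n : ℤ) + 1) = ((n + 1 : ℕ) : ℤ) by push_cast; rfl, zpow_natCast, ← inv_pow]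
  norm_num


private theorem sbA0 : Real.exp (-((64 / 49 : ℝ) ^ 0)) ≤ 9197/25000 := by
  apply sb_eb (r := 1) 9 (by norm_num) (by norm_num)
  norm_num [Finset.sum_range_succ, Nat.factorial]


private theorem sbA1 : Real.exp (-((64 / 49 : ℝ) ^ 1)) ≤ 27091/100000 := by
  apply sb_eb (r := 653/500) 9 (by norm_num) (by norm_num)
  norm_num [Finset.sum_range_succ, Nat.factorial]


private theorem sbA2 : Real.exp (-((64 / 49 : ℝ) ^ 2)) ≤ 18179/100000 := by
  apply sb_eb (r := 341/200) 9 (by norm_num) (by norm_num)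
  norm_num [Finset.sum_range_succ, Nat.factorial]


private theorem sbA3 : Real.exp (-((64 / 49 : ℝ) ^ 3)) ≤ 539/5000 := by
  apply sb_eb (r := 557/250) 9 (by norm_num) (by norm_num)
  norm_num [Finset.sum_range_succ, Nat.factorial]


private theorem sbA4 : Real.exp (-((64 / 49 : ℝ) ^ 4)) ≤ 681/12500 := by
  apply sb_eb (r := 291/100) 16 (by norm_num) (by norm_num)
  norm_num [Finset.sum_range_succ, Nat.factorial]


private theorem sbA5 : Real.exp (-((64 / 49 : ℝ) ^ 5)) ≤ 447/20000 := by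
  apply sb_eb (r := 3801/1000) 16 (by norm_num) (by norm_num)
  norm_num [Finset.sum_range_succ, Nat.factorial]


private theorem sbA6 : Real.exp (-((64 / 49 : ℝ) ^ 6)) ≤ 34927/5000000 := by
  apply sb_eb (r := 1241/250) 16 (by norm_num) (by norm_num)
  norm_num [Finset.sum_range_succ, Nat.factorial]


private theorem sbA7 : Real.exp (-((64 / 49 : ℝ) ^ 7)) ≤ 15277/10000000 := by
  apply sb_eb (r := 1621/250) 22 (by norm_num) (by norm_num)
  norm_num [Finset.sum_range_succ, Nat.factorial]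


private theorem sbA8 : Real.exp (-((64 / 49 : ℝ) ^ 8)) ≤ 2099/10000000 := by
  apply sb_eb (r := 8469/1000) 22 (by norm_num) (by norm_num)
  norm_num [Finset.sum_range_succ, Nat.factorial]


private theorem sbA9 : Real.exp (-((64 / 49 : ℝ) ^ 9)) ≤ 157/10000000 := by
  apply sb_eb (r := 5531/500) 26 (by norm_num) (by norm_num)
  norm_num [Finset.sum_range_succ, Nat.factorial]


private theorem sbA10 : Real.exp (-((64 / 49 : ℝ) ^ 10)) ≤ 5329/10000000000 := by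
  apply sb_eb (r := 14449/1000) 26 (by norm_num) (by norm_num)
  norm_num [Finset.sum_range_succ, Nat.factorial]


private theorem sbA11 : Real.exp (-((64 / 49 : ℝ) ^ 11)) ≤ 69/10000000000 := by
  apply sb_eb (r := 2359/125) 26 (by norm_num) (by norm_num)
  norm_num [Finset.sum_range_succ, Nat.factorial]


private theorem sbA12 : Real.exp (-((64 / 49 : ℝ) ^ 12)) ≤ 1/10000000000 := by
  apply sb_eb (r := 24649/1000) 26 (by norm_num) (by norm_num)
  norm_num [Finset.sum_range_succ, Nat.factorial]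


private theorem sbB1 : Real.exp (-((49 / 64 : ℝ) ^ 1)) ≤ 4659/10000 := by
  apply sb_eb (r := 153/200) 5 (by norm_num) (by norm_num)
  norm_num [Finset.sum_range_succ, Nat.factorial]


private theorem sbB2 : Real.exp (-((49 / 64 : ℝ) ^ 2)) ≤ 348/625 := by
  apply sb_eb (r := 293/500) 5 (by norm_num) (by norm_num)
  norm_num [Finset.sum_range_succ, Nat.factorial]


private theorem sbB3 : Real.exp (-((49 / 64 : ℝ) ^ 3)) ≤ 639/1000 := by
  apply sb_eb (r := 56/125) 5 (by norm_num) (by norm_num)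
  norm_num [Finset.sum_range_succ, Nat.factorial]


private theorem sbB4 : Real.exp (-((49 / 64 : ℝ) ^ 4)) ≤ 7097/10000 := by
  apply sb_eb (r := 343/1000) 5 (by norm_num) (by norm_num)
  norm_num [Finset.sum_range_succ, Nat.factorial]


private theorem sbB5 : Real.exp (-((49 / 64 : ℝ) ^ 5)) ≤ 961/1250 := by
  apply sb_eb (r := 263/1000) 5 (by norm_num) (by norm_num)
  norm_num [Finset.sum_range_succ, Nat.factorial]


private theorem sbB6 : Real.exp (-((49 / 64 : ℝ) ^ 6)) ≤ 409/500 := by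
  apply sb_eb (r := 201/1000) 5 (by norm_num) (by norm_num)
  norm_num [Finset.sum_range_succ, Nat.factorial]


private theorem sbB7 : Real.exp (-((49 / 64 : ℝ) ^ 7)) ≤ 8573/10000 := by
  apply sb_eb (r := 77/500) 5 (by norm_num) (by norm_num)
  norm_num [Finset.sum_range_succ, Nat.factorial]


private theorem sbB8 : Real.exp (-((49 / 64 : ℝ) ^ 8)) ≤ 8887/10000 := by
  apply sb_eb (r := 59/500) 5 (by norm_num) (by norm_num)
  norm_num [Finset.sum_range_succ, Nat.factorial]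


private theorem sbB9 : Real.exp (-((49 / 64 : ℝ) ^ 9)) ≤ 457/500 := by
  apply sb_eb (r := 9/100) 5 (by norm_num) (by norm_num)
  norm_num [Finset.sum_range_succ, Nat.factorial]


private theorem sbB10 : Real.exp (-((49 / 64 : ℝ) ^ 10)) ≤ 4667/5000 := by
  apply sb_eb (r := 69/1000) 5 (by norm_num) (by norm_num)
  norm_num [Finset.sum_range_succ, Nat.factorial]


private theorem sbB11 : Real.exp (-((49 / 64 : ℝ) ^ 11)) ≤ 4747/5000 := by
  apply sb_eb (r := 13/250) 5 (by norm_num) (by norm_num)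
  norm_num [Finset.sum_range_succ, Nat.factorial]


private theorem sbB12 : Real.exp (-((49 / 64 : ℝ) ^ 12)) ≤ 1201/1250 := by
  apply sb_eb (r := 1/25) 5 (by norm_num) (by norm_num)
  norm_num [Finset.sum_range_succ, Nat.factorial]


private theorem sb_half1 : Summable (fun n : ℕ => Real.exp (-((64 / 49 : ℝ) ^ n)) * (8 / 7 : ℝ) ^ n) ∧
    ∑' n : ℕ, Real.exp (-((64 / 49 : ℝ) ^ n)) * (8 / 7 : ℝ) ^ n ≤ 617/500 := by
  have h := sb_tail (fun n : ℕ => Real.exp (-((64 / 49 : ℝ) ^ n)) * (8 / 7 : ℝ) ^ n)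
    (fun i => by positivity) 11 (1 / 1000) ((7 / 8) ^ 11) (by positivity) (by norm_num) ?_
  · refine ⟨h.1, h.2.trans ?_⟩
    have a0 := mul_le_mul_of_nonneg_right sbA0 (show (0 : ℝ) ≤ (8 / 7) ^ 0 by positivity)
    have a1 := mul_le_mul_of_nonneg_right sbA1 (show (0 : ℝ) ≤ (8 / 7) ^ 1 by positivity)
    have a2 := mul_le_mul_of_nonneg_right sbA2 (show (0 : ℝ) ≤ (8 / 7) ^ 2 by positivity)
    have a3 := mul_le_mul_of_nonneg_right sbA3 (show (0 : ℝ) ≤ (8 / 7) ^ 3 by positivity)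
    have a4 := mul_le_mul_of_nonneg_right sbA4 (show (0 : ℝ) ≤ (8 / 7) ^ 4 by positivity)
    have a5 := mul_le_mul_of_nonneg_right sbA5 (show (0 : ℝ) ≤ (8 / 7) ^ 5 by positivity)
    have a6 := mul_le_mul_of_nonneg_right sbA6 (show (0 : ℝ) ≤ (8 / 7) ^ 6 by positivity)
    have a7 := mul_le_mul_of_nonneg_right sbA7 (show (0 : ℝ) ≤ (8 / 7) ^ 7 by positivity)
    have a8 := mul_le_mul_of_nonneg_right sbA8 (show (0 : ℝ) ≤ (8 / 7) ^ 8 by positivity)
    have a9 := mul_le_mul_of_nonneg_right sbA9 (show (0 : ℝ) ≤ (8 / 7) ^ 9 by positivity)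
    have a10 := mul_le_mul_of_nonneg_right sbA10 (show (0 : ℝ) ≤ (8 / 7) ^ 10 by positivity)
    simp only [Finset.sum_range_succ, Finset.sum_range_zero]
    norm_num at *
    linarith
  · intro i
    have hx : (0 : ℝ) < (64 / 49 : ℝ) ^ (i + 11) := by positivity
    have h1 := Real.pow_div_factorial_le_exp _ hx.le 6
    have h2 : Real.exp (-((64 / 49 : ℝ) ^ (i + 11))) ≤ 720 / ((64 / 49 : ℝ) ^ (i + 11)) ^ 6 := by
      rw [Real.exp_neg, inv_le_comm₀ (Real.exp_pos _) (by positivity), inv_div]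
      simpa [Nat.factorial] using h1
    calc Real.exp (-((64 / 49 : ℝ) ^ (i + 11))) * (8 / 7 : ℝ) ^ (i + 11)
        ≤ 720 / ((64 / 49 : ℝ) ^ (i + 11)) ^ 6 * (8 / 7 : ℝ) ^ (i + 11) :=
          mul_le_mul_of_nonneg_right h2 (by positivity)
      _ = 720 * ((7 / 8) ^ 11) ^ (i + 11) := by
          rw [← pow_mul (64 / 49 : ℝ), mul_comm (i + 11) 6, pow_mul, div_mul_eq_mul_div,
            mul_div_assoc, ← div_pow]
          norm_num
      _ = (720 * ((7 / 8) ^ 11) ^ 11) * ((7 / 8) ^ 11) ^ i := by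
          rw [pow_add]
          ring
      _ ≤ 1 / 1000 * ((7 / 8) ^ 11) ^ i := by
          apply mul_le_mul_of_nonneg_right _ (by positivity)
          norm_num


private theorem sb_half2 :
    Summable (fun n : ℕ => Real.exp (-((49 / 64 : ℝ) ^ (n + 1))) * (7 / 8 : ℝ) ^ (n + 1)) ∧
    ∑' n : ℕ, Real.exp (-((49 / 64 : ℝ) ^ (n + 1))) * (7 / 8 : ℝ) ^ (n + 1) ≤ 678/125 := by
  have h := sb_tail (fun n : ℕ => Real.exp (-((49 / 64 : ℝ) ^ (n + 1))) * (7 / 8 : ℝ) ^ (n + 1))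
    (fun i => by positivity) 12 ((7 / 8) ^ 13) (7 / 8) (by norm_num) (by norm_num) ?_
  · refine ⟨h.1, h.2.trans ?_⟩
    have b1 := mul_le_mul_of_nonneg_right sbB1 (show (0 : ℝ) ≤ (7 / 8) ^ 1 by positivity)
    have b2 := mul_le_mul_of_nonneg_right sbB2 (show (0 : ℝ) ≤ (7 / 8) ^ 2 by positivity)
    have b3 := mul_le_mul_of_nonneg_right sbB3 (show (0 : ℝ) ≤ (7 / 8) ^ 3 by positivity)
    have b4 := mul_le_mul_of_nonneg_right sbB4 (show (0 : ℝ) ≤ (7 / 8) ^ 4 by positivity)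
    have b5 := mul_le_mul_of_nonneg_right sbB5 (show (0 : ℝ) ≤ (7 / 8) ^ 5 by positivity)
    have b6 := mul_le_mul_of_nonneg_right sbB6 (show (0 : ℝ) ≤ (7 / 8) ^ 6 by positivity)
    have b7 := mul_le_mul_of_nonneg_right sbB7 (show (0 : ℝ) ≤ (7 / 8) ^ 7 by positivity)
    have b8 := mul_le_mul_of_nonneg_right sbB8 (show (0 : ℝ) ≤ (7 / 8) ^ 8 by positivity)
    have b9 := mul_le_mul_of_nonneg_right sbB9 (show (0 : ℝ) ≤ (7 / 8) ^ 9 by positivity)
    have b10 := mul_le_mul_of_nonneg_right sbB10 (show (0 : ℝ) ≤ (7 / 8) ^ 10 by positivity)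
    have b11 := mul_le_mul_of_nonneg_right sbB11 (show (0 : ℝ) ≤ (7 / 8) ^ 11 by positivity)
    have b12 := mul_le_mul_of_nonneg_right sbB12 (show (0 : ℝ) ≤ (7 / 8) ^ 12 by positivity)
    simp only [Finset.sum_range_succ, Finset.sum_range_zero]
    norm_num at *
    linarith
  · intro i
    have h2 : Real.exp (-((49 / 64 : ℝ) ^ (i + 12 + 1))) ≤ 1 := by
      rw [Real.exp_le_one_iff]
      have : (0 : ℝ) < (49 / 64 : ℝ) ^ (i + 12 + 1) := by positivity
      linarith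
    calc Real.exp (-((49 / 64 : ℝ) ^ (i + 12 + 1))) * (7 / 8 : ℝ) ^ (i + 12 + 1)
        ≤ 1 * (7 / 8 : ℝ) ^ (i + 12 + 1) := mul_le_mul_of_nonneg_right h2 (by positivity)
      _ = (7 / 8) ^ 13 * (7 / 8) ^ i := by
          rw [one_mul, ← pow_add]
          congr 1
          omega

theorem thetaHalf : Summable (fun k : ℤ => Real.exp (-(q ^ k)) * (8 / 7 : ℝ) ^ k) ∧
    ∑' k : ℤ, Real.exp (-(q ^ k)) * (8 / 7 : ℝ) ^ k ≤ 67 / 10 := by
  have h := sb_int (fun k : ℤ => Real.exp (-(q ^ k)) * (8 / 7 : ℝ) ^ k) (617/500) (678/125)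
    (by simp only [q_nat, e_nat]; exact sb_half1) (by simp only [q_neg, e_neg]; exact sb_half2)
  exact ⟨h.1, h.2.trans (by norm_num)⟩

private theorem sb_five1 :
    Summable (fun n : ℕ => Real.exp (-((64 / 49 : ℝ) ^ n)) * ((64 / 49 : ℝ) ^ n) ^ 5) ∧
    ∑' n : ℕ, Real.exp (-((64 / 49 : ℝ) ^ n)) * ((64 / 49 : ℝ) ^ n) ^ 5 ≤ 4489/50 := by
  have h := sb_tail (fun n : ℕ => Real.exp (-((64 / 49 : ℝ) ^ n)) * ((64 / 49 : ℝ) ^ n) ^ 5)
    (fun i => by positivity) 13 (2 / 100) ((49 / 64) ^ 7) (by positivity) (by norm_num) ?_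
  · refine ⟨h.1, h.2.trans ?_⟩
    have a0 := mul_le_mul_of_nonneg_right sbA0 (show (0 : ℝ) ≤ ((64 / 49) ^ 0) ^ 5 by positivity)
    have a1 := mul_le_mul_of_nonneg_right sbA1 (show (0 : ℝ) ≤ ((64 / 49) ^ 1) ^ 5 by positivity)
    have a2 := mul_le_mul_of_nonneg_right sbA2 (show (0 : ℝ) ≤ ((64 / 49) ^ 2) ^ 5 by positivity)
    have a3 := mul_le_mul_of_nonneg_right sbA3 (show (0 : ℝ) ≤ ((64 / 49) ^ 3) ^ 5 by positivity)
    have a4 := mul_le_mul_of_nonneg_right sbA4 (show (0 : ℝ) ≤ ((64 / 49) ^ 4) ^ 5 by positivity)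
    have a5 := mul_le_mul_of_nonneg_right sbA5 (show (0 : ℝ) ≤ ((64 / 49) ^ 5) ^ 5 by positivity)
    have a6 := mul_le_mul_of_nonneg_right sbA6 (show (0 : ℝ) ≤ ((64 / 49) ^ 6) ^ 5 by positivity)
    have a7 := mul_le_mul_of_nonneg_right sbA7 (show (0 : ℝ) ≤ ((64 / 49) ^ 7) ^ 5 by positivity)
    have a8 := mul_le_mul_of_nonneg_right sbA8 (show (0 : ℝ) ≤ ((64 / 49) ^ 8) ^ 5 by positivity)
    have a9 := mul_le_mul_of_nonneg_right sbA9 (show (0 : ℝ) ≤ ((64 / 49) ^ 9) ^ 5 by positivity)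
    have a10 := mul_le_mul_of_nonneg_right sbA10 (show (0 : ℝ) ≤ ((64 / 49) ^ 10) ^ 5 by positivity)
    have a11 := mul_le_mul_of_nonneg_right sbA11 (show (0 : ℝ) ≤ ((64 / 49) ^ 11) ^ 5 by positivity)
    have a12 := mul_le_mul_of_nonneg_right sbA12 (show (0 : ℝ) ≤ ((64 / 49) ^ 12) ^ 5 by positivity)
    simp only [Finset.sum_range_succ, Finset.sum_range_zero]
    norm_num at *
    linarith
  · intro i
    have hx : (0 : ℝ) < (64 / 49 : ℝ) ^ (i + 13) := by positivity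
    have h1 := Real.pow_div_factorial_le_exp _ hx.le 12
    have h2 : Real.exp (-((64 / 49 : ℝ) ^ (i + 13))) ≤ 479001600 / ((64 / 49 : ℝ) ^ (i + 13)) ^ 12 := by
      rw [Real.exp_neg, inv_le_comm₀ (Real.exp_pos _) (by positivity), inv_div]
      simpa [Nat.factorial] using h1
    calc Real.exp (-((64 / 49 : ℝ) ^ (i + 13))) * ((64 / 49 : ℝ) ^ (i + 13)) ^ 5
        ≤ 479001600 / ((64 / 49 : ℝ) ^ (i + 13)) ^ 12 * ((64 / 49 : ℝ) ^ (i + 13)) ^ 5 :=
          mul_le_mul_of_nonneg_right h2 (by positivity)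
      _ = 479001600 * ((49 / 64) ^ (i + 13)) ^ 7 := by
          have e1 : ((49 / 64 : ℝ) ^ (i + 13)) = ((64 / 49 : ℝ) ^ (i + 13))⁻¹ := by
            rw [← inv_pow]
            norm_num
          rw [e1]
          field_simp
      _ = 479001600 * ((49 / 64) ^ 7) ^ (i + 13) := by
          rw [← pow_mul, ← pow_mul, mul_comm (i + 13) 7]
      _ = (479001600 * ((49 / 64) ^ 7) ^ 13) * ((49 / 64) ^ 7) ^ i := by
          rw [pow_add]
          ring
      _ ≤ 2 / 100 * ((49 / 64) ^ 7) ^ i := by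
          apply mul_le_mul_of_nonneg_right _ (by positivity)
          norm_num

private theorem sb_five2 :
    Summable (fun n : ℕ => Real.exp (-((49 / 64 : ℝ) ^ (n + 1))) * ((49 / 64 : ℝ) ^ (n + 1)) ^ 5) ∧
    ∑' n : ℕ, Real.exp (-((49 / 64 : ℝ) ^ (n + 1))) * ((49 / 64 : ℝ) ^ (n + 1)) ^ 5 ≤ 19/100 := by
  have h := sb_tail
    (fun n : ℕ => Real.exp (-((49 / 64 : ℝ) ^ (n + 1))) * ((49 / 64 : ℝ) ^ (n + 1)) ^ 5)
    (fun i => by positivity) 2 (((49 / 64) ^ 5) ^ 3) ((49 / 64) ^ 5) (by positivity) (by norm_num) ?_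
  · refine ⟨h.1, h.2.trans ?_⟩
    have b1 := mul_le_mul_of_nonneg_right sbB1 (show (0 : ℝ) ≤ ((49 / 64) ^ 1) ^ 5 by positivity)
    have b2 := mul_le_mul_of_nonneg_right sbB2 (show (0 : ℝ) ≤ ((49 / 64) ^ 2) ^ 5 by positivity)
    simp only [Finset.sum_range_succ, Finset.sum_range_zero]
    norm_num at *
    linarith
  · intro i
    have h2 : Real.exp (-((49 / 64 : ℝ) ^ (i + 2 + 1))) ≤ 1 := by
      rw [Real.exp_le_one_iff]
      have : (0 : ℝ) < (49 / 64 : ℝ) ^ (i + 2 + 1) := by positivity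
      linarith
    calc Real.exp (-((49 / 64 : ℝ) ^ (i + 2 + 1))) * ((49 / 64 : ℝ) ^ (i + 2 + 1)) ^ 5
        ≤ 1 * ((49 / 64 : ℝ) ^ (i + 2 + 1)) ^ 5 := mul_le_mul_of_nonneg_right h2 (by positivity)
      _ = ((49 / 64) ^ 5) ^ 3 * ((49 / 64) ^ 5) ^ i := by
          rw [one_mul, ← pow_add, ← pow_mul, ← pow_mul]
          congr 1
          omega

theorem thetaFive : Summable (fun k : ℤ => Real.exp (-(q ^ k)) * (q ^ k) ^ 5) ∧
    ∑' k : ℤ, Real.exp (-(q ^ k)) * (q ^ k) ^ 5 ≤ 91 := by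
  have h := sb_int (fun k : ℤ => Real.exp (-(q ^ k)) * (q ^ k) ^ 5) (4489/50) (19/100)
    (by simp only [q_nat]; exact sb_five1) (by simp only [q_neg]; exact sb_five2)
  exact ⟨h.1, h.2.trans (by norm_num)⟩

private theorem q_pos : (0 : ℝ) < q := by unfold q; norm_num

private theorem sqrt_q (k : ℤ) {X : ℝ} (hX : 0 < X) :
    √(X * q ^ (-k)) = √X * (8 / 7 : ℝ) ^ (-k) := by
  rw [Real.sqrt_mul hX.le]
  congr 1
  have e1 : q ^ (-k) = ((8 / 7 : ℝ) ^ (-k)) ^ 2 := by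
    unfold q
    rw [← zpow_natCast, ← zpow_mul, mul_comm, zpow_mul]
    norm_num
  rw [e1, Real.sqrt_sq (zpow_nonneg (by norm_num) _)]

private theorem sb_main (n : ℕ) : ∀ X : ℝ, 0 < X → 0 ≤ S n X ∧
    S n X ≤ 1 / 2 * (67 / 10) ^ n / √X ∧ S n X ≤ 120 * 91 ^ n / X ^ 5 ∧
    Summable (fun k : ℤ => Real.exp (-(q ^ k)) * S n (X * q ^ (-k))) := by
  have key : ∀ n : ℕ, (∀ X : ℝ, 0 < X → 0 ≤ S n X ∧
      S n X ≤ 1 / 2 * (67 / 10) ^ n / √X ∧ S n X ≤ 120 * 91 ^ n / X ^ 5) →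
      ∀ X : ℝ, 0 < X → Summable (fun k : ℤ => Real.exp (-(q ^ k)) * S n (X * q ^ (-k))) := by
    intro n ih X hX
    have hq := q_pos
    refine Summable.of_nonneg_of_le (fun k => ?_) (fun k => ?_)
      (thetaHalf.1.mul_left (1 / 2 * (67 / 10) ^ n / √X))
    · exact mul_nonneg (Real.exp_pos _).le (ih _ (by positivity)).1
    · have h1 := (ih (X * q ^ (-k)) (by positivity)).2.1
      rw [sqrt_q k hX] at h1
      calc Real.exp (-(q ^ k)) * S n (X * q ^ (-k))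
          ≤ Real.exp (-(q ^ k)) * (1 / 2 * (67 / 10) ^ n / (√X * (8 / 7 : ℝ) ^ (-k))) :=
            mul_le_mul_of_nonneg_left h1 (Real.exp_pos _).le
        _ = 1 / 2 * (67 / 10) ^ n / √X * (Real.exp (-(q ^ k)) * (8 / 7 : ℝ) ^ k) := by
            rw [zpow_neg]
            field_simp
  induction n with
  | zero =>
    have h0 : ∀ X : ℝ, 0 < X → 0 ≤ S 0 X ∧
        S 0 X ≤ 1 / 2 * (67 / 10) ^ 0 / √X ∧ S 0 X ≤ 120 * 91 ^ 0 / X ^ 5 := by
      intro X hX
      refine ⟨(Real.exp_pos _).le, ?_, ?_⟩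
      · change Real.exp (-X) ≤ _
        have hs : 0 < √X := Real.sqrt_pos.mpr hX
        have h1 : 2 * √X ≤ Real.exp X := by
          have h2 := Real.add_one_le_exp X
          have h3 : √X ^ 2 = X := Real.sq_sqrt hX.le
          nlinarith [sq_nonneg (√X - 1)]
        rw [pow_zero, mul_one, Real.exp_neg, inv_le_comm₀ (Real.exp_pos _) (by positivity), inv_div,
          div_le_iff₀ (by norm_num)]
        linarith
      · change Real.exp (-X) ≤ _
        have h1 := Real.pow_div_factorial_le_exp X hX.le 5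
        rw [pow_zero, mul_one, Real.exp_neg, inv_le_comm₀ (Real.exp_pos _) (by positivity), inv_div]
        simpa [Nat.factorial] using h1
    intro X hX
    obtain ⟨h1, h2, h3⟩ := h0 X hX
    exact ⟨h1, h2, h3, key 0 h0 X hX⟩
  | succ n ih =>
    have hq := q_pos
    have h0 : ∀ X : ℝ, 0 < X → 0 ≤ S (n + 1) X ∧
        S (n + 1) X ≤ 1 / 2 * (67 / 10) ^ (n + 1) / √X ∧
        S (n + 1) X ≤ 120 * 91 ^ (n + 1) / X ^ 5 := by
      intro X hX
      have hs : 0 < √X := Real.sqrt_pos.mpr hX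
      have hS : S (n + 1) X = ∑' k : ℤ, Real.exp (-(q ^ k)) * S n (X * q ^ (-k)) := rfl
      rw [hS]
      have hsum := (ih X hX).2.2.2
      refine ⟨tsum_nonneg (fun k => mul_nonneg (Real.exp_pos _).le (ih _ (by positivity)).1), ?_, ?_⟩
      · have h1 : ∑' k : ℤ, Real.exp (-(q ^ k)) * S n (X * q ^ (-k)) ≤
            ∑' k : ℤ, 1 / 2 * (67 / 10) ^ n / √X * (Real.exp (-(q ^ k)) * (8 / 7 : ℝ) ^ k) := by
          refine hsum.tsum_le_tsum (fun k => ?_) (thetaHalf.1.mul_left _)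
          have h1 := (ih (X * q ^ (-k)) (by positivity)).2.1
          rw [sqrt_q k hX] at h1
          calc Real.exp (-(q ^ k)) * S n (X * q ^ (-k))
              ≤ Real.exp (-(q ^ k)) * (1 / 2 * (67 / 10) ^ n / (√X * (8 / 7 : ℝ) ^ (-k))) :=
                mul_le_mul_of_nonneg_left h1 (Real.exp_pos _).le
            _ = 1 / 2 * (67 / 10) ^ n / √X * (Real.exp (-(q ^ k)) * (8 / 7 : ℝ) ^ k) := by
                rw [zpow_neg]
                field_simp
        refine h1.trans ?_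
        rw [tsum_mul_left]
        calc 1 / 2 * (67 / 10) ^ n / √X * ∑' k : ℤ, Real.exp (-(q ^ k)) * (8 / 7 : ℝ) ^ k
            ≤ 1 / 2 * (67 / 10) ^ n / √X * (67 / 10) :=
              mul_le_mul_of_nonneg_left thetaHalf.2 (by positivity)
          _ = 1 / 2 * (67 / 10) ^ (n + 1) / √X := by
              rw [pow_succ]
              ring
      · have h1 : ∑' k : ℤ, Real.exp (-(q ^ k)) * S n (X * q ^ (-k)) ≤
            ∑' k : ℤ, 120 * 91 ^ n / X ^ 5 * (Real.exp (-(q ^ k)) * (q ^ k) ^ 5) := by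
          refine hsum.tsum_le_tsum (fun k => ?_) (thetaFive.1.mul_left _)
          have h1 := (ih (X * q ^ (-k)) (by positivity)).2.2.1
          calc Real.exp (-(q ^ k)) * S n (X * q ^ (-k))
              ≤ Real.exp (-(q ^ k)) * (120 * 91 ^ n / (X * q ^ (-k)) ^ 5) :=
                mul_le_mul_of_nonneg_left h1 (Real.exp_pos _).le
            _ = 120 * 91 ^ n / X ^ 5 * (Real.exp (-(q ^ k)) * (q ^ k) ^ 5) := by
                rw [zpow_neg]
                field_simp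
        refine h1.trans ?_
        rw [tsum_mul_left]
        calc 120 * 91 ^ n / X ^ 5 * ∑' k : ℤ, Real.exp (-(q ^ k)) * (q ^ k) ^ 5
            ≤ 120 * 91 ^ n / X ^ 5 * 91 :=
              mul_le_mul_of_nonneg_left thetaFive.2 (by positivity)
          _ = 120 * 91 ^ (n + 1) / X ^ 5 := by
              rw [pow_succ]
              ring
    intro X hX
    obtain ⟨h1, h2, h3⟩ := h0 X hX
    exact ⟨h1, h2, h3, key (n + 1) h0 X hX⟩

theorem S_nonneg (n : ℕ) {X : ℝ} (hX : 0 < X) : 0 ≤ S n X := (sb_main n X hX).1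

theorem S_summable (n : ℕ) {X : ℝ} (hX : 0 < X) :
    Summable (fun k : ℤ => Real.exp (-(q ^ k)) * S n (X * q ^ (-k))) := (sb_main n X hX).2.2.2

theorem S_le_half (n : ℕ) {X : ℝ} (hX : 0 < X) : S n X ≤ 1 / 2 * (67 / 10) ^ n / √X :=
  (sb_main n X hX).2.1

theorem S_le_five (n : ℕ) {X : ℝ} (hX : 0 < X) : S n X ≤ 120 * 91 ^ n / X ^ 5 :=
  (sb_main n X hX).2.2.1

end H81.LP
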