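import Pool.Agent.H81.LP.ExpTab
import Pool.Agent.H81.LP.TrapN

/-!
# From tables to values of the kernel
-/

namespace H81.LP

theorem q_pos : 0 < q := by unfold q; norm_num

theorem sqrt_q_zpow (m : ℤ) : √(q ^ m) = (8 / 7 : ℝ) ^ m := by
  have h : q ^ m = ((8 / 7 : ℝ) ^ m) ^ 2 := by
    unfold q
    rw [← zpow_natCast ((8 / 7 : ℝ) ^ m) 2, ← zpow_mul, mul_comm m, zpow_mul]
    norm_num
  rw [h, Real.sqrt_sq (by positivity)]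

theorem approx {σ : ℝ} (hσ : 1 ≤ σ) {n : ℕ} {t : List ℕ} (ht : TabOK σ 58 n (7 ^ n / 2 ^ 51) t)
    {i : ℕ} (hi : i < t.length) :
    |K n (σ * q ^ ((58 : ℤ) - i)) / hh ^ n - (t[i] : ℝ) / 2 ^ 96| ≤
      (n + 1) * 7 ^ n / 2 ^ 41 * (8 / 7 : ℝ) ^ ((i : ℤ) - 58) := by
  have hq := q_pos
  have hX : 0 < σ * q ^ ((58 : ℤ) - i) := by positivity
  obtain ⟨h1, h2⟩ := ht i hi
  have h3 := trapN' n hX
  have h4 : 1 / √(σ * q ^ ((58 : ℤ) - i)) ≤ (8 / 7 : ℝ) ^ ((i : ℤ) - 58) := by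
    have h5 : (8 / 7 : ℝ) ^ ((58 : ℤ) - i) ≤ √(σ * q ^ ((58 : ℤ) - i)) := by
      rw [← sqrt_q_zpow]
      apply Real.sqrt_le_sqrt
      have : 0 < q ^ ((58 : ℤ) - i) := by positivity
      nlinarith
    have h6 : (8 / 7 : ℝ) ^ ((i : ℤ) - 58) = 1 / (8 / 7 : ℝ) ^ ((58 : ℤ) - i) := by
      rw [one_div, ← zpow_neg]
      congr 1
      ring
    rw [h6]
    exact one_div_le_one_div_of_le (by positivity) h5
  set Z := √(σ * q ^ ((58 : ℤ) - i)) with hZ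
  have hZ0 : 0 < Z := Real.sqrt_pos.mpr hX
  have h7 : |K n (σ * q ^ ((58 : ℤ) - i)) / hh ^ n - (t[i] : ℝ) / 2 ^ 96| ≤
      n * (1 / 2 ^ 41) * 7 ^ n / Z + 7 ^ n / 2 ^ 51 / Z := by
    have h8 : |S n (σ * q ^ ((58 : ℤ) - i)) - (t[i] : ℝ) / 2 ^ 96| ≤ 7 ^ n / 2 ^ 51 / Z := by
      push_cast at h1 h2
      rw [abs_le]
      have : (0 : ℝ) ≤ 7 ^ n / 2 ^ 51 / Z := by positivity
      constructor
      · linarith
      · linarith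
    calc |K n (σ * q ^ ((58 : ℤ) - i)) / hh ^ n - (t[i] : ℝ) / 2 ^ 96|
        = |(K n (σ * q ^ ((58 : ℤ) - i)) / hh ^ n - S n (σ * q ^ ((58 : ℤ) - i))) +
          (S n (σ * q ^ ((58 : ℤ) - i)) - (t[i] : ℝ) / 2 ^ 96)| := by ring_nf
      _ ≤ _ := abs_add_le _ _
      _ ≤ _ := add_le_add h3 h8
  have h9 : n * (1 / 2 ^ 41) * 7 ^ n / Z + 7 ^ n / 2 ^ 51 / Z =
      (n * (1 / 2 ^ 41) * 7 ^ n + 7 ^ n / 2 ^ 51) * (1 / Z) := by ring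
  rw [h9] at h7
  have h10 : (n * (1 / 2 ^ 41) * 7 ^ n + 7 ^ n / 2 ^ 51 : ℝ) ≤ (n + 1) * 7 ^ n / 2 ^ 41 := by
    have : (0 : ℝ) < 7 ^ n := by positivity
    have h11 : (7 : ℝ) ^ n / 2 ^ 51 ≤ 7 ^ n / 2 ^ 41 := by
      apply div_le_div_of_nonneg_left this.le (by positivity)
      norm_num
    calc (n * (1 / 2 ^ 41) * 7 ^ n + 7 ^ n / 2 ^ 51 : ℝ) ≤
        n * (1 / 2 ^ 41) * 7 ^ n + 7 ^ n / 2 ^ 41 := by linarith
      _ = _ := by ring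
  calc _ ≤ _ := h7
    _ ≤ (n + 1) * 7 ^ n / 2 ^ 41 * (8 / 7 : ℝ) ^ ((i : ℤ) - 58) := by
      apply mul_le_mul h10 h4 (by positivity) (by positivity)

/-- bounds from one table entry; `m = 58 - i` -/
theorem bounds {σ : ℝ} (hσ : 1 ≤ σ) {n : ℕ} {t : List ℕ} (ht : TabOK σ 58 n (7 ^ n / 2 ^ 51) t)
    {i v : ℕ} (hi : i < t.length) (hv : t.getD i 0 = v) (m : ℤ) (hm : (58 : ℤ) - i = m)
    (lo hi' : ℝ) (hlo : lo ≤ (v : ℝ) / 2 ^ 96 - (n + 1) * 7 ^ n / 2 ^ 41 * (8 / 7 : ℝ) ^ (-m))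
    (hhi : (v : ℝ) / 2 ^ 96 + (n + 1) * 7 ^ n / 2 ^ 41 * (8 / 7 : ℝ) ^ (-m) ≤ hi') :
    lo ≤ K n (σ * q ^ m) / hh ^ n ∧ K n (σ * q ^ m) / hh ^ n ≤ hi' := by
  have h := approx hσ ht hi
  have hv' : t[i] = v := by
    rw [← hv, List.getD_eq_getElem _ _ hi]
  rw [hv', hm] at h
  have : (i : ℤ) - 58 = -m := by omega
  rw [this, abs_le] at h
  constructor <;> linarith [h.1, h.2]

end H81.LP
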