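import Pool.Agent.H81.LP.Val5

/-! Generated: the sign conditions for `d = 5`. -/

namespace H81.LP

set_option linter.unusedSimpArgs false

theorem om5_eq : ∀ j, om5 j = c5 j * (7 / 8 : ℝ) ^ (m5 j) := by
  intro j
  fin_cases j
  · show ((-32084843938789556631636017152 / 33232930569601) : ℝ) = (-113988263943517) * (7 / 8 : ℝ) ^ (-16 : ℤ)
    norm_num
  · show ((2426155932997049501008003072 / 678223072849) : ℝ) = (551643991683943) * (7 / 8 : ℝ) ^ (-14 : ℤ)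
    norm_num
  · show ((-277753857701591710749949952 / 96889010407) : ℝ) = (-505231323953179) * (7 / 8 : ℝ) ^ (-13 : ℤ)
    norm_num
  · show ((10518926537052699754496 / 40353607) : ℝ) = (68575596212753) * (7 / 8 : ℝ) ^ (-10 : ℤ)
    norm_num

theorem cond5 : Cond 4 c5 (fun j => q ^ (m5 j)) := by
  have one : (((64 : ℕ) : ℝ) / 64) = 1 := by norm_num
  obtain ⟨a10, a12, a13, a14, a15, a16, a18, a30, a33, a34, a36⟩ := val5_64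
  simp only [one, one_mul] at a10 a12 a13 a14 a15 a16 a18 a30 a33 a34 a36
  obtain ⟨x10, hx10⟩ : ∃ x, x = K 4 (q ^ (-10 : ℤ)) / hh ^ 4 := ⟨_, rfl⟩
  rw [← hx10] at a10
  obtain ⟨x12, hx12⟩ : ∃ x, x = K 4 (q ^ (-12 : ℤ)) / hh ^ 4 := ⟨_, rfl⟩
  rw [← hx12] at a12
  obtain ⟨x13, hx13⟩ : ∃ x, x = K 4 (q ^ (-13 : ℤ)) / hh ^ 4 := ⟨_, rfl⟩
  rw [← hx13] at a13
  obtain ⟨x14, hx14⟩ : ∃ x, x = K 4 (q ^ (-14 : ℤ)) / hh ^ 4 := ⟨_, rfl⟩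
  rw [← hx14] at a14
  obtain ⟨x15, hx15⟩ : ∃ x, x = K 4 (q ^ (-15 : ℤ)) / hh ^ 4 := ⟨_, rfl⟩
  rw [← hx15] at a15
  obtain ⟨x16, hx16⟩ : ∃ x, x = K 4 (q ^ (-16 : ℤ)) / hh ^ 4 := ⟨_, rfl⟩
  rw [← hx16] at a16
  obtain ⟨x18, hx18⟩ : ∃ x, x = K 4 (q ^ (-18 : ℤ)) / hh ^ 4 := ⟨_, rfl⟩
  rw [← hx18] at a18
  obtain ⟨x30, hx30⟩ : ∃ x, x = K 4 (q ^ (-30 : ℤ)) / hh ^ 4 := ⟨_, rfl⟩
  rw [← hx30] at a30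
  obtain ⟨x33, hx33⟩ : ∃ x, x = K 4 (q ^ (-33 : ℤ)) / hh ^ 4 := ⟨_, rfl⟩
  rw [← hx33] at a33
  obtain ⟨x34, hx34⟩ : ∃ x, x = K 4 (q ^ (-34 : ℤ)) / hh ^ 4 := ⟨_, rfl⟩
  rw [← hx34] at a34
  obtain ⟨x36, hx36⟩ : ∃ x, x = K 4 (q ^ (-36 : ℤ)) / hh ^ 4 := ⟨_, rfl⟩
  rw [← hx36] at a36
  have k0_0 : K 4 (q ^ (m5 0)) / hh ^ 4 = x16 := by
    rw [hx16]
    rfl
  have k0_1 : K 4 (q ^ (m5 1)) / hh ^ 4 = x14 := by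
    rw [hx14]
    rfl
  have k0_2 : K 4 (q ^ (m5 2)) / hh ^ 4 = x13 := by
    rw [hx13]
    rfl
  have k0_3 : K 4 (q ^ (m5 3)) / hh ^ 4 = x10 := by
    rw [hx10]
    rfl
  have k2_0 : K 4 (q ^ (m5 0 - 2)) / hh ^ 4 = x18 := by
    rw [hx18]
    rfl
  have k2_1 : K 4 (q ^ (m5 1 - 2)) / hh ^ 4 = x16 := by
    rw [hx16]
    rfl
  have k2_2 : K 4 (q ^ (m5 2 - 2)) / hh ^ 4 = x15 := by
    rw [hx15]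
    rfl
  have k2_3 : K 4 (q ^ (m5 3 - 2)) / hh ^ 4 = x12 := by
    rw [hx12]
    rfl
  have k20_0 : K 4 (q ^ (m5 0 - 20)) / hh ^ 4 = x36 := by
    rw [hx36]
    rfl
  have k20_1 : K 4 (q ^ (m5 1 - 20)) / hh ^ 4 = x34 := by
    rw [hx34]
    rfl
  have k20_2 : K 4 (q ^ (m5 2 - 20)) / hh ^ 4 = x33 := by
    rw [hx33]
    rfl
  have k20_3 : K 4 (q ^ (m5 3 - 20)) / hh ^ 4 = x30 := by
    rw [hx30]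
    rfl
  obtain ⟨b0_0, b0_1, b0_2, b0_3⟩ := val5_79
  obtain ⟨v0_0, hv0_0⟩ : ∃ x, x = K 4 (((79 : ℕ) : ℝ) / 64 * q ^ (-11 : ℤ)) / hh ^ 4 := ⟨_, rfl⟩
  rw [← hv0_0] at b0_0
  obtain ⟨v0_1, hv0_1⟩ : ∃ x, x = K 4 (((79 : ℕ) : ℝ) / 64 * q ^ (-13 : ℤ)) / hh ^ 4 := ⟨_, rfl⟩
  rw [← hv0_1] at b0_1
  obtain ⟨v0_2, hv0_2⟩ : ∃ x, x = K 4 (((79 : ℕ) : ℝ) / 64 * q ^ (-14 : ℤ)) / hh ^ 4 := ⟨_, rfl⟩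
  rw [← hv0_2] at b0_2
  obtain ⟨v0_3, hv0_3⟩ : ∃ x, x = K 4 (((79 : ℕ) : ℝ) / 64 * q ^ (-17 : ℤ)) / hh ^ 4 := ⟨_, rfl⟩
  rw [← hv0_3] at b0_3
  obtain ⟨b1_0, b1_1, b1_2, b1_3⟩ := val5_80
  obtain ⟨v1_0, hv1_0⟩ : ∃ x, x = K 4 (((80 : ℕ) : ℝ) / 64 * q ^ (-11 : ℤ)) / hh ^ 4 := ⟨_, rfl⟩
  rw [← hv1_0] at b1_0
  obtain ⟨v1_1, hv1_1⟩ : ∃ x, x = K 4 (((80 : ℕ) : ℝ) / 64 * q ^ (-13 : ℤ)) / hh ^ 4 := ⟨_, rfl⟩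
  rw [← hv1_1] at b1_1
  obtain ⟨v1_2, hv1_2⟩ : ∃ x, x = K 4 (((80 : ℕ) : ℝ) / 64 * q ^ (-14 : ℤ)) / hh ^ 4 := ⟨_, rfl⟩
  rw [← hv1_2] at b1_2
  obtain ⟨v1_3, hv1_3⟩ : ∃ x, x = K 4 (((80 : ℕ) : ℝ) / 64 * q ^ (-17 : ℤ)) / hh ^ 4 := ⟨_, rfl⟩
  rw [← hv1_3] at b1_3
  obtain ⟨b2_0, b2_1, b2_2, b2_3⟩ := val5_81
  obtain ⟨v2_0, hv2_0⟩ : ∃ x, x = K 4 (((81 : ℕ) : ℝ) / 64 * q ^ (-11 : ℤ)) / hh ^ 4 := ⟨_, rfl⟩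
  rw [← hv2_0] at b2_0
  obtain ⟨v2_1, hv2_1⟩ : ∃ x, x = K 4 (((81 : ℕ) : ℝ) / 64 * q ^ (-13 : ℤ)) / hh ^ 4 := ⟨_, rfl⟩
  rw [← hv2_1] at b2_1
  obtain ⟨v2_2, hv2_2⟩ : ∃ x, x = K 4 (((81 : ℕ) : ℝ) / 64 * q ^ (-14 : ℤ)) / hh ^ 4 := ⟨_, rfl⟩
  rw [← hv2_2] at b2_2
  obtain ⟨v2_3, hv2_3⟩ : ∃ x, x = K 4 (((81 : ℕ) : ℝ) / 64 * q ^ (-17 : ℤ)) / hh ^ 4 := ⟨_, rfl⟩
  rw [← hv2_3] at b2_3
  obtain ⟨b3_0, b3_1, b3_2, b3_3⟩ := val5_82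
  obtain ⟨v3_0, hv3_0⟩ : ∃ x, x = K 4 (((82 : ℕ) : ℝ) / 64 * q ^ (-11 : ℤ)) / hh ^ 4 := ⟨_, rfl⟩
  rw [← hv3_0] at b3_0
  obtain ⟨v3_1, hv3_1⟩ : ∃ x, x = K 4 (((82 : ℕ) : ℝ) / 64 * q ^ (-13 : ℤ)) / hh ^ 4 := ⟨_, rfl⟩
  rw [← hv3_1] at b3_1
  obtain ⟨v3_2, hv3_2⟩ : ∃ x, x = K 4 (((82 : ℕ) : ℝ) / 64 * q ^ (-14 : ℤ)) / hh ^ 4 := ⟨_, rfl⟩
  rw [← hv3_2] at b3_2
  obtain ⟨v3_3, hv3_3⟩ : ∃ x, x = K 4 (((82 : ℕ) : ℝ) / 64 * q ^ (-17 : ℤ)) / hh ^ 4 := ⟨_, rfl⟩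
  rw [← hv3_3] at b3_3
  obtain ⟨b4_0, b4_1, b4_2, b4_3⟩ := val5_83
  obtain ⟨v4_0, hv4_0⟩ : ∃ x, x = K 4 (((83 : ℕ) : ℝ) / 64 * q ^ (-11 : ℤ)) / hh ^ 4 := ⟨_, rfl⟩
  rw [← hv4_0] at b4_0
  obtain ⟨v4_1, hv4_1⟩ : ∃ x, x = K 4 (((83 : ℕ) : ℝ) / 64 * q ^ (-13 : ℤ)) / hh ^ 4 := ⟨_, rfl⟩
  rw [← hv4_1] at b4_1
  obtain ⟨v4_2, hv4_2⟩ : ∃ x, x = K 4 (((83 : ℕ) : ℝ) / 64 * q ^ (-14 : ℤ)) / hh ^ 4 := ⟨_, rfl⟩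
  rw [← hv4_2] at b4_2
  obtain ⟨v4_3, hv4_3⟩ : ∃ x, x = K 4 (((83 : ℕ) : ℝ) / 64 * q ^ (-17 : ℤ)) / hh ^ 4 := ⟨_, rfl⟩
  rw [← hv4_3] at b4_3
  set V : Fin 5 → Fin 4 → ℝ := ![![v0_0, v0_1, v0_2, v0_3], ![v1_0, v1_1, v1_2, v1_3], ![v2_0, v2_1, v2_2, v2_3], ![v3_0, v3_1, v3_2, v3_3], ![v4_0, v4_1, v4_2, v4_3]] with hVdef
  have hV : ∀ i j, V i j = K 4 (((81 : ℝ) + (i : ℕ) - 2) / 64 * q ^ ((-27 : ℤ) - m5 j)) / hh ^ 4 := by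
    intro i j
    fin_cases i <;> fin_cases j
    · show v0_0 = K 4 (((81 : ℝ) + ((0 : ℕ) : ℝ) - 2) / 64 * q ^ ((-27 : ℤ) - (-16))) / hh ^ 4
      rw [hv0_0]
      norm_num
    · show v0_1 = K 4 (((81 : ℝ) + ((0 : ℕ) : ℝ) - 2) / 64 * q ^ ((-27 : ℤ) - (-14))) / hh ^ 4
      rw [hv0_1]
      norm_num
    · show v0_2 = K 4 (((81 : ℝ) + ((0 : ℕ) : ℝ) - 2) / 64 * q ^ ((-27 : ℤ) - (-13))) / hh ^ 4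
      rw [hv0_2]
      norm_num
    · show v0_3 = K 4 (((81 : ℝ) + ((0 : ℕ) : ℝ) - 2) / 64 * q ^ ((-27 : ℤ) - (-10))) / hh ^ 4
      rw [hv0_3]
      norm_num
    · show v1_0 = K 4 (((81 : ℝ) + ((1 : ℕ) : ℝ) - 2) / 64 * q ^ ((-27 : ℤ) - (-16))) / hh ^ 4
      rw [hv1_0]
      norm_num
    · show v1_1 = K 4 (((81 : ℝ) + ((1 : ℕ) : ℝ) - 2) / 64 * q ^ ((-27 : ℤ) - (-14))) / hh ^ 4
      rw [hv1_1]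
      norm_num
    · show v1_2 = K 4 (((81 : ℝ) + ((1 : ℕ) : ℝ) - 2) / 64 * q ^ ((-27 : ℤ) - (-13))) / hh ^ 4
      rw [hv1_2]
      norm_num
    · show v1_3 = K 4 (((81 : ℝ) + ((1 : ℕ) : ℝ) - 2) / 64 * q ^ ((-27 : ℤ) - (-10))) / hh ^ 4
      rw [hv1_3]
      norm_num
    · show v2_0 = K 4 (((81 : ℝ) + ((2 : ℕ) : ℝ) - 2) / 64 * q ^ ((-27 : ℤ) - (-16))) / hh ^ 4
      rw [hv2_0]
      norm_num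
    · show v2_1 = K 4 (((81 : ℝ) + ((2 : ℕ) : ℝ) - 2) / 64 * q ^ ((-27 : ℤ) - (-14))) / hh ^ 4
      rw [hv2_1]
      norm_num
    · show v2_2 = K 4 (((81 : ℝ) + ((2 : ℕ) : ℝ) - 2) / 64 * q ^ ((-27 : ℤ) - (-13))) / hh ^ 4
      rw [hv2_2]
      norm_num
    · show v2_3 = K 4 (((81 : ℝ) + ((2 : ℕ) : ℝ) - 2) / 64 * q ^ ((-27 : ℤ) - (-10))) / hh ^ 4
      rw [hv2_3]
      norm_num
    · show v3_0 = K 4 (((81 : ℝ) + ((3 : ℕ) : ℝ) - 2) / 64 * q ^ ((-27 : ℤ) - (-16))) / hh ^ 4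
      rw [hv3_0]
      norm_num
    · show v3_1 = K 4 (((81 : ℝ) + ((3 : ℕ) : ℝ) - 2) / 64 * q ^ ((-27 : ℤ) - (-14))) / hh ^ 4
      rw [hv3_1]
      norm_num
    · show v3_2 = K 4 (((81 : ℝ) + ((3 : ℕ) : ℝ) - 2) / 64 * q ^ ((-27 : ℤ) - (-13))) / hh ^ 4
      rw [hv3_2]
      norm_num
    · show v3_3 = K 4 (((81 : ℝ) + ((3 : ℕ) : ℝ) - 2) / 64 * q ^ ((-27 : ℤ) - (-10))) / hh ^ 4
      rw [hv3_3]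
      norm_num
    · show v4_0 = K 4 (((81 : ℝ) + ((4 : ℕ) : ℝ) - 2) / 64 * q ^ ((-27 : ℤ) - (-16))) / hh ^ 4
      rw [hv4_0]
      norm_num
    · show v4_1 = K 4 (((81 : ℝ) + ((4 : ℕ) : ℝ) - 2) / 64 * q ^ ((-27 : ℤ) - (-14))) / hh ^ 4
      rw [hv4_1]
      norm_num
    · show v4_2 = K 4 (((81 : ℝ) + ((4 : ℕ) : ℝ) - 2) / 64 * q ^ ((-27 : ℤ) - (-13))) / hh ^ 4
      rw [hv4_2]
      norm_num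
    · show v4_3 = K 4 (((81 : ℝ) + ((4 : ℕ) : ℝ) - 2) / 64 * q ^ ((-27 : ℤ) - (-10))) / hh ^ 4
      rw [hv4_3]
      norm_num
  have c0 : c5 0 = -113988263943517 := rfl
  have c1 : c5 1 = 551643991683943 := rfl
  have c2 : c5 2 = -505231323953179 := rfl
  have c3 : c5 3 = 68575596212753 := rfl
  have o0 : om5 0 = (-32084843938789556631636017152 / 33232930569601) := rfl
  have o1 : om5 1 = (2426155932997049501008003072 / 678223072849) := rfl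
  have o2 : om5 2 = (-277753857701591710749949952 / 96889010407) := rfl
  have o3 : om5 3 = (10518926537052699754496 / 40353607) := rfl
  have V0_0 : V 0 0 = v0_0 := rfl
  have V0_1 : V 0 1 = v0_1 := rfl
  have V0_2 : V 0 2 = v0_2 := rfl
  have V0_3 : V 0 3 = v0_3 := rfl
  have V1_0 : V 1 0 = v1_0 := rfl
  have V1_1 : V 1 1 = v1_1 := rfl
  have V1_2 : V 1 2 = v1_2 := rfl
  have V1_3 : V 1 3 = v1_3 := rfl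
  have V2_0 : V 2 0 = v2_0 := rfl
  have V2_1 : V 2 1 = v2_1 := rfl
  have V2_2 : V 2 2 = v2_2 := rfl
  have V2_3 : V 2 3 = v2_3 := rfl
  have V3_0 : V 3 0 = v3_0 := rfl
  have V3_1 : V 3 1 = v3_1 := rfl
  have V3_2 : V 3 2 = v3_2 := rfl
  have V3_3 : V 3 3 = v3_3 := rfl
  have V4_0 : V 4 0 = v4_0 := rfl
  have V4_1 : V 4 1 = v4_1 := rfl
  have V4_2 : V 4 2 = v4_2 := rfl
  have V4_3 : V 4 3 = v4_3 := rfl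
  refine cond_of_cert c5 m5 ?_ ?_ ?_ ?_ ?_ 23000000000000 (1248408261 / 1000000000) ?_ ?_ (fun z => K 4 (q ^ z) / hh ^ 4)
    (fun z => rfl) ?_ ?_ ?_ ?_ (-27) 81 (by norm_num) V hV om5 om5_eq 25367666682 ?_ ?_ ?_ ?_ ?_
    (om5 0 * (V 3 0 - 2 * V 2 0 + V 1 0) / 2 + om5 1 * (V 2 1 - 2 * V 1 1 + V 0 1) / 2 +
      om5 2 * (V 3 2 - 2 * V 2 2 + V 1 2) / 2 + om5 3 * (V 2 3 - 2 * V 1 3 + V 0 3) / 2)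
    (om5 0 * (V 4 0 - 2 * V 3 0 + V 2 0) / 2 + om5 1 * (V 3 1 - 2 * V 2 1 + V 1 1) / 2 +
      om5 2 * (V 4 2 - 2 * V 3 2 + V 2 2) / 2 + om5 3 * (V 3 3 - 2 * V 2 3 + V 1 3) / 2) rfl rfl ?_ ?_ ?_ ?_
  · rw [Fin.strictMono_iff_lt_succ]
    decide
  · rw [c0]; norm_num
  · rw [c1]; norm_num
  · rw [c2]; norm_num
  · rw [c3]; norm_num
  · norm_num
  · norm_num
  · simp only [k0_1, k0_2]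
    linarith [a16.1, a16.2, a14.1, a14.2, a13.1, a13.2, a10.1, a10.2]
  · simp only [Fin.sum_univ_four, c0, c1, c2, c3, k0_0, k0_1, k0_2, k0_3]
    linarith [a16.1, a16.2, a14.1, a14.2, a13.1, a13.2, a10.1, a10.2]
  · simp only [Fin.sum_univ_four, c0, c1, c2, c3, k2_0, k2_1, k2_2, k2_3]
    linarith [a18.1, a18.2, a16.1, a16.2, a15.1, a15.2, a12.1, a12.2]
  · simp only [Fin.sum_univ_four, c0, c1, c2, c3, k20_0, k20_1, k20_2, k20_3]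
    linarith [a36.1, a36.2, a34.1, a34.2, a33.1, a33.2, a30.1, a30.2]
  · norm_num
  · simp only [Fin.sum_univ_four, o0, o1, o2, o3]
    norm_num
  · simp only [Fin.sum_univ_four, o0, o1, o2, o3, V0_0, V0_1, V0_2, V0_3, V1_0, V1_1, V1_2, V1_3, V2_0, V2_1, V2_2, V2_3, V3_0, V3_1, V3_2, V3_3, V4_0, V4_1, V4_2, V4_3]
    linarith [b1_0.1, b1_0.2, b1_1.1, b1_1.2, b1_2.1, b1_2.2, b1_3.1, b1_3.2]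
  · simp only [Fin.sum_univ_four, o0, o1, o2, o3, V0_0, V0_1, V0_2, V0_3, V1_0, V1_1, V1_2, V1_3, V2_0, V2_1, V2_2, V2_3, V3_0, V3_1, V3_2, V3_3, V4_0, V4_1, V4_2, V4_3]
    linarith [b2_0.1, b2_0.2, b2_1.1, b2_1.2, b2_2.1, b2_2.2, b2_3.1, b2_3.2]
  · simp only [Fin.sum_univ_four, o0, o1, o2, o3, V0_0, V0_1, V0_2, V0_3, V1_0, V1_1, V1_2, V1_3, V2_0, V2_1, V2_2, V2_3, V3_0, V3_1, V3_2, V3_3, V4_0, V4_1, V4_2, V4_3]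
    linarith [b3_0.1, b3_0.2, b3_1.1, b3_1.2, b3_2.1, b3_2.2, b3_3.1, b3_3.2]
  · rw [div_lt_iff₀ (by norm_num : (0 : ℝ) < 4), abs_lt]
    simp only [Fin.sum_univ_four, o0, o1, o2, o3, V0_0, V0_1, V0_2, V0_3, V1_0, V1_1, V1_2, V1_3, V2_0, V2_1, V2_2, V2_3, V3_0, V3_1, V3_2, V3_3, V4_0, V4_1, V4_2, V4_3]
    constructor <;> linarith [b0_0.1, b0_0.2, b0_1.1, b0_1.2, b0_2.1, b0_2.2, b0_3.1, b0_3.2, b1_0.1, b1_0.2, b1_1.1, b1_1.2, b1_2.1, b1_2.2, b1_3.1, b1_3.2, b2_0.1, b2_0.2, b2_1.1, b2_1.2, b2_2.1, b2_2.2, b2_3.1, b2_3.2, b3_0.1, b3_0.2, b3_1.1, b3_1.2, b3_2.1, b3_2.2, b3_3.1, b3_3.2]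
  · rw [div_lt_iff₀ (by norm_num : (0 : ℝ) < 4), abs_lt]
    simp only [Fin.sum_univ_four, o0, o1, o2, o3, V0_0, V0_1, V0_2, V0_3, V1_0, V1_1, V1_2, V1_3, V2_0, V2_1, V2_2, V2_3, V3_0, V3_1, V3_2, V3_3, V4_0, V4_1, V4_2, V4_3]
    constructor <;> linarith [b0_0.1, b0_0.2, b0_1.1, b0_1.2, b0_2.1, b0_2.2, b0_3.1, b0_3.2, b1_0.1, b1_0.2, b1_1.1, b1_1.2, b1_2.1, b1_2.2, b1_3.1, b1_3.2, b2_0.1, b2_0.2, b2_1.1, b2_1.2, b2_2.1, b2_2.2, b2_3.1, b2_3.2, b3_0.1, b3_0.2, b3_1.1, b3_1.2, b3_2.1, b3_2.2, b3_3.1, b3_3.2]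
  · rw [div_lt_iff₀ (by norm_num : (0 : ℝ) < 4), abs_lt]
    simp only [Fin.sum_univ_four, o0, o1, o2, o3, V0_0, V0_1, V0_2, V0_3, V1_0, V1_1, V1_2, V1_3, V2_0, V2_1, V2_2, V2_3, V3_0, V3_1, V3_2, V3_3, V4_0, V4_1, V4_2, V4_3]
    constructor <;> linarith [b1_0.1, b1_0.2, b1_1.1, b1_1.2, b1_2.1, b1_2.2, b1_3.1, b1_3.2, b2_0.1, b2_0.2, b2_1.1, b2_1.2, b2_2.1, b2_2.2, b2_3.1, b2_3.2, b3_0.1, b3_0.2, b3_1.1, b3_1.2, b3_2.1, b3_2.2, b3_3.1, b3_3.2, b4_0.1, b4_0.2, b4_1.1, b4_1.2, b4_2.1, b4_2.2, b4_3.1, b4_3.2]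
  · rw [div_lt_iff₀ (by norm_num : (0 : ℝ) < 4), abs_lt]
    simp only [Fin.sum_univ_four, o0, o1, o2, o3, V0_0, V0_1, V0_2, V0_3, V1_0, V1_1, V1_2, V1_3, V2_0, V2_1, V2_2, V2_3, V3_0, V3_1, V3_2, V3_3, V4_0, V4_1, V4_2, V4_3]
    constructor <;> linarith [b1_0.1, b1_0.2, b1_1.1, b1_1.2, b1_2.1, b1_2.2, b1_3.1, b1_3.2, b2_0.1, b2_0.2, b2_1.1, b2_1.2, b2_2.1, b2_2.2, b2_3.1, b2_3.2, b3_0.1, b3_0.2, b3_1.1, b3_1.2, b3_2.1, b3_2.2, b3_3.1, b3_3.2, b4_0.1, b4_0.2, b4_1.1, b4_1.2, b4_2.1, b4_2.2, b4_3.1, b4_3.2]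

end H81.LP
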