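import Pool.Agent.H81.LP.Val6

/-! Generated: the sign conditions for `d = 6`. -/

namespace H81.LP

set_option linter.unusedSimpArgs false

theorem om6_eq : ∀ j, om6 j = c6 j * (7 / 8 : ℝ) ^ (m6 j) := by
  intro j
  fin_cases j
  · show ((-310612034785184399958678377070592 / 79792266297612001) : ℝ) = (-206269323784972) * (7 / 8 : ℝ) ^ (-22 : ℤ)
    norm_num
  · show ((1286981127667555028688404381433856 / 79792266297612001) : ℝ) = (1116278187652006) * (7 / 8 : ℝ) ^ (-20 : ℤ)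
    norm_num
  · show ((-166515169223339645746962459787264 / 11398895185373143) : ℝ) = (-1155431092631912) * (7 / 8 : ℝ) ^ (-19 : ℤ)
    norm_num
  · show ((554893528820653588984675434496 / 232630513987207) : ℝ) = (246422228764877) * (7 / 8 : ℝ) ^ (-17 : ℤ)
    norm_num

theorem cond6 : Cond 5 c6 (fun j => q ^ (m6 j)) := by
  have one : (((64 : ℕ) : ℝ) / 64) = 1 := by norm_num
  obtain ⟨a17, a19, a20, a21, a22, a24, a37, a39, a40, a42⟩ := val6_64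
  simp only [one, one_mul] at a17 a19 a20 a21 a22 a24 a37 a39 a40 a42
  obtain ⟨x17, hx17⟩ : ∃ x, x = K 5 (q ^ (-17 : ℤ)) / hh ^ 5 := ⟨_, rfl⟩
  rw [← hx17] at a17
  obtain ⟨x19, hx19⟩ : ∃ x, x = K 5 (q ^ (-19 : ℤ)) / hh ^ 5 := ⟨_, rfl⟩
  rw [← hx19] at a19
  obtain ⟨x20, hx20⟩ : ∃ x, x = K 5 (q ^ (-20 : ℤ)) / hh ^ 5 := ⟨_, rfl⟩
  rw [← hx20] at a20
  obtain ⟨x21, hx21⟩ : ∃ x, x = K 5 (q ^ (-21 : ℤ)) / hh ^ 5 := ⟨_, rfl⟩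
  rw [← hx21] at a21
  obtain ⟨x22, hx22⟩ : ∃ x, x = K 5 (q ^ (-22 : ℤ)) / hh ^ 5 := ⟨_, rfl⟩
  rw [← hx22] at a22
  obtain ⟨x24, hx24⟩ : ∃ x, x = K 5 (q ^ (-24 : ℤ)) / hh ^ 5 := ⟨_, rfl⟩
  rw [← hx24] at a24
  obtain ⟨x37, hx37⟩ : ∃ x, x = K 5 (q ^ (-37 : ℤ)) / hh ^ 5 := ⟨_, rfl⟩
  rw [← hx37] at a37
  obtain ⟨x39, hx39⟩ : ∃ x, x = K 5 (q ^ (-39 : ℤ)) / hh ^ 5 := ⟨_, rfl⟩
  rw [← hx39] at a39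
  obtain ⟨x40, hx40⟩ : ∃ x, x = K 5 (q ^ (-40 : ℤ)) / hh ^ 5 := ⟨_, rfl⟩
  rw [← hx40] at a40
  obtain ⟨x42, hx42⟩ : ∃ x, x = K 5 (q ^ (-42 : ℤ)) / hh ^ 5 := ⟨_, rfl⟩
  rw [← hx42] at a42
  have k0_0 : K 5 (q ^ (m6 0)) / hh ^ 5 = x22 := by
    rw [hx22]
    rfl
  have k0_1 : K 5 (q ^ (m6 1)) / hh ^ 5 = x20 := by
    rw [hx20]
    rfl
  have k0_2 : K 5 (q ^ (m6 2)) / hh ^ 5 = x19 := by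
    rw [hx19]
    rfl
  have k0_3 : K 5 (q ^ (m6 3)) / hh ^ 5 = x17 := by
    rw [hx17]
    rfl
  have k2_0 : K 5 (q ^ (m6 0 - 2)) / hh ^ 5 = x24 := by
    rw [hx24]
    rfl
  have k2_1 : K 5 (q ^ (m6 1 - 2)) / hh ^ 5 = x22 := by
    rw [hx22]
    rfl
  have k2_2 : K 5 (q ^ (m6 2 - 2)) / hh ^ 5 = x21 := by
    rw [hx21]
    rfl
  have k2_3 : K 5 (q ^ (m6 3 - 2)) / hh ^ 5 = x19 := by
    rw [hx19]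
    rfl
  have k20_0 : K 5 (q ^ (m6 0 - 20)) / hh ^ 5 = x42 := by
    rw [hx42]
    rfl
  have k20_1 : K 5 (q ^ (m6 1 - 20)) / hh ^ 5 = x40 := by
    rw [hx40]
    rfl
  have k20_2 : K 5 (q ^ (m6 2 - 20)) / hh ^ 5 = x39 := by
    rw [hx39]
    rfl
  have k20_3 : K 5 (q ^ (m6 3 - 20)) / hh ^ 5 = x37 := by
    rw [hx37]
    rfl
  obtain ⟨b0_0, b0_1, b0_2, b0_3⟩ := val6_78
  obtain ⟨v0_0, hv0_0⟩ : ∃ x, x = K 5 (((78 : ℕ) : ℝ) / 64 * q ^ (-18 : ℤ)) / hh ^ 5 := ⟨_, rfl⟩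
  rw [← hv0_0] at b0_0
  obtain ⟨v0_1, hv0_1⟩ : ∃ x, x = K 5 (((78 : ℕ) : ℝ) / 64 * q ^ (-20 : ℤ)) / hh ^ 5 := ⟨_, rfl⟩
  rw [← hv0_1] at b0_1
  obtain ⟨v0_2, hv0_2⟩ : ∃ x, x = K 5 (((78 : ℕ) : ℝ) / 64 * q ^ (-21 : ℤ)) / hh ^ 5 := ⟨_, rfl⟩
  rw [← hv0_2] at b0_2
  obtain ⟨v0_3, hv0_3⟩ : ∃ x, x = K 5 (((78 : ℕ) : ℝ) / 64 * q ^ (-23 : ℤ)) / hh ^ 5 := ⟨_, rfl⟩
  rw [← hv0_3] at b0_3
  obtain ⟨b1_0, b1_1, b1_2, b1_3⟩ := val6_79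
  obtain ⟨v1_0, hv1_0⟩ : ∃ x, x = K 5 (((79 : ℕ) : ℝ) / 64 * q ^ (-18 : ℤ)) / hh ^ 5 := ⟨_, rfl⟩
  rw [← hv1_0] at b1_0
  obtain ⟨v1_1, hv1_1⟩ : ∃ x, x = K 5 (((79 : ℕ) : ℝ) / 64 * q ^ (-20 : ℤ)) / hh ^ 5 := ⟨_, rfl⟩
  rw [← hv1_1] at b1_1
  obtain ⟨v1_2, hv1_2⟩ : ∃ x, x = K 5 (((79 : ℕ) : ℝ) / 64 * q ^ (-21 : ℤ)) / hh ^ 5 := ⟨_, rfl⟩
  rw [← hv1_2] at b1_2
  obtain ⟨v1_3, hv1_3⟩ : ∃ x, x = K 5 (((79 : ℕ) : ℝ) / 64 * q ^ (-23 : ℤ)) / hh ^ 5 := ⟨_, rfl⟩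
  rw [← hv1_3] at b1_3
  obtain ⟨b2_0, b2_1, b2_2, b2_3⟩ := val6_80
  obtain ⟨v2_0, hv2_0⟩ : ∃ x, x = K 5 (((80 : ℕ) : ℝ) / 64 * q ^ (-18 : ℤ)) / hh ^ 5 := ⟨_, rfl⟩
  rw [← hv2_0] at b2_0
  obtain ⟨v2_1, hv2_1⟩ : ∃ x, x = K 5 (((80 : ℕ) : ℝ) / 64 * q ^ (-20 : ℤ)) / hh ^ 5 := ⟨_, rfl⟩
  rw [← hv2_1] at b2_1
  obtain ⟨v2_2, hv2_2⟩ : ∃ x, x = K 5 (((80 : ℕ) : ℝ) / 64 * q ^ (-21 : ℤ)) / hh ^ 5 := ⟨_, rfl⟩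
  rw [← hv2_2] at b2_2
  obtain ⟨v2_3, hv2_3⟩ : ∃ x, x = K 5 (((80 : ℕ) : ℝ) / 64 * q ^ (-23 : ℤ)) / hh ^ 5 := ⟨_, rfl⟩
  rw [← hv2_3] at b2_3
  obtain ⟨b3_0, b3_1, b3_2, b3_3⟩ := val6_81
  obtain ⟨v3_0, hv3_0⟩ : ∃ x, x = K 5 (((81 : ℕ) : ℝ) / 64 * q ^ (-18 : ℤ)) / hh ^ 5 := ⟨_, rfl⟩
  rw [← hv3_0] at b3_0
  obtain ⟨v3_1, hv3_1⟩ : ∃ x, x = K 5 (((81 : ℕ) : ℝ) / 64 * q ^ (-20 : ℤ)) / hh ^ 5 := ⟨_, rfl⟩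
  rw [← hv3_1] at b3_1
  obtain ⟨v3_2, hv3_2⟩ : ∃ x, x = K 5 (((81 : ℕ) : ℝ) / 64 * q ^ (-21 : ℤ)) / hh ^ 5 := ⟨_, rfl⟩
  rw [← hv3_2] at b3_2
  obtain ⟨v3_3, hv3_3⟩ : ∃ x, x = K 5 (((81 : ℕ) : ℝ) / 64 * q ^ (-23 : ℤ)) / hh ^ 5 := ⟨_, rfl⟩
  rw [← hv3_3] at b3_3
  obtain ⟨b4_0, b4_1, b4_2, b4_3⟩ := val6_82
  obtain ⟨v4_0, hv4_0⟩ : ∃ x, x = K 5 (((82 : ℕ) : ℝ) / 64 * q ^ (-18 : ℤ)) / hh ^ 5 := ⟨_, rfl⟩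
  rw [← hv4_0] at b4_0
  obtain ⟨v4_1, hv4_1⟩ : ∃ x, x = K 5 (((82 : ℕ) : ℝ) / 64 * q ^ (-20 : ℤ)) / hh ^ 5 := ⟨_, rfl⟩
  rw [← hv4_1] at b4_1
  obtain ⟨v4_2, hv4_2⟩ : ∃ x, x = K 5 (((82 : ℕ) : ℝ) / 64 * q ^ (-21 : ℤ)) / hh ^ 5 := ⟨_, rfl⟩
  rw [← hv4_2] at b4_2
  obtain ⟨v4_3, hv4_3⟩ : ∃ x, x = K 5 (((82 : ℕ) : ℝ) / 64 * q ^ (-23 : ℤ)) / hh ^ 5 := ⟨_, rfl⟩
  rw [← hv4_3] at b4_3
  set V : Fin 5 → Fin 4 → ℝ := ![![v0_0, v0_1, v0_2, v0_3], ![v1_0, v1_1, v1_2, v1_3], ![v2_0, v2_1, v2_2, v2_3], ![v3_0, v3_1, v3_2, v3_3], ![v4_0, v4_1, v4_2, v4_3]] with hVdef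
  have hV : ∀ i j, V i j = K 5 (((80 : ℝ) + (i : ℕ) - 2) / 64 * q ^ ((-40 : ℤ) - m6 j)) / hh ^ 5 := by
    intro i j
    fin_cases i <;> fin_cases j
    · show v0_0 = K 5 (((80 : ℝ) + ((0 : ℕ) : ℝ) - 2) / 64 * q ^ ((-40 : ℤ) - (-22))) / hh ^ 5
      rw [hv0_0]
      norm_num
    · show v0_1 = K 5 (((80 : ℝ) + ((0 : ℕ) : ℝ) - 2) / 64 * q ^ ((-40 : ℤ) - (-20))) / hh ^ 5
      rw [hv0_1]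
      norm_num
    · show v0_2 = K 5 (((80 : ℝ) + ((0 : ℕ) : ℝ) - 2) / 64 * q ^ ((-40 : ℤ) - (-19))) / hh ^ 5
      rw [hv0_2]
      norm_num
    · show v0_3 = K 5 (((80 : ℝ) + ((0 : ℕ) : ℝ) - 2) / 64 * q ^ ((-40 : ℤ) - (-17))) / hh ^ 5
      rw [hv0_3]
      norm_num
    · show v1_0 = K 5 (((80 : ℝ) + ((1 : ℕ) : ℝ) - 2) / 64 * q ^ ((-40 : ℤ) - (-22))) / hh ^ 5
      rw [hv1_0]
      norm_num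
    · show v1_1 = K 5 (((80 : ℝ) + ((1 : ℕ) : ℝ) - 2) / 64 * q ^ ((-40 : ℤ) - (-20))) / hh ^ 5
      rw [hv1_1]
      norm_num
    · show v1_2 = K 5 (((80 : ℝ) + ((1 : ℕ) : ℝ) - 2) / 64 * q ^ ((-40 : ℤ) - (-19))) / hh ^ 5
      rw [hv1_2]
      norm_num
    · show v1_3 = K 5 (((80 : ℝ) + ((1 : ℕ) : ℝ) - 2) / 64 * q ^ ((-40 : ℤ) - (-17))) / hh ^ 5
      rw [hv1_3]
      norm_num
    · show v2_0 = K 5 (((80 : ℝ) + ((2 : ℕ) : ℝ) - 2) / 64 * q ^ ((-40 : ℤ) - (-22))) / hh ^ 5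
      rw [hv2_0]
      norm_num
    · show v2_1 = K 5 (((80 : ℝ) + ((2 : ℕ) : ℝ) - 2) / 64 * q ^ ((-40 : ℤ) - (-20))) / hh ^ 5
      rw [hv2_1]
      norm_num
    · show v2_2 = K 5 (((80 : ℝ) + ((2 : ℕ) : ℝ) - 2) / 64 * q ^ ((-40 : ℤ) - (-19))) / hh ^ 5
      rw [hv2_2]
      norm_num
    · show v2_3 = K 5 (((80 : ℝ) + ((2 : ℕ) : ℝ) - 2) / 64 * q ^ ((-40 : ℤ) - (-17))) / hh ^ 5
      rw [hv2_3]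
      norm_num
    · show v3_0 = K 5 (((80 : ℝ) + ((3 : ℕ) : ℝ) - 2) / 64 * q ^ ((-40 : ℤ) - (-22))) / hh ^ 5
      rw [hv3_0]
      norm_num
    · show v3_1 = K 5 (((80 : ℝ) + ((3 : ℕ) : ℝ) - 2) / 64 * q ^ ((-40 : ℤ) - (-20))) / hh ^ 5
      rw [hv3_1]
      norm_num
    · show v3_2 = K 5 (((80 : ℝ) + ((3 : ℕ) : ℝ) - 2) / 64 * q ^ ((-40 : ℤ) - (-19))) / hh ^ 5
      rw [hv3_2]
      norm_num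
    · show v3_3 = K 5 (((80 : ℝ) + ((3 : ℕ) : ℝ) - 2) / 64 * q ^ ((-40 : ℤ) - (-17))) / hh ^ 5
      rw [hv3_3]
      norm_num
    · show v4_0 = K 5 (((80 : ℝ) + ((4 : ℕ) : ℝ) - 2) / 64 * q ^ ((-40 : ℤ) - (-22))) / hh ^ 5
      rw [hv4_0]
      norm_num
    · show v4_1 = K 5 (((80 : ℝ) + ((4 : ℕ) : ℝ) - 2) / 64 * q ^ ((-40 : ℤ) - (-20))) / hh ^ 5
      rw [hv4_1]
      norm_num
    · show v4_2 = K 5 (((80 : ℝ) + ((4 : ℕ) : ℝ) - 2) / 64 * q ^ ((-40 : ℤ) - (-19))) / hh ^ 5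
      rw [hv4_2]
      norm_num
    · show v4_3 = K 5 (((80 : ℝ) + ((4 : ℕ) : ℝ) - 2) / 64 * q ^ ((-40 : ℤ) - (-17))) / hh ^ 5
      rw [hv4_3]
      norm_num
  have c0 : c6 0 = -206269323784972 := rfl
  have c1 : c6 1 = 1116278187652006 := rfl
  have c2 : c6 2 = -1155431092631912 := rfl
  have c3 : c6 3 = 246422228764877 := rfl
  have o0 : om6 0 = (-310612034785184399958678377070592 / 79792266297612001) := rfl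
  have o1 : om6 1 = (1286981127667555028688404381433856 / 79792266297612001) := rfl
  have o2 : om6 2 = (-166515169223339645746962459787264 / 11398895185373143) := rfl
  have o3 : om6 3 = (554893528820653588984675434496 / 232630513987207) := rfl
  have V0_0 : V 0 0 = v0_0 := rfl
  have V0_1 : V 0 1 = v0_1 := rfl
  have V0_2 : V 0 2 = v0_2 := rfl
  have V0_3 : V 0 3 = v0_3 := rfl
  have V1_0 : V 1 0 = v1_0 := rfl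
  have V1_1 : V 1 1 = v1_1 := rfl
  have V1_2 : V 1 2 = v1_2 := rfl
  have V1_3 : V 1 3 = v1_3 := rfl
  have V2_0 : V 2 0 = v2_0 := rfl
  have V2_1 : V 2 1 = v2_1 := rfl
  have V2_2 : V 2 2 = v2_2 := rfl
  have V2_3 : V 2 3 = v2_3 := rfl
  have V3_0 : V 3 0 = v3_0 := rfl
  have V3_1 : V 3 1 = v3_1 := rfl
  have V3_2 : V 3 2 = v3_2 := rfl
  have V3_3 : V 3 3 = v3_3 := rfl
  have V4_0 : V 4 0 = v4_0 := rfl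
  have V4_1 : V 4 1 = v4_1 := rfl
  have V4_2 : V 4 2 = v4_2 := rfl
  have V4_3 : V 4 3 = v4_3 := rfl
  refine cond_of_cert c6 m6 ?_ ?_ ?_ ?_ ?_ 30000000000000 (614632619 / 500000000) ?_ ?_ (fun z => K 5 (q ^ z) / hh ^ 5)
    (fun z => rfl) ?_ ?_ ?_ ?_ (-40) 80 (by norm_num) V hV om6 om6_eq 89812583202 ?_ ?_ ?_ ?_ ?_
    (om6 0 * (V 3 0 - 2 * V 2 0 + V 1 0) / 2 + om6 1 * (V 2 1 - 2 * V 1 1 + V 0 1) / 2 +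
      om6 2 * (V 3 2 - 2 * V 2 2 + V 1 2) / 2 + om6 3 * (V 2 3 - 2 * V 1 3 + V 0 3) / 2)
    (om6 0 * (V 4 0 - 2 * V 3 0 + V 2 0) / 2 + om6 1 * (V 3 1 - 2 * V 2 1 + V 1 1) / 2 +
      om6 2 * (V 4 2 - 2 * V 3 2 + V 2 2) / 2 + om6 3 * (V 3 3 - 2 * V 2 3 + V 1 3) / 2) rfl rfl ?_ ?_ ?_ ?_
  · rw [Fin.strictMono_iff_lt_succ]
    decide
  · rw [c0]; norm_num
  · rw [c1]; norm_num
  · rw [c2]; norm_num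
  · rw [c3]; norm_num
  · norm_num
  · norm_num
  · simp only [k0_1, k0_2]
    linarith [a22.1, a22.2, a20.1, a20.2, a19.1, a19.2, a17.1, a17.2]
  · simp only [Fin.sum_univ_four, c0, c1, c2, c3, k0_0, k0_1, k0_2, k0_3]
    linarith [a22.1, a22.2, a20.1, a20.2, a19.1, a19.2, a17.1, a17.2]
  · simp only [Fin.sum_univ_four, c0, c1, c2, c3, k2_0, k2_1, k2_2, k2_3]
    linarith [a24.1, a24.2, a22.1, a22.2, a21.1, a21.2, a19.1, a19.2]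
  · simp only [Fin.sum_univ_four, c0, c1, c2, c3, k20_0, k20_1, k20_2, k20_3]
    linarith [a42.1, a42.2, a40.1, a40.2, a39.1, a39.2, a37.1, a37.2]
  · norm_num
  · simp only [Fin.sum_univ_four, o0, o1, o2, o3]
    norm_num
  · simp only [Fin.sum_univ_four, o0, o1, o2, o3, V0_0, V0_1, V0_2, V0_3, V1_0, V1_1, V1_2, V1_3, V2_0, V2_1, V2_2, V2_3, V3_0, V3_1, V3_2, V3_3, V4_0, V4_1, V4_2, V4_3]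
    linarith [b1_0.1, b1_0.2, b1_1.1, b1_1.2, b1_2.1, b1_2.2, b1_3.1, b1_3.2]
  · simp only [Fin.sum_univ_four, o0, o1, o2, o3, V0_0, V0_1, V0_2, V0_3, V1_0, V1_1, V1_2, V1_3, V2_0, V2_1, V2_2, V2_3, V3_0, V3_1, V3_2, V3_3, V4_0, V4_1, V4_2, V4_3]
    linarith [b2_0.1, b2_0.2, b2_1.1, b2_1.2, b2_2.1, b2_2.2, b2_3.1, b2_3.2]
  · simp only [Fin.sum_univ_four, o0, o1, o2, o3, V0_0, V0_1, V0_2, V0_3, V1_0, V1_1, V1_2, V1_3, V2_0, V2_1, V2_2, V2_3, V3_0, V3_1, V3_2, V3_3, V4_0, V4_1, V4_2, V4_3]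
    linarith [b3_0.1, b3_0.2, b3_1.1, b3_1.2, b3_2.1, b3_2.2, b3_3.1, b3_3.2]
  · rw [div_lt_iff₀ (by norm_num : (0 : ℝ) < 4), abs_lt]
    simp only [Fin.sum_univ_four, o0, o1, o2, o3, V0_0, V0_1, V0_2, V0_3, V1_0, V1_1, V1_2, V1_3, V2_0, V2_1, V2_2, V2_3, V3_0, V3_1, V3_2, V3_3, V4_0, V4_1, V4_2, V4_3]
    constructor <;> linarith [b0_0.1, b0_0.2, b0_1.1, b0_1.2, b0_2.1, b0_2.2, b0_3.1, b0_3.2, b1_0.1, b1_0.2, b1_1.1, b1_1.2, b1_2.1, b1_2.2, b1_3.1, b1_3.2, b2_0.1, b2_0.2, b2_1.1, b2_1.2, b2_2.1, b2_2.2, b2_3.1, b2_3.2, b3_0.1, b3_0.2, b3_1.1, b3_1.2, b3_2.1, b3_2.2, b3_3.1, b3_3.2]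
  · rw [div_lt_iff₀ (by norm_num : (0 : ℝ) < 4), abs_lt]
    simp only [Fin.sum_univ_four, o0, o1, o2, o3, V0_0, V0_1, V0_2, V0_3, V1_0, V1_1, V1_2, V1_3, V2_0, V2_1, V2_2, V2_3, V3_0, V3_1, V3_2, V3_3, V4_0, V4_1, V4_2, V4_3]
    constructor <;> linarith [b0_0.1, b0_0.2, b0_1.1, b0_1.2, b0_2.1, b0_2.2, b0_3.1, b0_3.2, b1_0.1, b1_0.2, b1_1.1, b1_1.2, b1_2.1, b1_2.2, b1_3.1, b1_3.2, b2_0.1, b2_0.2, b2_1.1, b2_1.2, b2_2.1, b2_2.2, b2_3.1, b2_3.2, b3_0.1, b3_0.2, b3_1.1, b3_1.2, b3_2.1, b3_2.2, b3_3.1, b3_3.2]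
  · rw [div_lt_iff₀ (by norm_num : (0 : ℝ) < 4), abs_lt]
    simp only [Fin.sum_univ_four, o0, o1, o2, o3, V0_0, V0_1, V0_2, V0_3, V1_0, V1_1, V1_2, V1_3, V2_0, V2_1, V2_2, V2_3, V3_0, V3_1, V3_2, V3_3, V4_0, V4_1, V4_2, V4_3]
    constructor <;> linarith [b1_0.1, b1_0.2, b1_1.1, b1_1.2, b1_2.1, b1_2.2, b1_3.1, b1_3.2, b2_0.1, b2_0.2, b2_1.1, b2_1.2, b2_2.1, b2_2.2, b2_3.1, b2_3.2, b3_0.1, b3_0.2, b3_1.1, b3_1.2, b3_2.1, b3_2.2, b3_3.1, b3_3.2, b4_0.1, b4_0.2, b4_1.1, b4_1.2, b4_2.1, b4_2.2, b4_3.1, b4_3.2]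
  · rw [div_lt_iff₀ (by norm_num : (0 : ℝ) < 4), abs_lt]
    simp only [Fin.sum_univ_four, o0, o1, o2, o3, V0_0, V0_1, V0_2, V0_3, V1_0, V1_1, V1_2, V1_3, V2_0, V2_1, V2_2, V2_3, V3_0, V3_1, V3_2, V3_3, V4_0, V4_1, V4_2, V4_3]
    constructor <;> linarith [b1_0.1, b1_0.2, b1_1.1, b1_1.2, b1_2.1, b1_2.2, b1_3.1, b1_3.2, b2_0.1, b2_0.2, b2_1.1, b2_1.2, b2_2.1, b2_2.2, b2_3.1, b2_3.2, b3_0.1, b3_0.2, b3_1.1, b3_1.2, b3_2.1, b3_2.2, b3_3.1, b3_3.2, b4_0.1, b4_0.2, b4_1.1, b4_1.2, b4_2.1, b4_2.2, b4_3.1, b4_3.2]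

end H81.LP
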