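import Pool.Agent.H81.LP.Val7

/-! Generated: the sign conditions for `d = 7`. -/

namespace H81.LP

set_option linter.unusedSimpArgs false

theorem om7_eq : ∀ j, om7 j = c7 j * (7 / 8 : ℝ) ^ (m7 j) := by
  intro j
  fin_cases j
  · show ((-869256167988479500955349449570263236608 / 65712362363534280139543) : ℝ) = (-275254379887564) * (7 / 8 : ℝ) ^ (-29 : ℤ)
    norm_num
  · show ((3605509506462614552810892021521459445760 / 65712362363534280139543) : ℝ) = (1491203781060755) * (7 / 8 : ℝ) ^ (-27 : ℤ)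
    norm_num
  · show ((-466956210442266498229227290690806874112 / 9387480337647754305649) : ℝ) = (-1545028496756298) * (7 / 8 : ℝ) ^ (-26 : ℤ)
    norm_num
  · show ((1558754457677590447834527496742633472 / 191581231380566414401) : ℝ) = (330079095583107) * (7 / 8 : ℝ) ^ (-24 : ℤ)
    norm_num

theorem cond7 : Cond 6 c7 (fun j => q ^ (m7 j)) := by
  have one : (((64 : ℕ) : ℝ) / 64) = 1 := by norm_num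
  obtain ⟨a24, a26, a27, a28, a29, a31, a44, a46, a47, a49⟩ := val7_64
  simp only [one, one_mul] at a24 a26 a27 a28 a29 a31 a44 a46 a47 a49
  obtain ⟨x24, hx24⟩ : ∃ x, x = K 6 (q ^ (-24 : ℤ)) / hh ^ 6 := ⟨_, rfl⟩
  rw [← hx24] at a24
  obtain ⟨x26, hx26⟩ : ∃ x, x = K 6 (q ^ (-26 : ℤ)) / hh ^ 6 := ⟨_, rfl⟩
  rw [← hx26] at a26
  obtain ⟨x27, hx27⟩ : ∃ x, x = K 6 (q ^ (-27 : ℤ)) / hh ^ 6 := ⟨_, rfl⟩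
  rw [← hx27] at a27
  obtain ⟨x28, hx28⟩ : ∃ x, x = K 6 (q ^ (-28 : ℤ)) / hh ^ 6 := ⟨_, rfl⟩
  rw [← hx28] at a28
  obtain ⟨x29, hx29⟩ : ∃ x, x = K 6 (q ^ (-29 : ℤ)) / hh ^ 6 := ⟨_, rfl⟩
  rw [← hx29] at a29
  obtain ⟨x31, hx31⟩ : ∃ x, x = K 6 (q ^ (-31 : ℤ)) / hh ^ 6 := ⟨_, rfl⟩
  rw [← hx31] at a31
  obtain ⟨x44, hx44⟩ : ∃ x, x = K 6 (q ^ (-44 : ℤ)) / hh ^ 6 := ⟨_, rfl⟩
  rw [← hx44] at a44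
  obtain ⟨x46, hx46⟩ : ∃ x, x = K 6 (q ^ (-46 : ℤ)) / hh ^ 6 := ⟨_, rfl⟩
  rw [← hx46] at a46
  obtain ⟨x47, hx47⟩ : ∃ x, x = K 6 (q ^ (-47 : ℤ)) / hh ^ 6 := ⟨_, rfl⟩
  rw [← hx47] at a47
  obtain ⟨x49, hx49⟩ : ∃ x, x = K 6 (q ^ (-49 : ℤ)) / hh ^ 6 := ⟨_, rfl⟩
  rw [← hx49] at a49
  have k0_0 : K 6 (q ^ (m7 0)) / hh ^ 6 = x29 := by
    rw [hx29]
    rfl
  have k0_1 : K 6 (q ^ (m7 1)) / hh ^ 6 = x27 := by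
    rw [hx27]
    rfl
  have k0_2 : K 6 (q ^ (m7 2)) / hh ^ 6 = x26 := by
    rw [hx26]
    rfl
  have k0_3 : K 6 (q ^ (m7 3)) / hh ^ 6 = x24 := by
    rw [hx24]
    rfl
  have k2_0 : K 6 (q ^ (m7 0 - 2)) / hh ^ 6 = x31 := by
    rw [hx31]
    rfl
  have k2_1 : K 6 (q ^ (m7 1 - 2)) / hh ^ 6 = x29 := by
    rw [hx29]
    rfl
  have k2_2 : K 6 (q ^ (m7 2 - 2)) / hh ^ 6 = x28 := by
    rw [hx28]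
    rfl
  have k2_3 : K 6 (q ^ (m7 3 - 2)) / hh ^ 6 = x26 := by
    rw [hx26]
    rfl
  have k20_0 : K 6 (q ^ (m7 0 - 20)) / hh ^ 6 = x49 := by
    rw [hx49]
    rfl
  have k20_1 : K 6 (q ^ (m7 1 - 20)) / hh ^ 6 = x47 := by
    rw [hx47]
    rfl
  have k20_2 : K 6 (q ^ (m7 2 - 20)) / hh ^ 6 = x46 := by
    rw [hx46]
    rfl
  have k20_3 : K 6 (q ^ (m7 3 - 20)) / hh ^ 6 = x44 := by
    rw [hx44]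
    rfl
  obtain ⟨b0_0, b0_1, b0_2, b0_3⟩ := val7_68
  obtain ⟨v0_0, hv0_0⟩ : ∃ x, x = K 6 (((68 : ℕ) : ℝ) / 64 * q ^ (-24 : ℤ)) / hh ^ 6 := ⟨_, rfl⟩
  rw [← hv0_0] at b0_0
  obtain ⟨v0_1, hv0_1⟩ : ∃ x, x = K 6 (((68 : ℕ) : ℝ) / 64 * q ^ (-26 : ℤ)) / hh ^ 6 := ⟨_, rfl⟩
  rw [← hv0_1] at b0_1
  obtain ⟨v0_2, hv0_2⟩ : ∃ x, x = K 6 (((68 : ℕ) : ℝ) / 64 * q ^ (-27 : ℤ)) / hh ^ 6 := ⟨_, rfl⟩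
  rw [← hv0_2] at b0_2
  obtain ⟨v0_3, hv0_3⟩ : ∃ x, x = K 6 (((68 : ℕ) : ℝ) / 64 * q ^ (-29 : ℤ)) / hh ^ 6 := ⟨_, rfl⟩
  rw [← hv0_3] at b0_3
  obtain ⟨b1_0, b1_1, b1_2, b1_3⟩ := val7_69
  obtain ⟨v1_0, hv1_0⟩ : ∃ x, x = K 6 (((69 : ℕ) : ℝ) / 64 * q ^ (-24 : ℤ)) / hh ^ 6 := ⟨_, rfl⟩
  rw [← hv1_0] at b1_0
  obtain ⟨v1_1, hv1_1⟩ : ∃ x, x = K 6 (((69 : ℕ) : ℝ) / 64 * q ^ (-26 : ℤ)) / hh ^ 6 := ⟨_, rfl⟩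
  rw [← hv1_1] at b1_1
  obtain ⟨v1_2, hv1_2⟩ : ∃ x, x = K 6 (((69 : ℕ) : ℝ) / 64 * q ^ (-27 : ℤ)) / hh ^ 6 := ⟨_, rfl⟩
  rw [← hv1_2] at b1_2
  obtain ⟨v1_3, hv1_3⟩ : ∃ x, x = K 6 (((69 : ℕ) : ℝ) / 64 * q ^ (-29 : ℤ)) / hh ^ 6 := ⟨_, rfl⟩
  rw [← hv1_3] at b1_3
  obtain ⟨b2_0, b2_1, b2_2, b2_3⟩ := val7_70
  obtain ⟨v2_0, hv2_0⟩ : ∃ x, x = K 6 (((70 : ℕ) : ℝ) / 64 * q ^ (-24 : ℤ)) / hh ^ 6 := ⟨_, rfl⟩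
  rw [← hv2_0] at b2_0
  obtain ⟨v2_1, hv2_1⟩ : ∃ x, x = K 6 (((70 : ℕ) : ℝ) / 64 * q ^ (-26 : ℤ)) / hh ^ 6 := ⟨_, rfl⟩
  rw [← hv2_1] at b2_1
  obtain ⟨v2_2, hv2_2⟩ : ∃ x, x = K 6 (((70 : ℕ) : ℝ) / 64 * q ^ (-27 : ℤ)) / hh ^ 6 := ⟨_, rfl⟩
  rw [← hv2_2] at b2_2
  obtain ⟨v2_3, hv2_3⟩ : ∃ x, x = K 6 (((70 : ℕ) : ℝ) / 64 * q ^ (-29 : ℤ)) / hh ^ 6 := ⟨_, rfl⟩
  rw [← hv2_3] at b2_3
  obtain ⟨b3_0, b3_1, b3_2, b3_3⟩ := val7_71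
  obtain ⟨v3_0, hv3_0⟩ : ∃ x, x = K 6 (((71 : ℕ) : ℝ) / 64 * q ^ (-24 : ℤ)) / hh ^ 6 := ⟨_, rfl⟩
  rw [← hv3_0] at b3_0
  obtain ⟨v3_1, hv3_1⟩ : ∃ x, x = K 6 (((71 : ℕ) : ℝ) / 64 * q ^ (-26 : ℤ)) / hh ^ 6 := ⟨_, rfl⟩
  rw [← hv3_1] at b3_1
  obtain ⟨v3_2, hv3_2⟩ : ∃ x, x = K 6 (((71 : ℕ) : ℝ) / 64 * q ^ (-27 : ℤ)) / hh ^ 6 := ⟨_, rfl⟩
  rw [← hv3_2] at b3_2
  obtain ⟨v3_3, hv3_3⟩ : ∃ x, x = K 6 (((71 : ℕ) : ℝ) / 64 * q ^ (-29 : ℤ)) / hh ^ 6 := ⟨_, rfl⟩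
  rw [← hv3_3] at b3_3
  obtain ⟨b4_0, b4_1, b4_2, b4_3⟩ := val7_72
  obtain ⟨v4_0, hv4_0⟩ : ∃ x, x = K 6 (((72 : ℕ) : ℝ) / 64 * q ^ (-24 : ℤ)) / hh ^ 6 := ⟨_, rfl⟩
  rw [← hv4_0] at b4_0
  obtain ⟨v4_1, hv4_1⟩ : ∃ x, x = K 6 (((72 : ℕ) : ℝ) / 64 * q ^ (-26 : ℤ)) / hh ^ 6 := ⟨_, rfl⟩
  rw [← hv4_1] at b4_1
  obtain ⟨v4_2, hv4_2⟩ : ∃ x, x = K 6 (((72 : ℕ) : ℝ) / 64 * q ^ (-27 : ℤ)) / hh ^ 6 := ⟨_, rfl⟩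
  rw [← hv4_2] at b4_2
  obtain ⟨v4_3, hv4_3⟩ : ∃ x, x = K 6 (((72 : ℕ) : ℝ) / 64 * q ^ (-29 : ℤ)) / hh ^ 6 := ⟨_, rfl⟩
  rw [← hv4_3] at b4_3
  set V : Fin 5 → Fin 4 → ℝ := ![![v0_0, v0_1, v0_2, v0_3], ![v1_0, v1_1, v1_2, v1_3], ![v2_0, v2_1, v2_2, v2_3], ![v3_0, v3_1, v3_2, v3_3], ![v4_0, v4_1, v4_2, v4_3]] with hVdef
  have hV : ∀ i j, V i j = K 6 (((70 : ℝ) + (i : ℕ) - 2) / 64 * q ^ ((-53 : ℤ) - m7 j)) / hh ^ 6 := by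
    intro i j
    fin_cases i <;> fin_cases j
    · show v0_0 = K 6 (((70 : ℝ) + ((0 : ℕ) : ℝ) - 2) / 64 * q ^ ((-53 : ℤ) - (-29))) / hh ^ 6
      rw [hv0_0]
      norm_num
    · show v0_1 = K 6 (((70 : ℝ) + ((0 : ℕ) : ℝ) - 2) / 64 * q ^ ((-53 : ℤ) - (-27))) / hh ^ 6
      rw [hv0_1]
      norm_num
    · show v0_2 = K 6 (((70 : ℝ) + ((0 : ℕ) : ℝ) - 2) / 64 * q ^ ((-53 : ℤ) - (-26))) / hh ^ 6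
      rw [hv0_2]
      norm_num
    · show v0_3 = K 6 (((70 : ℝ) + ((0 : ℕ) : ℝ) - 2) / 64 * q ^ ((-53 : ℤ) - (-24))) / hh ^ 6
      rw [hv0_3]
      norm_num
    · show v1_0 = K 6 (((70 : ℝ) + ((1 : ℕ) : ℝ) - 2) / 64 * q ^ ((-53 : ℤ) - (-29))) / hh ^ 6
      rw [hv1_0]
      norm_num
    · show v1_1 = K 6 (((70 : ℝ) + ((1 : ℕ) : ℝ) - 2) / 64 * q ^ ((-53 : ℤ) - (-27))) / hh ^ 6
      rw [hv1_1]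
      norm_num
    · show v1_2 = K 6 (((70 : ℝ) + ((1 : ℕ) : ℝ) - 2) / 64 * q ^ ((-53 : ℤ) - (-26))) / hh ^ 6
      rw [hv1_2]
      norm_num
    · show v1_3 = K 6 (((70 : ℝ) + ((1 : ℕ) : ℝ) - 2) / 64 * q ^ ((-53 : ℤ) - (-24))) / hh ^ 6
      rw [hv1_3]
      norm_num
    · show v2_0 = K 6 (((70 : ℝ) + ((2 : ℕ) : ℝ) - 2) / 64 * q ^ ((-53 : ℤ) - (-29))) / hh ^ 6
      rw [hv2_0]
      norm_num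
    · show v2_1 = K 6 (((70 : ℝ) + ((2 : ℕ) : ℝ) - 2) / 64 * q ^ ((-53 : ℤ) - (-27))) / hh ^ 6
      rw [hv2_1]
      norm_num
    · show v2_2 = K 6 (((70 : ℝ) + ((2 : ℕ) : ℝ) - 2) / 64 * q ^ ((-53 : ℤ) - (-26))) / hh ^ 6
      rw [hv2_2]
      norm_num
    · show v2_3 = K 6 (((70 : ℝ) + ((2 : ℕ) : ℝ) - 2) / 64 * q ^ ((-53 : ℤ) - (-24))) / hh ^ 6
      rw [hv2_3]
      norm_num
    · show v3_0 = K 6 (((70 : ℝ) + ((3 : ℕ) : ℝ) - 2) / 64 * q ^ ((-53 : ℤ) - (-29))) / hh ^ 6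
      rw [hv3_0]
      norm_num
    · show v3_1 = K 6 (((70 : ℝ) + ((3 : ℕ) : ℝ) - 2) / 64 * q ^ ((-53 : ℤ) - (-27))) / hh ^ 6
      rw [hv3_1]
      norm_num
    · show v3_2 = K 6 (((70 : ℝ) + ((3 : ℕ) : ℝ) - 2) / 64 * q ^ ((-53 : ℤ) - (-26))) / hh ^ 6
      rw [hv3_2]
      norm_num
    · show v3_3 = K 6 (((70 : ℝ) + ((3 : ℕ) : ℝ) - 2) / 64 * q ^ ((-53 : ℤ) - (-24))) / hh ^ 6
      rw [hv3_3]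
      norm_num
    · show v4_0 = K 6 (((70 : ℝ) + ((4 : ℕ) : ℝ) - 2) / 64 * q ^ ((-53 : ℤ) - (-29))) / hh ^ 6
      rw [hv4_0]
      norm_num
    · show v4_1 = K 6 (((70 : ℝ) + ((4 : ℕ) : ℝ) - 2) / 64 * q ^ ((-53 : ℤ) - (-27))) / hh ^ 6
      rw [hv4_1]
      norm_num
    · show v4_2 = K 6 (((70 : ℝ) + ((4 : ℕ) : ℝ) - 2) / 64 * q ^ ((-53 : ℤ) - (-26))) / hh ^ 6
      rw [hv4_2]
      norm_num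
    · show v4_3 = K 6 (((70 : ℝ) + ((4 : ℕ) : ℝ) - 2) / 64 * q ^ ((-53 : ℤ) - (-24))) / hh ^ 6
      rw [hv4_3]
      norm_num
  have c0 : c7 0 = -275254379887564 := rfl
  have c1 : c7 1 = 1491203781060755 := rfl
  have c2 : c7 2 = -1545028496756298 := rfl
  have c3 : c7 3 = 330079095583107 := rfl
  have o0 : om7 0 = (-869256167988479500955349449570263236608 / 65712362363534280139543) := rfl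
  have o1 : om7 1 = (3605509506462614552810892021521459445760 / 65712362363534280139543) := rfl
  have o2 : om7 2 = (-466956210442266498229227290690806874112 / 9387480337647754305649) := rfl
  have o3 : om7 3 = (1558754457677590447834527496742633472 / 191581231380566414401) := rfl
  have V0_0 : V 0 0 = v0_0 := rfl
  have V0_1 : V 0 1 = v0_1 := rfl
  have V0_2 : V 0 2 = v0_2 := rfl
  have V0_3 : V 0 3 = v0_3 := rfl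
  have V1_0 : V 1 0 = v1_0 := rfl
  have V1_1 : V 1 1 = v1_1 := rfl
  have V1_2 : V 1 2 = v1_2 := rfl
  have V1_3 : V 1 3 = v1_3 := rfl
  have V2_0 : V 2 0 = v2_0 := rfl
  have V2_1 : V 2 1 = v2_1 := rfl
  have V2_2 : V 2 2 = v2_2 := rfl
  have V2_3 : V 2 3 = v2_3 := rfl
  have V3_0 : V 3 0 = v3_0 := rfl
  have V3_1 : V 3 1 = v3_1 := rfl
  have V3_2 : V 3 2 = v3_2 := rfl
  have V3_3 : V 3 3 = v3_3 := rfl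
  have V4_0 : V 4 0 = v4_0 := rfl
  have V4_1 : V 4 1 = v4_1 := rfl
  have V4_2 : V 4 2 = v4_2 := rfl
  have V4_3 : V 4 3 = v4_3 := rfl
  refine cond_of_cert c7 m7 ?_ ?_ ?_ ?_ ?_ 38000000000000 (606139901 / 500000000) ?_ ?_ (fun z => K 6 (q ^ z) / hh ^ 6)
    (fun z => rfl) ?_ ?_ ?_ ?_ (-53) 70 (by norm_num) V hV om7 om7_eq 322854823695 ?_ ?_ ?_ ?_ ?_
    (om7 0 * (V 3 0 - 2 * V 2 0 + V 1 0) / 2 + om7 1 * (V 2 1 - 2 * V 1 1 + V 0 1) / 2 +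
      om7 2 * (V 3 2 - 2 * V 2 2 + V 1 2) / 2 + om7 3 * (V 2 3 - 2 * V 1 3 + V 0 3) / 2)
    (om7 0 * (V 4 0 - 2 * V 3 0 + V 2 0) / 2 + om7 1 * (V 3 1 - 2 * V 2 1 + V 1 1) / 2 +
      om7 2 * (V 4 2 - 2 * V 3 2 + V 2 2) / 2 + om7 3 * (V 3 3 - 2 * V 2 3 + V 1 3) / 2) rfl rfl ?_ ?_ ?_ ?_
  · rw [Fin.strictMono_iff_lt_succ]
    decide
  · rw [c0]; norm_num
  · rw [c1]; norm_num
  · rw [c2]; norm_num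
  · rw [c3]; norm_num
  · norm_num
  · norm_num
  · simp only [k0_1, k0_2]
    linarith [a29.1, a29.2, a27.1, a27.2, a26.1, a26.2, a24.1, a24.2]
  · simp only [Fin.sum_univ_four, c0, c1, c2, c3, k0_0, k0_1, k0_2, k0_3]
    linarith [a29.1, a29.2, a27.1, a27.2, a26.1, a26.2, a24.1, a24.2]
  · simp only [Fin.sum_univ_four, c0, c1, c2, c3, k2_0, k2_1, k2_2, k2_3]
    linarith [a31.1, a31.2, a29.1, a29.2, a28.1, a28.2, a26.1, a26.2]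
  · simp only [Fin.sum_univ_four, c0, c1, c2, c3, k20_0, k20_1, k20_2, k20_3]
    linarith [a49.1, a49.2, a47.1, a47.2, a46.1, a46.2, a44.1, a44.2]
  · norm_num
  · simp only [Fin.sum_univ_four, o0, o1, o2, o3]
    norm_num
  · simp only [Fin.sum_univ_four, o0, o1, o2, o3, V0_0, V0_1, V0_2, V0_3, V1_0, V1_1, V1_2, V1_3, V2_0, V2_1, V2_2, V2_3, V3_0, V3_1, V3_2, V3_3, V4_0, V4_1, V4_2, V4_3]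
    linarith [b1_0.1, b1_0.2, b1_1.1, b1_1.2, b1_2.1, b1_2.2, b1_3.1, b1_3.2]
  · simp only [Fin.sum_univ_four, o0, o1, o2, o3, V0_0, V0_1, V0_2, V0_3, V1_0, V1_1, V1_2, V1_3, V2_0, V2_1, V2_2, V2_3, V3_0, V3_1, V3_2, V3_3, V4_0, V4_1, V4_2, V4_3]
    linarith [b2_0.1, b2_0.2, b2_1.1, b2_1.2, b2_2.1, b2_2.2, b2_3.1, b2_3.2]
  · simp only [Fin.sum_univ_four, o0, o1, o2, o3, V0_0, V0_1, V0_2, V0_3, V1_0, V1_1, V1_2, V1_3, V2_0, V2_1, V2_2, V2_3, V3_0, V3_1, V3_2, V3_3, V4_0, V4_1, V4_2, V4_3]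
    linarith [b3_0.1, b3_0.2, b3_1.1, b3_1.2, b3_2.1, b3_2.2, b3_3.1, b3_3.2]
  · rw [div_lt_iff₀ (by norm_num : (0 : ℝ) < 4), abs_lt]
    simp only [Fin.sum_univ_four, o0, o1, o2, o3, V0_0, V0_1, V0_2, V0_3, V1_0, V1_1, V1_2, V1_3, V2_0, V2_1, V2_2, V2_3, V3_0, V3_1, V3_2, V3_3, V4_0, V4_1, V4_2, V4_3]
    constructor <;> linarith [b0_0.1, b0_0.2, b0_1.1, b0_1.2, b0_2.1, b0_2.2, b0_3.1, b0_3.2, b1_0.1, b1_0.2, b1_1.1, b1_1.2, b1_2.1, b1_2.2, b1_3.1, b1_3.2, b2_0.1, b2_0.2, b2_1.1, b2_1.2, b2_2.1, b2_2.2, b2_3.1, b2_3.2, b3_0.1, b3_0.2, b3_1.1, b3_1.2, b3_2.1, b3_2.2, b3_3.1, b3_3.2]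
  · rw [div_lt_iff₀ (by norm_num : (0 : ℝ) < 4), abs_lt]
    simp only [Fin.sum_univ_four, o0, o1, o2, o3, V0_0, V0_1, V0_2, V0_3, V1_0, V1_1, V1_2, V1_3, V2_0, V2_1, V2_2, V2_3, V3_0, V3_1, V3_2, V3_3, V4_0, V4_1, V4_2, V4_3]
    constructor <;> linarith [b0_0.1, b0_0.2, b0_1.1, b0_1.2, b0_2.1, b0_2.2, b0_3.1, b0_3.2, b1_0.1, b1_0.2, b1_1.1, b1_1.2, b1_2.1, b1_2.2, b1_3.1, b1_3.2, b2_0.1, b2_0.2, b2_1.1, b2_1.2, b2_2.1, b2_2.2, b2_3.1, b2_3.2, b3_0.1, b3_0.2, b3_1.1, b3_1.2, b3_2.1, b3_2.2, b3_3.1, b3_3.2]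
  · rw [div_lt_iff₀ (by norm_num : (0 : ℝ) < 4), abs_lt]
    simp only [Fin.sum_univ_four, o0, o1, o2, o3, V0_0, V0_1, V0_2, V0_3, V1_0, V1_1, V1_2, V1_3, V2_0, V2_1, V2_2, V2_3, V3_0, V3_1, V3_2, V3_3, V4_0, V4_1, V4_2, V4_3]
    constructor <;> linarith [b1_0.1, b1_0.2, b1_1.1, b1_1.2, b1_2.1, b1_2.2, b1_3.1, b1_3.2, b2_0.1, b2_0.2, b2_1.1, b2_1.2, b2_2.1, b2_2.2, b2_3.1, b2_3.2, b3_0.1, b3_0.2, b3_1.1, b3_1.2, b3_2.1, b3_2.2, b3_3.1, b3_3.2, b4_0.1, b4_0.2, b4_1.1, b4_1.2, b4_2.1, b4_2.2, b4_3.1, b4_3.2]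
  · rw [div_lt_iff₀ (by norm_num : (0 : ℝ) < 4), abs_lt]
    simp only [Fin.sum_univ_four, o0, o1, o2, o3, V0_0, V0_1, V0_2, V0_3, V1_0, V1_1, V1_2, V1_3, V2_0, V2_1, V2_2, V2_3, V3_0, V3_1, V3_2, V3_3, V4_0, V4_1, V4_2, V4_3]
    constructor <;> linarith [b1_0.1, b1_0.2, b1_1.1, b1_1.2, b1_2.1, b1_2.2, b1_3.1, b1_3.2, b2_0.1, b2_0.2, b2_1.1, b2_1.2, b2_2.1, b2_2.2, b2_3.1, b2_3.2, b3_0.1, b3_0.2, b3_1.1, b3_1.2, b3_2.1, b3_2.2, b3_3.1, b3_3.2, b4_0.1, b4_0.2, b4_1.1, b4_1.2, b4_2.1, b4_2.2, b4_3.1, b4_3.2]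

end H81.LP
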