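import Pool.Agent.H81.LP.Vthm
import Pool.Agent.H81.LP.SmallLarge

/-!
# Module C3: sign conditions from finitely many values

`noAlt` with `N = 4` or `N = 2`, `large`, `small` may be cited.

`primal`.  Let `G(s) = ∑ c_j K n (X_j s) + δ (K n (X_1 s) - ρ K n (X_2 s))`, again a combination of
the four functions, with the same coefficient `c_0 < 0` of `X_0`, so `G < 0` for large `s`
(`large` applied to `-G`).
(a) `K n (X_1 s) - ρ K n (X_2 s) ≥ 0` for `s ≥ 1`: otherwise it is `< 0` at some `s > 1`, while it is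
`> 0` at `1` (hypothesis) and for large `s` (`large`): three alternating points for two functions,
against `noAlt n 2`.
(b) Suppose `∑ c_j K n (X_j s*) ≥ 0` for some `s* ≥ 1`.  Then
`G(s*) ≥ 0` by (a).  Make it strict: replace `ρ` by a slightly smaller number (all strict
hypotheses persist) or prove in (a) strict positivity `K n (X_1 s) > ρ K n (X_2 s)` for `s ≥ 1`
(take `ρ' > ρ` with `ρ' K n X_2 < K n X_1` in (a)).  So `G(s*) > 0`, hence `s* > 1`, and the points
`s_a < s_b < 1 < s* < large` have signs `-, +, -, +, -`: contradiction to `noAlt n 4`.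

`dual`.  Let `G(s) = ∑ ω_j K n (Y_j s) - η K n (Y_k s)`, `Y j0` smallest, `ω j0 > 0`, `k ≠ j0`: `G > 0`
for large `s`, and `G > 0` at arbitrarily small `s` (as `∑ ω_j - η > 0`).  Suppose
`∑ ω_j K n (Y_j s*) ≤ 0` for some `0 < s*` outside `[s_0, s_2]`; then `G(s*) < 0` since `η > 0`.
If `s* < s_0`: signs `+` (small), `-` (`s*`), `+` (`s_0`), `-` (`s_1`), `+` (`s_2`).
If `s* > s_2`: signs `+` (`s_0`), `-` (`s_1`), `+` (`s_2`), `-` (`s*`), `+` (large).
Both contradict `noAlt n 4`.
-/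

namespace H81.LP

/-- five points with alternating signs are impossible for four functions -/
theorem five_points {n : ℕ} (c X : Fin 4 → ℝ) (hX : ∀ j, 0 < X j) (hinj : Function.Injective X)
    (σ a b e f g : ℝ) (ha : 0 < a) (hab : a < b) (hbe : b < e) (hef : e < f) (hfg : f < g)
    (h0 : 0 < σ * ∑ j, c j * K n (X j * a)) (h1 : σ * ∑ j, c j * K n (X j * b) < 0)
    (h2 : 0 < σ * ∑ j, c j * K n (X j * e)) (h3 : σ * ∑ j, c j * K n (X j * f) < 0)
    (h4 : 0 < σ * ∑ j, c j * K n (X j * g)) : False := by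
  apply noAlt n 4 c X hX hinj
  refine ⟨σ, ![a, b, e, f, g], ?_, ?_, ?_⟩
  · rw [Fin.strictMono_iff_lt_succ]
    intro i
    fin_cases i <;> simp [Fin.castSucc, Fin.succ] <;> assumption
  · intro i
    fin_cases i <;> simp <;> linarith
  · intro i
    fin_cases i <;> simp <;> linarith

/-- three points with alternating signs are impossible for two functions -/
theorem three_points {n : ℕ} (ρ x y : ℝ) (hx : 0 < x) (hy : 0 < y) (hxy : x ≠ y)
    (a b e : ℝ) (ha : 0 < a) (hab : a < b) (hbe : b < e)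
    (h0 : 0 < K n (x * a) - ρ * K n (y * a)) (h1 : K n (x * b) - ρ * K n (y * b) < 0)
    (h2 : 0 < K n (x * e) - ρ * K n (y * e)) : False := by
  have hinj : Function.Injective (![x, y] : Fin 2 → ℝ) := by
    intro i j hij
    fin_cases i <;> fin_cases j <;> simp at hij ⊢
    · exact hxy hij
    · exact hxy hij.symm
  have hpos : ∀ j, 0 < (![x, y] : Fin 2 → ℝ) j := by
    intro j
    fin_cases j <;> simp <;> assumption
  apply noAlt n 2 ![1, -ρ] ![x, y] hpos hinj
  refine ⟨1, ![a, b, e], ?_, ?_, ?_⟩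
  · rw [Fin.strictMono_iff_lt_succ]
    intro i
    fin_cases i <;> simp [Fin.castSucc, Fin.succ] <;> assumption
  · intro i
    fin_cases i <;> simp <;> linarith
  · intro i
    fin_cases i <;> simp [Fin.sum_univ_two] <;> linarith

theorem ratio {n : ℕ} (ρ x y : ℝ) (hx : 0 < x) (hxy : x < y) (h : ρ * K n y < K n x) :
    ∀ s, 1 ≤ s → ρ * K n (y * s) < K n (x * s) := by
  intro s hs
  by_contra hcon
  push Not at hcon
  have hy : 0 < y := hx.trans hxy
  have hKy := K_pos n hy
  have hs0 : 0 < s := by linarith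
  have hKys := K_pos n (mul_pos hy hs0)
  obtain ⟨ρ', h1, h2⟩ : ∃ ρ', ρ < ρ' ∧ ρ' * K n y < K n x := by
    refine ⟨(ρ + K n x / K n y) / 2, ?_, ?_⟩
    · have : ρ < K n x / K n y := by rwa [lt_div_iff₀ hKy]
      linarith
    · have : ρ < K n x / K n y := by rwa [lt_div_iff₀ hKy]
      rw [← lt_div_iff₀ hKy]
      linarith
  have h3 : K n (x * s) - ρ' * K n (y * s) < 0 := by nlinarith
  have h4 : 0 < K n (x * 1) - ρ' * K n (y * 1) := by
    rw [mul_one, mul_one]
    linarith
  have hs1 : 1 < s := by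
    rcases hs.lt_or_eq with h | h
    · exact h
    · rw [← h] at h3
      linarith
  have hpos : ∀ j, 0 < (![x, y] : Fin 2 → ℝ) j := by
    intro j
    fin_cases j <;> simp <;> assumption
  obtain ⟨s1, hs10, hs1'⟩ := large (n := n) ![1, -ρ'] ![x, y] hpos 0 (by
    intro j hj
    fin_cases j
    · exact absurd rfl hj
    · simpa using hxy) (by simp)
  have h5 := hs1' (max s1 (s + 1)) (le_max_left _ _)
  rw [Fin.sum_univ_two] at h5
  simp only [Matrix.cons_val_zero, Matrix.cons_val_one, one_mul] at h5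
  exact three_points ρ' x y hx hy hxy.ne 1 s (max s1 (s + 1)) one_pos hs1
    (lt_of_lt_of_le (lt_add_one s) (le_max_right _ _)) h4 h3 (by linarith)

theorem primal {n : ℕ} (c X : Fin 4 → ℝ) (hX : ∀ j, 0 < X j) (hmono : StrictMono X)
    (hc : c 0 < 0) (δ ρ sa sb : ℝ) (hδ : 0 < δ) (hρ : 0 < ρ) (hsa : 0 < sa) (hab : sa < sb)
    (hb : sb < 1) (h12 : ρ * K n (X 2) < K n (X 1))
    (h1 : ∑ j, c j * K n (X j) + δ * (K n (X 1) - ρ * K n (X 2)) < 0)
    (h2 : 0 < ∑ j, c j * K n (X j * sb) + δ * (K n (X 1 * sb) - ρ * K n (X 2 * sb)))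
    (h3 : ∑ j, c j * K n (X j * sa) + δ * (K n (X 1 * sa) - ρ * K n (X 2 * sa)) < 0) :
    ∀ s, 1 ≤ s → ∑ j, c j * K n (X j * s) < 0 := by
  intro s hs
  by_contra hcon
  push Not at hcon
  let c' : Fin 4 → ℝ := ![c 0, c 1 + δ, c 2 - δ * ρ, c 3]
  have hG : ∀ t, ∑ j, c' j * K n (X j * t) =
      ∑ j, c j * K n (X j * t) + δ * (K n (X 1 * t) - ρ * K n (X 2 * t)) := by
    intro t
    rw [Fin.sum_univ_four, Fin.sum_univ_four]
    simp only [c', Matrix.cons_val_zero, Matrix.cons_val_one, Matrix.cons_val]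
    ring
  have hr := ratio (n := n) ρ (X 1) (X 2) (hX 1) (hmono (by decide)) h12 s hs
  have hGs : 0 < ∑ j, c' j * K n (X j * s) := by
    rw [hG]
    have := mul_pos hδ (sub_pos.mpr hr)
    linarith
  have hG1 : ∑ j, c' j * K n (X j * 1) < 0 := by
    rw [hG]
    simpa using h1
  have hs1 : 1 < s := by
    rcases hs.lt_or_eq with h | h
    · exact h
    · rw [← h] at hGs
      linarith
  obtain ⟨s1, hs10, hs1'⟩ := large (n := n) (fun j => -c' j) X hX 0 (by
    intro j hj
    exact hmono (Fin.pos_of_ne_zero hj)) (by simpa [c'] using hc)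
  have h5 := hs1' (max s1 (s + 1)) (le_max_left _ _)
  have h6 : ∑ j, (-c' j) * K n (X j * (max s1 (s + 1))) =
      -∑ j, c' j * K n (X j * (max s1 (s + 1))) := by
    rw [← Finset.sum_neg_distrib]
    exact Finset.sum_congr rfl fun j _ => neg_mul _ _
  rw [h6] at h5
  rw [← hG] at h2 h3
  exact five_points (n := n) c' X hX hmono.injective (-1) sa sb 1 s (max s1 (s + 1)) hsa hab hb hs1
    (lt_of_lt_of_le (lt_add_one s) (le_max_right _ _)) (by linarith) (by linarith) (by linarith)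
    (by linarith) (by linarith)

theorem dual {n : ℕ} (ω Y : Fin 4 → ℝ) (hY : ∀ j, 0 < Y j) (hinj : Function.Injective Y)
    (j0 k : Fin 4) (hj0 : ∀ j, j ≠ j0 → Y j0 < Y j) (hω : 0 < ω j0) (hk : k ≠ j0)
    (η s0 s1 s2 : ℝ) (hη : 0 < η) (hs0 : 0 < s0) (h01 : s0 < s1) (h12 : s1 < s2)
    (hsum : η < ∑ j, ω j)
    (h0 : 0 < ∑ j, ω j * K n (Y j * s0) - η * K n (Y k * s0))
    (h1 : ∑ j, ω j * K n (Y j * s1) - η * K n (Y k * s1) < 0)
    (h2 : 0 < ∑ j, ω j * K n (Y j * s2) - η * K n (Y k * s2))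
    (hwin : ∀ s, s0 ≤ s → s ≤ s2 → 0 < ∑ j, ω j * K n (Y j * s)) :
    ∀ s, 0 < s → 0 < ∑ j, ω j * K n (Y j * s) := by
  intro s hs
  by_contra hcon
  push Not at hcon
  let c' : Fin 4 → ℝ := fun j => ω j - if j = k then η else 0
  have hG : ∀ t, ∑ j, c' j * K n (Y j * t) =
      ∑ j, ω j * K n (Y j * t) - η * K n (Y k * t) := by
    intro t
    simp only [c', sub_mul, Finset.sum_sub_distrib, ite_mul, zero_mul]
    rw [Finset.sum_ite_eq' Finset.univ k (fun j => η * K n (Y j * t))]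
    simp
  have hGs : ∑ j, c' j * K n (Y j * s) < 0 := by
    rw [hG]
    have := mul_pos hη (K_pos n (mul_pos (hY k) hs))
    linarith
  have hcj0 : 0 < c' j0 := by
    simp only [c', if_neg hk.symm, sub_zero]
    exact hω
  obtain ⟨t, ht0, ht⟩ := large (n := n) c' Y hY j0 hj0 hcj0
  have hsum' : 0 < ∑ j, c' j := by
    simp only [c', Finset.sum_sub_distrib, Finset.sum_ite_eq', Finset.mem_univ, if_true]
    linarith
  rw [← hG] at h0 h1 h2
  rcases lt_or_ge s s0 with hlt | hge
  · obtain ⟨r, hr0, hrs, hr⟩ := small (n := n) c' Y hY hsum' hs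
    exact five_points (n := n) c' Y hY hinj 1 r s s0 s1 s2 hr0 hrs hlt h01 h12
      (by linarith) (by linarith) (by linarith) (by linarith) (by linarith)
  · rcases le_or_gt s s2 with hle | hgt
    · exact absurd (hwin s hge hle) (not_lt.mpr hcon)
    · have h5 := ht (max t (s + 1)) (le_max_left _ _)
      exact five_points (n := n) c' Y hY hinj 1 s0 s1 s2 s (max t (s + 1)) hs0 h01 h12 hgt
        (lt_of_lt_of_le (lt_add_one s) (le_max_right _ _))
        (by linarith) (by linarith) (by linarith) (by linarith) (by linarith)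

end H81.LP
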