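import Pool.Agent.H81.LP.Kbasic

/-!
# Module C4: positivity on a short interval by quadratic interpolation

For `x > 0` and `0 ≤ θ ≤ 1`, with `x = exp (-z)`, `z ≥ 0` (so `0 < x ≤ 1`):
(L) `x^θ ≥ 1 + θ (x - x⁻¹)/2 + θ² (x - 2 + x⁻¹)/2`   (quadratic interpolation at `-1, 0, 1`),
(U) `x^θ ≤ 1 + θ (x - 1) + θ (θ - 1) (x² - 2 x + 1)/2`  (quadratic interpolation at `0, 1, 2`).
Proof: the error of interpolation is `(d/dθ)³ x^θ /6 = -z³ x^ξ/6` times `(θ+1) θ (θ-1) ≤ 0`,
respectively `θ (θ-1) (θ-2) ≥ 0`.  (Or: for fixed `θ` study `z ↦ difference`, e.g. by the power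
series of `exp`, or Rolle's theorem.)
Multiply by `exp (-s w)` with `z = ω w` and integrate over `v` (`w = Y exp (-∑ v_i)`): for
`f(s) = K n (Y s)`, `s - ω > 0`, `ω > 0`, `0 ≤ θ ≤ 1`:
`f(s + θ ω) ≥ f(s) + θ (f(s+ω) - f(s-ω))/2 + θ² (f(s+ω) - 2 f(s) + f(s-ω))/2`  (`K_lower`)
`f(s + θ ω) ≤ f(s) + θ (f(s+ω) - f(s)) + θ (θ-1)/2 (f(s+2ω) - 2 f(s+ω) + f(s))`  (`K_upper`).
`window`: use `K_lower` for `ω_j ≥ 0` and `K_upper` for `ω_j < 0`; the sum of the bounds is
`A + B θ + C θ²` with `A = ∑ ω_j f_j(s)`, `A + B + C = ∑ ω_j f_j(s+ω)` and `C` as below, and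
`A + B θ + C θ² = (1-θ) A + θ (A+B+C) - C θ (1-θ) ≥ min (A, A+B+C) - |C|/4 > 0`.
-/

namespace H81.LP

open MeasureTheory

theorem conv_exp {z θ : ℝ} (h0 : 0 ≤ θ) (h1 : θ ≤ 1) :
    Real.exp (-(θ * z)) ≤ (1 - θ) / 2 * Real.exp z + (1 + θ) / 2 * Real.exp (-z) := by
  have h := convexOn_exp.2 (Set.mem_univ z) (Set.mem_univ (-z))
    (show (0 : ℝ) ≤ (1 - θ) / 2 by linarith) (show (0 : ℝ) ≤ (1 + θ) / 2 by linarith) (by ring)
  simp only [smul_eq_mul] at h
  have e : (1 - θ) / 2 * z + (1 + θ) / 2 * -z = -(θ * z) := by ring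
  rw [e] at h
  exact h

theorem exp_lower {z θ : ℝ} (hz : 0 ≤ z) (h0 : 0 ≤ θ) (h1 : θ ≤ 1) :
    1 + θ * (Real.exp (-z) - Real.exp z) / 2 + θ ^ 2 * (Real.exp (-z) - 2 + Real.exp z) / 2 ≤
      Real.exp (-(θ * z)) := by
  set f : ℝ → ℝ := fun z => Real.exp (-(θ * z)) - (1 + θ * (Real.exp (-z) - Real.exp z) / 2 +
    θ ^ 2 * (Real.exp (-z) - 2 + Real.exp z) / 2) with hf
  have hd : ∀ y : ℝ, HasDerivAt f (Real.exp (-(θ * y)) * (-(θ * 1)) -
      (0 + θ * (Real.exp (-y) * (-1) - Real.exp y) / 2 +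
      θ ^ 2 * (Real.exp (-y) * (-1) - 0 + Real.exp y) / 2)) y := by
    intro y
    have e1 : HasDerivAt (fun z : ℝ => Real.exp (-(θ * z))) (Real.exp (-(θ * y)) * (-(θ * 1))) y :=
      (((hasDerivAt_id y).const_mul θ).neg).exp
    have e2 : HasDerivAt (fun z : ℝ => Real.exp (-z)) (Real.exp (-y) * (-1)) y :=
      ((hasDerivAt_id y).neg).exp
    have e3 : HasDerivAt (fun z : ℝ => Real.exp z) (Real.exp y) y := Real.hasDerivAt_exp y
    exact e1.sub (((hasDerivAt_const y (1 : ℝ)).add (((e2.sub e3).const_mul θ).div_const 2)).add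
      ((((e2.sub (hasDerivAt_const y (2 : ℝ))).add e3).const_mul (θ ^ 2)).div_const 2))
  have hmono : MonotoneOn f (Set.Ici 0) := by
    apply monotoneOn_of_deriv_nonneg (convex_Ici 0)
    · exact fun y _ => (hd y).continuousAt.continuousWithinAt
    · exact fun y _ => (hd y).differentiableAt.differentiableWithinAt
    · intro y _
      rw [(hd y).deriv]
      have hc := conv_exp (z := y) h0 h1
      nlinarith [mul_nonneg h0 (sub_nonneg.mpr hc)]
  have h := hmono (Set.mem_Ici.mpr le_rfl) (Set.mem_Ici.mpr hz) hz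
  have hf0 : f 0 = 0 := by
    simp only [hf]
    norm_num
  rw [hf0] at h
  simp only [hf] at h
  linarith

theorem exp_upper {z θ : ℝ} (hz : 0 ≤ z) (h0 : 0 ≤ θ) (h1 : θ ≤ 1) :
    Real.exp (-(θ * z)) ≤ 1 + θ * (Real.exp (-z) - 1) +
      θ * (θ - 1) / 2 * (Real.exp (-(2 * z)) - 2 * Real.exp (-z) + 1) := by
  have e2z : ∀ y : ℝ, Real.exp (-(2 * y)) = Real.exp (-y) ^ 2 := by
    intro y
    rw [← Real.exp_nat_mul]
    congr 1
    push_cast
    ring
  set f : ℝ → ℝ := fun z => 1 + θ * (Real.exp (-z) - 1) +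
      θ * (θ - 1) / 2 * (Real.exp (-z) ^ 2 - 2 * Real.exp (-z) + 1) - Real.exp (-(θ * z)) with hf
  have hd : ∀ y : ℝ, HasDerivAt f (0 + θ * (Real.exp (-y) * (-1) - 0) +
      θ * (θ - 1) / 2 * (((2 : ℕ) : ℝ) * Real.exp (-y) ^ (2 - 1) * (Real.exp (-y) * (-1)) -
        2 * (Real.exp (-y) * (-1)) + 0) -
      Real.exp (-(θ * y)) * (-(θ * 1))) y := by
    intro y
    have e1 : HasDerivAt (fun z : ℝ => Real.exp (-(θ * z))) (Real.exp (-(θ * y)) * (-(θ * 1))) y :=
      (((hasDerivAt_id y).const_mul θ).neg).exp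
    have e2 : HasDerivAt (fun z : ℝ => Real.exp (-z)) (Real.exp (-y) * (-1)) y :=
      ((hasDerivAt_id y).neg).exp
    exact (((hasDerivAt_const y (1 : ℝ)).add ((e2.sub (hasDerivAt_const y (1 : ℝ))).const_mul θ)).add
      ((((e2.pow 2).sub (e2.const_mul 2)).add (hasDerivAt_const y (1 : ℝ))).const_mul
        (θ * (θ - 1) / 2))).sub e1
  have hmono : MonotoneOn f (Set.Ici 0) := by
    apply monotoneOn_of_deriv_nonneg (convex_Ici 0)
    · exact fun y _ => (hd y).continuousAt.continuousWithinAt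
    · exact fun y _ => (hd y).differentiableAt.differentiableWithinAt
    · intro y hy
      rw [interior_Ici, Set.mem_Ioi] at hy
      rw [(hd y).deriv]
      have hx0 : 0 < Real.exp (-y) := Real.exp_pos _
      have k1 : 1 + (1 - θ) * y ≤ Real.exp ((1 - θ) * y) := by
        have := Real.add_one_le_exp ((1 - θ) * y)
        linarith
      have k2 : 1 - Real.exp (-y) ≤ y := by
        have := Real.add_one_le_exp (-y)
        linarith
      have k3 : 1 + (1 - θ) * (1 - Real.exp (-y)) ≤ Real.exp ((1 - θ) * y) := by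
        have := mul_le_mul_of_nonneg_left k2 (show 0 ≤ 1 - θ by linarith)
        linarith
      have k4 : Real.exp (-y) * Real.exp ((1 - θ) * y) = Real.exp (-(θ * y)) := by
        rw [← Real.exp_add]
        congr 1
        ring
      have k5 := mul_le_mul_of_nonneg_left k3 hx0.le
      rw [k4] at k5
      have k6 := mul_le_mul_of_nonneg_left k5 h0
      norm_num
      nlinarith
  have h := hmono (Set.mem_Ici.mpr le_rfl) (Set.mem_Ici.mpr hz) hz
  have hf0 : f 0 = 0 := by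
    simp only [hf]
    norm_num
  rw [hf0] at h
  simp only [hf] at h
  rw [e2z z]
  linarith

theorem K_comb (n : ℕ) {X1 X2 X3 X4 : ℝ} (h1 : 0 < X1) (h2 : 0 < X2) (h3 : 0 < X3) (h4 : 0 < X4)
    (a1 a2 a3 a4 : ℝ)
    (h : ∀ w : ℝ, 0 < w → 0 ≤ a1 * Real.exp (-(X1 * w)) + a2 * Real.exp (-(X2 * w)) +
      a3 * Real.exp (-(X3 * w)) + a4 * Real.exp (-(X4 * w))) :
    0 ≤ a1 * K n X1 + a2 * K n X2 + a3 * K n X3 + a4 * K n X4 := by
  set J : ℝ → (Fin n → ℝ) → ℝ := fun X v =>
    Real.exp (-(∑ i, Real.exp (v i)) - X * Real.exp (-(∑ i, v i))) with hJ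
  have i1 : Integrable (fun v => a1 * J X1 v) := (K_integrable n h1).const_mul a1
  have i2 : Integrable (fun v => a2 * J X2 v) := (K_integrable n h2).const_mul a2
  have i3 : Integrable (fun v => a3 * J X3 v) := (K_integrable n h3).const_mul a3
  have i4 : Integrable (fun v => a4 * J X4 v) := (K_integrable n h4).const_mul a4
  have i12 : Integrable (fun v => a1 * J X1 v + a2 * J X2 v) := i1.add i2
  have i123 : Integrable (fun v => a1 * J X1 v + a2 * J X2 v + a3 * J X3 v) := i12.add i3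
  have hK : ∀ X, K n X = ∫ v, J X v := fun X => rfl
  rw [hK, hK, hK, hK, ← integral_const_mul, ← integral_const_mul, ← integral_const_mul,
    ← integral_const_mul, ← integral_add i1 i2, ← integral_add i12 i3, ← integral_add i123 i4]
  apply integral_nonneg
  intro v
  have hw : 0 < Real.exp (-(∑ i, v i)) := Real.exp_pos _
  have hh := h _ hw
  have hb : 0 < Real.exp (-(∑ i, Real.exp (v i))) := Real.exp_pos _
  have e : ∀ X : ℝ, Real.exp (-(∑ i, Real.exp (v i)) - X * Real.exp (-(∑ i, v i))) =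
      Real.exp (-(∑ i, Real.exp (v i))) * Real.exp (-(X * Real.exp (-(∑ i, v i)))) := by
    intro X
    rw [← Real.exp_add]
    congr 1
  simp only [Pi.zero_apply, hJ, e]
  have := mul_nonneg hb.le hh
  linarith

theorem K_lower (n : ℕ) {Y s r θ : ℝ} (hY : 0 < Y) (hr : 0 < r) (hs : r < s) (h0 : 0 ≤ θ)
    (h1 : θ ≤ 1) :
    K n (Y * s) + θ * (K n (Y * (s + r)) - K n (Y * (s - r))) / 2 +
      θ ^ 2 * (K n (Y * (s + r)) - 2 * K n (Y * s) + K n (Y * (s - r))) / 2 ≤
      K n (Y * (s + θ * r)) := by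
  have hs0 : 0 < s := hr.trans hs
  have key := K_comb n (X1 := Y * (s + θ * r)) (X2 := Y * s) (X3 := Y * (s + r))
    (X4 := Y * (s - r)) (by positivity) (by positivity) (by positivity)
    (mul_pos hY (by linarith)) 1 (-(1 - θ ^ 2)) (-(θ / 2 + θ ^ 2 / 2)) (-(-(θ / 2) + θ ^ 2 / 2))
    (by
      intro w hw
      have hz : 0 ≤ Y * r * w := by positivity
      have hE := exp_lower hz h0 h1
      have hb : 0 < Real.exp (-(Y * s * w)) := Real.exp_pos _
      have e1 : Real.exp (-(Y * (s + θ * r) * w)) =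
          Real.exp (-(Y * s * w)) * Real.exp (-(θ * (Y * r * w))) := by
        rw [← Real.exp_add]; congr 1; ring
      have e2 : Real.exp (-(Y * (s + r) * w)) =
          Real.exp (-(Y * s * w)) * Real.exp (-(Y * r * w)) := by
        rw [← Real.exp_add]; congr 1; ring
      have e3 : Real.exp (-(Y * (s - r) * w)) =
          Real.exp (-(Y * s * w)) * Real.exp (Y * r * w) := by
        rw [← Real.exp_add]; congr 1; ring
      rw [e1, e2, e3]
      have := mul_le_mul_of_nonneg_left hE hb.le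
      linarith)
  linarith

theorem K_upper (n : ℕ) {Y s r θ : ℝ} (hY : 0 < Y) (hr : 0 < r) (hs : 0 < s) (h0 : 0 ≤ θ)
    (h1 : θ ≤ 1) :
    K n (Y * (s + θ * r)) ≤ K n (Y * s) + θ * (K n (Y * (s + r)) - K n (Y * s)) +
      θ * (θ - 1) / 2 * (K n (Y * (s + 2 * r)) - 2 * K n (Y * (s + r)) + K n (Y * s)) := by
  have key := K_comb n (X1 := Y * (s + θ * r)) (X2 := Y * s) (X3 := Y * (s + r))
    (X4 := Y * (s + 2 * r)) (by positivity) (by positivity) (by positivity)
    (by positivity) (-1) (1 - θ + θ * (θ - 1) / 2) (θ - θ * (θ - 1)) (θ * (θ - 1) / 2)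
    (by
      intro w hw
      have hz : 0 ≤ Y * r * w := by positivity
      have hE := exp_upper hz h0 h1
      have hb : 0 < Real.exp (-(Y * s * w)) := Real.exp_pos _
      have e1 : Real.exp (-(Y * (s + θ * r) * w)) =
          Real.exp (-(Y * s * w)) * Real.exp (-(θ * (Y * r * w))) := by
        rw [← Real.exp_add]; congr 1; ring
      have e2 : Real.exp (-(Y * (s + r) * w)) =
          Real.exp (-(Y * s * w)) * Real.exp (-(Y * r * w)) := by
        rw [← Real.exp_add]; congr 1; ring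
      have e3 : Real.exp (-(Y * (s + 2 * r) * w)) =
          Real.exp (-(Y * s * w)) * Real.exp (-(2 * (Y * r * w))) := by
        rw [← Real.exp_add]; congr 1; ring
      rw [e1, e2, e3]
      have := mul_le_mul_of_nonneg_left hE hb.le
      linarith)
  linarith

/-- `pos j` says which bound is used for the index `j` -/
theorem window {n N : ℕ} (ω Y : Fin N → ℝ) (hY : ∀ j, 0 < Y j) (pos : Fin N → Bool)
    (hpos : ∀ j, pos j = true → 0 ≤ ω j) (hneg : ∀ j, pos j = false → ω j ≤ 0)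
    {s r : ℝ} (hr : 0 < r) (hs : r < s) (A D C : ℝ)
    (hA : A = ∑ j, ω j * K n (Y j * s))
    (hD : D = ∑ j, ω j * K n (Y j * (s + r)))
    (hC : C = ∑ j, if pos j = true then
        ω j * (K n (Y j * (s + r)) - 2 * K n (Y j * s) + K n (Y j * (s - r))) / 2
      else ω j * (K n (Y j * (s + 2 * r)) - 2 * K n (Y j * (s + r)) + K n (Y j * s)) / 2)
    (h1 : |C| / 4 < A) (h2 : |C| / 4 < D) :
    ∀ t, s ≤ t → t ≤ s + r → 0 < ∑ j, ω j * K n (Y j * t) := by
  intro t ht1 ht2
  set θ := (t - s) / r with hθ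
  have h0 : 0 ≤ θ := div_nonneg (by linarith) hr.le
  have h1' : θ ≤ 1 := by
    rw [hθ, div_le_one hr]
    linarith
  have ht : t = s + θ * r := by
    rw [hθ]
    field_simp
    ring
  have hs0 : 0 < s := hr.trans hs
  have hterm : ∀ j, (1 - θ) * (ω j * K n (Y j * s)) + θ * (ω j * K n (Y j * (s + r))) -
      θ * (1 - θ) * (if pos j = true then
        ω j * (K n (Y j * (s + r)) - 2 * K n (Y j * s) + K n (Y j * (s - r))) / 2
      else ω j * (K n (Y j * (s + 2 * r)) - 2 * K n (Y j * (s + r)) + K n (Y j * s)) / 2) ≤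
      ω j * K n (Y j * t) := by
    intro j
    rw [ht]
    by_cases hj : pos j = true
    · rw [if_pos hj]
      have hl := K_lower n (hY j) hr hs h0 h1'
      have := mul_le_mul_of_nonneg_left hl (hpos j hj)
      linarith
    · rw [if_neg hj]
      have hj' : pos j = false := by
        cases hb : pos j
        · rfl
        · exact absurd hb hj
      have hu := K_upper n (hY j) hr hs0 h0 h1'
      have := mul_le_mul_of_nonpos_left hu (hneg j hj')
      linarith
  have hsum := Finset.sum_le_sum (fun j (_ : j ∈ Finset.univ) => hterm j)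
  rw [Finset.sum_sub_distrib, Finset.sum_add_distrib, ← Finset.mul_sum, ← Finset.mul_sum,
    ← Finset.mul_sum, ← hA, ← hD, ← hC] at hsum
  refine lt_of_lt_of_le ?_ hsum
  have hq : θ * (1 - θ) ≤ 1 / 4 := by nlinarith [sq_nonneg (θ - 1 / 2)]
  have hq0 : 0 ≤ θ * (1 - θ) := mul_nonneg h0 (by linarith)
  have hC1 : θ * (1 - θ) * C ≤ |C| / 4 := by
    have a1 : θ * (1 - θ) * C ≤ θ * (1 - θ) * |C| := mul_le_mul_of_nonneg_left (le_abs_self C) hq0
    have a2 : θ * (1 - θ) * |C| ≤ 1 / 4 * |C| := mul_le_mul_of_nonneg_right hq (abs_nonneg C)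
    linarith
  have hAD : |C| / 4 < (1 - θ) * A + θ * D := by
    rcases eq_or_lt_of_le h0 with h | h
    · rw [← h]
      linarith
    · have b1 : (1 - θ) * (|C| / 4) ≤ (1 - θ) * A := mul_le_mul_of_nonneg_left h1.le (by linarith)
      have b2 : θ * (|C| / 4) < θ * D := mul_lt_mul_of_pos_left h2 h
      linarith
  linarith

end H81.LP
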