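import Pool.Agent.H81.LP.Approx
import Pool.Agent.H81.LP.PrimalDual
import Pool.Agent.H81.LP.Window

/-!
# From a finite certificate to the sign conditions `Cond`
-/

namespace H81.LP

theorem one_lt_q : 1 < q := by unfold q; norm_num

theorem hh_pos : 0 < hh := by
  have := hh_bounds.1
  linarith

theorem sqrt_q_zpow' (m : ℤ) : (√(q ^ m))⁻¹ = (7 / 8 : ℝ) ^ m := by
  rw [sqrt_q_zpow, ← inv_zpow]
  norm_num

theorem cond_of_cert {n : ℕ} (c : Fin 4 → ℝ) (m : Fin 4 → ℤ) (hm : StrictMono m)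
    (hc0 : c 0 < 0) (hc1 : 0 ≤ c 1) (hc2 : c 2 ≤ 0) (hc3 : 0 < c 3)
    (δ ρ : ℝ) (hδ : 0 < δ) (hρ : 0 < ρ)
    (κ : ℤ → ℝ) (hκ : ∀ z, κ z = K n (q ^ z) / hh ^ n)
    (p12 : ρ * κ (m 2) < κ (m 1))
    (p1 : ∑ j, c j * κ (m j) + δ * (κ (m 1) - ρ * κ (m 2)) < 0)
    (p2 : 0 < ∑ j, c j * κ (m j - 2) + δ * (κ (m 1 - 2) - ρ * κ (m 2 - 2)))
    (p3 : ∑ j, c j * κ (m j - 20) + δ * (κ (m 1 - 20) - ρ * κ (m 2 - 20)) < 0)
    (M : ℤ) (a : ℝ) (ha : 2 < a) (V : Fin 5 → Fin 4 → ℝ)
    (hV : ∀ i j, V i j = K n ((a + (i : ℕ) - 2) / 64 * q ^ (M - m j)) / hh ^ n)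
    (ω : Fin 4 → ℝ) (hω : ∀ j, ω j = c j * (7 / 8 : ℝ) ^ (m j))
    (η : ℝ) (hη : 0 < η) (hsum : η < ∑ j, ω j)
    (d0 : 0 < ∑ j, ω j * V 1 j - η * V 1 1)
    (d1 : ∑ j, ω j * V 2 j - η * V 2 1 < 0)
    (d2 : 0 < ∑ j, ω j * V 3 j - η * V 3 1)
    (C1 C2 : ℝ)
    (hC1 : C1 = ω 0 * (V 3 0 - 2 * V 2 0 + V 1 0) / 2 + ω 1 * (V 2 1 - 2 * V 1 1 + V 0 1) / 2 +
      ω 2 * (V 3 2 - 2 * V 2 2 + V 1 2) / 2 + ω 3 * (V 2 3 - 2 * V 1 3 + V 0 3) / 2)
    (hC2 : C2 = ω 0 * (V 4 0 - 2 * V 3 0 + V 2 0) / 2 + ω 1 * (V 3 1 - 2 * V 2 1 + V 1 1) / 2 +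
      ω 2 * (V 4 2 - 2 * V 3 2 + V 2 2) / 2 + ω 3 * (V 3 3 - 2 * V 2 3 + V 1 3) / 2)
    (w1 : |C1| / 4 < ∑ j, ω j * V 1 j) (w2 : |C1| / 4 < ∑ j, ω j * V 2 j)
    (w3 : |C2| / 4 < ∑ j, ω j * V 2 j) (w4 : |C2| / 4 < ∑ j, ω j * V 3 j) :
    Cond n c (fun j => q ^ (m j)) := by
  have hq := q_pos
  have hH : 0 < hh ^ n := by have := hh_pos; positivity
  have hKκ : ∀ z, K n (q ^ z) = hh ^ n * κ z := by
    intro z
    rw [hκ]
    field_simp
  have hX : ∀ j, 0 < q ^ (m j) := fun j => by positivity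
  have hXmono : StrictMono (fun j => q ^ (m j)) := fun i j hij =>
    zpow_lt_zpow_right₀ one_lt_q (hm hij)
  have hsq : ∀ j, c j / √(q ^ (m j)) = ω j := by
    intro j
    rw [div_eq_mul_inv, sqrt_q_zpow', hω]
  refine ⟨hX, ⟨0, ?_, hc0⟩, ⟨3, ?_, hc3⟩, ?_, ?_⟩
  · intro j hj
    exact hXmono (Fin.pos_of_ne_zero hj)
  · intro j hj
    exact hXmono (lt_of_le_of_ne (Fin.le_last j) hj)
  · -- primal
    have hmul : ∀ z j, q ^ (m j) * q ^ (-z : ℤ) = q ^ (m j - z) := by
      intro z j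
      rw [← zpow_add₀ hq.ne']
      rfl
    refine primal c _ hX hXmono hc0 δ ρ (q ^ (-20 : ℤ)) (q ^ (-2 : ℤ)) hδ hρ (by positivity)
      (zpow_lt_zpow_right₀ one_lt_q (by norm_num)) ?_ ?_ ?_ ?_ ?_
    · calc q ^ (-2 : ℤ) < q ^ (0 : ℤ) := zpow_lt_zpow_right₀ one_lt_q (by norm_num)
        _ = 1 := zpow_zero q
    · simp only [hKκ]
      nlinarith
    · have : ∑ j, c j * K n (q ^ (m j)) + δ * (K n (q ^ (m 1)) - ρ * K n (q ^ (m 2))) =
          hh ^ n * (∑ j, c j * κ (m j) + δ * (κ (m 1) - ρ * κ (m 2))) := by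
        simp only [hKκ, Fin.sum_univ_four]
        ring
      rw [this]
      exact mul_neg_of_pos_of_neg hH p1
    · have : ∑ j, c j * K n (q ^ (m j) * q ^ (-2 : ℤ)) + δ * (K n (q ^ (m 1) * q ^ (-2 : ℤ)) -
          ρ * K n (q ^ (m 2) * q ^ (-2 : ℤ))) =
          hh ^ n * (∑ j, c j * κ (m j - 2) + δ * (κ (m 1 - 2) - ρ * κ (m 2 - 2))) := by
        simp only [hmul, hKκ, Fin.sum_univ_four]
        ring
      rw [this]
      exact mul_pos hH p2
    · have : ∑ j, c j * K n (q ^ (m j) * q ^ (-20 : ℤ)) + δ * (K n (q ^ (m 1) * q ^ (-20 : ℤ)) -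
          ρ * K n (q ^ (m 2) * q ^ (-20 : ℤ))) =
          hh ^ n * (∑ j, c j * κ (m j - 20) + δ * (κ (m 1 - 20) - ρ * κ (m 2 - 20))) := by
        simp only [hmul, hKκ, Fin.sum_univ_four]
        ring
      rw [this]
      exact mul_neg_of_pos_of_neg hH p3
  · -- dual
    intro s hs
    have hsd : ∑ j, c j / √(q ^ (m j)) * K n (s / q ^ (m j)) =
        ∑ j, ω j * K n ((q ^ (m j))⁻¹ * s) := by
      apply Finset.sum_congr rfl
      intro j _
      rw [hsq, div_eq_inv_mul]
    rw [hsd]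
    set Y : Fin 4 → ℝ := fun j => (q ^ (m j))⁻¹ with hYdef
    have hYpos : ∀ j, 0 < Y j := fun j => inv_pos.mpr (hX j)
    have hYanti : ∀ i j, i < j → Y j < Y i := by
      intro i j hij
      exact inv_strictAnti₀ (hX i) (hXmono hij)
    have hYinj : Function.Injective Y := by
      intro i j hij
      by_contra hne
      rcases lt_or_gt_of_ne hne with h | h
      · exact absurd hij (hYanti i j h).ne'
      · exact absurd hij (hYanti j i h).ne
    -- nodes
    set nd : ℕ → ℝ := fun i => (a + i - 2) / 64 * q ^ M with hnd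
    have hKV : ∀ i j, K n (Y j * nd (i : Fin 5)) = hh ^ n * V i j := by
      intro i j
      have : Y j * nd (i : ℕ) = (a + (i : ℕ) - 2) / 64 * q ^ (M - m j) := by
        simp only [hYdef, hnd, zpow_sub₀ hq.ne']
        ring
      rw [this, hV]
      field_simp
    have hqM : 0 < q ^ M := by positivity
    have k0 : ∀ j, K n (Y j * nd 0) = hh ^ n * V 0 j := fun j => by simpa using hKV 0 j
    have k1 : ∀ j, K n (Y j * nd 1) = hh ^ n * V 1 j := fun j => by simpa using hKV 1 j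
    have k2 : ∀ j, K n (Y j * nd 2) = hh ^ n * V 2 j := fun j => by simpa using hKV 2 j
    have k3 : ∀ j, K n (Y j * nd 3) = hh ^ n * V 3 j := fun j => by simpa using hKV 3 j
    have k4 : ∀ j, K n (Y j * nd 4) = hh ^ n * V 4 j := fun j => by simpa using hKV 4 j
    set r : ℝ := q ^ M / 64 with hr
    have hrpos : 0 < r := by positivity
    have n12 : nd 1 + r = nd 2 := by simp only [hnd, hr]; push_cast; ring
    have n23 : nd 2 + r = nd 3 := by simp only [hnd, hr]; push_cast; ring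
    have n10 : nd 1 - r = nd 0 := by simp only [hnd, hr]; push_cast; ring
    have n21 : nd 2 - r = nd 1 := by simp only [hnd, hr]; push_cast; ring
    have n13 : nd 1 + 2 * r = nd 3 := by simp only [hnd, hr]; push_cast; ring
    have n24 : nd 2 + 2 * r = nd 4 := by simp only [hnd, hr]; push_cast; ring
    have nd0 : 0 < nd 0 := by
      simp only [hnd]
      have : 0 < a + ((0 : ℕ) : ℝ) - 2 := by push_cast; linarith
      positivity
    have hr1 : r < nd 1 := by linarith
    have hr2 : r < nd 2 := by linarith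
    have hω0 : ω 0 ≤ 0 := by
      rw [hω]
      exact mul_nonpos_of_nonpos_of_nonneg hc0.le (by positivity)
    have hω1 : 0 ≤ ω 1 := by
      rw [hω]
      positivity
    have hω2 : ω 2 ≤ 0 := by
      rw [hω]
      exact mul_nonpos_of_nonpos_of_nonneg hc2 (by positivity)
    have hω3 : 0 < ω 3 := by
      rw [hω]
      positivity
    have hpp : ∀ j : Fin 4, (![false, true, false, true] : Fin 4 → Bool) j = true → 0 ≤ ω j := by
      intro j hj
      fin_cases j
      · exact absurd hj (by decide)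
      · exact hω1
      · exact absurd hj (by decide)
      · exact hω3.le
    have hnn : ∀ j : Fin 4, (![false, true, false, true] : Fin 4 → Bool) j = false → ω j ≤ 0 := by
      intro j hj
      fin_cases j
      · exact hω0
      · exact absurd hj (by decide)
      · exact hω2
      · exact absurd hj (by decide)
    -- windows
    have win1 := window ω Y hYpos ![false, true, false, true]
      hpp hnn
      (s := nd 1) (r := r) hrpos hr1 (∑ j, ω j * K n (Y j * nd 1)) (∑ j, ω j * K n (Y j * (nd 1 + r)))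
      (hh ^ n * C1) rfl rfl
      (by
        rw [hC1, n12, n13, n10, Fin.sum_univ_four]
        simp only [k0, k1, k2, k3]
        simp
        ring)
      (by
        have : ∑ j, ω j * K n (Y j * nd 1) = hh ^ n * ∑ j, ω j * V 1 j := by
          rw [Finset.mul_sum]
          exact Finset.sum_congr rfl fun j _ => by rw [k1]; ring
        rw [this, abs_mul, abs_of_pos hH]
        nlinarith)
      (by
        have : ∑ j, ω j * K n (Y j * (nd 1 + r)) = hh ^ n * ∑ j, ω j * V 2 j := by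
          rw [Finset.mul_sum]
          exact Finset.sum_congr rfl fun j _ => by rw [n12, k2]; ring
        rw [this, abs_mul, abs_of_pos hH]
        nlinarith)
    have win2 := window ω Y hYpos ![false, true, false, true]
      hpp hnn
      (s := nd 2) (r := r) hrpos hr2 (∑ j, ω j * K n (Y j * nd 2)) (∑ j, ω j * K n (Y j * (nd 2 + r)))
      (hh ^ n * C2) rfl rfl
      (by
        rw [hC2, n23, n24, n21, Fin.sum_univ_four]
        simp only [k1, k2, k3, k4]
        simp
        ring)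
      (by
        have : ∑ j, ω j * K n (Y j * nd 2) = hh ^ n * ∑ j, ω j * V 2 j := by
          rw [Finset.mul_sum]
          exact Finset.sum_congr rfl fun j _ => by rw [k2]; ring
        rw [this, abs_mul, abs_of_pos hH]
        nlinarith)
      (by
        have : ∑ j, ω j * K n (Y j * (nd 2 + r)) = hh ^ n * ∑ j, ω j * V 3 j := by
          rw [Finset.mul_sum]
          exact Finset.sum_congr rfl fun j _ => by rw [n23, k3]; ring
        rw [this, abs_mul, abs_of_pos hH]
        nlinarith)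
    refine dual ω Y hYpos hYinj 3 1 (fun j hj => hYanti j 3 (lt_of_le_of_ne (Fin.le_last j) hj))
      hω3 (by decide) η (nd 1) (nd 2) (nd 3) hη (by linarith) (by linarith) (by linarith) hsum
      ?_ ?_ ?_ ?_ s hs
    · have : ∑ j, ω j * K n (Y j * nd 1) - η * K n (Y 1 * nd 1) =
          hh ^ n * (∑ j, ω j * V 1 j - η * V 1 1) := by
        simp only [k1, Fin.sum_univ_four]
        ring
      rw [this]
      exact mul_pos hH d0
    · have : ∑ j, ω j * K n (Y j * nd 2) - η * K n (Y 1 * nd 2) =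
          hh ^ n * (∑ j, ω j * V 2 j - η * V 2 1) := by
        simp only [k2, Fin.sum_univ_four]
        ring
      rw [this]
      exact mul_neg_of_pos_of_neg hH d1
    · have : ∑ j, ω j * K n (Y j * nd 3) - η * K n (Y 1 * nd 3) =
          hh ^ n * (∑ j, ω j * V 3 j - η * V 3 1) := by
        simp only [k3, Fin.sum_univ_four]
        ring
      rw [this]
      exact mul_pos hH d2
    · intro t ht1 ht3
      rcases le_total t (nd 2) with h | h
      · exact win1 t ht1 (by linarith)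
      · exact win2 t h (by linarith)

end H81.LP
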