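import Mathlib

/-!
# Linear programming bounds for products of linear forms: definitions

Let `d = n + 1`.  `K n` is the inverse Mellin transform of `Γ(s)^d`.  All modules of the folder
`Pool/Agent/H81/LP` use these definitions.
-/

namespace H81.LP

open MeasureTheory

/-- logarithms of the entries of a positive diagonal matrix of determinant one -/
def w {n : ℕ} (u : Fin n → ℝ) : Fin (n + 1) → ℝ := Fin.cons (-(∑ i, u i)) u

/-- `E(u) = ∑ exp (2 w_i(u))` -/
noncomputable def En {n : ℕ} (u : Fin n → ℝ) : ℝ := ∑ i, Real.exp (2 * w u i)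

/-- the kernel -/
noncomputable def K (n : ℕ) (X : ℝ) : ℝ :=
  ∫ v : Fin n → ℝ, Real.exp (-(∑ i, Real.exp (v i)) - X * Real.exp (-(∑ i, v i)))

/-- the integer vector `m` mapped by `g` -/
def gv {d : ℕ} (g : Matrix (Fin d) (Fin d) ℝ) (m : Fin d → ℤ) : Fin d → ℝ :=
  g.mulVec (fun j => (m j : ℝ))

/-- one term of the theta series -/
noncomputable def thTerm {n : ℕ} (g : Matrix (Fin (n + 1)) (Fin (n + 1)) ℝ) (lam : ℝ)
    (u : Fin n → ℝ) (m : Fin (n + 1) → ℤ) : ℝ :=
  Real.exp (-(Real.pi * lam * ∑ i, Real.exp (2 * w u i) * (gv g m i) ^ 2))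

/-- theta series of the lattice `diag (exp w(u)) g ℤ^(n+1)` -/
noncomputable def Th {n : ℕ} (g : Matrix (Fin (n + 1)) (Fin (n + 1)) ℝ) (lam : ℝ)
    (u : Fin n → ℝ) : ℝ := ∑' m : Fin (n + 1) → ℤ, thTerm g lam u m

/-- `N + 1` positive points at which `F` has strictly alternating signs -/
def Alt (F : ℝ → ℝ) (N : ℕ) : Prop :=
  ∃ (σ : ℝ) (s : Fin (N + 1) → ℝ), StrictMono s ∧ (∀ i, 0 < s i) ∧
    ∀ i : Fin (N + 1), 0 < σ * (-1) ^ (i : ℕ) * F (s i)

/-- the functions for which `Lap` makes sense -/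
def LapOK (φ : ℝ → ℝ) : Prop :=
  ∀ s, 0 < s → IntegrableOn (fun y => Real.exp (-(s / y)) * φ y / y) (Set.Ioi 0)

/-- the multiplicative convolution with `exp (-1/y)` -/
noncomputable def Lap (φ : ℝ → ℝ) (s : ℝ) : ℝ :=
  ∫ y in Set.Ioi 0, Real.exp (-(s / y)) * φ y / y

/-- the ratio of the grid -/
noncomputable def q : ℝ := 64 / 49

/-- the step of the grid -/
noncomputable def hh : ℝ := Real.log (64 / 49)

/-- the trapezoid sums: `K n X` is very close to `hh ^ n * S n X` -/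
noncomputable def S : ℕ → ℝ → ℝ
  | 0, X => Real.exp (-X)
  | n + 1, X => ∑' k : ℤ, Real.exp (-(q ^ k)) * S n (X * q ^ (-k))

/-- the sign conditions for the linear programming bound, `N` Gaussians -/
structure Cond (n : ℕ) {N : ℕ} (c X : Fin N → ℝ) : Prop where
  Xpos : ∀ j, 0 < X j
  /-- the smallest `X j` has `c j < 0` -/
  first : ∃ j0, (∀ j, j ≠ j0 → X j0 < X j) ∧ c j0 < 0
  /-- the largest `X j` has `0 < c j` -/
  last : ∃ j1, (∀ j, j ≠ j1 → X j < X j1) ∧ 0 < c j1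
  prim : ∀ s, 1 ≤ s → ∑ j, c j * K n (X j * s) < 0
  dual : ∀ s, 0 < s → 0 < ∑ j, c j / √(X j) * K n (s / X j)

end H81.LP
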