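import Pool.Agent.H81.LP.Tab

/-!
# Module E2: certified tables of exponentials

`R = 2^96`.  With `x_k = exp (-(σ q^k))`, `q = 64/49`: `x_(k+1)^49 = x_k^64`.  So from
`l/R ≤ x_k ≤ h/R` and `l'^49 R^15 ≤ l^64`, `h^64 ≤ h'^49 R^15` one gets `l'/R ≤ x_(k+1) ≤ h'/R`
(compare 49-th powers), and in the other direction `l'^64 ≤ l^49 R^15`, `h^49 R^15 ≤ h'^64` give
`l'/R ≤ x_(k-1) ≤ h'/R` from `l/R ≤ x_k ≤ h/R`.
Base: `σ = a/64`, `exp (-σ)^64 = exp (-1)^a`; `exp (-1)` to 29 digits by `Real.exp_bound` (30 terms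
at `x = -1`) or `Real.exp_bound'`.

The list `l1 ++ base :: l2` contains the lower bounds for `k = l1.length, …, 1`, `0`, `-1, -2, …`;
upper bounds are lower bounds `+ 2^20` (at the base `+ 2^16`).
-/

namespace H81.LP

/-- `⌊2^96 / e⌋` -/
def e1 : ℕ := 29146412150787779157341161346

/-- going up: `x` belongs to the exponent `k + 1`, the next entry `y` to `k` -/
def chkUp (l : List ℕ) : Bool :=
  match l with
  | [] => true
  | [_] => true
  | x :: y :: rest =>
    Nat.ble (x ^ 49 * 79228162514264337593543950336 ^ 15) (y ^ 64) &&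
      Nat.ble ((y + 1048576) ^ 64) ((x + 1048576) ^ 49 * 79228162514264337593543950336 ^ 15) &&
        chkUp (y :: rest)

/-- going down: `x` belongs to the exponent `k`, the next entry `y` to `k - 1` -/
def chkDown (l : List ℕ) : Bool :=
  match l with
  | [] => true
  | [_] => true
  | x :: y :: rest =>
    Nat.ble (y ^ 64) (x ^ 49 * 79228162514264337593543950336 ^ 15) &&
      Nat.ble ((x + 1048576) ^ 49 * 79228162514264337593543950336 ^ 15) ((y + 1048576) ^ 64) &&
        chkDown (y :: rest)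

/-- check of a whole table -/
def chkTab (a : ℕ) (l1 : List ℕ) (base : ℕ) (l2 : List ℕ) : Bool :=
  Nat.ble 64 a &&
  (Nat.ble (base ^ 64 * 79228162514264337593543950336 ^ (a - 64)) (e1 ^ a) &&
  (Nat.ble ((e1 + 1) ^ a) ((base + 65536) ^ 64 * 79228162514264337593543950336 ^ (a - 64)) &&
  (chkUp (l1 ++ [base]) &&
  (match l2 with
    | [] => true
    | y :: _ => Nat.ble (y ^ 64) (base ^ 49 * 79228162514264337593543950336 ^ 15) &&
      Nat.ble ((base + 65536) ^ 49 * 79228162514264337593543950336 ^ 15) ((y + 1048576) ^ 64)) &&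
  chkDown l2)))

theorem e1_bounds : (e1 : ℝ) / 2 ^ 96 ≤ Real.exp (-1) ∧ Real.exp (-1) ≤ ((e1 : ℝ) + 1) / 2 ^ 96 := by
  have h := Real.exp_bound (x := -1) (by norm_num) (n := 32) (by norm_num)
  rw [abs_le] at h
  obtain ⟨h1, h2⟩ := h
  simp only [Finset.sum_range_succ, Finset.sum_range_zero, Nat.factorial] at h1 h2
  norm_num at h1 h2
  unfold e1
  constructor
  · norm_num
    linarith
  · norm_num
    linarith

theorem et_up_step (R : ℕ) (hR : 0 < R) (E1 E0 : ℝ) (hE1 : 0 ≤ E1) (hE0 : 0 ≤ E0)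
    (hE : E1 ^ 49 = E0 ^ 64) (x y c d : ℕ) (h1 : x ^ 49 * R ^ 15 ≤ y ^ 64)
    (h2 : (y + c) ^ 64 ≤ (x + d) ^ 49 * R ^ 15) (hy : (y : ℝ) / R ≤ E0)
    (hy' : E0 ≤ ((y : ℝ) + c) / R) : (x : ℝ) / R ≤ E1 ∧ E1 ≤ ((x : ℝ) + d) / R := by
  have hR' : (0 : ℝ) < R := by exact_mod_cast hR
  have h1' : (x : ℝ) ^ 49 * R ^ 15 ≤ (y : ℝ) ^ 64 := by exact_mod_cast h1
  have h2' : ((y : ℝ) + c) ^ 64 ≤ ((x : ℝ) + d) ^ 49 * R ^ 15 := by exact_mod_cast h2
  constructor
  · rw [← pow_le_pow_iff_left₀ (by positivity) hE1 (by norm_num : (49 : ℕ) ≠ 0), hE]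
    refine le_trans ?_ (pow_le_pow_left₀ (by positivity) hy 64)
    rw [div_pow, div_pow, div_le_div_iff₀ (by positivity) (by positivity)]
    calc (x : ℝ) ^ 49 * R ^ 64 = ((x : ℝ) ^ 49 * R ^ 15) * R ^ 49 := by ring
      _ ≤ (y : ℝ) ^ 64 * R ^ 49 := mul_le_mul_of_nonneg_right h1' (by positivity)
  · rw [← pow_le_pow_iff_left₀ hE1 (by positivity) (by norm_num : (49 : ℕ) ≠ 0), hE]
    refine le_trans (pow_le_pow_left₀ hE0 hy' 64) ?_
    rw [div_pow, div_pow, div_le_div_iff₀ (by positivity) (by positivity)]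
    calc ((y : ℝ) + c) ^ 64 * R ^ 49 ≤ (((x : ℝ) + d) ^ 49 * R ^ 15) * R ^ 49 :=
          mul_le_mul_of_nonneg_right h2' (by positivity)
      _ = ((x : ℝ) + d) ^ 49 * R ^ 64 := by ring

theorem et_down_step (R : ℕ) (hR : 0 < R) (E1 E0 : ℝ) (hE1 : 0 ≤ E1) (hE0 : 0 ≤ E0)
    (hE : E1 ^ 49 = E0 ^ 64) (x y c d : ℕ) (h1 : y ^ 64 ≤ x ^ 49 * R ^ 15)
    (h2 : (x + c) ^ 49 * R ^ 15 ≤ (y + d) ^ 64) (hx : (x : ℝ) / R ≤ E1)
    (hx' : E1 ≤ ((x : ℝ) + c) / R) : (y : ℝ) / R ≤ E0 ∧ E0 ≤ ((y : ℝ) + d) / R := by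
  have hR' : (0 : ℝ) < R := by exact_mod_cast hR
  have h1' : (y : ℝ) ^ 64 ≤ (x : ℝ) ^ 49 * R ^ 15 := by exact_mod_cast h1
  have h2' : ((x : ℝ) + c) ^ 49 * R ^ 15 ≤ ((y : ℝ) + d) ^ 64 := by exact_mod_cast h2
  constructor
  · rw [← pow_le_pow_iff_left₀ (by positivity) hE0 (by norm_num : (64 : ℕ) ≠ 0), ← hE]
    refine le_trans ?_ (pow_le_pow_left₀ (by positivity) hx 49)
    rw [div_pow, div_pow, div_le_div_iff₀ (by positivity) (by positivity)]
    calc (y : ℝ) ^ 64 * R ^ 49 ≤ ((x : ℝ) ^ 49 * R ^ 15) * R ^ 49 :=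
          mul_le_mul_of_nonneg_right h1' (by positivity)
      _ = (x : ℝ) ^ 49 * R ^ 64 := by ring
  · rw [← pow_le_pow_iff_left₀ hE0 (by positivity) (by norm_num : (64 : ℕ) ≠ 0), ← hE]
    refine le_trans (pow_le_pow_left₀ hE1 hx' 49) ?_
    rw [div_pow, div_pow, div_le_div_iff₀ (by positivity) (by positivity)]
    calc ((x : ℝ) + c) ^ 49 * R ^ 64 = (((x : ℝ) + c) ^ 49 * R ^ 15) * R ^ 49 := by ring
      _ ≤ ((y : ℝ) + d) ^ 64 * R ^ 49 := mul_le_mul_of_nonneg_right h2' (by positivity)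

theorem et_base (R : ℕ) (hR : 0 < R) (e a base c : ℕ) (ha : 64 ≤ a) (E0 E : ℝ) (hE0 : 0 ≤ E0)
    (hE' : 0 ≤ E) (hE : E0 ^ 64 = E ^ a) (h1 : base ^ 64 * R ^ (a - 64) ≤ e ^ a)
    (h2 : (e + 1) ^ a ≤ (base + c) ^ 64 * R ^ (a - 64)) (he1 : (e : ℝ) / R ≤ E)
    (he2 : E ≤ ((e : ℝ) + 1) / R) : (base : ℝ) / R ≤ E0 ∧ E0 ≤ ((base : ℝ) + c) / R := by
  have hRp : (0 : ℝ) < R := by exact_mod_cast hR
  have hb1r : (base : ℝ) ^ 64 * (R : ℝ) ^ (a - 64) ≤ (e : ℝ) ^ a := by exact_mod_cast h1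
  have hb2r : ((e : ℝ) + 1) ^ a ≤ ((base : ℝ) + c) ^ 64 * (R : ℝ) ^ (a - 64) := by
    exact_mod_cast h2
  have hRa : (R : ℝ) ^ a = (R : ℝ) ^ (a - 64) * (R : ℝ) ^ 64 := by
    rw [← pow_add]; congr 1; omega
  constructor
  · rw [← pow_le_pow_iff_left₀ (by positivity) hE0 (by norm_num : (64 : ℕ) ≠ 0), hE]
    refine le_trans ?_ (pow_le_pow_left₀ (by positivity) he1 a)
    rw [div_pow, div_pow, div_le_div_iff₀ (by positivity) (by positivity), hRa]
    calc (base : ℝ) ^ 64 * ((R : ℝ) ^ (a - 64) * (R : ℝ) ^ 64) =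
        ((base : ℝ) ^ 64 * (R : ℝ) ^ (a - 64)) * (R : ℝ) ^ 64 := by ring
      _ ≤ (e : ℝ) ^ a * (R : ℝ) ^ 64 := mul_le_mul_of_nonneg_right hb1r (by positivity)
  · rw [← pow_le_pow_iff_left₀ hE0 (by positivity) (by norm_num : (64 : ℕ) ≠ 0), hE]
    refine le_trans (pow_le_pow_left₀ hE' he2 a) ?_
    rw [div_pow, div_pow, div_le_div_iff₀ (by positivity) (by positivity), hRa]
    calc ((e : ℝ) + 1) ^ a * (R : ℝ) ^ 64 ≤
        (((base : ℝ) + c) ^ 64 * (R : ℝ) ^ (a - 64)) * (R : ℝ) ^ 64 :=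
          mul_le_mul_of_nonneg_right hb2r (by positivity)
      _ = ((base : ℝ) + c) ^ 64 * ((R : ℝ) ^ (a - 64) * (R : ℝ) ^ 64) := by ring

/-- the exponential at the exponent `k` -/
noncomputable def etE (a : ℕ) (k : ℤ) : ℝ := Real.exp (-((a : ℝ) / 64 * q ^ k))

theorem etE_pos (a : ℕ) (k : ℤ) : 0 < etE a k := Real.exp_pos _

theorem etE_succ (a : ℕ) (k : ℤ) : etE a (k + 1) ^ 49 = etE a k ^ 64 := by
  unfold etE
  rw [← Real.exp_nat_mul, ← Real.exp_nat_mul]
  congr 1
  have hq : q ≠ 0 := by unfold q; norm_num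
  rw [zpow_add_one₀ hq]
  unfold q
  push_cast
  ring

theorem etE_pred (a : ℕ) (k : ℤ) : etE a k ^ 49 = etE a (k - 1) ^ 64 := by
  have := etE_succ a (k - 1)
  rwa [sub_add_cancel] at this

/-- the value `v` is right at `k` with error `c` -/
def etOK (a : ℕ) (c : ℕ) (k : ℤ) (v : ℕ) : Prop :=
  (v : ℝ) / (79228162514264337593543950336 : ℕ) ≤ etE a k ∧
    etE a k ≤ ((v : ℝ) + c) / (79228162514264337593543950336 : ℕ)

theorem etOK_mono {a c c' : ℕ} (hc : c ≤ c') {k : ℤ} {v : ℕ} (h : etOK a c k v) :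
    etOK a c' k v := by
  refine ⟨h.1, h.2.trans ?_⟩
  have : (c : ℝ) ≤ c' := by exact_mod_cast hc
  gcongr

theorem et_up_list (a : ℕ) : ∀ (l : List ℕ) (hne : l ≠ []), chkUp l = true →
    etOK a 1048576 0 (l.getLast hne) →
    ∀ i (hi : i < l.length), etOK a 1048576 ((l.length : ℤ) - 1 - i) l[i] := by
  intro l
  induction l with
  | nil => intro hne; exact absurd rfl hne
  | cons x l ih =>
    intro hne hchk hlast i hi
    cases l with
    | nil =>
      have hi0 : i = 0 := by simpa using hi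
      subst hi0
      simpa using hlast
    | cons y rest =>
      rw [chkUp] at hchk
      simp only [Bool.and_eq_true] at hchk
      obtain ⟨⟨h1, h2⟩, h3⟩ := hchk
      have h1' := Nat.le_of_ble_eq_true h1
      have h2' := Nat.le_of_ble_eq_true h2
      have hlast' : etOK a 1048576 0 ((y :: rest).getLast (by simp)) := by
        rw [List.getLast_cons (by simp)] at hlast
        exact hlast
      have IH := ih (by simp) h3 hlast'
      cases i with
      | zero =>
        have h0 := IH 0 (by simp)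
        simp only [List.length_cons, List.getElem_cons_zero, Nat.cast_add, Nat.cast_one,
          Nat.cast_zero] at h0
        have hk : ((rest.length : ℤ) + 1 - 1 - 0) = rest.length := by ring
        rw [hk] at h0
        have h5 := et_up_step 79228162514264337593543950336 (by norm_num)
          (etE a ((rest.length : ℤ) + 1)) (etE a rest.length) (etE_pos _ _).le (etE_pos _ _).le
          (etE_succ a _) x y 1048576 1048576 h1' h2' h0.1 h0.2
        have hk2 : (((x :: y :: rest).length : ℤ) - 1 - ((0 : ℕ) : ℤ)) = (rest.length : ℤ) + 1 := by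
          simp only [List.length_cons]; push_cast; ring
        rw [hk2]
        exact h5
      | succ j =>
        have hj : j < (y :: rest).length := by simpa using hi
        have h0 := IH j hj
        have hk2 : (((x :: y :: rest).length : ℤ) - 1 - ((j + 1 : ℕ) : ℤ)) =
            ((y :: rest).length : ℤ) - 1 - j := by
          simp only [List.length_cons]; push_cast; ring
        rw [hk2]
        exact h0

theorem et_down_list (a : ℕ) : ∀ (l : List ℕ) (k : ℤ), chkDown l = true →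
    (∀ x rest, l = x :: rest → etOK a 1048576 k x) →
    ∀ i (hi : i < l.length), etOK a 1048576 (k - i) l[i] := by
  intro l
  induction l with
  | nil => intro k _ _ i hi; simp at hi
  | cons x l ih =>
    intro k hchk hhead i hi
    have hx := hhead x l rfl
    cases l with
    | nil =>
      have hi0 : i = 0 := by simpa using hi
      subst hi0
      simpa using hx
    | cons y rest =>
      rw [chkDown] at hchk
      simp only [Bool.and_eq_true] at hchk
      obtain ⟨⟨h1, h2⟩, h3⟩ := hchk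
      have h1' := Nat.le_of_ble_eq_true h1
      have h2' := Nat.le_of_ble_eq_true h2
      have hy : etOK a 1048576 (k - 1) y :=
        et_down_step 79228162514264337593543950336 (by norm_num)
          (etE a k) (etE a (k - 1)) (etE_pos _ _).le (etE_pos _ _).le
          (etE_pred a _) x y 1048576 1048576 h1' h2' hx.1 hx.2
      cases i with
      | zero => simpa using hx
      | succ j =>
        have hj : j < (y :: rest).length := by simpa using hi
        have h0 := ih (k - 1) h3 (by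
          intro x' rest' heq
          rw [List.cons.injEq] at heq
          rw [← heq.1]; exact hy) j hj
        have hk2 : (k - ((j + 1 : ℕ) : ℤ)) = k - 1 - j := by push_cast; ring
        rw [hk2]
        exact h0

theorem chkTab_spec {a : ℕ} {l1 l2 : List ℕ} {base : ℕ} (h : chkTab a l1 base l2 = true) :
    ∀ i (hi : i < (l1 ++ base :: l2).length),
      ((l1 ++ base :: l2)[i] : ℝ) / 2 ^ 96 ≤
        Real.exp (-((a : ℝ) / 64 * q ^ ((l1.length : ℤ) - i))) ∧
      Real.exp (-((a : ℝ) / 64 * q ^ ((l1.length : ℤ) - i))) ≤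
        ((l1 ++ base :: l2)[i] : ℝ) / 2 ^ 96 + 1 / 2 ^ 76 := by
  have hR96 : ((79228162514264337593543950336 : ℕ) : ℝ) = 2 ^ 96 := by norm_num
  unfold chkTab at h
  simp only [Bool.and_eq_true] at h
  obtain ⟨h64, hb1, hb2, ⟨hup, hmid⟩, hdown⟩ := h
  have ha : 64 ≤ a := Nat.le_of_ble_eq_true h64
  have hb1' := Nat.le_of_ble_eq_true hb1
  have hb2' := Nat.le_of_ble_eq_true hb2
  -- the base
  have hbase : etOK a 65536 0 base := by
    have hE : etE a 0 ^ 64 = Real.exp (-1) ^ a := by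
      unfold etE
      rw [← Real.exp_nat_mul, ← Real.exp_nat_mul, zpow_zero]
      congr 1
      push_cast
      ring
    obtain ⟨he1, he2⟩ := e1_bounds
    rw [← hR96] at he1 he2
    exact et_base 79228162514264337593543950336 (by norm_num) e1 a base 65536 ha
      (etE a 0) (Real.exp (-1)) (etE_pos _ _).le (Real.exp_pos _).le hE hb1' hb2' he1 he2
  have key : ∀ i (hi : i < (l1 ++ base :: l2).length),
      etOK a 1048576 ((l1.length : ℤ) - i) (l1 ++ base :: l2)[i] := by
    intro i hi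
    rcases lt_trichotomy i l1.length with hlt | heq | hgt
    · have h1 := et_up_list a (l1 ++ [base]) (by simp) hup (by
        rw [List.getLast_append_singleton]
        exact etOK_mono (by norm_num) hbase) i (by simp; omega)
      have hk : (((l1 ++ [base]).length : ℤ) - 1 - i) = (l1.length : ℤ) - i := by
        rw [List.length_append]; simp
      rw [hk, List.getElem_append_left hlt] at h1
      rw [List.getElem_append_left hlt]
      exact h1
    · subst heq
      rw [List.getElem_append_right le_rfl]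
      simp only [Nat.sub_self, List.getElem_cons_zero, sub_self]
      exact etOK_mono (by norm_num) hbase
    · have hlen : i < l1.length + (l2.length + 1) := by
        rw [List.length_append, List.length_cons] at hi; exact hi
      have hj : i - l1.length - 1 < l2.length := by omega
      have h1 := et_down_list a l2 (-1) hdown (by
        intro y rest hl2
        subst hl2
        simp only [Bool.and_eq_true] at hmid
        exact et_down_step 79228162514264337593543950336 (by norm_num)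
          (etE a 0) (etE a (-1)) (etE_pos _ _).le (etE_pos _ _).le
          (by have := etE_pred a 0; rwa [zero_sub] at this) base y 65536 1048576
          (Nat.le_of_ble_eq_true hmid.1) (Nat.le_of_ble_eq_true hmid.2) hbase.1 hbase.2)
          (i - l1.length - 1) hj
      have hk : ((-1 : ℤ) - ((i - l1.length - 1 : ℕ) : ℤ)) = (l1.length : ℤ) - i := by omega
      rw [hk] at h1
      have hget : (l1 ++ base :: l2)[i] = l2[i - l1.length - 1] := by
        rw [List.getElem_append_right hgt.le]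
        rw [List.getElem_cons]
        rw [dif_neg (by omega)]
      rw [hget]
      exact h1
  intro i hi
  have h1 := key i hi
  unfold etOK etE at h1
  rw [hR96] at h1
  refine ⟨h1.1, h1.2.trans (le_of_eq ?_)⟩
  rw [add_div]
  norm_num

/-- `a = 64`, `l1.length = 15` -/
theorem GOK_of_chk {l1 l2 : List ℕ} {base : ℕ} (h : chkTab 64 l1 base l2 = true)
    (hl : l1.length = 15) : GOK (l1 ++ base :: l2) := by
  intro r hr
  have h1 := chkTab_spec h r hr
  rw [hl] at h1
  have h2 : ((64 : ℕ) : ℝ) / 64 * q ^ (((15 : ℕ) : ℤ) - r) = q ^ ((15 : ℤ) - r) := by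
    norm_num
  rw [h2] at h1
  refine ⟨h1.1, h1.2.trans ?_⟩
  have : (1 : ℝ) / 2 ^ 76 ≤ 1 / 2 ^ 64 := by norm_num
  linarith

/-- `l1.length = 58`, `64 ≤ a ≤ 128` -/
theorem TabOK_of_chk {a : ℕ} {l1 l2 : List ℕ} {base : ℕ} (h : chkTab a l1 base l2 = true)
    (ha : a ≤ 128) (hl : l1.length = 58) :
    TabOK ((a : ℝ) / 64) 58 0 (3300 / 2 ^ 64) (l1 ++ base :: l2) := by
  intro i hi
  have h1 := chkTab_spec h i hi
  rw [hl] at h1
  have ha64 : 64 ≤ a := by
    unfold chkTab at h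
    simp only [Bool.and_eq_true] at h
    exact Nat.le_of_ble_eq_true h.1
  have hS : S 0 ((a : ℝ) / 64 * q ^ (((58 : ℕ) : ℤ) - i)) =
      Real.exp (-((a : ℝ) / 64 * q ^ (((58 : ℕ) : ℤ) - i))) := rfl
  have hcast : ((58 : ℕ) : ℤ) = (58 : ℤ) := rfl
  rw [hcast] at h1 hS
  rw [hcast, hS]
  refine ⟨h1.1, h1.2.trans ?_⟩
  have hq1 : (1 : ℝ) ≤ q := by unfold q; norm_num
  have hq0 : (0 : ℝ) < q := by linarith
  have har : (a : ℝ) / 64 ≤ 2 := by
    have : (a : ℝ) ≤ 128 := by exact_mod_cast ha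
    linarith
  have hap : (0 : ℝ) < (a : ℝ) / 64 := by
    have : (64 : ℝ) ≤ a := by exact_mod_cast ha64
    linarith
  have hqk : q ^ ((58 : ℤ) - i) ≤ q ^ (58 : ℤ) := zpow_le_zpow_right₀ hq1 (by omega)
  have hq58 : q ^ (58 : ℤ) ≤ 10 ^ 7 := by
    unfold q
    norm_num
  have hX : (a : ℝ) / 64 * q ^ ((58 : ℤ) - i) ≤ (3300 * 2 ^ 12) ^ 2 := by
    have h5 : (a : ℝ) / 64 * q ^ ((58 : ℤ) - i) ≤ 2 * 10 ^ 7 := by
      have hqp : (0 : ℝ) < q ^ ((58 : ℤ) - i) := zpow_pos hq0 _
      nlinarith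
    refine h5.trans ?_
    norm_num
  have hsq : √((a : ℝ) / 64 * q ^ ((58 : ℤ) - i)) ≤ 3300 * 2 ^ 12 := by
    rw [Real.sqrt_le_left (by norm_num)]
    exact hX
  have hsqp : 0 < √((a : ℝ) / 64 * q ^ ((58 : ℤ) - i)) :=
    Real.sqrt_pos.mpr (mul_pos hap (zpow_pos hq0 _))
  have h6 : (1 : ℝ) / 2 ^ 76 ≤ 3300 / 2 ^ 64 / √((a : ℝ) / 64 * q ^ ((58 : ℤ) - i)) := by
    rw [le_div_iff₀ hsqp]
    calc 1 / 2 ^ 76 * √((a : ℝ) / 64 * q ^ ((58 : ℤ) - i)) ≤ 1 / 2 ^ 76 * (3300 * 2 ^ 12) :=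
          mul_le_mul_of_nonneg_left hsq (by positivity)
      _ = 3300 / 2 ^ 64 := by norm_num
  linarith

end H81.LP
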