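import Pool.Agent.H81.LP.Cd5
import Pool.Agent.H81.LP.Cd6
import Pool.Agent.H81.LP.Cd7
import Pool.Agent.H81.LP.Cd8
import Pool.Agent.H81.LP.Main

/-!
# Products of 5, 6, 7, 8 linear forms

For `d = 5, 6, 7, 8` and every real invertible `d × d` matrix `g` there is an integer vector `x ≠ 0`
with `|∏ (g x)_i| < |det g| / B`, `B = 100, 424, 1850, 8250`.

Proof: Poisson summation for a combination of four Gaussians, averaged over the diagonal group
(`main_ineq`), reduces this to one-variable sign conditions for the kernel `K n` with Mellin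
transform `Γ(s)^(n+1)`; these are verified by total positivity and certified tables.
-/

namespace H81.LP

theorem final {n : ℕ} {c : Fin 4 → ℝ} {m : Fin 4 → ℤ} (h : Cond n c (fun j => q ^ (m j)))
    (ω : Fin 4 → ℝ) (hω : ∀ j, ω j = c j * (7 / 8 : ℝ) ^ (m j)) {B : ℝ} (hB : 0 < B)
    (hw : 0 < ∑ j, ω j)
    (hlt : (B * ∑ j, c j) ^ 2 < (3.1415926535 : ℝ) ^ (n + 1) * (∑ j, ω j) ^ 2)
    (g : Matrix (Fin (n + 1)) (Fin (n + 1)) ℝ) (hg : g.det ≠ 0) :
    ∃ x : Fin (n + 1) → ℤ, x ≠ 0 ∧ |∏ i, ∑ j, g i j * (x j : ℝ)| < |g.det| / B := by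
  have hsum : ∑ j, c j / √(q ^ (m j)) = ∑ j, ω j := by
    apply Finset.sum_congr rfl
    intro j _
    rw [div_eq_mul_inv, sqrt_q_zpow', hω]
  have hpi : (3.1415926535 : ℝ) ^ (n + 1) ≤ Real.pi ^ (n + 1) := by
    apply pow_le_pow_left₀ (by norm_num)
    have := Real.pi_gt_d20
    linarith
  have hkey : B * ∑ j, c j < (√Real.pi) ^ (n + 1) * ∑ j, ω j := by
    apply lt_of_pow_lt_pow_left₀ 2 (by positivity)
    calc (B * ∑ j, c j) ^ 2 < (3.1415926535 : ℝ) ^ (n + 1) * (∑ j, ω j) ^ 2 := hlt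
      _ ≤ Real.pi ^ (n + 1) * (∑ j, ω j) ^ 2 := by
        apply mul_le_mul_of_nonneg_right hpi (by positivity)
      _ = ((√Real.pi) ^ (n + 1) * ∑ j, ω j) ^ 2 := by
        rw [mul_pow, ← pow_mul, mul_comm (n + 1) 2, pow_mul, Real.sq_sqrt Real.pi_pos.le]
  obtain ⟨x, hx, hlt'⟩ := bound_of_cond c (fun j => q ^ (m j)) h hB (by rw [hsum]; exact hkey) g hg
  exact ⟨x, hx, hlt'⟩

theorem final5 (g : Matrix (Fin 5) (Fin 5) ℝ) (hg : g.det ≠ 0) :
    ∃ x : Fin 5 → ℤ, x ≠ 0 ∧ |∏ i, ∑ j, g i j * (x j : ℝ)| < |g.det| / 100 := by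
  refine final cond5 om5 om5_eq (by norm_num) ?_ ?_ g hg
  · simp only [Fin.sum_univ_four, om5, Matrix.cons_val]
    norm_num
  · simp only [Fin.sum_univ_four, c5, om5, Matrix.cons_val]
    norm_num

theorem final6 (g : Matrix (Fin 6) (Fin 6) ℝ) (hg : g.det ≠ 0) :
    ∃ x : Fin 6 → ℤ, x ≠ 0 ∧ |∏ i, ∑ j, g i j * (x j : ℝ)| < |g.det| / 424 := by
  refine final cond6 om6 om6_eq (by norm_num) ?_ ?_ g hg
  · simp only [Fin.sum_univ_four, om6, Matrix.cons_val]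
    norm_num
  · simp only [Fin.sum_univ_four, c6, om6, Matrix.cons_val]
    norm_num

theorem final7 (g : Matrix (Fin 7) (Fin 7) ℝ) (hg : g.det ≠ 0) :
    ∃ x : Fin 7 → ℤ, x ≠ 0 ∧ |∏ i, ∑ j, g i j * (x j : ℝ)| < |g.det| / 1850 := by
  refine final cond7 om7 om7_eq (by norm_num) ?_ ?_ g hg
  · simp only [Fin.sum_univ_four, om7, Matrix.cons_val]
    norm_num
  · simp only [Fin.sum_univ_four, c7, om7, Matrix.cons_val]
    norm_num

theorem final8 (g : Matrix (Fin 8) (Fin 8) ℝ) (hg : g.det ≠ 0) :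
    ∃ x : Fin 8 → ℤ, x ≠ 0 ∧ |∏ i, ∑ j, g i j * (x j : ℝ)| < |g.det| / 8250 := by
  refine final cond8 om8 om8_eq (by norm_num) ?_ ?_ g hg
  · simp only [Fin.sum_univ_four, om8, Matrix.cons_val]
    norm_num
  · simp only [Fin.sum_univ_four, c8, om8, Matrix.cons_val]
    norm_num

end H81.LP
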