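import Pool.Agent.H81.LP.EnK
import Pool.Agent.H81.LP.Kbasic

/-!
# Module A5b: the key lemma (the weight `exp (-ε |u - β|_1)` does not spoil the sign)

`K_eq_En`, `En_ge`, `En_integrable`, `En_continuous`, `K_continuousOn` may be cited.
Write `E = En u ≥ n + 1 ≥ 1`, `τ_j(s) = (Y_j s)^(1/(n+1))`, `Φ_s(u) = ∑ γ_j exp (-τ_j(s) E)`.
Note `∫ Φ_s = 2^(-n) ∑ γ_j K n (Y_j s)` (`K_eq_En` with `t = τ_j(s)`, `t^(n+1) = Y_j s`).

(i) large `s`.  `Φ_s(u) = exp (-τ_{j0} E) (γ_{j0} + ∑_{j ≠ j0} γ_j exp (-(τ_j - τ_{j0}) E))` and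
`τ_j(s) - τ_{j0}(s) = (Y_j^(1/(n+1)) - Y_{j0}^(1/(n+1))) s^(1/(n+1)) → ∞`, so there is `s1` such that
`Φ_s(u) ≥ 0` for all `u` and all `s ≥ s1`; then the integral is `≥ 0` for all `ε, β`.
(ii) `s ∈ [s0, s1]` (compact).  By continuity of `K n` there is `μ > 0` with `∫ Φ_s ≥ μ` for these
`s`.  Multiply the integral by `exp (ε |β|_1)`: the weight becomes
`exp (-ε (|u-β|_1 - |β|_1)) ∈ [exp (-ε|u|_1), exp (ε|u|_1)]`, and
`|weight - 1| ≤ exp (ε|u|_1) - 1 ≤ ε exp (|u|_1)` for `0 < ε ≤ 1` (convexity of `exp`: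
`exp (ε x) ≤ 1 - ε + ε exp x`).  So the integral times `exp (ε |β|_1)` is at least
`μ - ε ∑ |γ_j| ∫ exp (|u|_1) exp (-τ_j(s) E) ≥ μ - ε ∑ |γ_j| ∫ exp (|u|_1) exp (-τ_j(s0) E)`,
which is positive for small `ε`, uniformly in `s`, `β`.
-/

namespace H81.LP

open MeasureTheory

private theorem key_sup_diff {n : ℕ} (ε : ℝ) (hε : 0 < ε) (hε1 : ε ≤ 1) (u β : Fin n → ℝ) :
    |Real.exp (ε * (∑ i, |β i| - ∑ i, |u i - β i|)) - 1| ≤
      ε * Real.exp (1 * ∑ i, |u i|) := by
  set U := ∑ i, |u i| with hU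
  set x := ∑ i, |β i| - ∑ i, |u i - β i| with hx
  have hx1 : x ≤ U := by
    rw [hx, hU, ← Finset.sum_sub_distrib]
    apply Finset.sum_le_sum
    intro i _
    have h1 : |β i| ≤ |u i - β i| + |u i| := by
      have h2 := abs_sub (u i) (u i - β i)
      have h3 : u i - (u i - β i) = β i := by ring
      rw [h3] at h2
      linarith
    linarith
  have hx2 : -U ≤ x := by
    have h0 : -U = ∑ i, -|u i| := by rw [hU, Finset.sum_neg_distrib]
    rw [hx, h0, ← Finset.sum_sub_distrib]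
    apply Finset.sum_le_sum
    intro i _
    have h1 : |u i - β i| ≤ |u i| + |β i| := abs_sub (u i) (β i)
    linarith
  have hU0 : 0 ≤ U := Finset.sum_nonneg fun i _ => abs_nonneg _
  have hconv : Real.exp (ε * U) ≤ 1 - ε + ε * Real.exp U := by
    have h1 := convexOn_exp.2 (Set.mem_univ (0 : ℝ)) (Set.mem_univ U)
      (show (0 : ℝ) ≤ 1 - ε by linarith) hε.le (by ring)
    simp only [smul_eq_mul, mul_zero, zero_add, Real.exp_zero, mul_one] at h1
    exact h1
  have hup : Real.exp (ε * x) ≤ Real.exp (ε * U) :=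
    Real.exp_le_exp.mpr (mul_le_mul_of_nonneg_left hx1 hε.le)
  have hlow : Real.exp (-(ε * U)) ≤ Real.exp (ε * x) := by
    apply Real.exp_le_exp.mpr
    have := mul_le_mul_of_nonneg_left hx2 hε.le
    linarith
  have htwo : 2 ≤ Real.exp (ε * U) + Real.exp (-(ε * U)) := by
    have h1 : Real.exp (ε * U) * Real.exp (-(ε * U)) = 1 := by
      rw [← Real.exp_add]
      simp
    have h2 := Real.exp_pos (ε * U)
    have h3 := Real.exp_pos (-(ε * U))
    nlinarith [sq_nonneg (Real.exp (ε * U) - Real.exp (-(ε * U)))]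
  rw [one_mul, abs_le]
  constructor
  · linarith
  · linarith

private theorem key_pow {n : ℕ} {x : ℝ} (hx : 0 < x) :
    (x ^ ((1 : ℝ) / (n + 1))) ^ (n + 1) = x := by
  rw [← Real.rpow_natCast, ← Real.rpow_mul hx.le]
  push_cast
  have h1 : (1 : ℝ) / (n + 1) * (n + 1) = 1 := by
    have : (n : ℝ) + 1 ≠ 0 := by positivity
    field_simp
  rw [h1, Real.rpow_one]

private theorem key_large {n N : ℕ} (γ Y : Fin N → ℝ) (hY : ∀ j, 0 < Y j) (j0 : Fin N)
    (hj0 : ∀ j, j ≠ j0 → Y j0 < Y j) (hγ : 0 < γ j0) :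
    ∃ s1 : ℝ, 0 < s1 ∧ ∀ s, s1 ≤ s → ∀ u : Fin n → ℝ,
      0 ≤ ∑ j, γ j * Real.exp (-((Y j * s) ^ ((1 : ℝ) / (n + 1)) * En u)) := by
  have hexp : (0 : ℝ) < (1 : ℝ) / (n + 1) := by positivity
  have htend : Filter.Tendsto (fun s : ℝ => ∑ j ∈ Finset.univ.erase j0,
      |γ j| * Real.exp (-((Y j ^ ((1 : ℝ) / (n + 1)) - Y j0 ^ ((1 : ℝ) / (n + 1))) *
        s ^ ((1 : ℝ) / (n + 1))))) Filter.atTop (nhds 0) := by
    have h0 : (0 : ℝ) = ∑ j ∈ Finset.univ.erase j0, |γ j| * 0 := by simp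
    rw [h0]
    apply tendsto_finsetSum
    intro j hj
    apply Filter.Tendsto.const_mul
    apply Real.tendsto_exp_neg_atTop_nhds_zero.comp
    apply Filter.Tendsto.const_mul_atTop
    · have h1 := Real.rpow_lt_rpow (hY j0).le (hj0 j (Finset.mem_erase.mp hj).1) hexp
      linarith
    · exact tendsto_rpow_atTop hexp
  have hev := (htend.eventually (gt_mem_nhds hγ)).and (Filter.eventually_ge_atTop (1 : ℝ))
  obtain ⟨s1, hs1⟩ := Filter.eventually_atTop.mp hev
  refine ⟨max s1 1, by positivity, ?_⟩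
  intro s hs u
  obtain ⟨h1, h2⟩ := hs1 s ((le_max_left _ _).trans hs)
  have hspos : 0 < s := by linarith
  have hE : 1 ≤ En u := by
    have h3 := En_ge u
    have h4 : (0 : ℝ) ≤ n := Nat.cast_nonneg n
    linarith
  rw [← Finset.add_sum_erase _ _ (Finset.mem_univ j0)]
  set t0 := (Y j0 * s) ^ ((1 : ℝ) / (n + 1)) with ht0
  have hterm : ∀ j ∈ Finset.univ.erase j0,
      -(Real.exp (-(t0 * En u)) * (|γ j| * Real.exp (-((Y j ^ ((1 : ℝ) / (n + 1)) -
        Y j0 ^ ((1 : ℝ) / (n + 1))) * s ^ ((1 : ℝ) / (n + 1)))))) ≤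
      γ j * Real.exp (-((Y j * s) ^ ((1 : ℝ) / (n + 1)) * En u)) := by
    intro j hj
    set t := (Y j * s) ^ ((1 : ℝ) / (n + 1)) with ht
    have hd : (Y j ^ ((1 : ℝ) / (n + 1)) - Y j0 ^ ((1 : ℝ) / (n + 1))) *
        s ^ ((1 : ℝ) / (n + 1)) = t - t0 := by
      rw [ht, ht0, Real.mul_rpow (hY j).le hspos.le, Real.mul_rpow (hY j0).le hspos.le]
      ring
    rw [hd]
    have hd0 : 0 ≤ t - t0 := by
      have h5 : Y j0 * s ≤ Y j * s :=
        mul_le_mul_of_nonneg_right (hj0 j (Finset.mem_erase.mp hj).1).le hspos.le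
      have h6 := Real.rpow_le_rpow (mul_pos (hY j0) hspos).le h5 hexp.le
      linarith
    have h7 : Real.exp (-(t * En u)) ≤ Real.exp (-(t0 * En u)) * Real.exp (-(t - t0)) := by
      rw [← Real.exp_add]
      apply Real.exp_le_exp.mpr
      nlinarith
    have h8 : -|γ j| ≤ γ j := neg_abs_le _
    have h9 := Real.exp_pos (-(t * En u))
    have h10 : 0 ≤ |γ j| := abs_nonneg _
    calc -(Real.exp (-(t0 * En u)) * (|γ j| * Real.exp (-(t - t0))))
        = -(|γ j| * (Real.exp (-(t0 * En u)) * Real.exp (-(t - t0)))) := by ring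
      _ ≤ -(|γ j| * Real.exp (-(t * En u))) := by
          apply neg_le_neg
          exact mul_le_mul_of_nonneg_left h7 h10
      _ = (-|γ j|) * Real.exp (-(t * En u)) := by ring
      _ ≤ γ j * Real.exp (-(t * En u)) := mul_le_mul_of_nonneg_right h8 h9.le
  have hsum := Finset.sum_le_sum hterm
  rw [Finset.sum_neg_distrib, ← Finset.mul_sum] at hsum
  have h11 := Real.exp_pos (-(t0 * En u))
  nlinarith

theorem key {n N : ℕ} (γ Y : Fin N → ℝ) (hY : ∀ j, 0 < Y j) (j0 : Fin N)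
    (hj0 : ∀ j, j ≠ j0 → Y j0 < Y j) (hγ : 0 < γ j0) {s0 : ℝ} (hs0 : 0 < s0)
    (hpos : ∀ s, s0 ≤ s → 0 < ∑ j, γ j * K n (Y j * s)) :
    ∃ ε0 : ℝ, 0 < ε0 ∧ ∀ ε, 0 < ε → ε ≤ ε0 → ∀ s, s0 ≤ s → ∀ β : Fin n → ℝ,
      0 ≤ ∫ u : Fin n → ℝ, Real.exp (-(ε * ∑ i, |u i - β i|)) *
        ∑ j, γ j * Real.exp (-((Y j * s) ^ ((1 : ℝ) / (n + 1)) * En u)) := by
  obtain ⟨s1, hs1pos, hlarge⟩ := key_large (n := n) γ Y hY j0 hj0 hγ
  have hexp : (0 : ℝ) < (1 : ℝ) / (n + 1) := by positivity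
  -- lower bound on the compact interval
  obtain ⟨μ, hμ, hμle⟩ : ∃ μ : ℝ, 0 < μ ∧ ∀ s ∈ Set.Icc s0 (max s0 s1),
      μ ≤ ∑ j, γ j * K n (Y j * s) := by
    have hcont : ContinuousOn (fun s => ∑ j, γ j * K n (Y j * s)) (Set.Icc s0 (max s0 s1)) := by
      apply continuousOn_finsetSum
      intro j _
      apply ContinuousOn.mul continuousOn_const
      apply (K_continuousOn n).comp (continuousOn_const.mul continuousOn_id)
      intro s hs
      exact mul_pos (hY j) (lt_of_lt_of_le hs0 hs.1)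
    obtain ⟨x, hx, hmin⟩ := isCompact_Icc.exists_isMinOn
      (Set.nonempty_Icc.mpr (le_max_left s0 s1)) hcont
    exact ⟨_, hpos x hx.1, fun s hs => hmin hs⟩
  set B := ∑ j, |γ j| * ∫ u : Fin n → ℝ, Real.exp (1 * ∑ i, |u i|) *
    Real.exp (-((Y j * s0) ^ ((1 : ℝ) / (n + 1)) * En u)) with hB
  have hB0 : 0 ≤ B := by
    rw [hB]
    apply Finset.sum_nonneg
    intro j _
    apply mul_nonneg (abs_nonneg _)
    apply integral_nonneg
    intro u
    positivity
  have h2n : (0 : ℝ) < 2 ^ n := by positivity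
  refine ⟨min 1 (μ / 2 ^ n / (B + 1)), ?_, ?_⟩
  · apply lt_min one_pos
    positivity
  intro ε hε hεle s hs β
  have hε1 : ε ≤ 1 := hεle.trans (min_le_left _ _)
  have hε2 : ε ≤ μ / 2 ^ n / (B + 1) := hεle.trans (min_le_right _ _)
  have hspos : 0 < s := lt_of_lt_of_le hs0 hs
  by_cases hlg : s1 ≤ s
  · apply integral_nonneg
    intro u
    have := hlarge s hlg u
    positivity
  push Not at hlg
  have hsI : s ∈ Set.Icc s0 (max s0 s1) := ⟨hs, hlg.le.trans (le_max_right _ _)⟩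
  have hτ : ∀ j, 0 < (Y j * s) ^ ((1 : ℝ) / (n + 1)) := fun j =>
    Real.rpow_pos_of_pos (mul_pos (hY j) hspos) _
  have hτ0 : ∀ j, 0 < (Y j * s0) ^ ((1 : ℝ) / (n + 1)) := fun j =>
    Real.rpow_pos_of_pos (mul_pos (hY j) hs0) _
  have hmono : ∀ j, (Y j * s0) ^ ((1 : ℝ) / (n + 1)) ≤ (Y j * s) ^ ((1 : ℝ) / (n + 1)) := by
    intro j
    apply Real.rpow_le_rpow (mul_pos (hY j) hs0).le _ hexp.le
    exact mul_le_mul_of_nonneg_left hs (hY j).le
  set Φ : (Fin n → ℝ) → ℝ := fun u =>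
    ∑ j, γ j * Real.exp (-((Y j * s) ^ ((1 : ℝ) / (n + 1)) * En u)) with hΦ
  have hEint : ∀ j, Integrable (fun u : Fin n → ℝ =>
      Real.exp (-((Y j * s) ^ ((1 : ℝ) / (n + 1)) * En u))) := by
    intro j
    have h1 := En_integrable (n := n) (hτ j) 0
    simpa using h1
  have hΦint : Integrable Φ := by
    apply integrable_finsetSum
    intro j _
    exact (hEint j).const_mul _
  have hΦval : ∫ u, Φ u = (∑ j, γ j * K n (Y j * s)) / 2 ^ n := by
    rw [hΦ, integral_finsetSum _ (fun j _ => (hEint j).const_mul _), Finset.sum_div]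
    apply Finset.sum_congr rfl
    intro j _
    rw [integral_const_mul]
    have h1 := K_eq_En (n := n) (hτ j)
    rw [key_pow (mul_pos (hY j) hspos)] at h1
    rw [h1]
    field_simp
  -- the weight
  set wt : (Fin n → ℝ) → ℝ := fun u =>
    Real.exp (ε * (∑ i, |β i| - ∑ i, |u i - β i|)) with hwt
  have hfac : ∫ u : Fin n → ℝ, Real.exp (-(ε * ∑ i, |u i - β i|)) * Φ u =
      Real.exp (-(ε * ∑ i, |β i|)) * ∫ u, wt u * Φ u := by
    rw [← integral_const_mul]
    congr 1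
    funext u
    rw [← mul_assoc]
    congr 1
    rw [hwt]
    simp only
    rw [← Real.exp_add]
    congr 1
    ring
  show 0 ≤ ∫ u : Fin n → ℝ, Real.exp (-(ε * ∑ i, |u i - β i|)) * Φ u
  rw [hfac]
  apply mul_nonneg (Real.exp_pos _).le
  have hGint : Integrable (fun u : Fin n → ℝ => ∑ j, |γ j| * (ε * (Real.exp (1 * ∑ i, |u i|) *
      Real.exp (-((Y j * s0) ^ ((1 : ℝ) / (n + 1)) * En u))))) := by
    apply integrable_finsetSum
    intro j _
    exact ((En_integrable (n := n) (hτ0 j) 1).const_mul _).const_mul _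
  have hbound : ∀ u, ‖(wt u - 1) * Φ u‖ ≤ ∑ j, |γ j| * (ε * (Real.exp (1 * ∑ i, |u i|) *
      Real.exp (-((Y j * s0) ^ ((1 : ℝ) / (n + 1)) * En u)))) := by
    intro u
    have h1 := key_sup_diff ε hε hε1 u β
    have hE : 0 ≤ En u := by
      have h3 := En_ge u
      have h4 : (0 : ℝ) ≤ n := Nat.cast_nonneg n
      linarith
    have h2 : |Φ u| ≤ ∑ j, |γ j| * Real.exp (-((Y j * s0) ^ ((1 : ℝ) / (n + 1)) * En u)) := by
      rw [hΦ]
      refine (Finset.abs_sum_le_sum_abs _ _).trans ?_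
      apply Finset.sum_le_sum
      intro j _
      rw [abs_mul, abs_of_pos (Real.exp_pos _)]
      apply mul_le_mul_of_nonneg_left _ (abs_nonneg _)
      apply Real.exp_le_exp.mpr
      have := mul_le_mul_of_nonneg_right (hmono j) hE
      linarith
    rw [Real.norm_eq_abs, abs_mul]
    calc |wt u - 1| * |Φ u| ≤ (ε * Real.exp (1 * ∑ i, |u i|)) *
          ∑ j, |γ j| * Real.exp (-((Y j * s0) ^ ((1 : ℝ) / (n + 1)) * En u)) :=
          mul_le_mul h1 h2 (abs_nonneg _) (by positivity)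
      _ = _ := by
          rw [Finset.mul_sum]
          apply Finset.sum_congr rfl
          intro j _
          ring
  have hwtcont : Continuous wt := by
    rw [hwt]
    fun_prop
  have hΦcont : Continuous Φ := by
    rw [hΦ]
    have := En_continuous (n := n)
    fun_prop
  have hdint : Integrable (fun u => (wt u - 1) * Φ u) := by
    apply hGint.mono'
    · exact ((hwtcont.sub continuous_const).mul hΦcont).aestronglyMeasurable
    · exact Filter.Eventually.of_forall hbound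
  have hsplit : ∫ u, wt u * Φ u = (∫ u, Φ u) + ∫ u, (wt u - 1) * Φ u := by
    rw [← integral_add hΦint hdint]
    congr 1
    funext u
    ring
  have habs : ‖∫ u, (wt u - 1) * Φ u‖ ≤ ε * B := by
    refine (norm_integral_le_of_norm_le hGint (Filter.Eventually.of_forall hbound)).trans ?_
    apply le_of_eq
    rw [integral_finsetSum _ (fun j _ =>
      ((En_integrable (n := n) (hτ0 j) 1).const_mul _).const_mul _), hB, Finset.mul_sum]
    apply Finset.sum_congr rfl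
    intro j _
    rw [integral_const_mul, integral_const_mul]
    ring
  have h3 : μ / 2 ^ n ≤ ∫ u, Φ u := by
    rw [hΦval]
    exact div_le_div_of_nonneg_right (hμle s hsI) h2n.le
  have h4 : ε * B ≤ μ / 2 ^ n := by
    rw [le_div_iff₀ (by linarith)] at hε2
    nlinarith
  rw [Real.norm_eq_abs] at habs
  have h5 := neg_abs_le (∫ u, (wt u - 1) * Φ u)
  rw [hsplit]
  linarith

end H81.LP
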