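import Pool.Agent.H81.LP.Defs

/-!
# Module A1a: Poisson summation for Gaussians on `ℤ^d`

For an invertible real matrix `M`:
`∑_m exp (-π |M m|²) = |det M|⁻¹ ∑_m exp (-π |M⁻ᵀ m|²)`, and the left sum converges.

Proof (induction on `d`, using the one-dimensional formula with a shift).  For a positive definite
symmetric matrix `A` and a character `a`:
`∑_m exp (-π A[m]) e(a·m) = (det A)^(-1/2) ∑_k exp (-π A⁻¹[k - a])`.
Completing the square in the first variable, `A[(x0, x')] = α (x0 + β·x')² + A'[x']` with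
`α = A 0 0`, `β = A 0 (j+1) / α`, `A'` the Schur complement; `det A = α det A'` and
`A⁻¹[(y0, y')] = y0²/α + A'⁻¹[y' - y0 β]`.
-/

namespace H81.LP

open MeasureTheory

/-! ### one dimension -/

theorem pg_summ (al : ℝ) (hal : 0 < al) (t : ℝ) :
    Summable (fun n : ℤ => Real.exp (-(Real.pi * (al * ((n : ℝ) + t) ^ 2)))) := by
  have h := summable_pow_mul_jacobiTheta₂_term_bound (al * |t|) hal 0
  refine Summable.of_nonneg_of_le (fun n => (Real.exp_pos _).le) (fun n => ?_) h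
  rw [pow_zero, one_mul]
  apply Real.exp_le_exp.2
  have h1 : -(|(n : ℝ)| * |t|) ≤ (n : ℝ) * t := by
    rw [← abs_mul]
    exact neg_abs_le _
  have h2 : al * (n : ℝ) ^ 2 - 2 * (al * |t|) * |(n : ℝ)| ≤ al * ((n : ℝ) + t) ^ 2 := by
    nlinarith [mul_nonneg hal.le (sq_nonneg t), mul_le_mul_of_nonneg_left h1 hal.le]
  have h3 := mul_le_mul_of_nonneg_left h2 Real.pi_pos.le
  push_cast
  linarith

theorem pg_poisson (al : ℝ) (hal : 0 < al) (t a : ℝ) :
    ∑' n : ℤ, Complex.exp (-(Real.pi * (al * ((n : ℝ) + t) ^ 2) : ℝ) +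
        2 * Real.pi * Complex.I * (a * n : ℝ)) =
      ((Real.sqrt al)⁻¹ : ℝ) * ∑' n : ℤ, Complex.exp (-(Real.pi * (((n : ℝ) - a) ^ 2 / al) : ℝ) +
        2 * Real.pi * Complex.I * (t * ((n : ℝ) - a) : ℝ)) := by
  have hal' : (al : ℂ) ≠ 0 := by exact_mod_cast hal.ne'
  have h := Complex.tsum_exp_neg_quadratic (a := (al : ℂ)) (by simpa using hal)
    (-(al : ℂ) * t + Complex.I * a)
  have h1 : (al : ℂ) ^ (1 / 2 : ℂ) = (Real.sqrt al : ℝ) := by
    rw [Real.sqrt_eq_rpow, Complex.ofReal_cpow hal.le]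
    push_cast
    rfl
  rw [h1] at h
  have hL : ∀ n : ℤ, Complex.exp (-(Real.pi * (al * ((n : ℝ) + t) ^ 2) : ℝ) +
        2 * Real.pi * Complex.I * (a * n : ℝ)) = Complex.exp (-(Real.pi * (al * t ^ 2) : ℝ)) *
      Complex.exp (-Real.pi * al * n ^ 2 + 2 * Real.pi * (-(al : ℂ) * t + Complex.I * a) * n) := by
    intro n
    rw [← Complex.exp_add]
    congr 1
    push_cast
    ring
  have hR : ∀ n : ℤ, Complex.exp (-(Real.pi * (((n : ℝ) - a) ^ 2 / al) : ℝ) +
        2 * Real.pi * Complex.I * (t * ((n : ℝ) - a) : ℝ)) =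
      Complex.exp (-(Real.pi * (al * t ^ 2) : ℝ)) *
      Complex.exp (-Real.pi / al * (n + Complex.I * (-(al : ℂ) * t + Complex.I * a)) ^ 2) := by
    intro n
    rw [← Complex.exp_add]
    congr 1
    push_cast
    field_simp
    ring_nf
    simp only [Complex.I_sq, Complex.I_pow_three, Complex.I_pow_four]
    ring
  simp_rw [hL, hR]
  rw [tsum_mul_left, tsum_mul_left, h]
  push_cast
  ring

theorem pg_norm (r θ : ℝ) :
    ‖Complex.exp (-(r : ℂ) + 2 * Real.pi * Complex.I * (θ : ℂ))‖ = Real.exp (-r) := by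
  rw [Complex.norm_exp]
  congr 1
  simp

theorem pg_bound (al : ℝ) (hal : 0 < al) :
    ∃ C : ℝ, ∀ t : ℝ, ∑' n : ℤ, Real.exp (-(Real.pi * (al * ((n : ℝ) + t) ^ 2))) ≤ C := by
  refine ⟨(Real.sqrt al)⁻¹ * ∑' n : ℤ, Real.exp (-(Real.pi * (((n : ℝ) - 0) ^ 2 / al))), ?_⟩
  intro t
  have h := pg_poisson al hal t 0
  have h1 : ((∑' n : ℤ, Real.exp (-(Real.pi * (al * ((n : ℝ) + t) ^ 2))) : ℝ) : ℂ) =
      ∑' n : ℤ, Complex.exp (-(Real.pi * (al * ((n : ℝ) + t) ^ 2) : ℝ) +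
        2 * Real.pi * Complex.I * (0 * n : ℝ)) := by
    rw [Complex.ofReal_tsum]
    congr 1
    funext n
    rw [Complex.ofReal_exp]
    congr 1
    push_cast
    ring
  have h2 : ∀ n : ℤ, ‖Complex.exp (-(Real.pi * (((n : ℝ) - 0) ^ 2 / al) : ℝ) +
        2 * Real.pi * Complex.I * (t * ((n : ℝ) - 0) : ℝ))‖ =
      Real.exp (-(Real.pi * (((n : ℝ) - 0) ^ 2 / al))) := by
    intro n
    exact pg_norm _ _
  have hs : Summable (fun n : ℤ => Real.exp (-(Real.pi * (((n : ℝ) - 0) ^ 2 / al)))) := by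
    have h3 := pg_summ (al⁻¹) (inv_pos.2 hal) (-0)
    refine h3.congr (fun n => ?_)
    congr 1
    ring
  have h3 : ‖∑' n : ℤ, Complex.exp (-(Real.pi * (((n : ℝ) - 0) ^ 2 / al) : ℝ) +
        2 * Real.pi * Complex.I * (t * ((n : ℝ) - 0) : ℝ))‖ ≤
      ∑' n : ℤ, Real.exp (-(Real.pi * (((n : ℝ) - 0) ^ 2 / al))) := by
    refine (norm_tsum_le_tsum_norm ?_).trans (le_of_eq ?_)
    · simp_rw [h2]
      exact hs
    · simp_rw [h2]
  have h4 : ∑' n : ℤ, Real.exp (-(Real.pi * (al * ((n : ℝ) + t) ^ 2))) ≤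
      ‖((∑' n : ℤ, Real.exp (-(Real.pi * (al * ((n : ℝ) + t) ^ 2))) : ℝ) : ℂ)‖ := by
    rw [Complex.norm_real]
    exact le_abs_self _
  refine h4.trans ?_
  rw [h1, h, norm_mul, Complex.norm_real, Real.norm_of_nonneg (by positivity)]
  exact mul_le_mul_of_nonneg_left h3 (by positivity)

/-! ### quadratic forms -/

/-- the quadratic form of a matrix -/
noncomputable def Qf {d : ℕ} (A : Matrix (Fin d) (Fin d) ℝ) (x : Fin d → ℝ) : ℝ :=
  ∑ i, x i * ∑ j, A i j * x j

/-- symmetric positive definite matrices -/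
def PD {d : ℕ} (A : Matrix (Fin d) (Fin d) ℝ) : Prop :=
  (∀ i j, A i j = A j i) ∧ ∀ x : Fin d → ℝ, x ≠ 0 → 0 < Qf A x

/-- the linear form of the first completed square -/
noncomputable def pbe {d : ℕ} (A : Matrix (Fin (d + 1)) (Fin (d + 1)) ℝ) (j : Fin d) : ℝ :=
  A 0 j.succ / A 0 0

/-- Schur complement -/
noncomputable def pSc {d : ℕ} (A : Matrix (Fin (d + 1)) (Fin (d + 1)) ℝ) :
    Matrix (Fin d) (Fin d) ℝ :=
  fun i j => A i.succ j.succ - A i.succ 0 * A 0 j.succ / A 0 0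

theorem qf_cons {d : ℕ} (A : Matrix (Fin (d + 1)) (Fin (d + 1)) ℝ) (hs : ∀ i j, A i j = A j i)
    (h0 : A 0 0 ≠ 0) (x0 : ℝ) (x : Fin d → ℝ) :
    Qf A (Fin.cons x0 x) = A 0 0 * (x0 + ∑ j, pbe A j * x j) ^ 2 + Qf (pSc A) x := by
  have e1 : ∑ j, pbe A j * x j = (∑ j : Fin d, A 0 j.succ * x j) / A 0 0 := by
    rw [Finset.sum_div]
    refine Finset.sum_congr rfl fun j _ => ?_
    rw [pbe]
    ring
  have e2 : ∑ i : Fin d, x i * A i.succ 0 = ∑ j : Fin d, A 0 j.succ * x j := by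
    refine Finset.sum_congr rfl fun j _ => ?_
    rw [hs j.succ 0]
    ring
  have e3 : Qf (pSc A) x = ∑ i : Fin d, x i * ∑ j : Fin d, A i.succ j.succ * x j -
      (∑ i : Fin d, x i * A i.succ 0) * ((∑ j : Fin d, A 0 j.succ * x j) / A 0 0) := by
    rw [Qf, Finset.sum_mul, ← Finset.sum_sub_distrib]
    refine Finset.sum_congr rfl fun i _ => ?_
    have : ∑ j, pSc A i j * x j = ∑ j : Fin d, A i.succ j.succ * x j -
        A i.succ 0 * ((∑ j : Fin d, A 0 j.succ * x j) / A 0 0) := by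
      rw [Finset.sum_div, Finset.mul_sum, ← Finset.sum_sub_distrib]
      refine Finset.sum_congr rfl fun j _ => ?_
      rw [pSc]
      ring
    rw [this]
    ring
  have e4 : Qf A (Fin.cons x0 x) = x0 * (A 0 0 * x0 + ∑ j : Fin d, A 0 j.succ * x j) +
      ((∑ i : Fin d, x i * A i.succ 0) * x0 +
        ∑ i : Fin d, x i * ∑ j : Fin d, A i.succ j.succ * x j) := by
    rw [Qf, Fin.sum_univ_succ]
    simp only [Fin.cons_zero, Fin.cons_succ, Fin.sum_univ_succ (n := d)]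
    congr 1
    rw [Finset.sum_mul, ← Finset.sum_add_distrib]
    refine Finset.sum_congr rfl fun i _ => ?_
    ring
  rw [e4, e3, e1, e2]
  field_simp
  ring

theorem pd_00 {d : ℕ} {A : Matrix (Fin (d + 1)) (Fin (d + 1)) ℝ} (h : PD A) : 0 < A 0 0 := by
  have h1 := h.2 (Fin.cons 1 0) (by
    intro h2
    have := congrFun h2 0
    simp at this)
  rw [Qf, Fin.sum_univ_succ] at h1
  simp only [Fin.cons_zero, Fin.cons_succ, Fin.sum_univ_succ (n := d)] at h1
  simpa using h1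

theorem pd_sc {d : ℕ} {A : Matrix (Fin (d + 1)) (Fin (d + 1)) ℝ} (h : PD A) : PD (pSc A) := by
  refine ⟨fun i j => ?_, fun x hx => ?_⟩
  · rw [pSc, pSc, h.1 j.succ i.succ, h.1 j.succ 0, h.1 0 i.succ]
    ring
  · have h1 := h.2 (Fin.cons (-∑ j, pbe A j * x j) x) (by
      intro h2
      apply hx
      funext j
      have := congrFun h2 j.succ
      simpa using this)
    rw [qf_cons A h.1 (pd_00 h).ne'] at h1
    simpa using h1

theorem det_sc {d : ℕ} (A : Matrix (Fin (d + 1)) (Fin (d + 1)) ℝ) (h0 : A 0 0 ≠ 0) :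
    A.det = A 0 0 * (pSc A).det := by
  let B : Matrix (Fin (d + 1)) (Fin (d + 1)) ℝ :=
    fun i j => Fin.cases (A 0 j) (fun i' => A i'.succ j - A i'.succ 0 / A 0 0 * A 0 j) i
  have h1 : A.det = B.det := by
    refine Matrix.det_eq_of_forall_row_eq_smul_add_const
      (fun i => Fin.cases 0 (fun i' => A i'.succ 0 / A 0 0) i) 0 rfl ?_
    intro i j
    refine Fin.cases ?_ (fun i' => ?_) i
    · simp [B]
    · simp [B]
  rw [h1, Matrix.det_succ_column_zero, Fin.sum_univ_succ, Finset.sum_eq_zero, add_zero]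
  · have : B.submatrix (Fin.succAbove 0) Fin.succ = pSc A := by
      ext i j
      simp only [Matrix.submatrix_apply, Fin.succAbove_zero, B, pSc, Fin.cases_succ]
      ring
    rw [this]
    simp [B]
  · intro i _
    have : B i.succ 0 = 0 := by
      simp only [B, Fin.cases_succ]
      field_simp
      ring
    rw [this]
    ring

theorem pd_det {d : ℕ} : ∀ A : Matrix (Fin d) (Fin d) ℝ, PD A → 0 < A.det := by
  induction d with
  | zero => intro A _; rw [Matrix.det_fin_zero]; exact one_pos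
  | succ d ih =>
    intro A h
    rw [det_sc A (pd_00 h).ne']
    exact mul_pos (pd_00 h) (ih _ (pd_sc h))


theorem pd_unit {d : ℕ} {A : Matrix (Fin d) (Fin d) ℝ} (h : PD A) : IsUnit A.det :=
  (pd_det A h).ne'.isUnit

theorem qf_eq {d : ℕ} (A : Matrix (Fin d) (Fin d) ℝ) (x : Fin d → ℝ) :
    Qf A x = ∑ i, x i * A.mulVec x i := rfl

/-- the dual form -/
theorem qf_inv {d : ℕ} {A : Matrix (Fin d) (Fin d) ℝ} (h : PD A) (x : Fin d → ℝ) :
    Qf A⁻¹ (A.mulVec x) = Qf A x := by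
  rw [qf_eq, qf_eq, Matrix.mulVec_mulVec, Matrix.nonsing_inv_mul _ (pd_unit h), Matrix.one_mulVec]
  exact Finset.sum_congr rfl fun i _ => mul_comm _ _

theorem pd_inv {d : ℕ} {A : Matrix (Fin d) (Fin d) ℝ} (h : PD A) : PD A⁻¹ := by
  refine ⟨fun i j => ?_, fun y hy => ?_⟩
  · have h1 : A.transpose = A := by
      ext i j
      exact h.1 j i
    have h2 : A⁻¹.transpose = A⁻¹ := by
      rw [Matrix.transpose_nonsing_inv, h1]
    calc A⁻¹ i j = A⁻¹.transpose i j := by rw [h2]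
      _ = A⁻¹ j i := rfl
  · have h1 : A.mulVec (A⁻¹.mulVec y) = y := by
      rw [Matrix.mulVec_mulVec, Matrix.mul_nonsing_inv _ (pd_unit h), Matrix.one_mulVec]
    have h2 : A⁻¹.mulVec y ≠ 0 := by
      intro h3
      rw [h3, Matrix.mulVec_zero] at h1
      exact hy h1.symm
    rw [← h1, qf_inv h]
    exact h.2 _ h2

theorem qf_inv_cons {d : ℕ} {A : Matrix (Fin (d + 1)) (Fin (d + 1)) ℝ} (h : PD A) (y0 : ℝ)
    (y : Fin d → ℝ) :
    Qf A⁻¹ (Fin.cons y0 y) = y0 ^ 2 / A 0 0 + Qf (pSc A)⁻¹ (fun i => y i - y0 * pbe A i) := by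
  have h00 := pd_00 h
  obtain ⟨x, hx⟩ : ∃ x : Fin (d + 1) → ℝ, A.mulVec x = Fin.cons y0 y := by
    refine ⟨A⁻¹.mulVec (Fin.cons y0 y), ?_⟩
    rw [Matrix.mulVec_mulVec, Matrix.mul_nonsing_inv _ (pd_unit h), Matrix.one_mulVec]
  obtain ⟨x0, x', rfl⟩ : ∃ x0 x', x = Fin.cons x0 x' := ⟨x 0, Fin.tail x, (Fin.cons_self_tail x).symm⟩
  have e0 : A 0 0 * x0 + ∑ j : Fin d, A 0 j.succ * x' j = y0 := by
    have := congrFun hx 0
    simpa [Matrix.mulVec, dotProduct, Fin.sum_univ_succ] using this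
  have e1 : ∀ i : Fin d, A i.succ 0 * x0 + ∑ j : Fin d, A i.succ j.succ * x' j = y i := by
    intro i
    have := congrFun hx i.succ
    simpa [Matrix.mulVec, dotProduct, Fin.sum_univ_succ] using this
  have e2 : (pSc A).mulVec x' = fun i => y i - y0 * pbe A i := by
    funext i
    have e3 : ∑ j, pSc A i j * x' j = ∑ j : Fin d, A i.succ j.succ * x' j -
        A i.succ 0 / A 0 0 * ∑ j : Fin d, A 0 j.succ * x' j := by
      rw [Finset.mul_sum, ← Finset.sum_sub_distrib]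
      refine Finset.sum_congr rfl fun j _ => ?_
      rw [pSc]
      ring
    change ∑ j, pSc A i j * x' j = _
    rw [e3, ← e1 i, ← e0, pbe, h.1 0 i.succ]
    field_simp
    ring
  rw [← hx, qf_inv h, ← e2, qf_inv (pd_sc h), qf_cons A h.1 h00.ne']
  have e5 : A 0 0 * ∑ j, pbe A j * x' j = ∑ j : Fin d, A 0 j.succ * x' j := by
    rw [Finset.mul_sum]
    refine Finset.sum_congr rfl fun j _ => ?_
    rw [pbe]
    field_simp
  have e4 : A 0 0 * (x0 + ∑ j, pbe A j * x' j) = y0 := by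
    rw [mul_add, e5]
    exact e0
  congr 1
  rw [← e4]
  field_simp

/-! ### summability -/

theorem pg_split {d : ℕ} (f : (Fin (d + 1) → ℤ) → ℝ)
    (h : Summable (fun p : (Fin d → ℤ) × ℤ => f (Fin.cons p.2 p.1))) : Summable f := by
  have h2 : Summable (fun p : ℤ × (Fin d → ℤ) => f (Fin.cons p.1 p.2)) :=
    (Equiv.prodComm ℤ (Fin d → ℤ)).summable_iff.2 h
  exact (Fin.consEquiv (fun _ : Fin (d + 1) => ℤ)).summable_iff.1 h2

theorem pg_sum1 {d : ℕ} {E : Type} [NormedAddCommGroup E] [CompleteSpace E]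
    (f : (Fin (d + 1) → ℤ) → E) (h : Summable f) :
    ∑' m, f m = ∑' n : ℤ, ∑' m : Fin d → ℤ, f (Fin.cons n m) := by
  have h1 : Summable (fun p : ℤ × (Fin d → ℤ) => f (Fin.cons p.1 p.2)) :=
    (Fin.consEquiv (fun _ : Fin (d + 1) => ℤ)).summable_iff.2 h
  rw [← (Fin.consEquiv (fun _ : Fin (d + 1) => ℤ)).tsum_eq f]
  exact h1.tsum_prod

theorem pg_sum2 {d : ℕ} {E : Type} [NormedAddCommGroup E] [CompleteSpace E]
    (f : (Fin (d + 1) → ℤ) → E) (h : Summable f) :
    ∑' m, f m = ∑' m : Fin d → ℤ, ∑' n : ℤ, f (Fin.cons n m) := by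
  have h1 : Summable (fun p : ℤ × (Fin d → ℤ) => f (Fin.cons p.1 p.2)) :=
    (Fin.consEquiv (fun _ : Fin (d + 1) => ℤ)).summable_iff.2 h
  rw [pg_sum1 f h]
  exact (Summable.tsum_comm (f := fun (n : ℤ) (m : Fin d → ℤ) => f (Fin.cons n m)) h1).symm

theorem pg_prod_summ {X : Type} (al : ℝ) (hal : 0 < al) (t q : X → ℝ) (hq0 : ∀ m, 0 ≤ q m)
    (hq : Summable q) : Summable (fun p : X × ℤ =>
      Real.exp (-(Real.pi * (al * ((p.2 : ℝ) + t p.1) ^ 2))) * q p.1) := by
  obtain ⟨C, hC⟩ := pg_bound al hal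
  rw [summable_prod_of_nonneg (fun p => mul_nonneg (Real.exp_pos _).le (hq0 _))]
  refine ⟨fun m => ?_, ?_⟩
  · exact (pg_summ al hal (t m)).mul_right (q m)
  · refine Summable.of_nonneg_of_le
      (fun m => tsum_nonneg (fun n => mul_nonneg (Real.exp_pos _).le (hq0 _)))
      (fun m => ?_) (hq.mul_left C)
    have h1 : ∑' n : ℤ, Real.exp (-(Real.pi * (al * ((n : ℝ) + t m) ^ 2))) * q m =
        (∑' n : ℤ, Real.exp (-(Real.pi * (al * ((n : ℝ) + t m) ^ 2)))) * q m := tsum_mul_right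
    exact h1.le.trans (mul_le_mul_of_nonneg_right (hC (t m)) (hq0 m))

theorem ps_summ {d : ℕ} : ∀ (A : Matrix (Fin d) (Fin d) ℝ), PD A → ∀ s : Fin d → ℝ,
    Summable (fun m : Fin d → ℤ => Real.exp (-(Real.pi * Qf A (fun i => (m i : ℝ) + s i)))) := by
  induction d with
  | zero => intro A _ s; exact (hasSum_fintype _).summable
  | succ d ih =>
    intro A h s
    have h00 := pd_00 h
    have hval : ∀ (m : Fin d → ℤ) (n : ℤ),
        Qf A (fun i => ((Fin.cons n m : Fin (d + 1) → ℤ) i : ℝ) + s i) =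
        A 0 0 * ((n : ℝ) + (s 0 + ∑ j, pbe A j * ((m j : ℝ) + s j.succ))) ^ 2 +
          Qf (pSc A) (fun i => (m i : ℝ) + s i.succ) := by
      intro m n
      have : (fun i => ((Fin.cons n m : Fin (d + 1) → ℤ) i : ℝ) + s i) =
          Fin.cons ((n : ℝ) + s 0) (fun i => (m i : ℝ) + s i.succ) := by
        funext i
        refine Fin.cases ?_ (fun j => ?_) i
        · simp
        · simp
      rw [this, qf_cons A h.1 h00.ne']
      ring
    apply pg_split
    have hg := pg_prod_summ (A 0 0) h00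
      (fun m : Fin d → ℤ => s 0 + ∑ j, pbe A j * ((m j : ℝ) + s j.succ))
      (fun m : Fin d → ℤ => Real.exp (-(Real.pi * Qf (pSc A) (fun i => (m i : ℝ) + s i.succ))))
      (fun m => (Real.exp_pos _).le) (ih (pSc A) (pd_sc h) (fun i => s i.succ))
    refine hg.congr ?_
    rintro ⟨m, n⟩
    dsimp only
    rw [← Real.exp_add, hval]
    congr 1
    ring

/-! ### the formula -/

theorem ps_formula {d : ℕ} : ∀ (A : Matrix (Fin d) (Fin d) ℝ), PD A → ∀ a : Fin d → ℝ,
    ∑' m : Fin d → ℤ, Complex.exp (-(Real.pi * Qf A (fun i => (m i : ℝ)) : ℝ) +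
        2 * Real.pi * Complex.I * (∑ i, a i * (m i : ℝ) : ℝ)) =
      ((Real.sqrt A.det)⁻¹ : ℝ) * ((∑' m : Fin d → ℤ,
        Real.exp (-(Real.pi * Qf A⁻¹ (fun i => (m i : ℝ) - a i))) : ℝ) : ℂ) := by
  induction d with
  | zero =>
    intro A _ a
    rw [tsum_fintype, tsum_fintype]
    simp [Qf]
  | succ d ih =>
    intro A h a
    have h00 := pd_00 h
    have hSc := pd_sc h
    -- values of the forms
    have hval : ∀ (m : Fin d → ℤ) (n : ℤ),
        Qf A (fun i => ((Fin.cons n m : Fin (d + 1) → ℤ) i : ℝ)) =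
        A 0 0 * ((n : ℝ) + ∑ j, pbe A j * (m j : ℝ)) ^ 2 + Qf (pSc A) (fun i => (m i : ℝ)) := by
      intro m n
      have : (fun i => ((Fin.cons n m : Fin (d + 1) → ℤ) i : ℝ)) =
          Fin.cons (n : ℝ) (fun i => (m i : ℝ)) := by
        funext i
        refine Fin.cases ?_ (fun j => ?_) i
        · simp
        · simp
      rw [this, qf_cons A h.1 h00.ne']
    have hchar : ∀ (m : Fin d → ℤ) (n : ℤ),
        ∑ i, a i * ((Fin.cons n m : Fin (d + 1) → ℤ) i : ℝ) =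
          a 0 * n + ∑ j : Fin d, a j.succ * (m j : ℝ) := by
      intro m n
      rw [Fin.sum_univ_succ]
      simp
    have hdual : ∀ (m : Fin d → ℤ) (n : ℤ),
        Qf A⁻¹ (fun i => ((Fin.cons n m : Fin (d + 1) → ℤ) i : ℝ) - a i) =
        ((n : ℝ) - a 0) ^ 2 / A 0 0 +
          Qf (pSc A)⁻¹ (fun i => (m i : ℝ) - (a i.succ + ((n : ℝ) - a 0) * pbe A i)) := by
      intro m n
      have : (fun i => ((Fin.cons n m : Fin (d + 1) → ℤ) i : ℝ) - a i) =
          Fin.cons ((n : ℝ) - a 0) (fun i => (m i : ℝ) - a i.succ) := by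
        funext i
        refine Fin.cases ?_ (fun j => ?_) i
        · simp
        · simp
      rw [this, qf_inv_cons h]
      congr 2
      funext i
      ring
    -- left side as an iterated sum
    let T : (Fin (d + 1) → ℤ) → ℂ := fun m =>
      Complex.exp (-(Real.pi * Qf A (fun i => (m i : ℝ)) : ℝ) +
        2 * Real.pi * Complex.I * (∑ i, a i * (m i : ℝ) : ℝ))
    have hTs : Summable T := by
      have h1 := ps_summ A h 0
      refine Summable.of_norm ?_
      refine h1.congr (fun m => ?_)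
      rw [pg_norm]
      simp
    have hL : ∑' m, T m = ∑' m : Fin d → ℤ, ∑' n : ℤ, T (Fin.cons n m) := pg_sum2 T hTs
    -- inner sums
    let U : (Fin d → ℤ) → ℤ → ℂ := fun m n =>
      Complex.exp (-(Real.pi * (((n : ℝ) - a 0) ^ 2 / A 0 0) : ℝ)) *
      Complex.exp (-(Real.pi * Qf (pSc A) (fun i => (m i : ℝ)) : ℝ) +
        2 * Real.pi * Complex.I *
          (∑ i, (a i.succ + ((n : ℝ) - a 0) * pbe A i) * (m i : ℝ) : ℝ))
    have hin : ∀ m : Fin d → ℤ, ∑' n : ℤ, T (Fin.cons n m) =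
        ((Real.sqrt (A 0 0))⁻¹ : ℝ) * ∑' n : ℤ, U m n := by
      intro m
      have h1 := pg_poisson (A 0 0) h00 (∑ j, pbe A j * (m j : ℝ)) (a 0)
      have h2 : ∀ n : ℤ, T (Fin.cons n m) =
          Complex.exp (-(Real.pi * Qf (pSc A) (fun i => (m i : ℝ)) : ℝ) +
            2 * Real.pi * Complex.I * (∑ j : Fin d, a j.succ * (m j : ℝ) : ℝ)) *
          Complex.exp (-(Real.pi * (A 0 0 * ((n : ℝ) + ∑ j, pbe A j * (m j : ℝ)) ^ 2) : ℝ) +
            2 * Real.pi * Complex.I * (a 0 * n : ℝ)) := by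
        intro n
        simp only [T]
        rw [hval, hchar, ← Complex.exp_add]
        congr 1
        push_cast
        ring
      have h3 : ∀ n : ℤ, U m n =
          Complex.exp (-(Real.pi * Qf (pSc A) (fun i => (m i : ℝ)) : ℝ) +
            2 * Real.pi * Complex.I * (∑ j : Fin d, a j.succ * (m j : ℝ) : ℝ)) *
          Complex.exp (-(Real.pi * (((n : ℝ) - a 0) ^ 2 / A 0 0) : ℝ) +
            2 * Real.pi * Complex.I * ((∑ j, pbe A j * (m j : ℝ)) * ((n : ℝ) - a 0) : ℝ)) := by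
        intro n
        simp only [U]
        rw [← Complex.exp_add, ← Complex.exp_add]
        congr 1
        have h4 : ∑ i, (a i.succ + ((n : ℝ) - a 0) * pbe A i) * (m i : ℝ) =
            ∑ j : Fin d, a j.succ * (m j : ℝ) + (∑ j, pbe A j * (m j : ℝ)) * ((n : ℝ) - a 0) := by
          rw [Finset.sum_mul, ← Finset.sum_add_distrib]
          refine Finset.sum_congr rfl fun i _ => ?_
          ring
        rw [h4]
        push_cast
        ring
      simp_rw [h2, h3]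
      rw [tsum_mul_left, tsum_mul_left, h1]
      ring
    -- swap
    have hUs : Summable (Function.uncurry U) := by
      refine Summable.of_norm ?_
      have h1 := ps_summ (pSc A) hSc 0
      have h2 := pg_summ (A 0 0)⁻¹ (inv_pos.2 h00) (-(a 0))
      have h3 := h1.mul_of_nonneg h2 (fun _ => (Real.exp_pos _).le) (fun _ => (Real.exp_pos _).le)
      refine h3.congr ?_
      rintro ⟨m, n⟩
      simp only [Function.uncurry, U]
      rw [norm_mul, pg_norm, ← Complex.ofReal_neg, ← Complex.ofReal_exp, Complex.norm_real,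
        Real.norm_of_nonneg (Real.exp_pos _).le, mul_comm]
      congr 1
      · congr 1
        ring
      · simp
    have hswap : ∑' m : Fin d → ℤ, ∑' n : ℤ, U m n = ∑' n : ℤ, ∑' m : Fin d → ℤ, U m n :=
      hUs.tsum_comm.symm
    have hU2 : ∀ n : ℤ, ∑' m : Fin d → ℤ, U m n =
        ((Real.sqrt (pSc A).det)⁻¹ : ℝ) * ((∑' m : Fin d → ℤ, Real.exp (-(Real.pi *
          Qf A⁻¹ (fun i => ((Fin.cons n m : Fin (d + 1) → ℤ) i : ℝ) - a i))) : ℝ) : ℂ) := by
      intro n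
      simp only [U]
      rw [tsum_mul_left, ih (pSc A) hSc]
      have h1 : ∀ m : Fin d → ℤ, Real.exp (-(Real.pi *
          Qf A⁻¹ (fun i => ((Fin.cons n m : Fin (d + 1) → ℤ) i : ℝ) - a i))) =
          Real.exp (-(Real.pi * (((n : ℝ) - a 0) ^ 2 / A 0 0))) *
          Real.exp (-(Real.pi * Qf (pSc A)⁻¹
            (fun i => (m i : ℝ) - (a i.succ + ((n : ℝ) - a 0) * pbe A i)))) := by
        intro m
        rw [hdual, ← Real.exp_add]
        congr 1
        ring
      simp_rw [h1]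
      rw [tsum_mul_left]
      push_cast
      ring
    -- right side
    let R : (Fin (d + 1) → ℤ) → ℝ := fun m =>
      Real.exp (-(Real.pi * Qf A⁻¹ (fun i => (m i : ℝ) - a i)))
    have hRs : Summable R := by
      have h1 := ps_summ A⁻¹ (pd_inv h) (fun i => -a i)
      exact h1.congr (fun m => by simp only [R, sub_eq_add_neg])
    have hR : ∑' m, R m = ∑' n : ℤ, ∑' m : Fin d → ℤ, R (Fin.cons n m) := pg_sum1 R hRs
    have hsq : Real.sqrt A.det = Real.sqrt (A 0 0) * Real.sqrt (pSc A).det := by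
      rw [det_sc A h00.ne', Real.sqrt_mul h00.le]
    calc ∑' m, T m = ∑' m : Fin d → ℤ, ∑' n : ℤ, T (Fin.cons n m) := hL
      _ = ∑' m : Fin d → ℤ, ((Real.sqrt (A 0 0))⁻¹ : ℝ) * ∑' n : ℤ, U m n :=
          tsum_congr hin
      _ = ((Real.sqrt (A 0 0))⁻¹ : ℝ) * ∑' n : ℤ, ∑' m : Fin d → ℤ, U m n := by
          rw [tsum_mul_left, hswap]
      _ = ((Real.sqrt (A 0 0))⁻¹ : ℝ) * ∑' n : ℤ, ((Real.sqrt (pSc A).det)⁻¹ : ℝ) *
            ((∑' m : Fin d → ℤ, R (Fin.cons n m) : ℝ) : ℂ) := by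
          congr 1
          exact tsum_congr hU2
      _ = ((Real.sqrt (A 0 0))⁻¹ : ℝ) * (((Real.sqrt (pSc A).det)⁻¹ : ℝ) *
            ((∑' n : ℤ, ∑' m : Fin d → ℤ, R (Fin.cons n m) : ℝ) : ℂ)) := by
          rw [tsum_mul_left, Complex.ofReal_tsum]
      _ = ((Real.sqrt A.det)⁻¹ : ℝ) * ((∑' m, R m : ℝ) : ℂ) := by
          rw [hR, hsq, mul_inv]
          push_cast
          ring


/-! ### the statements -/

theorem qf_gram {d : ℕ} (M : Matrix (Fin d) (Fin d) ℝ) (x : Fin d → ℝ) :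
    Qf (M.transpose * M) x = ∑ i, (M.mulVec x i) ^ 2 := by
  have h1 : Qf (M.transpose * M) x = x ⬝ᵥ (M.transpose * M).mulVec x := rfl
  rw [h1, ← Matrix.mulVec_mulVec, Matrix.dotProduct_mulVec, Matrix.vecMul_transpose]
  exact Finset.sum_congr rfl fun i _ => (pow_two _).symm

theorem pd_gram {d : ℕ} (M : Matrix (Fin d) (Fin d) ℝ) (hM : M.det ≠ 0) :
    PD (M.transpose * M) := by
  refine ⟨fun i j => ?_, fun x hx => ?_⟩
  · rw [Matrix.mul_apply, Matrix.mul_apply]
    exact Finset.sum_congr rfl fun k _ => mul_comm _ _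
  · rw [qf_gram]
    have h1 : M.mulVec x ≠ 0 := by
      intro h
      have h2 : M⁻¹.mulVec (M.mulVec x) = x := by
        rw [Matrix.mulVec_mulVec, Matrix.nonsing_inv_mul _ hM.isUnit, Matrix.one_mulVec]
      rw [h, Matrix.mulVec_zero] at h2
      exact hx h2.symm
    obtain ⟨i, hi⟩ := Function.ne_iff.1 h1
    exact Finset.sum_pos' (fun j _ => sq_nonneg _) ⟨i, Finset.mem_univ i, by
      have : M.mulVec x i ≠ 0 := hi
      positivity⟩

theorem gauss_summable {d : ℕ} (M : Matrix (Fin d) (Fin d) ℝ) (hM : M.det ≠ 0) :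
    Summable (fun m : Fin d → ℤ => Real.exp (-(Real.pi * ∑ i, (gv M m i) ^ 2))) := by
  have h := ps_summ _ (pd_gram M hM) 0
  refine h.congr (fun m => ?_)
  rw [qf_gram]
  simp only [Pi.zero_apply, add_zero]
  rfl

theorem poisson_gauss {d : ℕ} (M : Matrix (Fin d) (Fin d) ℝ) (hM : M.det ≠ 0) :
    ∑' m : Fin d → ℤ, Real.exp (-(Real.pi * ∑ i, (gv M m i) ^ 2)) =
      |M.det|⁻¹ * ∑' m : Fin d → ℤ, Real.exp (-(Real.pi * ∑ i, (gv (M⁻¹).transpose m i) ^ 2)) := by
  have h := ps_formula _ (pd_gram M hM) 0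
  have h1 : Real.sqrt (M.transpose * M).det = |M.det| := by
    rw [Matrix.det_mul, Matrix.det_transpose, Real.sqrt_mul_self_eq_abs]
  have h2 : (M.transpose * M)⁻¹ = (M⁻¹).transpose.transpose * (M⁻¹).transpose := by
    rw [Matrix.mul_inv_rev, Matrix.transpose_transpose, Matrix.transpose_nonsing_inv]
  have h3 : ∀ m : Fin d → ℤ, Complex.exp (-(Real.pi * Qf (M.transpose * M)
      (fun i => (m i : ℝ)) : ℝ) + 2 * Real.pi * Complex.I *
        (∑ i, (0 : Fin d → ℝ) i * (m i : ℝ) : ℝ)) =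
      ((Real.exp (-(Real.pi * ∑ i, (gv M m i) ^ 2)) : ℝ) : ℂ) := by
    intro m
    rw [qf_gram, Complex.ofReal_exp]
    congr 1
    simp [gv]
  have h4 : ∀ m : Fin d → ℤ, Real.exp (-(Real.pi * Qf (M.transpose * M)⁻¹
      (fun i => (m i : ℝ) - (0 : Fin d → ℝ) i))) =
      Real.exp (-(Real.pi * ∑ i, (gv (M⁻¹).transpose m i) ^ 2)) := by
    intro m
    rw [h2, qf_gram]
    simp [gv]
  rw [tsum_congr h3, tsum_congr h4, h1, ← Complex.ofReal_tsum, ← Complex.ofReal_mul] at h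
  exact Complex.ofReal_injective h

end H81.LP
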