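import Pool.Agent.H81.LP.Defs

/-!
# Module D0: the Fourier transform of `exp (-exp t - Y exp (-t))` decays like `exp (-2 π a |ξ|)`

`f(t) = exp (-exp t - Y exp (-t))` is entire; for `t` real and `|b| ≤ a = 5π/12 < π/2`
`|f(t + i b)| = exp (-(exp t + Y exp (-t)) cos b) ≤ exp (-(exp t + Y exp (-t)) cos a)`.
Shift the line of integration of `∫ f(t) exp (-2π i ξ t) dt` to `Im = -a` (`ξ ≥ 0`) or `Im = a`
(`ξ ≤ 0`): rectangle (`Complex.integral_boundary_rect_eq_zero_of_differentiableOn`), vertical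
sides tend to zero (see the Gaussian case `GaussianFourier` in Mathlib).  Hence
`|f^(ξ)| ≤ exp (-2π a |ξ|) ∫ exp (-(exp t + Y exp (-t)) cos a) dt`, and
`∫ exp (-(exp t + Y exp (-t)) cos a) dt ≤ ∫ exp (-(cos a) exp t) (1/2) (Y cos a)^(-1/2) exp (t/2) dt
 = (1/2) √π (cos a)⁻¹ Y^(-1/2) ≤ 7/2 · Y^(-1/2)`, because `exp (-z) ≤ (1/2) z^(-1/2)`,
`∫ exp (-(c exp t) + t/2) dt = √(π/c)` and `cos (5π/12) = (√6-√2)/4 = 0.2588… ≥ 0.2588`
(`√π/2 / 0.2588 = 3.4243… < 7/2`).
-/

namespace H81.LP

open MeasureTheory Filter Topology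

/-- the function of the trapezoid rule -/
noncomputable def ff (Y : ℝ) (t : ℝ) : ℝ := Real.exp (-Real.exp t - Y * Real.exp (-t))

private noncomputable def shH (c Y t : ℝ) : ℝ :=
  Real.exp (-((Real.exp t + Y * Real.exp (-t)) * c))

private theorem sh_exp_le {z : ℝ} (hz : 0 < z) : Real.exp (-z) ≤ 1 / (2 * √z) := by
  have h1 : 2 * √z ≤ Real.exp z := by
    have h2 := Real.add_one_le_exp z
    have h3 : √z ^ 2 = z := Real.sq_sqrt hz.le
    nlinarith [sq_nonneg (√z - 1)]
  have h0 : 0 < √z := Real.sqrt_pos.2 hz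
  rw [Real.exp_neg, ← one_div]
  exact one_div_le_one_div_of_le (by positivity) h1

private theorem sh_image : Real.exp '' Set.univ = Set.Ioi 0 := by
  rw [Set.image_univ, Real.range_exp]

private theorem sh_maj_int {c : ℝ} (hc : 0 < c) :
    Integrable (fun t : ℝ => Real.exp (-(c * Real.exp t)) * Real.exp (t / 2)) ∧
    ∫ t : ℝ, Real.exp (-(c * Real.exp t)) * Real.exp (t / 2) = √Real.pi / √c := by
  have hder : ∀ x ∈ (Set.univ : Set ℝ), HasDerivWithinAt Real.exp (Real.exp x) Set.univ x :=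
    fun x _ => (Real.hasDerivAt_exp x).hasDerivWithinAt
  have hinj : Set.InjOn Real.exp Set.univ := Real.exp_injective.injOn
  have key : ∀ t : ℝ, |Real.exp t| • ((fun x : ℝ => x ^ ((1 / 2 : ℝ) - 1) *
      Real.exp (-(c * x))) (Real.exp t)) = Real.exp (-(c * Real.exp t)) * Real.exp (t / 2) := by
    intro t
    rw [abs_of_pos (Real.exp_pos t), smul_eq_mul]
    dsimp only
    rw [← Real.exp_mul, ← mul_assoc, ← Real.exp_add, mul_comm]
    congr 2
    ring
  constructor
  · have h := (integrableOn_image_iff_integrableOn_abs_deriv_smul MeasurableSet.univ hder hinj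
      (fun x : ℝ => x ^ ((1 / 2 : ℝ) - 1) * Real.exp (-(c * x)))).1 ?_
    · rw [integrableOn_univ] at h
      exact h.congr (Eventually.of_forall key)
    · rw [sh_image]
      have := integrableOn_rpow_mul_exp_neg_mul_rpow (s := (1 / 2 : ℝ) - 1) (p := 1) (b := c)
        (by norm_num) one_pos hc
      refine this.congr_fun (fun x _ => ?_) measurableSet_Ioi
      simp only [Real.rpow_one, neg_mul]
  · have h := integral_image_eq_integral_abs_deriv_smul MeasurableSet.univ hder hinj
      (fun x : ℝ => x ^ ((1 / 2 : ℝ) - 1) * Real.exp (-(c * x)))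
    rw [sh_image, Real.integral_rpow_mul_exp_neg_mul_Ioi (by norm_num) hc, setIntegral_univ,
      Real.Gamma_one_half_eq] at h
    rw [← integral_congr_ae (Eventually.of_forall key)]
    rw [← h, ← Real.sqrt_eq_rpow, Real.sqrt_div zero_le_one, Real.sqrt_one]
    ring

private theorem sh_le {c Y : ℝ} (hc : 0 < c) (hY : 0 < Y) (t : ℝ) :
    shH c Y t ≤ 1 / (2 * √(Y * c)) * (Real.exp (-(c * Real.exp t)) * Real.exp (t / 2)) := by
  have h1 : shH c Y t = Real.exp (-(c * Real.exp t)) * Real.exp (-(Y * Real.exp (-t) * c)) := by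
    unfold shH
    rw [← Real.exp_add]
    congr 1
    ring
  have h2 := sh_exp_le (z := Y * Real.exp (-t) * c) (by positivity)
  have h3 : √(Y * Real.exp (-t) * c) = √(Y * c) * Real.exp (-(t / 2)) := by
    rw [mul_right_comm, Real.sqrt_mul (by positivity)]
    congr 1
    rw [← neg_div, Real.exp_half]
  have h4 : 1 / (2 * √(Y * Real.exp (-t) * c)) = 1 / (2 * √(Y * c)) * Real.exp (t / 2) := by
    rw [h3, Real.exp_neg]
    have h5 : 0 < √(Y * c) := Real.sqrt_pos.2 (by positivity)
    have h6 := Real.exp_pos (t / 2)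
    field_simp
  rw [h1]
  rw [h4] at h2
  calc Real.exp (-(c * Real.exp t)) * Real.exp (-(Y * Real.exp (-t) * c))
      ≤ Real.exp (-(c * Real.exp t)) * (1 / (2 * √(Y * c)) * Real.exp (t / 2)) :=
        mul_le_mul_of_nonneg_left h2 (Real.exp_pos _).le
    _ = _ := by ring

private theorem sh_pos (c Y t : ℝ) : 0 < shH c Y t := Real.exp_pos _

private theorem sh_cont (c Y : ℝ) : Continuous (shH c Y) := by
  unfold shH
  fun_prop

private theorem sh_int {c Y : ℝ} (hc : 0 < c) (hY : 0 < Y) : Integrable (shH c Y) := by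
  refine ((sh_maj_int hc).1.const_mul (1 / (2 * √(Y * c)))).mono'
    (sh_cont c Y).aestronglyMeasurable (Eventually.of_forall fun t => ?_)
  rw [Real.norm_of_nonneg (sh_pos c Y t).le]
  exact sh_le hc hY t

private theorem sh_int_le {c Y : ℝ} (hc : 0 < c) (hY : 0 < Y) :
    ∫ t, shH c Y t ≤ √Real.pi / (2 * c) / √Y := by
  calc ∫ t, shH c Y t
      ≤ ∫ t, 1 / (2 * √(Y * c)) * (Real.exp (-(c * Real.exp t)) * Real.exp (t / 2)) :=
        integral_mono (sh_int hc hY) ((sh_maj_int hc).1.const_mul _) (fun t => sh_le hc hY t)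
    _ = 1 / (2 * √(Y * c)) * (√Real.pi / √c) := by
        rw [integral_const_mul, (sh_maj_int hc).2]
    _ = √Real.pi / (2 * c) / √Y := by
        rw [Real.sqrt_mul hY.le]
        have h1 : 0 < √Y := Real.sqrt_pos.2 hY
        have h2 : 0 < √c := Real.sqrt_pos.2 hc
        have h3 : √c * √c = c := Real.mul_self_sqrt hc.le
        have h4 : c = √c ^ 2 := (Real.sq_sqrt hc.le).symm
        rw [h4]
        rw [Real.sqrt_sq h2.le]
        field_simp

private theorem sh_tendsto {c Y : ℝ} (hc : 0 < c) (hY : 0 < Y) :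
    Tendsto (shH c Y) atTop (𝓝 0) ∧ Tendsto (shH c Y) atBot (𝓝 0) := by
  constructor
  · have h1 : Tendsto (fun t : ℝ => Real.exp (-(c * Real.exp t))) atTop (𝓝 0) := by
      apply Real.tendsto_exp_neg_atTop_nhds_zero.comp
      exact Real.tendsto_exp_atTop.const_mul_atTop hc
    refine squeeze_zero (fun t => (sh_pos c Y t).le) (fun t => ?_) h1
    unfold shH
    apply Real.exp_le_exp.2
    have := mul_pos (mul_pos hY (Real.exp_pos (-t))) hc
    nlinarith
  · have h1 : Tendsto (fun t : ℝ => Real.exp (-(c * Y * Real.exp (-t)))) atBot (𝓝 0) := by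
      apply Real.tendsto_exp_neg_atTop_nhds_zero.comp
      exact (Real.tendsto_exp_atTop.comp tendsto_neg_atBot_atTop).const_mul_atTop (mul_pos hc hY)
    refine squeeze_zero (fun t => (sh_pos c Y t).le) (fun t => ?_) h1
    unfold shH
    apply Real.exp_le_exp.2
    have := mul_pos (Real.exp_pos t) hc
    nlinarith

theorem ff_integrable {Y : ℝ} (hY : 0 < Y) : Integrable (ff Y) := by
  refine (sh_int one_pos hY).congr (Eventually.of_forall fun t => ?_)
  unfold shH ff
  congr 1
  ring

/-- shift of the line of integration -/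
private theorem sh_shift (f : ℂ → ℂ) (hf : Differentiable ℂ f) (b : ℝ)
    (h0 : Integrable (fun t : ℝ => f t)) (hb : Integrable (fun t : ℝ => f (t + b * Complex.I)))
    (hv : Tendsto (fun T : ℝ => ∫ y in (0 : ℝ)..b, f (T + y * Complex.I)) atTop (𝓝 0))
    (hv' : Tendsto (fun T : ℝ => ∫ y in (0 : ℝ)..b, f (T + y * Complex.I)) atBot (𝓝 0)) :
    ∫ t : ℝ, f t = ∫ t : ℝ, f (t + b * Complex.I) := by
  have h1 := intervalIntegral_tendsto_integral h0 tendsto_neg_atTop_atBot tendsto_id
  have h2 := intervalIntegral_tendsto_integral hb tendsto_neg_atTop_atBot tendsto_id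
  have h3 : Tendsto (fun T : ℝ => Complex.I • (∫ y in (0 : ℝ)..b, f (T + y * Complex.I)) -
      Complex.I • (∫ y in (0 : ℝ)..b, f ((-T : ℝ) + y * Complex.I))) atTop (𝓝 0) := by
    have h4 := (hv.const_smul Complex.I).sub
      ((hv'.comp tendsto_neg_atTop_atBot).const_smul Complex.I)
    simpa using h4
  have h5 : ∀ T : ℝ, (∫ x in (-T)..T, f x) - (∫ x in (-T)..T, f (x + b * Complex.I)) +
      (Complex.I • (∫ y in (0 : ℝ)..b, f (T + y * Complex.I)) -
      Complex.I • (∫ y in (0 : ℝ)..b, f ((-T : ℝ) + y * Complex.I))) = 0 := by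
    intro T
    have := Complex.integral_boundary_rect_eq_zero_of_differentiableOn f (-T : ℝ)
      (T + b * Complex.I) hf.differentiableOn
    simp only [Complex.ofReal_re, Complex.ofReal_im, Complex.add_re, Complex.add_im,
      Complex.mul_re, Complex.mul_im, Complex.I_re, Complex.I_im, mul_zero, mul_one, sub_zero,
      add_zero, zero_add, Complex.ofReal_zero, zero_mul] at this
    rw [← add_sub_assoc]
    exact this
  have h6 := (h1.sub h2).add h3
  have h7 : Tendsto (fun T : ℝ => (∫ x in (-T)..T, f x) -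
      (∫ x in (-T)..T, f (x + b * Complex.I)) +
      (Complex.I • (∫ y in (0 : ℝ)..b, f (T + y * Complex.I)) -
      Complex.I • (∫ y in (0 : ℝ)..b, f ((-T : ℝ) + y * Complex.I)))) atTop (𝓝 0) := by
    simp only [h5]
    exact tendsto_const_nhds
  have h8 := tendsto_nhds_unique h6 h7
  rw [add_zero, sub_eq_zero] at h8
  exact h8

private noncomputable def shF (Y ξ : ℝ) (z : ℂ) : ℂ :=
  Complex.exp (-(2 * Real.pi * ξ : ℝ) * z * Complex.I - Complex.exp z - Y * Complex.exp (-z))

private theorem shF_diff (Y ξ : ℝ) : Differentiable ℂ (shF Y ξ) := by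
  unfold shF
  fun_prop

private theorem shF_norm (Y ξ t b : ℝ) : ‖shF Y ξ (t + b * Complex.I)‖ =
    Real.exp (2 * Real.pi * (ξ * b)) * shH (Real.cos b) Y t := by
  unfold shF shH
  rw [Complex.norm_exp, ← Real.exp_add]
  congr 1
  have h1 : (Complex.exp (t + b * Complex.I)).re = Real.exp t * Real.cos b := by
    rw [Complex.exp_re]; simp
  have h2 : (Complex.exp (-(t + b * Complex.I))).re = Real.exp (-t) * Real.cos b := by
    rw [Complex.exp_re]; simp
  simp only [Complex.sub_re, Complex.mul_re, h1, h2, Complex.neg_re, Complex.neg_im,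
    Complex.ofReal_re, Complex.ofReal_im, Complex.I_re, Complex.I_im, Complex.add_re,
    Complex.add_im, Complex.mul_im]
  ring

private theorem sh_mono {c c' Y t : ℝ} (hY : 0 < Y) (h : c ≤ c') : shH c' Y t ≤ shH c Y t := by
  unfold shH
  apply Real.exp_le_exp.2
  have h1 : 0 < Real.exp t + Y * Real.exp (-t) := by positivity
  nlinarith

private theorem shF_eq (Y ξ t : ℝ) : shF Y ξ t =
    Complex.exp (-(2 * Real.pi * ξ * t : ℝ) * Complex.I) * (ff Y t : ℂ) := by
  unfold shF ff
  rw [Complex.ofReal_exp, ← Complex.exp_add]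
  congr 1
  push_cast
  ring

private theorem sh_cos_pos : (0.2588 : ℝ) < Real.cos (5 * Real.pi / 12) := by
  have h1 : Real.cos (5 * Real.pi / 12) = (√6 - √2) / 4 := by
    have h2 : 5 * Real.pi / 12 = Real.pi / 4 + Real.pi / 6 := by ring
    rw [h2, Real.cos_add, Real.cos_pi_div_four, Real.cos_pi_div_six, Real.sin_pi_div_four,
      Real.sin_pi_div_six]
    have h3 : √6 = √2 * √3 := by
      rw [← Real.sqrt_mul (by norm_num)]; norm_num
    rw [h3]; ring
  rw [h1]
  have h4 : (2.44948 : ℝ) < √6 := Real.lt_sqrt_of_sq_lt (by norm_num)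
  have h5 : √2 < 1.41422 := by
    rw [Real.sqrt_lt' (by norm_num)]; norm_num
  linarith

theorem ff_fourier {Y : ℝ} (hY : 0 < Y) (ξ : ℝ) :
    ‖∫ t : ℝ, Complex.exp (-(2 * Real.pi * ξ * t : ℝ) * Complex.I) * (ff Y t : ℂ)‖ ≤
      Real.exp (-(2 * Real.pi * (5 * Real.pi / 12) * |ξ|)) * (7 / 2 / √Y) := by
  set a : ℝ := 5 * Real.pi / 12 with ha
  have hpi := Real.pi_pos
  have ha0 : 0 < a := by positivity
  have hapi : a ≤ Real.pi := by rw [ha]; linarith
  have hca : 0.2588 < Real.cos a := sh_cos_pos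
  have hca0 : 0 < Real.cos a := by linarith
  -- choice of the shift
  obtain ⟨b, hb, hbξ⟩ : ∃ b : ℝ, |b| = a ∧ ξ * b = -(a * |ξ|) := by
    rcases le_total 0 ξ with h | h
    · refine ⟨-a, by rw [abs_neg, abs_of_pos ha0], ?_⟩
      rw [abs_of_nonneg h]; ring
    · refine ⟨a, abs_of_pos ha0, ?_⟩
      rw [abs_of_nonpos h]; ring
  have hcosb : Real.cos b = Real.cos a := by rw [← Real.cos_abs, hb]
  have hcos : ∀ y : ℝ, |y| ≤ a → Real.cos a ≤ Real.cos y := by
    intro y hy
    rw [← Real.cos_abs y]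
    exact Real.cos_le_cos_of_nonneg_of_le_pi (abs_nonneg y) hapi hy
  have hcont : Continuous (shF Y ξ) := (shF_diff Y ξ).continuous
  have hi : ∀ y : ℝ, |y| ≤ a → Integrable (fun t : ℝ => shF Y ξ (t + y * Complex.I)) := by
    intro y hy
    refine ((sh_int hca0 hY).const_mul (Real.exp (2 * Real.pi * (ξ * y)))).mono' ?_ ?_
    · exact (hcont.comp (by fun_prop)).aestronglyMeasurable
    · refine Eventually.of_forall fun t => ?_
      rw [shF_norm]
      exact mul_le_mul_of_nonneg_left (sh_mono hY (hcos y hy)) (Real.exp_pos _).le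
  have hvb : ∀ T : ℝ, ‖∫ y in (0 : ℝ)..b, shF Y ξ (T + y * Complex.I)‖ ≤
      (Real.exp (2 * Real.pi * (|ξ| * a)) * a) * shH (Real.cos a) Y T := by
    intro T
    have := intervalIntegral.norm_integral_le_of_norm_le_const
      (C := Real.exp (2 * Real.pi * (|ξ| * a)) * shH (Real.cos a) Y T) (a := 0) (b := b)
      (f := fun y : ℝ => shF Y ξ (T + y * Complex.I)) ?_
    · rw [sub_zero, hb] at this
      refine this.trans (le_of_eq ?_)
      ring
    · intro y hy
      have hyb : |y| ≤ a := by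
        rw [← hb]
        rw [Set.mem_uIoc] at hy
        rcases hy with hy | hy
        · rw [abs_of_pos hy.1, abs_of_pos (hy.1.trans_le hy.2)]
          exact hy.2
        · rw [abs_of_nonpos hy.2, abs_of_neg (hy.1.trans_le hy.2)]
          linarith [hy.1]
      rw [shF_norm]
      apply mul_le_mul _ (sh_mono hY (hcos y hyb)) (sh_pos _ _ _).le (Real.exp_pos _).le
      apply Real.exp_le_exp.2
      have h1 : ξ * y ≤ |ξ| * a := by
        calc ξ * y ≤ |ξ * y| := le_abs_self _
          _ = |ξ| * |y| := abs_mul _ _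
          _ ≤ |ξ| * a := mul_le_mul_of_nonneg_left hyb (abs_nonneg _)
      nlinarith
  have hshift := sh_shift (shF Y ξ) (shF_diff Y ξ) b
    (by simpa using hi 0 (by rw [abs_zero]; exact ha0.le)) (hi b hb.le)
    (squeeze_zero_norm hvb (by simpa using (sh_tendsto hca0 hY).1.const_mul _))
    (squeeze_zero_norm hvb (by simpa using (sh_tendsto hca0 hY).2.const_mul _))
  have e : ∫ t : ℝ, Complex.exp (-(2 * Real.pi * ξ * t : ℝ) * Complex.I) * (ff Y t : ℂ) =
      ∫ t : ℝ, shF Y ξ (t + b * Complex.I) := by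
    rw [← hshift]
    apply integral_congr_ae
    exact Eventually.of_forall fun t => (shF_eq Y ξ t).symm
  rw [e]
  calc ‖∫ t : ℝ, shF Y ξ (t + b * Complex.I)‖
      ≤ ∫ t : ℝ, ‖shF Y ξ (t + b * Complex.I)‖ := norm_integral_le_integral_norm _
    _ = ∫ t : ℝ, Real.exp (-(2 * Real.pi * a * |ξ|)) * shH (Real.cos a) Y t := by
        apply integral_congr_ae
        refine Eventually.of_forall fun t => ?_
        dsimp only
        rw [shF_norm, hbξ, hcosb]
        congr 2
        ring
    _ = Real.exp (-(2 * Real.pi * a * |ξ|)) * ∫ t : ℝ, shH (Real.cos a) Y t :=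
        integral_const_mul _ _
    _ ≤ Real.exp (-(2 * Real.pi * a * |ξ|)) * (7 / 2 / √Y) := by
        apply mul_le_mul_of_nonneg_left _ (Real.exp_pos _).le
        refine (sh_int_le hca0 hY).trans ?_
        apply div_le_div_of_nonneg_right _ (Real.sqrt_nonneg Y)
        rw [div_le_div_iff₀ (by positivity) (by norm_num)]
        have h1 : √Real.pi < 1.77246 := by
          rw [Real.sqrt_lt' (by norm_num)]
          have := Real.pi_lt_d6
          norm_num
          linarith
        nlinarith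

end H81.LP
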