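import Pool.Agent.H81.LP.SBound

/-!
# Module E1: tables of `S n` by discrete convolution, with error bounds

Scale `R = 2^96`, window `U = 15`, top index `b`.  `GOK g`: `g[r]/R ≤ exp (-(q^(15-r))) ≤ g[r]/R + 2^(-64)`
for all `r < g.length`.  `TabOK σ b n ε t`: `t[i]/R ≤ S n (σ q^(b-i)) ≤ t[i]/R + ε (σ q^(b-i))^(-1/2)`
for all `i < t.length`.

`step_ok`.  Let `m = b - i`, `X = σ q^m`.  Split
`S (n+1) X = ∑_k exp (-(q^k)) S n (X q^(-k))` into (a) `-i ≤ k ≤ 15`, (b) `k ≥ 16`, (c) `k < -i`.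
(a) `k = 15 - r`, `X q^(-k) = σ q^(b - (i + 15 - r))`, `0 ≤ r ≤ i + 15`: with `g[r]`, `t[i+15-r]` the sum is
  at least `∑ g[r] t[i+15-r] / R²` and at most that plus
  `2^(-64) ∑_k S n (X q^(-k)) + ∑_k exp (-(q^k)) ε (X q^(-k))^(-1/2)
   ≤ 2^(-64) (1/2) (67/10)^n X^(-1/2) ∑_{k ≤ 15} (8/7)^k + ε (67/10) X^(-1/2)`,
  `∑_{k ≤ 15} (8/7)^k = 8 (8/7)^15 ≤ 60` (`S_le_half`, `thetaHalf`).
(b) `≤ ∑_{k ≥ 16} exp (-(q^k)) (1/2) (67/10)^n X^(-1/2) (8/7)^k ≤ 2^(-64) (67/10)^n X^(-1/2)`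
  (very crude; e.g. `exp (-x) ≤ m!/x^m` with `q^16 ≥ 71`; `m = 71` gives `10^(-30)`; or
  `exp (-x) ≤ exp (-71) exp (-(x - 71))`).
(c) `X q^(-k) = σ q^j` with `j ≥ b + 1`, `exp (-(q^k)) ≤ 1`: at most
  `∑_{j > b} 120 · 91^n (σ q^j)^(-5) ≤ 2 · 120 · 91^n q^(-5(b+1)) ≤ 2^(-64)` (hypothesis `htail`).
Rounding of the division by `R`: at most `2^(-96)`.  Finally `2^(-64) + 2^(-96) ≤ 2 · 2^(-64) √X X^(-1/2)` and
`√X ≤ √(σ q^b) ≤ M` (hypothesis `hM`).  Total error: `X^(-1/2)` times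
`(67/10) ε + 2^(-64) (31 (67/10)^n + 2 M)`.

The list function `step` computes exactly `(step g t)[i] = (∑_{r ≤ i+15} g[r] t[i+15-r]) / 2^96` (if
`g.length ≥ t.length`), for `i < t.length - 15`; it is written with recursors and continuations
only for fast evaluation in the kernel.
-/

namespace H81.LP

/-- dot product with accumulator -/
def dotA (l : List ℕ) : List ℕ → ℕ → ℕ :=
  List.rec (motive := fun _ => List ℕ → ℕ → ℕ) (fun _ s => s)
    (fun a _ ih m s => List.rec (motive := fun _ => ℕ) s (fun b bs _ => ih bs (s + a * b)) m) l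

/-- apply `k` to the evaluated number `x` -/
def force (x : ℕ) {α : Type} (k : ℕ → α) : α :=
  Nat.rec (motive := fun _ => α) (k 0) (fun n _ => k (n + 1)) x

/-- convolution, continuation style -/
def conv (g : List ℕ) (rest : List ℕ) : List ℕ → (List ℕ → Bool) → Bool :=
  List.rec (motive := fun _ => List ℕ → (List ℕ → Bool) → Bool) (fun _ k => k [])
    (fun x _ ih acc k => force (dotA g (x :: acc) 0 / 79228162514264337593543950336)
      fun v => ih (x :: acc) fun l => k (v :: l)) rest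

/-- one step of the table computation, continuation style -/
def step (g t : List ℕ) (k : List ℕ → Bool) : Bool := conv g (t.drop 15) (t.take 15).reverse k

/-- `n` steps, continuation style -/
def chain (g : List ℕ) (n : ℕ) : List ℕ → (List ℕ → Bool) → Bool :=
  Nat.rec (motive := fun _ => List ℕ → (List ℕ → Bool) → Bool) (fun t k => k t)
    (fun _ ih t k => step g t fun t' => ih t' k) n

/-- `g` is a table of `exp (-(q^k))`, `k = 15, 14, …` -/
def GOK (g : List ℕ) : Prop :=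
  ∀ r (h : r < g.length), (g[r] : ℝ) / 2 ^ 96 ≤ Real.exp (-(q ^ ((15 : ℤ) - r))) ∧
    Real.exp (-(q ^ ((15 : ℤ) - r))) ≤ (g[r] : ℝ) / 2 ^ 96 + 1 / 2 ^ 64

/-- `t` is a table of `S n (σ q^m)`, `m = b, b - 1, …` -/
def TabOK (σ : ℝ) (b n : ℕ) (ε : ℝ) (t : List ℕ) : Prop :=
  ∀ i (h : i < t.length), (t[i] : ℝ) / 2 ^ 96 ≤ S n (σ * q ^ ((b : ℤ) - i)) ∧
    S n (σ * q ^ ((b : ℤ) - i)) ≤ (t[i] : ℝ) / 2 ^ 96 + ε / √(σ * q ^ ((b : ℤ) - i))

theorem force_eq (x : ℕ) {α : Type} (k : ℕ → α) : force x k = k x := by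
  cases x <;> rfl

theorem dotA_eq_sum (m l : List ℕ) (s : ℕ) (h : m.length ≤ l.length) :
    dotA l m s = s + ∑ r ∈ Finset.range m.length, l.getD r 0 * m.getD r 0 := by
  induction m generalizing l s with
  | nil => cases l <;> simp [dotA]
  | cons b m ih =>
    cases l with
    | nil => simp at h
    | cons a l =>
      have h1 : dotA (a :: l) (b :: m) s = dotA l m (s + a * b) := rfl
      have h2 : m.length ≤ l.length := by simpa using h
      rw [h1, ih l _ h2, List.length_cons, Finset.sum_range_succ']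
      simp only [List.getD_cons_succ, List.getD_cons_zero]
      omega

/-- the list computed by `conv` -/
def convL (g : List ℕ) : List ℕ → List ℕ → List ℕ
  | [], _ => []
  | x :: xs, acc => (dotA g (x :: acc) 0 / 79228162514264337593543950336) :: convL g xs (x :: acc)

theorem conv_eq (g rest acc : List ℕ) (k : List ℕ → Bool) :
    conv g rest acc k = k (convL g rest acc) := by
  induction rest generalizing acc k with
  | nil => rfl
  | cons x xs ih =>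
    have h1 : conv g (x :: xs) acc k = force (dotA g (x :: acc) 0 / 79228162514264337593543950336)
      fun v => conv g xs (x :: acc) fun l => k (v :: l) := rfl
    rw [h1, force_eq, ih]
    rfl

theorem convL_length (g rest acc : List ℕ) : (convL g rest acc).length = rest.length := by
  induction rest generalizing acc with
  | nil => rfl
  | cons x xs ih => simp [convL, ih]

theorem convL_getElem (g rest acc : List ℕ) (i : ℕ) (h : i < (convL g rest acc).length) :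
    (convL g rest acc)[i] =
      dotA g ((rest.take (i + 1)).reverse ++ acc) 0 / 79228162514264337593543950336 := by
  induction rest generalizing acc i with
  | nil => simp [convL] at h
  | cons x xs ih =>
    cases i with
    | zero => simp [convL]
    | succ i =>
      simp only [convL, List.getElem_cons_succ]
      rw [ih]
      simp

theorem stepL_getElem (g t : List ℕ) (hlen : t.length ≤ g.length) (i : ℕ)
    (h : i < (convL g (t.drop 15) (t.take 15).reverse).length) :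
    (convL g (t.drop 15) (t.take 15).reverse)[i] =
      (∑ r ∈ Finset.range (i + 16), g.getD r 0 * t.getD (i + 15 - r) 0) /
        79228162514264337593543950336 := by
  rw [convL_getElem]
  have hl : i + 16 ≤ t.length := by
    rw [convL_length, List.length_drop] at h
    omega
  have h1 : ((t.drop 15).take (i + 1)).reverse ++ (t.take 15).reverse =
      (t.take (i + 16)).reverse := by
    rw [← List.reverse_append]
    congr 1
    rw [show i + 16 = 15 + (i + 1) by ring]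
    exact List.take_add.symm
  rw [h1, dotA_eq_sum _ _ _ (by simp; omega), zero_add]
  congr 1
  rw [List.length_reverse, List.length_take, min_eq_left hl]
  refine Finset.sum_congr rfl fun r hr => ?_
  rw [Finset.mem_range] at hr
  congr 1
  rw [List.getD_eq_getElem _ _ (by simp; omega), List.getD_eq_getElem _ _ (by omega),
    List.getElem_reverse]
  simp only [List.length_take, min_eq_left hl, List.getElem_take]
  congr 1

theorem tab_q_pos : (0 : ℝ) < q := by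
  unfold q
  norm_num

theorem tab_q_neg (k : ℤ) : q ^ (-k) = ((7 / 8 : ℝ) ^ k) ^ 2 := by
  have h1 : q⁻¹ = (7 / 8 : ℝ) ^ 2 := by
    unfold q
    norm_num
  rw [zpow_neg, ← inv_zpow, h1, ← zpow_natCast, ← zpow_natCast, ← zpow_mul, ← zpow_mul, mul_comm]

theorem tab_sqrt {X : ℝ} (hX : 0 ≤ X) (k : ℤ) : √(X * q ^ (-k)) = √X * (7 / 8 : ℝ) ^ k := by
  rw [tab_q_neg, Real.sqrt_mul hX, Real.sqrt_sq (by positivity)]

theorem tab_q_nat (k : ℕ) : q ^ (k : ℤ) = (((7 / 8 : ℝ) ^ k) ^ 2)⁻¹ := by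
  have h1 := tab_q_neg (k : ℤ)
  rw [zpow_neg, zpow_natCast, zpow_natCast] at h1
  rw [zpow_natCast, ← h1, inv_inv]

/-- one term of the right tail -/
theorem tab_termB (n : ℕ) {X : ℝ} (hX : 0 < X) (m : ℕ) :
    Real.exp (-(q ^ ((m : ℤ) + 16))) * S n (X * q ^ (-((m : ℤ) + 16))) ≤
      (265252859812191058636308480000000 * (7 / 8 : ℝ) ^ 944 * (1 / 2 * (67 / 10) ^ n / √X)) *
        ((7 / 8 : ℝ) ^ 59) ^ m := by
  have hsX : 0 < √X := Real.sqrt_pos.mpr hX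
  have hk : ((m : ℤ) + 16) = ((m + 16 : ℕ) : ℤ) := by push_cast; ring
  have hq := tab_q_pos
  have h1 := S_le_half n (X := X * q ^ (-((m : ℤ) + 16))) (by positivity)
  rw [tab_sqrt hX.le] at h1
  rw [hk] at h1 ⊢
  rw [zpow_natCast (7 / 8 : ℝ)] at h1
  obtain ⟨a, ha⟩ : ∃ a : ℝ, a = (7 / 8 : ℝ) ^ (m + 16) := ⟨_, rfl⟩
  have ha0 : 0 < a := by rw [ha]; positivity
  have h2 : Real.exp (-(q ^ ((m + 16 : ℕ) : ℤ))) ≤ 265252859812191058636308480000000 * a ^ 60 := by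
    rw [tab_q_nat, ← ha]
    have h3 := Real.pow_div_factorial_le_exp ((a ^ 2)⁻¹) (by positivity) 30
    have h4 : (Nat.factorial 30 : ℝ) = 265252859812191058636308480000000 := by
      norm_num [Nat.factorial]
    rw [h4] at h3
    rw [Real.exp_neg, inv_le_comm₀ (Real.exp_pos _) (by positivity)]
    refine le_trans (le_of_eq ?_) h3
    field_simp
  rw [← ha] at h1
  have h5 : 0 ≤ S n (X * q ^ (-((m + 16 : ℕ) : ℤ))) := S_nonneg n (by positivity)
  calc Real.exp (-(q ^ ((m + 16 : ℕ) : ℤ))) * S n (X * q ^ (-((m + 16 : ℕ) : ℤ)))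
      ≤ (265252859812191058636308480000000 * a ^ 60) * (1 / 2 * (67 / 10) ^ n / (√X * a)) :=
        mul_le_mul h2 h1 h5 (by positivity)
    _ = 265252859812191058636308480000000 * (1 / 2 * (67 / 10) ^ n / √X) * a ^ 59 := by
        field_simp
    _ = (265252859812191058636308480000000 * (7 / 8 : ℝ) ^ 944 * (1 / 2 * (67 / 10) ^ n / √X)) *
        ((7 / 8 : ℝ) ^ 59) ^ m := by
        have e : a ^ 59 = (7 / 8 : ℝ) ^ 944 * ((7 / 8 : ℝ) ^ 59) ^ m := by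
          rw [ha, ← pow_mul, ← pow_mul, ← pow_add]
          congr 1
          ring
        rw [e]
        ring

theorem tab_tailB (n : ℕ) {X : ℝ} (hX : 0 < X) :
    ∑' m : ℕ, Real.exp (-(q ^ ((m : ℤ) + 16))) * S n (X * q ^ (-((m : ℤ) + 16))) ≤
      1 / 2 ^ 64 * (67 / 10) ^ n / √X := by
  have hsX : 0 < √X := Real.sqrt_pos.mpr hX
  have hq := tab_q_pos
  have hr0 : (0 : ℝ) ≤ (7 / 8 : ℝ) ^ 59 := by positivity
  have hr1 : (7 / 8 : ℝ) ^ 59 < 1 := by norm_num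
  have hgeo := (hasSum_geometric_of_lt_one hr0 hr1).mul_left
    (265252859812191058636308480000000 * (7 / 8 : ℝ) ^ 944 * (1 / 2 * (67 / 10) ^ n / √X))
  have h1 : Summable fun m : ℕ =>
      Real.exp (-(q ^ ((m : ℤ) + 16))) * S n (X * q ^ (-((m : ℤ) + 16))) :=
    Summable.of_nonneg_of_le (fun m => mul_nonneg (Real.exp_pos _).le (S_nonneg n (by positivity)))
      (fun m => tab_termB n hX m) hgeo.summable
  have h2 := h1.tsum_le_tsum (fun m => tab_termB n hX m) hgeo.summable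
  rw [hgeo.tsum_eq] at h2
  refine h2.trans ?_
  have h3 : (265252859812191058636308480000000 * (7 / 8 : ℝ) ^ 944) * (1 - (7 / 8 : ℝ) ^ 59)⁻¹ ≤
      2 * (1 / 2 ^ 64) := by
    have e1 : (7 / 8 : ℝ) ^ 118 ≤ 15 / 10 ^ 8 := by norm_num
    have e2 : (7 / 8 : ℝ) ^ 944 ≤ (15 / 10 ^ 8) ^ 8 := by
      calc (7 / 8 : ℝ) ^ 944 = ((7 / 8 : ℝ) ^ 118) ^ 8 := by rw [← pow_mul]
        _ ≤ (15 / 10 ^ 8) ^ 8 := pow_le_pow_left₀ (by positivity) e1 8
    have e3 : (1 - (7 / 8 : ℝ) ^ 59)⁻¹ ≤ 2 := by norm_num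
    calc _ ≤ (265252859812191058636308480000000 * ((15 / 10 ^ 8) ^ 8)) * 2 :=
          mul_le_mul (mul_le_mul_of_nonneg_left e2 (by norm_num)) e3 (by norm_num) (by positivity)
      _ ≤ 2 * (1 / 2 ^ 64) := by norm_num
  have h4 : 0 ≤ 1 / 2 * (67 / 10 : ℝ) ^ n / √X := by positivity
  have h5 := mul_le_mul_of_nonneg_right h3 h4
  calc _ = (265252859812191058636308480000000 * (7 / 8 : ℝ) ^ 944) * (1 - (7 / 8 : ℝ) ^ 59)⁻¹ *
        (1 / 2 * (67 / 10 : ℝ) ^ n / √X) := by ring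
    _ ≤ 2 * (1 / 2 ^ 64) * (1 / 2 * (67 / 10 : ℝ) ^ n / √X) := h5
    _ = 1 / 2 ^ 64 * (67 / 10) ^ n / √X := by ring

/-- one term of the left tail -/
theorem tab_termC (n b i : ℕ) {σ : ℝ} (hσ : 1 ≤ σ) (m : ℕ) :
    Real.exp (-(q ^ (-((m + i : ℕ) : ℤ) - 1))) *
        S n (σ * q ^ ((b : ℤ) - i) * q ^ (-(-((m + i : ℕ) : ℤ) - 1))) ≤
      (120 * 91 ^ n * (49 / 64 : ℝ) ^ (5 * (b + 1))) * ((49 / 64 : ℝ) ^ 5) ^ m := by
  have hq := tab_q_pos
  have h0 : σ * q ^ ((b : ℤ) - i) * q ^ (-(-((m + i : ℕ) : ℤ) - 1)) = σ * q ^ (b + 1 + m) := by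
    rw [mul_assoc, ← zpow_add₀ hq.ne', ← zpow_natCast]
    congr 2
    push_cast
    ring
  rw [h0]
  have h1 := S_le_five n (X := σ * q ^ (b + 1 + m)) (by positivity)
  have h2 : Real.exp (-(q ^ (-((m + i : ℕ) : ℤ) - 1))) ≤ 1 := by
    rw [Real.exp_le_one_iff]
    have : 0 < q ^ (-((m + i : ℕ) : ℤ) - 1) := by positivity
    linarith
  have h3 : 0 ≤ S n (σ * q ^ (b + 1 + m)) := S_nonneg n (by positivity)
  have h4 : 120 * 91 ^ n / (σ * q ^ (b + 1 + m)) ^ 5 ≤ 120 * 91 ^ n / (q ^ (b + 1 + m)) ^ 5 := by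
    apply div_le_div_of_nonneg_left (by positivity) (by positivity)
    apply pow_le_pow_left₀ (by positivity)
    exact le_mul_of_one_le_left (by positivity) hσ
  calc Real.exp (-(q ^ (-((m + i : ℕ) : ℤ) - 1))) * S n (σ * q ^ (b + 1 + m))
      ≤ 1 * S n (σ * q ^ (b + 1 + m)) := mul_le_mul_of_nonneg_right h2 h3
    _ ≤ 120 * 91 ^ n / (q ^ (b + 1 + m)) ^ 5 := by
        rw [one_mul]
        exact h1.trans h4
    _ = (120 * 91 ^ n * (49 / 64 : ℝ) ^ (5 * (b + 1))) * ((49 / 64 : ℝ) ^ 5) ^ m := by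
        have e : ((q ^ (b + 1 + m)) ^ 5)⁻¹ =
            (49 / 64 : ℝ) ^ (5 * (b + 1)) * ((49 / 64 : ℝ) ^ 5) ^ m := by
          have e1 : (q : ℝ)⁻¹ = 49 / 64 := by
            unfold q
            norm_num
          rw [← inv_pow, ← inv_pow, e1, ← pow_mul, ← pow_mul, ← pow_add]
          congr 1
          ring
        rw [div_eq_mul_inv, e]
        ring

theorem tab_tailC (n b i : ℕ) {σ : ℝ} (hσ : 1 ≤ σ)
    (htail : 2 * 120 * 91 ^ n * ((49 / 64 : ℝ) ^ (5 * (b + 1))) ≤ 1 / 2 ^ 64) :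
    ∑' m : ℕ, Real.exp (-(q ^ (-((m + i : ℕ) : ℤ) - 1))) *
        S n (σ * q ^ ((b : ℤ) - i) * q ^ (-(-((m + i : ℕ) : ℤ) - 1))) ≤ 1 / 2 ^ 64 := by
  have hq := tab_q_pos
  have hσ0 : 0 < σ := by linarith
  have hr0 : (0 : ℝ) ≤ (49 / 64 : ℝ) ^ 5 := by positivity
  have hr1 : (49 / 64 : ℝ) ^ 5 < 1 := by norm_num
  have hgeo := (hasSum_geometric_of_lt_one hr0 hr1).mul_left
    (120 * 91 ^ n * (49 / 64 : ℝ) ^ (5 * (b + 1)))
  have h1 : Summable fun m : ℕ => Real.exp (-(q ^ (-((m + i : ℕ) : ℤ) - 1))) *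
        S n (σ * q ^ ((b : ℤ) - i) * q ^ (-(-((m + i : ℕ) : ℤ) - 1))) :=
    Summable.of_nonneg_of_le (fun m => mul_nonneg (Real.exp_pos _).le (S_nonneg n (by positivity)))
      (fun m => tab_termC n b i hσ m) hgeo.summable
  have h2 := h1.tsum_le_tsum (fun m => tab_termC n b i hσ m) hgeo.summable
  rw [hgeo.tsum_eq] at h2
  refine h2.trans ?_
  have h3 : (1 - (49 / 64 : ℝ) ^ 5)⁻¹ ≤ 2 := by norm_num
  calc _ ≤ (120 * 91 ^ n * (49 / 64 : ℝ) ^ (5 * (b + 1))) * 2 :=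
        mul_le_mul_of_nonneg_left h3 (by positivity)
    _ = 2 * 120 * 91 ^ n * ((49 / 64 : ℝ) ^ (5 * (b + 1))) := by ring
    _ ≤ 1 / 2 ^ 64 := htail

/-- splitting of a sum over the integers -/
theorem tab_split {u : ℤ → ℝ} (hu : Summable u) (i : ℕ) :
    ∑' k, u k = ∑ r ∈ Finset.range (i + 16), u (15 - (r : ℤ)) + ∑' m : ℕ, u ((m : ℤ) + 16) +
      ∑' m : ℕ, u (-((m + i : ℕ) : ℤ) - 1) := by
  have h1 : Summable fun m : ℕ => u (m : ℤ) :=
    hu.comp_injective (i := fun m : ℕ => (m : ℤ)) Nat.cast_injective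
  have h2 : Summable fun m : ℕ => u (-((m : ℤ) + 1)) :=
    hu.comp_injective (i := fun m : ℕ => -((m : ℤ) + 1)) (fun a b h => by
      simp only [neg_inj, add_left_inj, Nat.cast_inj] at h
      exact h)
  rw [tsum_of_nat_of_neg_add_one h1 h2, ← h1.sum_add_tsum_nat_add 16, ← h2.sum_add_tsum_nat_add i]
  have e1 : ∑ r ∈ Finset.range (i + 16), u (15 - (r : ℤ)) =
      ∑ m ∈ Finset.range 16, u (m : ℤ) + ∑ m ∈ Finset.range i, u (-((m : ℤ) + 1)) := by
    rw [add_comm i 16, Finset.sum_range_add, ← Finset.sum_range_reflect]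
    congr 1
    · refine Finset.sum_congr rfl fun r hr => ?_
      rw [Finset.mem_range] at hr
      congr 1
      omega
  rw [e1]
  have e2 : ∀ m : ℕ, u (((m + 16 : ℕ) : ℤ)) = u ((m : ℤ) + 16) := fun m => by push_cast; rfl
  have e3 : ∀ m : ℕ, u (-(((m + i : ℕ) : ℤ) + 1)) = u (-((m + i : ℕ) : ℤ) - 1) := fun m => by
    congr 1
    ring
  simp only [e2, e3]
  ring

theorem tab_sum_le {u : ℤ → ℝ} (hu : Summable u) (h0 : ∀ k, 0 ≤ u k) (i : ℕ) :
    ∑ r ∈ Finset.range (i + 16), u (15 - (r : ℤ)) ≤ ∑' k, u k := by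
  rw [tab_split hu i]
  have h1 : 0 ≤ ∑' m : ℕ, u ((m : ℤ) + 16) := tsum_nonneg fun m => h0 _
  have h2 : 0 ≤ ∑' m : ℕ, u (-((m + i : ℕ) : ℤ) - 1) := tsum_nonneg fun m => h0 _
  linarith

theorem tab_geo (N : ℕ) : ∑ r ∈ Finset.range N, ((7 / 8 : ℝ) ^ (15 - (r : ℤ)))⁻¹ ≤ 60 := by
  have h1 : ∀ r : ℕ, ((7 / 8 : ℝ) ^ (15 - (r : ℤ)))⁻¹ = (8 / 7 : ℝ) ^ 15 * (7 / 8 : ℝ) ^ r := by
    intro r
    rw [zpow_sub₀ (by norm_num), zpow_natCast]
    have e : (7 / 8 : ℝ) ^ (15 : ℤ) = ((8 / 7 : ℝ) ^ 15)⁻¹ := by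
      norm_num
    rw [e, inv_div, div_inv_eq_mul, mul_comm]
  simp only [h1]
  rw [← Finset.mul_sum]
  have h2 : ∑ r ∈ Finset.range N, (7 / 8 : ℝ) ^ r ≤ 8 := by
    have h3 := geom_sum_eq (by norm_num : (7 / 8 : ℝ) ≠ 1) N
    rw [h3]
    have h4 : 0 ≤ (7 / 8 : ℝ) ^ N := by positivity
    rw [div_le_iff_of_neg (by norm_num)]
    linarith
  have h5 : (8 / 7 : ℝ) ^ 15 * ∑ r ∈ Finset.range N, (7 / 8 : ℝ) ^ r ≤ (8 / 7 : ℝ) ^ 15 * 8 :=
    mul_le_mul_of_nonneg_left h2 (by positivity)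
  refine h5.trans ?_
  norm_num

theorem tab_real {σ : ℝ} {b n : ℕ} {ε M : ℝ} (hσ : 1 ≤ σ) (hε : 0 ≤ ε) (i : ℕ) (G T : ℕ → ℕ)
    (hG : ∀ r < i + 16, (G r : ℝ) / 2 ^ 96 ≤ Real.exp (-(q ^ ((15 : ℤ) - r))) ∧
      Real.exp (-(q ^ ((15 : ℤ) - r))) ≤ (G r : ℝ) / 2 ^ 96 + 1 / 2 ^ 64)
    (hT : ∀ j < i + 16, (T j : ℝ) / 2 ^ 96 ≤ S n (σ * q ^ ((b : ℤ) - j)) ∧
      S n (σ * q ^ ((b : ℤ) - j)) ≤ (T j : ℝ) / 2 ^ 96 + ε / √(σ * q ^ ((b : ℤ) - j)))
    (htail : 2 * 120 * 91 ^ n * ((49 / 64 : ℝ) ^ (5 * (b + 1))) ≤ 1 / 2 ^ 64)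
    (hM : √(σ * q ^ (b : ℤ)) ≤ M) :
    (((∑ r ∈ Finset.range (i + 16), G r * T (i + 15 - r)) / 79228162514264337593543950336 : ℕ) : ℝ)
        / 2 ^ 96 ≤ S (n + 1) (σ * q ^ ((b : ℤ) - i)) ∧
      S (n + 1) (σ * q ^ ((b : ℤ) - i)) ≤
        (((∑ r ∈ Finset.range (i + 16), G r * T (i + 15 - r)) / 79228162514264337593543950336 : ℕ) :
          ℝ) / 2 ^ 96 +
        (67 / 10 * ε + 1 / 2 ^ 64 * (31 * (67 / 10) ^ n + 2 * M)) / √(σ * q ^ ((b : ℤ) - i)) := by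
  have hq := tab_q_pos
  have hσ0 : 0 < σ := by linarith
  obtain ⟨X, hXd⟩ : ∃ X : ℝ, X = σ * q ^ ((b : ℤ) - i) := ⟨_, rfl⟩
  have hX : 0 < X := by rw [hXd]; positivity
  have hsX : 0 < √X := Real.sqrt_pos.mpr hX
  obtain ⟨u, hud⟩ : ∃ u : ℤ → ℝ, u = fun k => Real.exp (-(q ^ k)) * S n (X * q ^ (-k)) := ⟨_, rfl⟩
  have hu : Summable u := by rw [hud]; exact S_summable n hX
  have hu0 : ∀ k, 0 ≤ u k := fun k => by
    rw [hud]
    exact mul_nonneg (Real.exp_pos _).le (S_nonneg n (by positivity))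
  have hS : S (n + 1) X = ∑' k, u k := by rw [hud]; rfl
  rw [← hXd, hS]
  obtain ⟨D, hD⟩ : ∃ D : ℕ, D = ∑ r ∈ Finset.range (i + 16), G r * T (i + 15 - r) := ⟨_, rfl⟩
  rw [← hD]
  have hTT : ∀ r < i + 16, X * q ^ (-(15 - (r : ℤ))) = σ * q ^ ((b : ℤ) - ((i + 15 - r : ℕ) : ℤ)) := by
    intro r hr
    rw [hXd, mul_assoc, ← zpow_add₀ hq.ne']
    congr 2
    omega
  have hTr : ∀ r < i + 16, (T (i + 15 - r) : ℝ) / 2 ^ 96 ≤ S n (X * q ^ (-(15 - (r : ℤ)))) ∧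
      S n (X * q ^ (-(15 - (r : ℤ)))) ≤ (T (i + 15 - r) : ℝ) / 2 ^ 96 +
        ε / (√X * (7 / 8 : ℝ) ^ (15 - (r : ℤ))) := by
    intro r hr
    have h1 := hT (i + 15 - r) (by omega)
    rw [← hTT r hr, tab_sqrt hX.le] at h1
    exact h1
  have hDR : (D : ℝ) / 2 ^ 96 / 2 ^ 96 =
      ∑ r ∈ Finset.range (i + 16), ((G r : ℝ) / 2 ^ 96) * ((T (i + 15 - r) : ℝ) / 2 ^ 96) := by
    rw [hD]
    push_cast
    rw [div_div, Finset.sum_div]
    refine Finset.sum_congr rfl fun r _ => ?_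
    rw [div_mul_div_comm]
  have hR : (79228162514264337593543950336 : ℝ) = 2 ^ 96 := by norm_num
  have hfl1 : ((D / 79228162514264337593543950336 : ℕ) : ℝ) ≤ (D : ℝ) / 2 ^ 96 := by
    have := @Nat.cast_div_le ℝ _ _ _ D 79228162514264337593543950336
    push_cast at this
    rw [hR] at this
    exact this
  have hfl2 : (D : ℝ) / 2 ^ 96 ≤ ((D / 79228162514264337593543950336 : ℕ) : ℝ) + 1 := by
    have h1 := Nat.lt_div_mul_add (a := D) (b := 79228162514264337593543950336) (by norm_num)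
    have h2 : (D : ℝ) ≤ ((D / 79228162514264337593543950336 : ℕ) : ℝ) * 79228162514264337593543950336 +
        79228162514264337593543950336 := by
      exact_mod_cast h1.le
    rw [hR] at h2
    rw [div_le_iff₀ (by positivity)]
    linarith
  constructor
  · have h1 := tab_sum_le hu hu0 i
    refine le_trans ?_ h1
    have h2 : ((D / 79228162514264337593543950336 : ℕ) : ℝ) / 2 ^ 96 ≤ (D : ℝ) / 2 ^ 96 / 2 ^ 96 :=
      div_le_div_of_nonneg_right hfl1 (by positivity)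
    refine h2.trans ?_
    rw [hDR]
    refine Finset.sum_le_sum fun r hr => ?_
    rw [Finset.mem_range] at hr
    rw [hud]
    exact mul_le_mul (hG r hr).1 (hTr r hr).1 (by positivity) (Real.exp_pos _).le
  · rw [tab_split hu i]
    have hB : ∑' m : ℕ, u ((m : ℤ) + 16) ≤ 1 / 2 ^ 64 * (67 / 10) ^ n / √X := by
      rw [hud]
      exact tab_tailB n hX
    have hC : ∑' m : ℕ, u (-((m + i : ℕ) : ℤ) - 1) ≤ 1 / 2 ^ 64 := by
      rw [hud, hXd]
      exact tab_tailC n b i hσ htail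
    have hA : ∑ r ∈ Finset.range (i + 16), u (15 - (r : ℤ)) ≤ (D : ℝ) / 2 ^ 96 / 2 ^ 96 +
        30 * (1 / 2 ^ 64) * (67 / 10) ^ n / √X + 67 / 10 * ε / √X := by
      have h1 : ∀ r ∈ Finset.range (i + 16), u (15 - (r : ℤ)) ≤
          ((G r : ℝ) / 2 ^ 96) * ((T (i + 15 - r) : ℝ) / 2 ^ 96) +
          (1 / 2 ^ 64 * (1 / 2 * (67 / 10) ^ n / √X)) * ((7 / 8 : ℝ) ^ (15 - (r : ℤ)))⁻¹ +
          ε / √X * (Real.exp (-(q ^ (15 - (r : ℤ)))) * (8 / 7 : ℝ) ^ (15 - (r : ℤ))) := by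
        intro r hr
        rw [Finset.mem_range] at hr
        obtain ⟨g1, g2⟩ := hG r hr
        obtain ⟨t1, t2⟩ := hTr r hr
        have hs := S_le_half n (X := X * q ^ (-(15 - (r : ℤ)))) (by positivity)
        rw [tab_sqrt hX.le] at hs
        have hup : u (15 - (r : ℤ)) =
            Real.exp (-(q ^ (15 - (r : ℤ)))) * S n (X * q ^ (-(15 - (r : ℤ)))) := by rw [hud]
        rw [hup]
        have hp : 0 < (7 / 8 : ℝ) ^ (15 - (r : ℤ)) := by positivity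
        have hinv : (8 / 7 : ℝ) ^ (15 - (r : ℤ)) = ((7 / 8 : ℝ) ^ (15 - (r : ℤ)))⁻¹ := by
          rw [← inv_zpow]
          norm_num
        rw [hinv]
        obtain ⟨e, he⟩ : ∃ e : ℝ, e = Real.exp (-(q ^ (15 - (r : ℤ)))) := ⟨_, rfl⟩
        obtain ⟨s, hsd⟩ : ∃ s : ℝ, s = S n (X * q ^ (-(15 - (r : ℤ)))) := ⟨_, rfl⟩
        obtain ⟨p, hpd⟩ : ∃ p : ℝ, p = (7 / 8 : ℝ) ^ (15 - (r : ℤ)) := ⟨_, rfl⟩
        obtain ⟨gg, hgg⟩ : ∃ gg : ℝ, gg = (G r : ℝ) / 2 ^ 96 := ⟨_, rfl⟩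
        obtain ⟨tt, htt⟩ : ∃ tt : ℝ, tt = (T (i + 15 - r) : ℝ) / 2 ^ 96 := ⟨_, rfl⟩
        have he0 : 0 ≤ e := by rw [he]; exact (Real.exp_pos _).le
        have htt0 : 0 ≤ tt := by rw [htt]; positivity
        rw [← hpd] at hp t2 hs ⊢
        rw [← he] at g1 g2 ⊢
        rw [← hsd] at t1 t2 hs ⊢
        rw [← hgg] at g1 g2 ⊢
        rw [← htt] at t1 t2 ⊢
        have h2 : e * s ≤ e * (tt + ε / (√X * p)) := mul_le_mul_of_nonneg_left t2 he0
        have h3 : e * tt ≤ (gg + 1 / 2 ^ 64) * tt := mul_le_mul_of_nonneg_right g2 htt0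
        have h4 : (1 / 2 ^ 64 : ℝ) * tt ≤ 1 / 2 ^ 64 * (1 / 2 * (67 / 10) ^ n / (√X * p)) :=
          mul_le_mul_of_nonneg_left (t1.trans hs) (by positivity)
        have h5 : 1 / 2 ^ 64 * (1 / 2 * (67 / 10 : ℝ) ^ n / (√X * p)) =
            1 / 2 ^ 64 * (1 / 2 * (67 / 10) ^ n / √X) * p⁻¹ := by
          field_simp
        have h6 : e * (tt + ε / (√X * p)) = e * tt + ε / √X * (e * p⁻¹) := by
          field_simp
        linarith
      refine (Finset.sum_le_sum h1).trans ?_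
      rw [Finset.sum_add_distrib, Finset.sum_add_distrib, ← Finset.mul_sum, ← Finset.mul_sum, hDR]
      have h7 : (1 / 2 ^ 64 * (1 / 2 * (67 / 10) ^ n / √X)) *
          ∑ r ∈ Finset.range (i + 16), ((7 / 8 : ℝ) ^ (15 - (r : ℤ)))⁻¹ ≤
          (1 / 2 ^ 64 * (1 / 2 * (67 / 10) ^ n / √X)) * 60 :=
        mul_le_mul_of_nonneg_left (tab_geo _) (by positivity)
      have h8 : ∑ r ∈ Finset.range (i + 16),
          (Real.exp (-(q ^ (15 - (r : ℤ)))) * (8 / 7 : ℝ) ^ (15 - (r : ℤ))) ≤ 67 / 10 :=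
        (tab_sum_le thetaHalf.1 (fun k => by positivity) i).trans thetaHalf.2
      have h9 := mul_le_mul_of_nonneg_left h8 (by positivity : 0 ≤ ε / √X)
      have h10 : (1 / 2 ^ 64 * (1 / 2 * (67 / 10 : ℝ) ^ n / √X)) * 60 =
        30 * (1 / 2 ^ 64) * (67 / 10) ^ n / √X := by ring
      have h11 : ε / √X * (67 / 10) = 67 / 10 * ε / √X := by ring
      linarith
    have hD2 : (D : ℝ) / 2 ^ 96 / 2 ^ 96 ≤
        ((D / 79228162514264337593543950336 : ℕ) : ℝ) / 2 ^ 96 + 1 / 2 ^ 96 := by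
      rw [← add_div]
      exact div_le_div_of_nonneg_right hfl2 (by positivity)
    have hXM : 1 ≤ M / √X := by
      rw [le_div_iff₀ hsX, one_mul]
      refine le_trans (Real.sqrt_le_sqrt ?_) hM
      rw [hXd]
      apply mul_le_mul_of_nonneg_left _ hσ0.le
      apply zpow_le_zpow_right₀
      · unfold q
        norm_num
      · omega
    have h12 : (1 : ℝ) / 2 ^ 64 + 1 / 2 ^ 96 ≤ 2 * (1 / 2 ^ 64) * (M / √X) := by
      have h13 : 2 * (1 / 2 ^ 64) * 1 ≤ 2 * (1 / 2 ^ 64) * (M / √X) :=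
        mul_le_mul_of_nonneg_left hXM (by positivity)
      refine le_trans ?_ h13
      norm_num
    have h14 : (67 / 10 * ε + 1 / 2 ^ 64 * (31 * (67 / 10) ^ n + 2 * M)) / √X =
        67 / 10 * ε / √X + 30 * (1 / 2 ^ 64) * (67 / 10) ^ n / √X +
          1 / 2 ^ 64 * (67 / 10) ^ n / √X + 2 * (1 / 2 ^ 64) * (M / √X) := by ring
    rw [h14]
    linarith

/-- the list computed by `step` -/
theorem step_spec {g t : List ℕ} {σ : ℝ} {b n : ℕ} {ε M : ℝ} (hσ : 1 ≤ σ) (hε : 0 ≤ ε)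
    (hg : GOK g) (ht : TabOK σ b n ε t) (hlen : t.length ≤ g.length)
    (htail : 2 * 120 * 91 ^ n * ((49 / 64 : ℝ) ^ (5 * (b + 1))) ≤ 1 / 2 ^ 64)
    (hM : √(σ * q ^ (b : ℤ)) ≤ M) (hb : 1 ≤ σ * q ^ (b : ℤ)) (k : List ℕ → Bool)
    (hk : step g t k = true) :
    ∃ t' : List ℕ, t'.length = t.length - 15 ∧ k t' = true ∧
      TabOK σ b (n + 1) (67 / 10 * ε + 1 / 2 ^ 64 * (31 * (67 / 10) ^ n + 2 * M)) t' := by
  have _ := hb
  have h1 : step g t k = k (convL g (t.drop 15) (t.take 15).reverse) := conv_eq _ _ _ _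
  have hl : (convL g (t.drop 15) (t.take 15).reverse).length = t.length - 15 := by
    rw [convL_length, List.length_drop]
  refine ⟨convL g (t.drop 15) (t.take 15).reverse, hl, ?_, ?_⟩
  · rw [← h1]
    exact hk
  · intro i hi
    have hi2 : i + 16 ≤ t.length := by omega
    rw [stepL_getElem g t hlen i hi]
    refine tab_real hσ hε i (fun r => g.getD r 0) (fun j => t.getD j 0) ?_ ?_ htail hM
    · intro r hr
      have h2 : r < g.length := by omega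
      have h3 := hg r h2
      simp only [List.getD_eq_getElem _ _ h2]
      exact h3
    · intro j hj
      have h2 : j < t.length := by omega
      have h3 := ht j h2
      simp only [List.getD_eq_getElem _ _ h2]
      exact h3

theorem TabOK.mono {σ : ℝ} {b n : ℕ} {ε ε' : ℝ} {t : List ℕ} (h : TabOK σ b n ε t) (hε : ε ≤ ε') :
    TabOK σ b n ε' t := by
  intro i hi
  obtain ⟨h1, h2⟩ := h i hi
  refine ⟨h1, h2.trans ?_⟩
  have h3 : ε / √(σ * q ^ ((b : ℤ) - i)) ≤ ε' / √(σ * q ^ ((b : ℤ) - i)) :=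
    div_le_div_of_nonneg_right hε (Real.sqrt_nonneg _)
  linarith

theorem chain_aux {g : List ℕ} {σ : ℝ} (hσ : 1 ≤ σ) (hσ2 : σ ≤ 2) (hg : GOK g) (k : List ℕ → Bool)
    (n : ℕ) : ∀ (m : ℕ) (t : List ℕ), m + n ≤ 7 → TabOK σ 58 m ((7 ^ m - 1 / 2) / 2 ^ 51) t →
      t.length ≤ g.length → chain g n t k = true →
      ∃ t' : List ℕ, t'.length = t.length - 15 * n ∧ k t' = true ∧
        TabOK σ 58 (m + n) ((7 ^ (m + n) - 1 / 2) / 2 ^ 51) t' := by
  induction n with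
  | zero =>
    intro m t _ ht _ hk
    exact ⟨t, by simp, hk, ht⟩
  | succ n ih =>
    intro m t hmn ht hlen hk
    have h1 : chain g (n + 1) t k = step g t fun t' => chain g n t' k := rfl
    rw [h1] at hk
    have h7 : (1 : ℝ) ≤ 7 ^ m := one_le_pow₀ (by norm_num)
    have htail : 2 * 120 * 91 ^ m * ((49 / 64 : ℝ) ^ (5 * (58 + 1))) ≤ 1 / 2 ^ 64 := by
      have e1 : (91 : ℝ) ^ m ≤ 91 ^ 6 := pow_le_pow_right₀ (by norm_num) (by omega)
      have e2 : (2 * 120 * 91 ^ 6 : ℝ) * ((49 / 64 : ℝ) ^ 59) ^ 5 ≤ 1 / 2 ^ 64 := by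
        have e3 : (49 / 64 : ℝ) ^ 59 ≤ 1437 / 10 ^ 10 := by norm_num
        have e4 : ((49 / 64 : ℝ) ^ 59) ^ 5 ≤ (1437 / 10 ^ 10) ^ 5 :=
          pow_le_pow_left₀ (by positivity) e3 5
        calc (2 * 120 * 91 ^ 6 : ℝ) * ((49 / 64 : ℝ) ^ 59) ^ 5
            ≤ (2 * 120 * 91 ^ 6 : ℝ) * (1437 / 10 ^ 10) ^ 5 :=
              mul_le_mul_of_nonneg_left e4 (by positivity)
          _ ≤ 1 / 2 ^ 64 := by norm_num
      have e5 : (49 / 64 : ℝ) ^ (5 * (58 + 1)) = ((49 / 64 : ℝ) ^ 59) ^ 5 := by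
        rw [← pow_mul]
      rw [e5]
      refine le_trans ?_ e2
      apply mul_le_mul_of_nonneg_right _ (by positivity)
      linarith
    have hM : √(σ * q ^ ((58 : ℕ) : ℤ)) ≤ 3300 := by
      rw [Real.sqrt_le_left (by norm_num)]
      have e1 : q ^ ((58 : ℕ) : ℤ) = (64 / 49 : ℝ) ^ 58 := by
        rw [zpow_natCast]
        rfl
      rw [e1]
      have e2 : (64 / 49 : ℝ) ^ 58 ≤ 5400000 := by norm_num
      have e3 : σ * (64 / 49 : ℝ) ^ 58 ≤ 2 * 5400000 :=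
        mul_le_mul hσ2 e2 (by positivity) (by norm_num)
      linarith
    have hb : 1 ≤ σ * q ^ ((58 : ℕ) : ℤ) := by
      have e1 : q ^ ((58 : ℕ) : ℤ) = (64 / 49 : ℝ) ^ 58 := by
        rw [zpow_natCast]
        rfl
      rw [e1]
      have e2 : (1 : ℝ) ≤ (64 / 49 : ℝ) ^ 58 := one_le_pow₀ (by norm_num)
      nlinarith
    obtain ⟨t1, hl1, hk1, ht1⟩ := step_spec (M := 3300) hσ
      (by apply div_nonneg _ (by positivity); linarith) hg ht hlen htail hM hb _ hk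
    have ht2 : TabOK σ 58 (m + 1) ((7 ^ (m + 1) - 1 / 2) / 2 ^ 51) t1 := by
      refine ht1.mono ?_
      have e1 : (67 / 10 : ℝ) ^ m ≤ 7 ^ m := pow_le_pow_left₀ (by norm_num) (by norm_num) m
      have e2 : (7 : ℝ) ^ (m + 1) = 7 * 7 ^ m := by ring
      rw [e2, le_div_iff₀ (by positivity)]
      have e3 : (67 / 10 * (((7 : ℝ) ^ m - 1 / 2) / 2 ^ 51) +
          1 / 2 ^ 64 * (31 * (67 / 10) ^ m + 2 * 3300)) * 2 ^ 51 =
          67 / 10 * (7 ^ m - 1 / 2) + (31 * (67 / 10) ^ m + 6600) / 8192 := by ring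
      rw [e3]
      linarith
    obtain ⟨t2, hl2, hk2, ht3⟩ := ih (m + 1) t1 (by omega) ht2 (by omega) hk1
    refine ⟨t2, by omega, hk2, ?_⟩
    have e4 : m + (n + 1) = m + 1 + n := by ring
    rw [e4]
    exact ht3

/-- `n` steps with `b = 58`, `M ≤ 3300`, `n ≤ 7` -/
theorem chain_spec {g t : List ℕ} {σ : ℝ} {n : ℕ} (hσ : 1 ≤ σ) (hσ2 : σ ≤ 2) (hn : n ≤ 7)
    (hg : GOK g) (ht : TabOK σ 58 0 (3300 / 2 ^ 64) t) (hlen : t.length ≤ g.length)
    (k : List ℕ → Bool) (hk : chain g n t k = true) :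
    ∃ t' : List ℕ, t'.length = t.length - 15 * n ∧ k t' = true ∧
      TabOK σ 58 n (7 ^ n / 2 ^ 51) t' := by
  have h0 : TabOK σ 58 0 ((7 ^ 0 - 1 / 2) / 2 ^ 51) t := ht.mono (by norm_num)
  obtain ⟨t', h1, h2, h3⟩ := chain_aux hσ hσ2 hg k n 0 t (by omega) h0 hlen hk
  rw [zero_add] at h3
  refine ⟨t', h1, h2, h3.mono ?_⟩
  apply div_le_div_of_nonneg_right _ (by positivity)
  linarith

end H81.LP
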