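import Pool.Agent.H81.LP.Shift

/-!
# Module D1: the trapezoid rule in one variable

`ff_integrable`, `ff_fourier` may be cited.  `hh = log (64/49)`, `q^k = exp (k hh)`.  Poisson
summation (`Real.tsum_eq_tsum_fourier…_of_rpow_decay` or the version for continuous functions
with summable Fourier transform) for `t ↦ ff Y (hh t)`:
`hh ∑_k ff Y (k hh) = ∑_m f^(m/hh)`, so the difference to the integral `f^(0)` is at most
`2 ∑_{m ≥ 1} exp (-2π a m/hh) · 7/2 · Y^(-1/2)`, `a = 5π/12`.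
Numbers: `2π a/hh = (5π²/6)/hh ≥ 44 log 2 + log 2·…`: with `π² ≥ 9.8696`, `hh ≤ 0.26707` one gets
`2π a/hh ≥ 30.79`, `exp 30.79 ≥ 2^44 + 1`, so the sum is at most
`2 · 7/2 · 2^(-44) = 7 · 2^(-44) ≤ 2^(-41)` times `Y^(-1/2)`.
(`log (64/49) = 2 log (8/7)`; `exp 30.79 > 2^44` as `44 log 2 = 30.4985`.)
-/

namespace H81.LP

open MeasureTheory Filter FourierTransform

theorem hh_bounds : 0.26706 < hh ∧ hh < 0.26707 := by
  have h1 := Real.sum_range_le_log_div (x := 15 / 113) (by norm_num) (by norm_num) 3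
  have h2 := Real.log_div_le_sum_range_add (x := 15 / 113) (by norm_num) (by norm_num) 3
  have h3 : (1 + 15 / 113) / (1 - 15 / 113) = (64 / 49 : ℝ) := by norm_num
  rw [h3] at h1 h2
  simp only [Finset.sum_range_succ, Finset.sum_range_zero] at h1 h2
  unfold hh
  constructor
  · refine lt_of_lt_of_le ?_ ((mul_le_mul_of_nonneg_left h1 (by norm_num : (0 : ℝ) ≤ 2)).trans_eq
      (by ring))
    norm_num
  · refine lt_of_le_of_lt (le_of_eq_of_le (by ring)
      (mul_le_mul_of_nonneg_left h2 (by norm_num : (0 : ℝ) ≤ 2))) ?_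
    norm_num

theorem t1_hh_pos : 0 < hh := by have := hh_bounds.1; linarith

theorem t1_ff_decay {Y : ℝ} (hY : 0 < Y) (t : ℝ) (ht : t ≠ 0) : ff Y t ≤ (2 + 2 / Y) / t ^ 2 := by
  have hE : ∀ z : ℝ, 0 < z → Real.exp (-z) ≤ 1 / z := by
    intro z hz
    rw [Real.exp_neg, inv_eq_one_div]
    exact one_div_le_one_div_of_le hz (by linarith [Real.add_one_le_exp z])
  have ht2 : 0 < t ^ 2 := by positivity
  unfold ff
  rcases lt_or_gt_of_ne ht with h | h
  · have h1 : (-t) ^ 2 / 2 ≤ Real.exp (-t) := by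
      have := Real.quadratic_le_exp_of_nonneg (x := -t) (by linarith)
      linarith
    have h2 : Real.exp (-Real.exp t - Y * Real.exp (-t)) ≤ Real.exp (-(Y * Real.exp (-t))) := by
      apply Real.exp_le_exp.2
      have := Real.exp_pos t
      linarith
    have h5 : 0 < (-t) ^ 2 := by rw [neg_sq]; exact ht2
    refine h2.trans ((hE _ (by positivity)).trans ?_)
    have h3 : 1 / (Y * Real.exp (-t)) ≤ 1 / (Y * ((-t) ^ 2 / 2)) :=
      one_div_le_one_div_of_le (by positivity) (mul_le_mul_of_nonneg_left h1 hY.le)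
    refine h3.trans ?_
    have h4 : 1 / (Y * ((-t) ^ 2 / 2)) = (2 / Y) / t ^ 2 := by
      field_simp
    rw [h4]
    apply div_le_div_of_nonneg_right _ ht2.le
    linarith
  · have h1 : t ^ 2 / 2 ≤ Real.exp t := by
      have := Real.quadratic_le_exp_of_nonneg (x := t) h.le
      linarith
    have h2 : Real.exp (-Real.exp t - Y * Real.exp (-t)) ≤ Real.exp (-(Real.exp t)) := by
      apply Real.exp_le_exp.2
      have := Real.exp_pos (-t)
      nlinarith
    refine h2.trans ((hE _ (by positivity)).trans ?_)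
    have h3 : 1 / Real.exp t ≤ 1 / (t ^ 2 / 2) := one_div_le_one_div_of_le (by positivity) h1
    refine h3.trans ?_
    have h4 : 1 / (t ^ 2 / 2) = 2 / t ^ 2 := by
      field_simp
    rw [h4]
    apply div_le_div_of_nonneg_right _ ht2.le
    have : 0 < 2 / Y := by positivity
    linarith

/-- the scaled function -/
noncomputable def t1_g (Y : ℝ) (x : ℝ) : ℂ := (ff Y (hh * x) : ℂ)

theorem t1_g_cont (Y : ℝ) : Continuous (t1_g Y) := by
  unfold t1_g ff
  fun_prop

theorem t1_g_bigO {Y : ℝ} (hY : 0 < Y) :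
    Asymptotics.IsBigO (cocompact ℝ) (t1_g Y) fun x : ℝ => |x| ^ (-(2 : ℝ)) := by
  refine Asymptotics.IsBigO.of_bound ((2 + 2 / Y) / hh ^ 2) ?_
  have h0 : ({0}ᶜ : Set ℝ) ∈ cocompact ℝ := isCompact_singleton.compl_mem_cocompact
  filter_upwards [h0] with x hx
  have hx : x ≠ 0 := hx
  have hh0 := t1_hh_pos
  have h1 := t1_ff_decay hY (hh * x) (mul_ne_zero hh0.ne' hx)
  have h2 : 0 ≤ ff Y (hh * x) := (Real.exp_pos _).le
  unfold t1_g
  rw [Complex.norm_real, Real.norm_of_nonneg h2, Real.norm_of_nonneg (by positivity),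
    Real.rpow_neg (abs_nonneg x), Real.rpow_two, sq_abs]
  refine h1.trans (le_of_eq ?_)
  field_simp

theorem t1_q_zpow (k : ℤ) : q ^ k = Real.exp (hh * k) := by
  have hq : q = Real.exp hh := by
    unfold q hh
    rw [Real.exp_log (by norm_num)]
  rw [hq, Real.exp_mul, Real.rpow_intCast]

theorem t1_ff_q (Y : ℝ) (k : ℤ) : Real.exp (-(q ^ k) - Y * q ^ (-k)) = ff Y (hh * k) := by
  unfold ff
  rw [t1_q_zpow, t1_q_zpow]
  push_cast
  rw [mul_neg]

theorem t1_g_summable {Y : ℝ} (hY : 0 < Y) : Summable (fun k : ℤ => t1_g Y k) :=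
  summable_of_isBigO (Real.summable_abs_int_rpow (by norm_num : (1 : ℝ) < 2))
    ((t1_g_bigO hY).comp_tendsto Int.tendsto_coe_cofinite)

theorem ff_summable {Y : ℝ} (hY : 0 < Y) :
    Summable (fun k : ℤ => Real.exp (-(q ^ k) - Y * q ^ (-k))) := by
  simp only [t1_ff_q]
  have h := (t1_g_summable hY).norm
  refine h.congr (fun k => ?_)
  unfold t1_g
  rw [Complex.norm_real, Real.norm_of_nonneg]
  exact (Real.exp_pos _).le

/-- the Fourier integral -/
noncomputable def t1_G (Y ξ : ℝ) : ℂ :=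
  ∫ t : ℝ, Complex.exp (-(2 * Real.pi * ξ * t : ℝ) * Complex.I) * (ff Y t : ℂ)

theorem t1_g_fourier (Y : ℝ) (n : ℤ) : 𝓕 (t1_g Y) (n : ℝ) = (hh : ℂ)⁻¹ * t1_G Y (n / hh) := by
  rw [Real.fourier_real_eq_integral_exp_smul]
  have hh0 := t1_hh_pos
  have h1 := Measure.integral_comp_mul_left (fun t : ℝ =>
    Complex.exp (-(2 * Real.pi * (n / hh) * t : ℝ) * Complex.I) * (ff Y t : ℂ)) hh
  unfold t1_G
  rw [abs_of_pos (by positivity : (0 : ℝ) < hh⁻¹)] at h1
  rw [Complex.real_smul, Complex.ofReal_inv] at h1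
  rw [← h1]
  congr 1
  ext v
  rw [smul_eq_mul]
  unfold t1_g
  congr 2
  rw [← Complex.ofReal_neg]
  congr 2
  field_simp

/-- the decay rate -/
noncomputable def t1_E : ℝ := Real.exp (-(2 * Real.pi * (5 * Real.pi / 12) / hh))

theorem t1_E_pos : 0 < t1_E := Real.exp_pos _

theorem t1_E_le : t1_E ≤ 1 / 2 ^ 44 := by
  have h1 : (1 : ℝ) / 2 ^ 44 = Real.exp (-(44 * Real.log 2)) := by
    rw [Real.exp_neg, show 44 * Real.log 2 = ((44 : ℕ) : ℝ) * Real.log 2 by norm_num,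
      Real.exp_nat_mul, Real.exp_log (by norm_num)]
    norm_num
  rw [h1]
  unfold t1_E
  apply Real.exp_le_exp.2
  apply neg_le_neg
  rw [le_div_iff₀ t1_hh_pos]
  have h2 := hh_bounds.2
  have h3 := Real.log_two_lt_d9
  have h4 := Real.pi_gt_d2
  have h5 : 0 < Real.log 2 := Real.log_pos (by norm_num)
  have h6 := t1_hh_pos
  have h7 : 44 * Real.log 2 * hh ≤ 44 * 0.6931471808 * 0.26707 := by
    apply mul_le_mul _ h2.le h6.le (by norm_num)
    linarith
  have h8 : (3.14 : ℝ) * 3.14 ≤ Real.pi * Real.pi :=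
    mul_le_mul h4.le h4.le (by norm_num) Real.pi_pos.le
  have h9 : 2 * Real.pi * (5 * Real.pi / 12) = 5 / 6 * (Real.pi * Real.pi) := by ring
  rw [h9]
  refine h7.trans ?_
  refine le_trans ?_ (mul_le_mul_of_nonneg_left h8 (by norm_num))
  norm_num

theorem t1_G_le {Y : ℝ} (hY : 0 < Y) (n : ℤ) :
    ‖t1_G Y (n / hh)‖ ≤ 7 / 2 / √Y * t1_E ^ n.natAbs := by
  have h := ff_fourier hY (n / hh)
  unfold t1_G
  refine h.trans (le_of_eq ?_)
  rw [mul_comm]
  congr 1
  unfold t1_E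
  rw [← Real.exp_nat_mul]
  congr 1
  rw [abs_div, abs_of_pos t1_hh_pos, Nat.cast_natAbs]
  push_cast
  ring

theorem trap1 {Y : ℝ} (hY : 0 < Y) :
    |hh * ∑' k : ℤ, Real.exp (-(q ^ k) - Y * q ^ (-k)) -
      ∫ t : ℝ, Real.exp (-Real.exp t - Y * Real.exp (-t))| ≤ 1 / 2 ^ 41 / √Y := by
  simp only [t1_ff_q]
  have hh0 := t1_hh_pos
  have hE0 := t1_E_pos
  have hE1 := t1_E_le
  have hE2 : t1_E < 1 := lt_of_le_of_lt hE1 (by norm_num)
  set c : ℝ := 7 / 2 / √Y with hc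
  have hsq : 0 < √Y := Real.sqrt_pos.2 hY
  have hc0 : 0 ≤ c := by positivity
  -- the majorant
  set b : ℤ → ℝ := fun n => if n = 0 then 0 else c * t1_E ^ n.natAbs with hb
  have hg : HasSum (fun n : ℕ => c * t1_E ^ (n + 1)) (c * t1_E / (1 - t1_E)) := by
    have h1 := (hasSum_geometric_of_lt_one hE0.le hE2).mul_left (c * t1_E)
    rw [← div_eq_mul_inv] at h1
    refine h1.congr_fun ?_
    intro n
    simp only [pow_succ]
    ring
  have hbs : HasSum b (c * t1_E / (1 - t1_E) + b 0 + c * t1_E / (1 - t1_E)) := by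
    apply HasSum.of_add_one_of_neg_add_one
    · refine hg.congr_fun ?_
      intro n
      rw [hb]
      have h1 : ((n : ℤ) + 1) ≠ 0 := by omega
      simp only [h1, if_false]
      congr 2
    · refine hg.congr_fun ?_
      intro n
      rw [hb]
      have h1 : (-((n : ℤ) + 1)) ≠ 0 := by omega
      simp only [h1, if_false]
      congr 2
  have hGs : Summable (fun n : ℤ => t1_G Y (n / hh)) := by
    refine Summable.of_norm_bounded_eventually (g := b) hbs.summable ?_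
    have : ∀ᶠ n : ℤ in cofinite, n ≠ 0 := by
      have : ({0} : Set ℤ).Finite := Set.finite_singleton 0
      exact this.compl_mem_cofinite
    filter_upwards [this] with n hn
    rw [hb]
    simp only [hn, if_false]
    exact t1_G_le hY n
  have hFs : Summable (fun n : ℤ => 𝓕 (t1_g Y) (n : ℝ)) := by
    simp only [t1_g_fourier]
    exact hGs.mul_left _
  have hP := Real.tsum_eq_tsum_fourier_of_rpow_decay_of_summable (t1_g_cont Y)
    (by norm_num : (1 : ℝ) < 2) (t1_g_bigO hY) hFs 0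
  simp only [zero_add, t1_g_fourier, QuotientAddGroup.mk_zero, fourier_eval_zero, mul_one,
    tsum_mul_left] at hP
  have hP2 : (hh : ℂ) * ∑' n : ℤ, t1_g Y n = ∑' n : ℤ, t1_G Y (n / hh) := by
    rw [hP, ← mul_assoc, mul_inv_cancel₀ (by exact_mod_cast hh0.ne'), one_mul]
  have h0 : t1_G Y ((0 : ℤ) / hh) = ((∫ t : ℝ, ff Y t : ℝ) : ℂ) := by
    unfold t1_G
    simp only [Int.cast_zero, zero_div, mul_zero, zero_mul, Complex.ofReal_zero, neg_zero,
      Complex.exp_zero, one_mul]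
    exact integral_ofReal
  have hP3 : ∑' n : ℤ, t1_G Y (n / hh) = t1_G Y ((0 : ℤ) / hh) +
      ∑' n : ℤ, ite (n = 0) 0 (t1_G Y (n / hh)) := hGs.tsum_eq_add_tsum_ite 0
  have hP4 : ‖∑' n : ℤ, ite (n = 0) 0 (t1_G Y (n / hh))‖ ≤
      c * t1_E / (1 - t1_E) + b 0 + c * t1_E / (1 - t1_E) := by
    refine tsum_of_norm_bounded hbs ?_
    intro n
    rw [hb]
    by_cases hn : n = 0
    · simp [hn]
    · simp only [hn, if_false]
      exact t1_G_le hY n
  have hR : (hh : ℂ) * ∑' n : ℤ, t1_g Y n = ((hh * ∑' k : ℤ, ff Y (hh * k) : ℝ) : ℂ) := by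
    push_cast
    rfl
  have hfin : ((hh * ∑' k : ℤ, ff Y (hh * k) : ℝ) : ℂ) - ((∫ t : ℝ, ff Y t : ℝ) : ℂ) =
      ∑' n : ℤ, ite (n = 0) 0 (t1_G Y (n / hh)) := by
    rw [← hR, hP2, hP3, h0]
    ring
  have hfin2 : |hh * ∑' k : ℤ, ff Y (hh * k) - ∫ t : ℝ, ff Y t| ≤
      c * t1_E / (1 - t1_E) + b 0 + c * t1_E / (1 - t1_E) := by
    have h1 : |hh * ∑' k : ℤ, ff Y (hh * k) - ∫ t : ℝ, ff Y t| =
        ‖((hh * ∑' k : ℤ, ff Y (hh * k) : ℝ) : ℂ) - ((∫ t : ℝ, ff Y t : ℝ) : ℂ)‖ := by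
      rw [← Complex.ofReal_sub, Complex.norm_real, Real.norm_eq_abs]
    rw [h1, hfin]
    exact hP4
  refine hfin2.trans ?_
  have hb0 : b 0 = 0 := by simp [hb]
  rw [hb0, add_zero]
  have h2 : t1_E / (1 - t1_E) ≤ 1 / (2 ^ 44 - 1) := by
    rw [div_le_div_iff₀ (by linarith) (by norm_num)]
    have : t1_E * 2 ^ 44 ≤ 1 := by
      have := mul_le_mul_of_nonneg_right hE1 (by norm_num : (0 : ℝ) ≤ 2 ^ 44)
      linarith
    linarith
  have h3 : c * t1_E / (1 - t1_E) + c * t1_E / (1 - t1_E) = 7 / √Y * (t1_E / (1 - t1_E)) := by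
    rw [hc]; ring
  rw [h3]
  calc 7 / √Y * (t1_E / (1 - t1_E)) ≤ 7 / √Y * (1 / (2 ^ 44 - 1)) :=
        mul_le_mul_of_nonneg_left h2 (by positivity)
    _ ≤ 1 / 2 ^ 41 / √Y := by
        rw [div_mul_eq_mul_div]
        apply div_le_div_of_nonneg_right _ hsq.le
        norm_num

end H81.LP
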