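import Pool.Agent.H81.LP.Dat5
import Pool.Agent.H81.LP.Cert4

/-! Generated: the certificate for `d = 5`. -/

namespace H81.LP

/-- coefficients -/
noncomputable def c5 : Fin 4 → ℝ := ![-113988263943517, 551643991683943, -505231323953179, 68575596212753]

/-- exponents -/
def m5 : Fin 4 → ℤ := ![-16, -14, -13, -10]

/-- `c_j / √X_j` -/
noncomputable def om5 : Fin 4 → ℝ := ![(-32084843938789556631636017152 / 33232930569601), (2426155932997049501008003072 / 678223072849), (-277753857701591710749949952 / 96889010407), (10518926537052699754496 / 40353607)]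

theorem val5_64 :
    ((202023540207 / 500000000) ≤ K 4 (((64 : ℕ) : ℝ) / 64 * q ^ (-10 : ℤ)) / hh ^ 4 ∧
      K 4 (((64 : ℕ) : ℝ) / 64 * q ^ (-10 : ℤ)) / hh ^ 4 ≤ (404047080457 / 1000000000)) ∧
    ((655292965987 / 1000000000) ≤ K 4 (((64 : ℕ) : ℝ) / 64 * q ^ (-12 : ℤ)) / hh ^ 4 ∧
      K 4 (((64 : ℕ) : ℝ) / 64 * q ^ (-12 : ℤ)) / hh ^ 4 ≤ (327646483021 / 500000000)) ∧
    ((412179571793 / 500000000) ≤ K 4 (((64 : ℕ) : ℝ) / 64 * q ^ (-13 : ℤ)) / hh ^ 4 ∧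
      K 4 (((64 : ℕ) : ℝ) / 64 * q ^ (-13 : ℤ)) / hh ^ 4 ≤ (824359143649 / 1000000000)) ∧
    ((1029136868243 / 1000000000) ≤ K 4 (((64 : ℕ) : ℝ) / 64 * q ^ (-14 : ℤ)) / hh ^ 4 ∧
      K 4 (((64 : ℕ) : ℝ) / 64 * q ^ (-14 : ℤ)) / hh ^ 4 ≤ (205827373663 / 200000000)) ∧
    ((637722465787 / 500000000) ≤ K 4 (((64 : ℕ) : ℝ) / 64 * q ^ (-15 : ℤ)) / hh ^ 4 ∧
      K 4 (((64 : ℕ) : ℝ) / 64 * q ^ (-15 : ℤ)) / hh ^ 4 ≤ (159430616457 / 125000000)) ∧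
    ((392437152897 / 250000000) ≤ K 4 (((64 : ℕ) : ℝ) / 64 * q ^ (-16 : ℤ)) / hh ^ 4 ∧
      K 4 (((64 : ℕ) : ℝ) / 64 * q ^ (-16 : ℤ)) / hh ^ 4 ≤ (784874305841 / 500000000)) ∧
    ((233162892547 / 100000000) ≤ K 4 (((64 : ℕ) : ℝ) / 64 * q ^ (-18 : ℤ)) / hh ^ 4 ∧
      K 4 (((64 : ℕ) : ℝ) / 64 * q ^ (-18 : ℤ)) / hh ^ 4 ≤ (291453615699 / 125000000)) ∧
    ((80659592093 / 5000000) ≤ K 4 (((64 : ℕ) : ℝ) / 64 * q ^ (-30 : ℤ)) / hh ^ 4 ∧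
      K 4 (((64 : ℕ) : ℝ) / 64 * q ^ (-30 : ℤ)) / hh ^ 4 ≤ (16131918419201 / 1000000000)) ∧
    ((23872093681077 / 1000000000) ≤ K 4 (((64 : ℕ) : ℝ) / 64 * q ^ (-33 : ℤ)) / hh ^ 4 ∧
      K 4 (((64 : ℕ) : ℝ) / 64 * q ^ (-33 : ℤ)) / hh ^ 4 ≤ (11936046840987 / 500000000)) ∧
    ((5405845421687 / 200000000) ≤ K 4 (((64 : ℕ) : ℝ) / 64 * q ^ (-34 : ℤ)) / hh ^ 4 ∧
      K 4 (((64 : ℕ) : ℝ) / 64 * q ^ (-34 : ℤ)) / hh ^ 4 ≤ (27029227109459 / 1000000000)) ∧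
    ((34344835054603 / 1000000000) ≤ K 4 (((64 : ℕ) : ℝ) / 64 * q ^ (-36 : ℤ)) / hh ^ 4 ∧
      K 4 (((64 : ℕ) : ℝ) / 64 * q ^ (-36 : ℤ)) / hh ^ 4 ≤ (1717241752797 / 50000000)) := by
  obtain ⟨t, hl, ht, e0, e1, e2, e3, e4, e5, e6, e7, e8, e9, e10⟩ := tab5_64
  refine ⟨?_, ?_, ?_, ?_, ?_, ?_, ?_, ?_, ?_, ?_, ?_⟩
  · exact bounds (by norm_num) ht (by rw [hl]; norm_num) e0 (-10) (by norm_num) _ _ (by norm_num) (by norm_num)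
  · exact bounds (by norm_num) ht (by rw [hl]; norm_num) e1 (-12) (by norm_num) _ _ (by norm_num) (by norm_num)
  · exact bounds (by norm_num) ht (by rw [hl]; norm_num) e2 (-13) (by norm_num) _ _ (by norm_num) (by norm_num)
  · exact bounds (by norm_num) ht (by rw [hl]; norm_num) e3 (-14) (by norm_num) _ _ (by norm_num) (by norm_num)
  · exact bounds (by norm_num) ht (by rw [hl]; norm_num) e4 (-15) (by norm_num) _ _ (by norm_num) (by norm_num)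
  · exact bounds (by norm_num) ht (by rw [hl]; norm_num) e5 (-16) (by norm_num) _ _ (by norm_num) (by norm_num)
  · exact bounds (by norm_num) ht (by rw [hl]; norm_num) e6 (-18) (by norm_num) _ _ (by norm_num) (by norm_num)
  · exact bounds (by norm_num) ht (by rw [hl]; norm_num) e7 (-30) (by norm_num) _ _ (by norm_num) (by norm_num)
  · exact bounds (by norm_num) ht (by rw [hl]; norm_num) e8 (-33) (by norm_num) _ _ (by norm_num) (by norm_num)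
  · exact bounds (by norm_num) ht (by rw [hl]; norm_num) e9 (-34) (by norm_num) _ _ (by norm_num) (by norm_num)
  · exact bounds (by norm_num) ht (by rw [hl]; norm_num) e10 (-36) (by norm_num) _ _ (by norm_num) (by norm_num)

theorem val5_79 :
    ((42593903141 / 100000000) ≤ K 4 (((79 : ℕ) : ℝ) / 64 * q ^ (-11 : ℤ)) / hh ^ 4 ∧
      K 4 (((79 : ℕ) : ℝ) / 64 * q ^ (-11 : ℤ)) / hh ^ 4 ≤ (425939031459 / 1000000000)) ∧
    ((344174469071 / 500000000) ≤ K 4 (((79 : ℕ) : ℝ) / 64 * q ^ (-13 : ℤ)) / hh ^ 4 ∧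
      K 4 (((79 : ℕ) : ℝ) / 64 * q ^ (-13 : ℤ)) / hh ^ 4 ≤ (137669787641 / 200000000)) ∧
    ((54032231581 / 62500000) ≤ K 4 (((79 : ℕ) : ℝ) / 64 * q ^ (-14 : ℤ)) / hh ^ 4 ∧
      K 4 (((79 : ℕ) : ℝ) / 64 * q ^ (-14 : ℤ)) / hh ^ 4 ≤ (108064463171 / 125000000)) ∧
    ((1638822278057 / 1000000000) ≤ K 4 (((79 : ℕ) : ℝ) / 64 * q ^ (-17 : ℤ)) / hh ^ 4 ∧
      K 4 (((79 : ℕ) : ℝ) / 64 * q ^ (-17 : ℤ)) / hh ^ 4 ≤ (409705569541 / 250000000)) := by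
  obtain ⟨t, hl, ht, e0, e1, e2, e3⟩ := tab5_79
  refine ⟨?_, ?_, ?_, ?_⟩
  · exact bounds (by norm_num) ht (by rw [hl]; norm_num) e0 (-11) (by norm_num) _ _ (by norm_num) (by norm_num)
  · exact bounds (by norm_num) ht (by rw [hl]; norm_num) e1 (-13) (by norm_num) _ _ (by norm_num) (by norm_num)
  · exact bounds (by norm_num) ht (by rw [hl]; norm_num) e2 (-14) (by norm_num) _ _ (by norm_num) (by norm_num)
  · exact bounds (by norm_num) ht (by rw [hl]; norm_num) e3 (-17) (by norm_num) _ _ (by norm_num) (by norm_num)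

theorem val5_80 :
    ((210489444989 / 500000000) ≤ K 4 (((80 : ℕ) : ℝ) / 64 * q ^ (-11 : ℤ)) / hh ^ 4 ∧
      K 4 (((80 : ℕ) : ℝ) / 64 * q ^ (-11 : ℤ)) / hh ^ 4 ≤ (210489445013 / 500000000)) ∧
    ((136173791777 / 200000000) ≤ K 4 (((80 : ℕ) : ℝ) / 64 * q ^ (-13 : ℤ)) / hh ^ 4 ∧
      K 4 (((80 : ℕ) : ℝ) / 64 * q ^ (-13 : ℤ)) / hh ^ 4 ≤ (680868958947 / 1000000000)) ∧
    ((855434400589 / 1000000000) ≤ K 4 (((80 : ℕ) : ℝ) / 64 * q ^ (-14 : ℤ)) / hh ^ 4 ∧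
      K 4 (((80 : ℕ) : ℝ) / 64 * q ^ (-14 : ℤ)) / hh ^ 4 ≤ (42771720033 / 50000000)) ∧
    ((1623226656021 / 1000000000) ≤ K 4 (((80 : ℕ) : ℝ) / 64 * q ^ (-17 : ℤ)) / hh ^ 4 ∧
      K 4 (((80 : ℕ) : ℝ) / 64 * q ^ (-17 : ℤ)) / hh ^ 4 ≤ (12681458251 / 7812500)) := by
  obtain ⟨t, hl, ht, e0, e1, e2, e3⟩ := tab5_80
  refine ⟨?_, ?_, ?_, ?_⟩
  · exact bounds (by norm_num) ht (by rw [hl]; norm_num) e0 (-11) (by norm_num) _ _ (by norm_num) (by norm_num)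
  · exact bounds (by norm_num) ht (by rw [hl]; norm_num) e1 (-13) (by norm_num) _ _ (by norm_num) (by norm_num)
  · exact bounds (by norm_num) ht (by rw [hl]; norm_num) e2 (-14) (by norm_num) _ _ (by norm_num) (by norm_num)
  · exact bounds (by norm_num) ht (by rw [hl]; norm_num) e3 (-17) (by norm_num) _ _ (by norm_num) (by norm_num)

theorem val5_81 :
    ((416129099793 / 1000000000) ≤ K 4 (((81 : ℕ) : ℝ) / 64 * q ^ (-11 : ℤ)) / hh ^ 4 ∧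
      K 4 (((81 : ℕ) : ℝ) / 64 * q ^ (-11 : ℤ)) / hh ^ 4 ≤ (416129099841 / 1000000000)) ∧
    ((336774995997 / 500000000) ≤ K 4 (((81 : ℕ) : ℝ) / 64 * q ^ (-13 : ℤ)) / hh ^ 4 ∧
      K 4 (((81 : ℕ) : ℝ) / 64 * q ^ (-13 : ℤ)) / hh ^ 4 ≤ (673549992057 / 1000000000)) ∧
    ((169309108917 / 200000000) ≤ K 4 (((81 : ℕ) : ℝ) / 64 * q ^ (-14 : ℤ)) / hh ^ 4 ∧
      K 4 (((81 : ℕ) : ℝ) / 64 * q ^ (-14 : ℤ)) / hh ^ 4 ≤ (846545544657 / 1000000000)) ∧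
    ((321589481319 / 200000000) ≤ K 4 (((81 : ℕ) : ℝ) / 64 * q ^ (-17 : ℤ)) / hh ^ 4 ∧
      K 4 (((81 : ℕ) : ℝ) / 64 * q ^ (-17 : ℤ)) / hh ^ 4 ≤ (803973703351 / 500000000)) := by
  obtain ⟨t, hl, ht, e0, e1, e2, e3⟩ := tab5_81
  refine ⟨?_, ?_, ?_, ?_⟩
  · exact bounds (by norm_num) ht (by rw [hl]; norm_num) e0 (-11) (by norm_num) _ _ (by norm_num) (by norm_num)
  · exact bounds (by norm_num) ht (by rw [hl]; norm_num) e1 (-13) (by norm_num) _ _ (by norm_num) (by norm_num)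
  · exact bounds (by norm_num) ht (by rw [hl]; norm_num) e2 (-14) (by norm_num) _ _ (by norm_num) (by norm_num)
  · exact bounds (by norm_num) ht (by rw [hl]; norm_num) e3 (-17) (by norm_num) _ _ (by norm_num) (by norm_num)

theorem val5_82 :
    ((82277194627 / 200000000) ≤ K 4 (((82 : ℕ) : ℝ) / 64 * q ^ (-11 : ℤ)) / hh ^ 4 ∧
      K 4 (((82 : ℕ) : ℝ) / 64 * q ^ (-11 : ℤ)) / hh ^ 4 ≤ (6427905831 / 15625000)) ∧
    ((666386762579 / 1000000000) ≤ K 4 (((82 : ℕ) : ℝ) / 64 * q ^ (-13 : ℤ)) / hh ^ 4 ∧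
      K 4 (((82 : ℕ) : ℝ) / 64 * q ^ (-13 : ℤ)) / hh ^ 4 ≤ (333193381321 / 500000000)) ∧
    ((16756857817 / 20000000) ≤ K 4 (((82 : ℕ) : ℝ) / 64 * q ^ (-14 : ℤ)) / hh ^ 4 ∧
      K 4 (((82 : ℕ) : ℝ) / 64 * q ^ (-14 : ℤ)) / hh ^ 4 ≤ (418921445461 / 500000000)) ∧
    ((1592974520029 / 1000000000) ≤ K 4 (((82 : ℕ) : ℝ) / 64 * q ^ (-17 : ℤ)) / hh ^ 4 ∧
      K 4 (((82 : ℕ) : ℝ) / 64 * q ^ (-17 : ℤ)) / hh ^ 4 ≤ (199121815017 / 125000000)) := by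
  obtain ⟨t, hl, ht, e0, e1, e2, e3⟩ := tab5_82
  refine ⟨?_, ?_, ?_, ?_⟩
  · exact bounds (by norm_num) ht (by rw [hl]; norm_num) e0 (-11) (by norm_num) _ _ (by norm_num) (by norm_num)
  · exact bounds (by norm_num) ht (by rw [hl]; norm_num) e1 (-13) (by norm_num) _ _ (by norm_num) (by norm_num)
  · exact bounds (by norm_num) ht (by rw [hl]; norm_num) e2 (-14) (by norm_num) _ _ (by norm_num) (by norm_num)
  · exact bounds (by norm_num) ht (by rw [hl]; norm_num) e3 (-17) (by norm_num) _ _ (by norm_num) (by norm_num)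

theorem val5_83 :
    ((203372993423 / 500000000) ≤ K 4 (((83 : ℕ) : ℝ) / 64 * q ^ (-11 : ℤ)) / hh ^ 4 ∧
      K 4 (((83 : ℕ) : ℝ) / 64 * q ^ (-11 : ℤ)) / hh ^ 4 ≤ (81349197379 / 200000000)) ∧
    ((659374227931 / 1000000000) ≤ K 4 (((83 : ℕ) : ℝ) / 64 * q ^ (-13 : ℤ)) / hh ^ 4 ∧
      K 4 (((83 : ℕ) : ℝ) / 64 * q ^ (-13 : ℤ)) / hh ^ 4 ≤ (329687113997 / 500000000)) ∧
    ((414660233073 / 500000000) ≤ K 4 (((83 : ℕ) : ℝ) / 64 * q ^ (-14 : ℤ)) / hh ^ 4 ∧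
      K 4 (((83 : ℕ) : ℝ) / 64 * q ^ (-14 : ℤ)) / hh ^ 4 ≤ (414660233109 / 500000000)) ∧
    ((789149208411 / 500000000) ≤ K 4 (((83 : ℕ) : ℝ) / 64 * q ^ (-17 : ℤ)) / hh ^ 4 ∧
      K 4 (((83 : ℕ) : ℝ) / 64 * q ^ (-17 : ℤ)) / hh ^ 4 ≤ (1578298416929 / 1000000000)) := by
  obtain ⟨t, hl, ht, e0, e1, e2, e3⟩ := tab5_83
  refine ⟨?_, ?_, ?_, ?_⟩
  · exact bounds (by norm_num) ht (by rw [hl]; norm_num) e0 (-11) (by norm_num) _ _ (by norm_num) (by norm_num)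
  · exact bounds (by norm_num) ht (by rw [hl]; norm_num) e1 (-13) (by norm_num) _ _ (by norm_num) (by norm_num)
  · exact bounds (by norm_num) ht (by rw [hl]; norm_num) e2 (-14) (by norm_num) _ _ (by norm_num) (by norm_num)
  · exact bounds (by norm_num) ht (by rw [hl]; norm_num) e3 (-17) (by norm_num) _ _ (by norm_num) (by norm_num)

end H81.LP
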