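import Pool.Agent.H81.LP.Dat6
import Pool.Agent.H81.LP.Cert4

/-! Generated: the certificate for `d = 6`. -/

namespace H81.LP

/-- coefficients -/
noncomputable def c6 : Fin 4 → ℝ := ![-206269323784972, 1116278187652006, -1155431092631912, 246422228764877]

/-- exponents -/
def m6 : Fin 4 → ℤ := ![-22, -20, -19, -17]

/-- `c_j / √X_j` -/
noncomputable def om6 : Fin 4 → ℝ := ![(-310612034785184399958678377070592 / 79792266297612001), (1286981127667555028688404381433856 / 79792266297612001), (-166515169223339645746962459787264 / 11398895185373143), (554893528820653588984675434496 / 232630513987207)]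

theorem val6_64 :
    ((1923541020807 / 250000000) ≤ K 5 (((64 : ℕ) : ℝ) / 64 * q ^ (-17 : ℤ)) / hh ^ 5 ∧
      K 5 (((64 : ℕ) : ℝ) / 64 * q ^ (-17 : ℤ)) / hh ^ 5 ≤ (7694164084117 / 1000000000)) ∧
    ((2956498797183 / 250000000) ≤ K 5 (((64 : ℕ) : ℝ) / 64 * q ^ (-19 : ℤ)) / hh ^ 5 ∧
      K 5 (((64 : ℕ) : ℝ) / 64 * q ^ (-19 : ℤ)) / hh ^ 5 ≤ (2956498797473 / 250000000)) ∧
    ((45429019541 / 3125000) ≤ K 5 (((64 : ℕ) : ℝ) / 64 * q ^ (-20 : ℤ)) / hh ^ 5 ∧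
      K 5 (((64 : ℕ) : ℝ) / 64 * q ^ (-20 : ℤ)) / hh ^ 5 ≤ (7268643127223 / 500000000)) ∧
    ((17774323806509 / 1000000000) ≤ K 5 (((64 : ℕ) : ℝ) / 64 * q ^ (-21 : ℤ)) / hh ^ 5 ∧
      K 5 (((64 : ℕ) : ℝ) / 64 * q ^ (-21 : ℤ)) / hh ^ 5 ≤ (2221790476003 / 125000000)) ∧
    ((21620018775299 / 1000000000) ≤ K 5 (((64 : ℕ) : ℝ) / 64 * q ^ (-22 : ℤ)) / hh ^ 5 ∧
      K 5 (((64 : ℕ) : ℝ) / 64 * q ^ (-22 : ℤ)) / hh ^ 5 ≤ (21620018777031 / 1000000000)) ∧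
    ((3939933015099 / 125000000) ≤ K 5 (((64 : ℕ) : ℝ) / 64 * q ^ (-24 : ℤ)) / hh ^ 5 ∧
      K 5 (((64 : ℕ) : ℝ) / 64 * q ^ (-24 : ℤ)) / hh ^ 5 ≤ (15759732061527 / 500000000)) ∧
    ((246148001430331 / 1000000000) ≤ K 5 (((64 : ℕ) : ℝ) / 64 * q ^ (-37 : ℤ)) / hh ^ 5 ∧
      K 5 (((64 : ℕ) : ℝ) / 64 * q ^ (-37 : ℤ)) / hh ^ 5 ≤ (6153700036079 / 25000000)) ∧
    ((20086979356017 / 62500000) ≤ K 5 (((64 : ℕ) : ℝ) / 64 * q ^ (-39 : ℤ)) / hh ^ 5 ∧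
      K 5 (((64 : ℕ) : ℝ) / 64 * q ^ (-39 : ℤ)) / hh ^ 5 ≤ (321391669713027 / 1000000000)) ∧
    ((365749407907671 / 1000000000) ≤ K 5 (((64 : ℕ) : ℝ) / 64 * q ^ (-40 : ℤ)) / hh ^ 5 ∧
      K 5 (((64 : ℕ) : ℝ) / 64 * q ^ (-40 : ℤ)) / hh ^ 5 ≤ (18287470396341 / 50000000)) ∧
    ((117510047007329 / 250000000) ≤ K 5 (((64 : ℕ) : ℝ) / 64 * q ^ (-42 : ℤ)) / hh ^ 5 ∧
      K 5 (((64 : ℕ) : ℝ) / 64 * q ^ (-42 : ℤ)) / hh ^ 5 ≤ (235020094027163 / 500000000)) := by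
  obtain ⟨t, hl, ht, e0, e1, e2, e3, e4, e5, e6, e7, e8, e9⟩ := tab6_64
  refine ⟨?_, ?_, ?_, ?_, ?_, ?_, ?_, ?_, ?_, ?_⟩
  · exact bounds (by norm_num) ht (by rw [hl]; norm_num) e0 (-17) (by norm_num) _ _ (by norm_num) (by norm_num)
  · exact bounds (by norm_num) ht (by rw [hl]; norm_num) e1 (-19) (by norm_num) _ _ (by norm_num) (by norm_num)
  · exact bounds (by norm_num) ht (by rw [hl]; norm_num) e2 (-20) (by norm_num) _ _ (by norm_num) (by norm_num)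
  · exact bounds (by norm_num) ht (by rw [hl]; norm_num) e3 (-21) (by norm_num) _ _ (by norm_num) (by norm_num)
  · exact bounds (by norm_num) ht (by rw [hl]; norm_num) e4 (-22) (by norm_num) _ _ (by norm_num) (by norm_num)
  · exact bounds (by norm_num) ht (by rw [hl]; norm_num) e5 (-24) (by norm_num) _ _ (by norm_num) (by norm_num)
  · exact bounds (by norm_num) ht (by rw [hl]; norm_num) e6 (-37) (by norm_num) _ _ (by norm_num) (by norm_num)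
  · exact bounds (by norm_num) ht (by rw [hl]; norm_num) e7 (-39) (by norm_num) _ _ (by norm_num) (by norm_num)
  · exact bounds (by norm_num) ht (by rw [hl]; norm_num) e8 (-40) (by norm_num) _ _ (by norm_num) (by norm_num)
  · exact bounds (by norm_num) ht (by rw [hl]; norm_num) e9 (-42) (by norm_num) _ _ (by norm_num) (by norm_num)

theorem val6_78 :
    ((325833283299 / 40000000) ≤ K 5 (((78 : ℕ) : ℝ) / 64 * q ^ (-18 : ℤ)) / hh ^ 5 ∧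
      K 5 (((78 : ℕ) : ℝ) / 64 * q ^ (-18 : ℤ)) / hh ^ 5 ≤ (8145832083491 / 1000000000)) ∧
    ((12482687190279 / 1000000000) ≤ K 5 (((78 : ℕ) : ℝ) / 64 * q ^ (-20 : ℤ)) / hh ^ 5 ∧
      K 5 (((78 : ℕ) : ℝ) / 64 * q ^ (-20 : ℤ)) / hh ^ 5 ≤ (2496537438321 / 200000000)) ∧
    ((957677698973 / 62500000) ≤ K 5 (((78 : ℕ) : ℝ) / 64 * q ^ (-21 : ℤ)) / hh ^ 5 ∧
      K 5 (((78 : ℕ) : ℝ) / 64 * q ^ (-21 : ℤ)) / hh ^ 5 ≤ (15322843185083 / 1000000000)) ∧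
    ((5681889593533 / 250000000) ≤ K 5 (((78 : ℕ) : ℝ) / 64 * q ^ (-23 : ℤ)) / hh ^ 5 ∧
      K 5 (((78 : ℕ) : ℝ) / 64 * q ^ (-23 : ℤ)) / hh ^ 5 ≤ (22727558376111 / 1000000000)) := by
  obtain ⟨t, hl, ht, e0, e1, e2, e3⟩ := tab6_78
  refine ⟨?_, ?_, ?_, ?_⟩
  · exact bounds (by norm_num) ht (by rw [hl]; norm_num) e0 (-18) (by norm_num) _ _ (by norm_num) (by norm_num)
  · exact bounds (by norm_num) ht (by rw [hl]; norm_num) e1 (-20) (by norm_num) _ _ (by norm_num) (by norm_num)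
  · exact bounds (by norm_num) ht (by rw [hl]; norm_num) e2 (-21) (by norm_num) _ _ (by norm_num) (by norm_num)
  · exact bounds (by norm_num) ht (by rw [hl]; norm_num) e3 (-23) (by norm_num) _ _ (by norm_num) (by norm_num)

theorem val6_79 :
    ((8061027930371 / 1000000000) ≤ K 5 (((79 : ℕ) : ℝ) / 64 * q ^ (-18 : ℤ)) / hh ^ 5 ∧
      K 5 (((79 : ℕ) : ℝ) / 64 * q ^ (-18 : ℤ)) / hh ^ 5 ≤ (8061027931387 / 1000000000)) ∧
    ((12359528839523 / 1000000000) ≤ K 5 (((79 : ℕ) : ℝ) / 64 * q ^ (-20 : ℤ)) / hh ^ 5 ∧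
      K 5 (((79 : ℕ) : ℝ) / 64 * q ^ (-20 : ℤ)) / hh ^ 5 ≤ (12359528840849 / 1000000000)) ∧
    ((379389900883 / 25000000) ≤ K 5 (((79 : ℕ) : ℝ) / 64 * q ^ (-21 : ℤ)) / hh ^ 5 ∧
      K 5 (((79 : ℕ) : ℝ) / 64 * q ^ (-21 : ℤ)) / hh ^ 5 ≤ (3035119207367 / 200000000)) ∧
    ((11260083591193 / 500000000) ≤ K 5 (((79 : ℕ) : ℝ) / 64 * q ^ (-23 : ℤ)) / hh ^ 5 ∧
      K 5 (((79 : ℕ) : ℝ) / 64 * q ^ (-23 : ℤ)) / hh ^ 5 ≤ (11260083592183 / 500000000)) := by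
  obtain ⟨t, hl, ht, e0, e1, e2, e3⟩ := tab6_79
  refine ⟨?_, ?_, ?_, ?_⟩
  · exact bounds (by norm_num) ht (by rw [hl]; norm_num) e0 (-18) (by norm_num) _ _ (by norm_num) (by norm_num)
  · exact bounds (by norm_num) ht (by rw [hl]; norm_num) e1 (-20) (by norm_num) _ _ (by norm_num) (by norm_num)
  · exact bounds (by norm_num) ht (by rw [hl]; norm_num) e2 (-21) (by norm_num) _ _ (by norm_num) (by norm_num)
  · exact bounds (by norm_num) ht (by rw [hl]; norm_num) e3 (-23) (by norm_num) _ _ (by norm_num) (by norm_num)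

theorem val6_80 :
    ((1595609990799 / 200000000) ≤ K 5 (((80 : ℕ) : ℝ) / 64 * q ^ (-18 : ℤ)) / hh ^ 5 ∧
      K 5 (((80 : ℕ) : ℝ) / 64 * q ^ (-18 : ℤ)) / hh ^ 5 ≤ (797804995501 / 100000000)) ∧
    ((382467515079 / 31250000) ≤ K 5 (((80 : ℕ) : ℝ) / 64 * q ^ (-20 : ℤ)) / hh ^ 5 ∧
      K 5 (((80 : ℕ) : ℝ) / 64 * q ^ (-20 : ℤ)) / hh ^ 5 ≤ (6119480241927 / 500000000)) ∧
    ((751570528691 / 50000000) ≤ K 5 (((80 : ℕ) : ℝ) / 64 * q ^ (-21 : ℤ)) / hh ^ 5 ∧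
      K 5 (((80 : ℕ) : ℝ) / 64 * q ^ (-21 : ℤ)) / hh ^ 5 ≤ (1878926321917 / 125000000)) ∧
    ((1115849789757 / 50000000) ≤ K 5 (((80 : ℕ) : ℝ) / 64 * q ^ (-23 : ℤ)) / hh ^ 5 ∧
      K 5 (((80 : ℕ) : ℝ) / 64 * q ^ (-23 : ℤ)) / hh ^ 5 ≤ (22316995797119 / 1000000000)) := by
  obtain ⟨t, hl, ht, e0, e1, e2, e3⟩ := tab6_80
  refine ⟨?_, ?_, ?_, ?_⟩
  · exact bounds (by norm_num) ht (by rw [hl]; norm_num) e0 (-18) (by norm_num) _ _ (by norm_num) (by norm_num)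
  · exact bounds (by norm_num) ht (by rw [hl]; norm_num) e1 (-20) (by norm_num) _ _ (by norm_num) (by norm_num)
  · exact bounds (by norm_num) ht (by rw [hl]; norm_num) e2 (-21) (by norm_num) _ _ (by norm_num) (by norm_num)
  · exact bounds (by norm_num) ht (by rw [hl]; norm_num) e3 (-23) (by norm_num) _ _ (by norm_num) (by norm_num)

theorem val6_81 :
    ((1974209436299 / 250000000) ≤ K 5 (((81 : ℕ) : ℝ) / 64 * q ^ (-18 : ℤ)) / hh ^ 5 ∧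
      K 5 (((81 : ℕ) : ℝ) / 64 * q ^ (-18 : ℤ)) / hh ^ 5 ≤ (1974209436553 / 250000000)) ∧
    ((3030224411179 / 250000000) ≤ K 5 (((81 : ℕ) : ℝ) / 64 * q ^ (-20 : ℤ)) / hh ^ 5 ∧
      K 5 (((81 : ℕ) : ℝ) / 64 * q ^ (-20 : ℤ)) / hh ^ 5 ≤ (12120897646043 / 1000000000)) ∧
    ((7445093802601 / 500000000) ≤ K 5 (((81 : ℕ) : ℝ) / 64 * q ^ (-21 : ℤ)) / hh ^ 5 ∧
      K 5 (((81 : ℕ) : ℝ) / 64 * q ^ (-21 : ℤ)) / hh ^ 5 ≤ (7445093803359 / 500000000)) ∧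
    ((2764738652451 / 125000000) ≤ K 5 (((81 : ℕ) : ℝ) / 64 * q ^ (-23 : ℤ)) / hh ^ 5 ∧
      K 5 (((81 : ℕ) : ℝ) / 64 * q ^ (-23 : ℤ)) / hh ^ 5 ≤ (5529477305397 / 250000000)) := by
  obtain ⟨t, hl, ht, e0, e1, e2, e3⟩ := tab6_81
  refine ⟨?_, ?_, ?_, ?_⟩
  · exact bounds (by norm_num) ht (by rw [hl]; norm_num) e0 (-18) (by norm_num) _ _ (by norm_num) (by norm_num)
  · exact bounds (by norm_num) ht (by rw [hl]; norm_num) e1 (-20) (by norm_num) _ _ (by norm_num) (by norm_num)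
  · exact bounds (by norm_num) ht (by rw [hl]; norm_num) e2 (-21) (by norm_num) _ _ (by norm_num) (by norm_num)
  · exact bounds (by norm_num) ht (by rw [hl]; norm_num) e3 (-23) (by norm_num) _ _ (by norm_num) (by norm_num)

theorem val6_82 :
    ((1954333397017 / 250000000) ≤ K 5 (((82 : ℕ) : ℝ) / 64 * q ^ (-18 : ℤ)) / hh ^ 5 ∧
      K 5 (((82 : ℕ) : ℝ) / 64 * q ^ (-18 : ℤ)) / hh ^ 5 ≤ (1954333397271 / 250000000)) ∧
    ((3001314894949 / 250000000) ≤ K 5 (((82 : ℕ) : ℝ) / 64 * q ^ (-20 : ℤ)) / hh ^ 5 ∧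
      K 5 (((82 : ℕ) : ℝ) / 64 * q ^ (-20 : ℤ)) / hh ^ 5 ≤ (6002629790561 / 500000000)) ∧
    ((14751832293407 / 1000000000) ≤ K 5 (((82 : ℕ) : ℝ) / 64 * q ^ (-21 : ℤ)) / hh ^ 5 ∧
      K 5 (((82 : ℕ) : ℝ) / 64 * q ^ (-21 : ℤ)) / hh ^ 5 ≤ (14751832294923 / 1000000000)) ∧
    ((10961389171079 / 500000000) ≤ K 5 (((82 : ℕ) : ℝ) / 64 * q ^ (-23 : ℤ)) / hh ^ 5 ∧
      K 5 (((82 : ℕ) : ℝ) / 64 * q ^ (-23 : ℤ)) / hh ^ 5 ≤ (21922778344137 / 1000000000)) := by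
  obtain ⟨t, hl, ht, e0, e1, e2, e3⟩ := tab6_82
  refine ⟨?_, ?_, ?_, ?_⟩
  · exact bounds (by norm_num) ht (by rw [hl]; norm_num) e0 (-18) (by norm_num) _ _ (by norm_num) (by norm_num)
  · exact bounds (by norm_num) ht (by rw [hl]; norm_num) e1 (-20) (by norm_num) _ _ (by norm_num) (by norm_num)
  · exact bounds (by norm_num) ht (by rw [hl]; norm_num) e2 (-21) (by norm_num) _ _ (by norm_num) (by norm_num)
  · exact bounds (by norm_num) ht (by rw [hl]; norm_num) e3 (-23) (by norm_num) _ _ (by norm_num) (by norm_num)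

end H81.LP
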