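import Pool.Agent.H81.LP.Dat7
import Pool.Agent.H81.LP.Cert4

/-! Generated: the certificate for `d = 7`. -/

namespace H81.LP

/-- coefficients -/
noncomputable def c7 : Fin 4 → ℝ := ![-275254379887564, 1491203781060755, -1545028496756298, 330079095583107]

/-- exponents -/
def m7 : Fin 4 → ℤ := ![-29, -27, -26, -24]

/-- `c_j / √X_j` -/
noncomputable def om7 : Fin 4 → ℝ := ![(-869256167988479500955349449570263236608 / 65712362363534280139543), (3605509506462614552810892021521459445760 / 65712362363534280139543), (-466956210442266498229227290690806874112 / 9387480337647754305649), (1558754457677590447834527496742633472 / 191581231380566414401)]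

theorem val7_64 :
    ((6841683472881 / 50000000) ≤ K 6 (((64 : ℕ) : ℝ) / 64 * q ^ (-24 : ℤ)) / hh ^ 6 ∧
      K 6 (((64 : ℕ) : ℝ) / 64 * q ^ (-24 : ℤ)) / hh ^ 6 ≤ (136833669476083 / 1000000000)) ∧
    ((12730860355811 / 62500000) ≤ K 6 (((64 : ℕ) : ℝ) / 64 * q ^ (-26 : ℤ)) / hh ^ 6 ∧
      K 6 (((64 : ℕ) : ℝ) / 64 * q ^ (-26 : ℤ)) / hh ^ 6 ≤ (203693765717091 / 1000000000)) ∧
    ((30866732841769 / 125000000) ≤ K 6 (((64 : ℕ) : ℝ) / 64 * q ^ (-27 : ℤ)) / hh ^ 6 ∧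
      K 6 (((64 : ℕ) : ℝ) / 64 * q ^ (-27 : ℤ)) / hh ^ 6 ≤ (15433366422607 / 62500000)) ∧
    ((149064293480161 / 500000000) ≤ K 6 (((64 : ℕ) : ℝ) / 64 * q ^ (-28 : ℤ)) / hh ^ 6 ∧
      K 6 (((64 : ℕ) : ℝ) / 64 * q ^ (-28 : ℤ)) / hh ^ 6 ≤ (298128586991819 / 1000000000)) ∧
    ((358511937035923 / 1000000000) ≤ K 6 (((64 : ℕ) : ℝ) / 64 * q ^ (-29 : ℤ)) / hh ^ 6 ∧
      K 6 (((64 : ℕ) : ℝ) / 64 * q ^ (-29 : ℤ)) / hh ^ 6 ≤ (4481399213399 / 12500000)) ∧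
    ((16017767063441 / 31250000) ≤ K 6 (((64 : ℕ) : ℝ) / 64 * q ^ (-31 : ℤ)) / hh ^ 6 ∧
      K 6 (((64 : ℕ) : ℝ) / 64 * q ^ (-31 : ℤ)) / hh ^ 6 ≤ (64071068259641 / 125000000)) ∧
    ((3820336400844303 / 1000000000) ≤ K 6 (((64 : ℕ) : ℝ) / 64 * q ^ (-44 : ℤ)) / hh ^ 6 ∧
      K 6 (((64 : ℕ) : ℝ) / 64 * q ^ (-44 : ℤ)) / hh ^ 6 ≤ (3820336401111071 / 1000000000)) ∧
    ((4995876312496167 / 1000000000) ≤ K 6 (((64 : ℕ) : ℝ) / 64 * q ^ (-46 : ℤ)) / hh ^ 6 ∧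
      K 6 (((64 : ℕ) : ℝ) / 64 * q ^ (-46 : ℤ)) / hh ^ 6 ≤ (2497938156422299 / 500000000)) ∧
    ((2846640625615333 / 500000000) ≤ K 6 (((64 : ℕ) : ℝ) / 64 * q ^ (-47 : ℤ)) / hh ^ 6 ∧
      K 6 (((64 : ℕ) : ℝ) / 64 * q ^ (-47 : ℤ)) / hh ^ 6 ≤ (5693281251628873 / 1000000000)) ∧
    ((734507965562463 / 100000000) ≤ K 6 (((64 : ℕ) : ℝ) / 64 * q ^ (-49 : ℤ)) / hh ^ 6 ∧
      K 6 (((64 : ℕ) : ℝ) / 64 * q ^ (-49 : ℤ)) / hh ^ 6 ≤ (7345079656144737 / 1000000000)) := by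
  obtain ⟨t, hl, ht, e0, e1, e2, e3, e4, e5, e6, e7, e8, e9⟩ := tab7_64
  refine ⟨?_, ?_, ?_, ?_, ?_, ?_, ?_, ?_, ?_, ?_⟩
  · exact bounds (by norm_num) ht (by rw [hl]; norm_num) e0 (-24) (by norm_num) _ _ (by norm_num) (by norm_num)
  · exact bounds (by norm_num) ht (by rw [hl]; norm_num) e1 (-26) (by norm_num) _ _ (by norm_num) (by norm_num)
  · exact bounds (by norm_num) ht (by rw [hl]; norm_num) e2 (-27) (by norm_num) _ _ (by norm_num) (by norm_num)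
  · exact bounds (by norm_num) ht (by rw [hl]; norm_num) e3 (-28) (by norm_num) _ _ (by norm_num) (by norm_num)
  · exact bounds (by norm_num) ht (by rw [hl]; norm_num) e4 (-29) (by norm_num) _ _ (by norm_num) (by norm_num)
  · exact bounds (by norm_num) ht (by rw [hl]; norm_num) e5 (-31) (by norm_num) _ _ (by norm_num) (by norm_num)
  · exact bounds (by norm_num) ht (by rw [hl]; norm_num) e6 (-44) (by norm_num) _ _ (by norm_num) (by norm_num)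
  · exact bounds (by norm_num) ht (by rw [hl]; norm_num) e7 (-46) (by norm_num) _ _ (by norm_num) (by norm_num)
  · exact bounds (by norm_num) ht (by rw [hl]; norm_num) e8 (-47) (by norm_num) _ _ (by norm_num) (by norm_num)
  · exact bounds (by norm_num) ht (by rw [hl]; norm_num) e9 (-49) (by norm_num) _ _ (by norm_num) (by norm_num)

theorem val7_68 :
    ((65322751980233 / 500000000) ≤ K 6 (((68 : ℕ) : ℝ) / 64 * q ^ (-24 : ℤ)) / hh ^ 6 ∧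
      K 6 (((68 : ℕ) : ℝ) / 64 * q ^ (-24 : ℤ)) / hh ^ 6 ≤ (13064550397893 / 100000000)) ∧
    ((7794808942637 / 40000000) ≤ K 6 (((68 : ℕ) : ℝ) / 64 * q ^ (-26 : ℤ)) / hh ^ 6 ∧
      K 6 (((68 : ℕ) : ℝ) / 64 * q ^ (-26 : ℤ)) / hh ^ 6 ≤ (194870223590041 / 1000000000)) ∧
    ((118230797524847 / 500000000) ≤ K 6 (((68 : ℕ) : ℝ) / 64 * q ^ (-27 : ℤ)) / hh ^ 6 ∧
      K 6 (((68 : ℕ) : ℝ) / 64 * q ^ (-27 : ℤ)) / hh ^ 6 ≤ (118230797538627 / 500000000)) ∧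
    ((343929004064209 / 1000000000) ≤ K 6 (((68 : ℕ) : ℝ) / 64 * q ^ (-29 : ℤ)) / hh ^ 6 ∧
      K 6 (((68 : ℕ) : ℝ) / 64 * q ^ (-29 : ℤ)) / hh ^ 6 ≤ (171964502050103 / 500000000)) := by
  obtain ⟨t, hl, ht, e0, e1, e2, e3⟩ := tab7_68
  refine ⟨?_, ?_, ?_, ?_⟩
  · exact bounds (by norm_num) ht (by rw [hl]; norm_num) e0 (-24) (by norm_num) _ _ (by norm_num) (by norm_num)
  · exact bounds (by norm_num) ht (by rw [hl]; norm_num) e1 (-26) (by norm_num) _ _ (by norm_num) (by norm_num)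
  · exact bounds (by norm_num) ht (by rw [hl]; norm_num) e2 (-27) (by norm_num) _ _ (by norm_num) (by norm_num)
  · exact bounds (by norm_num) ht (by rw [hl]; norm_num) e3 (-29) (by norm_num) _ _ (by norm_num) (by norm_num)

theorem val7_69 :
    ((25838625430033 / 200000000) ≤ K 6 (((69 : ℕ) : ℝ) / 64 * q ^ (-24 : ℤ)) / hh ^ 6 ∧
      K 6 (((69 : ℕ) : ℝ) / 64 * q ^ (-24 : ℤ)) / hh ^ 6 ≤ (129193127168629 / 1000000000)) ∧
    ((96398438872013 / 500000000) ≤ K 6 (((69 : ℕ) : ℝ) / 64 * q ^ (-26 : ℤ)) / hh ^ 6 ∧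
      K 6 (((69 : ℕ) : ℝ) / 64 * q ^ (-26 : ℤ)) / hh ^ 6 ≤ (96398438884071 / 500000000)) ∧
    ((233999457919091 / 1000000000) ≤ K 6 (((69 : ℕ) : ℝ) / 64 * q ^ (-27 : ℤ)) / hh ^ 6 ∧
      K 6 (((69 : ℕ) : ℝ) / 64 * q ^ (-27 : ℤ)) / hh ^ 6 ≤ (58499864486663 / 250000000)) ∧
    ((68099352993211 / 200000000) ≤ K 6 (((69 : ℕ) : ℝ) / 64 * q ^ (-29 : ℤ)) / hh ^ 6 ∧
      K 6 (((69 : ℕ) : ℝ) / 64 * q ^ (-29 : ℤ)) / hh ^ 6 ≤ (85124191250513 / 250000000)) := by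
  obtain ⟨t, hl, ht, e0, e1, e2, e3⟩ := tab7_69
  refine ⟨?_, ?_, ?_, ?_⟩
  · exact bounds (by norm_num) ht (by rw [hl]; norm_num) e0 (-24) (by norm_num) _ _ (by norm_num) (by norm_num)
  · exact bounds (by norm_num) ht (by rw [hl]; norm_num) e1 (-26) (by norm_num) _ _ (by norm_num) (by norm_num)
  · exact bounds (by norm_num) ht (by rw [hl]; norm_num) e2 (-27) (by norm_num) _ _ (by norm_num) (by norm_num)
  · exact bounds (by norm_num) ht (by rw [hl]; norm_num) e3 (-29) (by norm_num) _ _ (by norm_num) (by norm_num)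

theorem val7_70 :
    ((127775742773039 / 1000000000) ≤ K 6 (((70 : ℕ) : ℝ) / 64 * q ^ (-24 : ℤ)) / hh ^ 6 ∧
      K 6 (((70 : ℕ) : ℝ) / 64 * q ^ (-24 : ℤ)) / hh ^ 6 ≤ (63887871395751 / 500000000)) ∧
    ((190772568225773 / 1000000000) ≤ K 6 (((70 : ℕ) : ℝ) / 64 * q ^ (-26 : ℤ)) / hh ^ 6 ∧
      K 6 (((70 : ℕ) : ℝ) / 64 * q ^ (-26 : ℤ)) / hh ^ 6 ≤ (190772568249889 / 1000000000)) ∧
    ((7237344846159 / 31250000) ≤ K 6 (((70 : ℕ) : ℝ) / 64 * q ^ (-27 : ℤ)) / hh ^ 6 ∧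
      K 6 (((70 : ℕ) : ℝ) / 64 * q ^ (-27 : ℤ)) / hh ^ 6 ≤ (231595035104649 / 1000000000)) ∧
    ((84285902379267 / 250000000) ≤ K 6 (((70 : ℕ) : ℝ) / 64 * q ^ (-29 : ℤ)) / hh ^ 6 ∧
      K 6 (((70 : ℕ) : ℝ) / 64 * q ^ (-29 : ℤ)) / hh ^ 6 ≤ (67428721910613 / 200000000)) := by
  obtain ⟨t, hl, ht, e0, e1, e2, e3⟩ := tab7_70
  refine ⟨?_, ?_, ?_, ?_⟩
  · exact bounds (by norm_num) ht (by rw [hl]; norm_num) e0 (-24) (by norm_num) _ _ (by norm_num) (by norm_num)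
  · exact bounds (by norm_num) ht (by rw [hl]; norm_num) e1 (-26) (by norm_num) _ _ (by norm_num) (by norm_num)
  · exact bounds (by norm_num) ht (by rw [hl]; norm_num) e2 (-27) (by norm_num) _ _ (by norm_num) (by norm_num)
  · exact bounds (by norm_num) ht (by rw [hl]; norm_num) e3 (-29) (by norm_num) _ _ (by norm_num) (by norm_num)

theorem val7_71 :
    ((63196021468623 / 500000000) ≤ K 6 (((71 : ℕ) : ℝ) / 64 * q ^ (-24 : ℤ)) / hh ^ 6 ∧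
      K 6 (((71 : ℕ) : ℝ) / 64 * q ^ (-24 : ℤ)) / hh ^ 6 ≤ (12639204295571 / 100000000)) ∧
    ((188795482270523 / 1000000000) ≤ K 6 (((71 : ℕ) : ℝ) / 64 * q ^ (-26 : ℤ)) / hh ^ 6 ∧
      K 6 (((71 : ℕ) : ℝ) / 64 * q ^ (-26 : ℤ)) / hh ^ 6 ≤ (94397741147319 / 500000000)) ∧
    ((229246204180757 / 1000000000) ≤ K 6 (((71 : ℕ) : ℝ) / 64 * q ^ (-27 : ℤ)) / hh ^ 6 ∧
      K 6 (((71 : ℕ) : ℝ) / 64 * q ^ (-27 : ℤ)) / hh ^ 6 ≤ (229246204208317 / 1000000000)) ∧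
    ((83466664673489 / 250000000) ≤ K 6 (((71 : ℕ) : ℝ) / 64 * q ^ (-29 : ℤ)) / hh ^ 6 ∧
      K 6 (((71 : ℕ) : ℝ) / 64 * q ^ (-29 : ℤ)) / hh ^ 6 ≤ (333866658729953 / 1000000000)) := by
  obtain ⟨t, hl, ht, e0, e1, e2, e3⟩ := tab7_71
  refine ⟨?_, ?_, ?_, ?_⟩
  · exact bounds (by norm_num) ht (by rw [hl]; norm_num) e0 (-24) (by norm_num) _ _ (by norm_num) (by norm_num)
  · exact bounds (by norm_num) ht (by rw [hl]; norm_num) e1 (-26) (by norm_num) _ _ (by norm_num) (by norm_num)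
  · exact bounds (by norm_num) ht (by rw [hl]; norm_num) e2 (-27) (by norm_num) _ _ (by norm_num) (by norm_num)
  · exact bounds (by norm_num) ht (by rw [hl]; norm_num) e3 (-29) (by norm_num) _ _ (by norm_num) (by norm_num)

theorem val7_72 :
    ((6252039289411 / 50000000) ≤ K 6 (((72 : ℕ) : ℝ) / 64 * q ^ (-24 : ℤ)) / hh ^ 6 ∧
      K 6 (((72 : ℕ) : ℝ) / 64 * q ^ (-24 : ℤ)) / hh ^ 6 ≤ (31260196451671 / 250000000)) ∧
    ((18686389796911 / 100000000) ≤ K 6 (((72 : ℕ) : ℝ) / 64 * q ^ (-26 : ℤ)) / hh ^ 6 ∧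
      K 6 (((72 : ℕ) : ℝ) / 64 * q ^ (-26 : ℤ)) / hh ^ 6 ≤ (7474555919729 / 40000000)) ∧
    ((22695094884539 / 100000000) ≤ K 6 (((72 : ℕ) : ℝ) / 64 * q ^ (-27 : ℤ)) / hh ^ 6 ∧
      K 6 (((72 : ℕ) : ℝ) / 64 * q ^ (-27 : ℤ)) / hh ^ 6 ≤ (226950948872951 / 1000000000)) ∧
    ((330663176213463 / 1000000000) ≤ K 6 (((72 : ℕ) : ℝ) / 64 * q ^ (-29 : ℤ)) / hh ^ 6 ∧
      K 6 (((72 : ℕ) : ℝ) / 64 * q ^ (-29 : ℤ)) / hh ^ 6 ≤ (16533158812473 / 50000000)) := by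
  obtain ⟨t, hl, ht, e0, e1, e2, e3⟩ := tab7_72
  refine ⟨?_, ?_, ?_, ?_⟩
  · exact bounds (by norm_num) ht (by rw [hl]; norm_num) e0 (-24) (by norm_num) _ _ (by norm_num) (by norm_num)
  · exact bounds (by norm_num) ht (by rw [hl]; norm_num) e1 (-26) (by norm_num) _ _ (by norm_num) (by norm_num)
  · exact bounds (by norm_num) ht (by rw [hl]; norm_num) e2 (-27) (by norm_num) _ _ (by norm_num) (by norm_num)
  · exact bounds (by norm_num) ht (by rw [hl]; norm_num) e3 (-29) (by norm_num) _ _ (by norm_num) (by norm_num)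

end H81.LP
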