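import Pool.Agent.H81.LP.Dat8
import Pool.Agent.H81.LP.Cert4

/-! Generated: the certificate for `d = 8`. -/

namespace H81.LP

/-- coefficients -/
noncomputable def c8 : Fin 4 → ℝ := ![-351910471264018, 1910044191794681, -1981411023764053, 424277303233390]

/-- exponents -/
def m8 : Fin 4 → ℤ := ![-36, -34, -33, -31]

/-- `c_j / √X_j` -/
noncomputable def om8 : Fin 4 → ℝ := ![(-114201477151854462041039257619311226617077956608 / 2651730845859653471779023381601), (9685074664763882756736616928361241483069620224 / 54116956037952111668959660849), (-179409776683809449711031413442371416701796352 / 1104427674243920646305299201), (4201838891461104129059311401435155797114880 / 157775382034845806615042743)]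

theorem val8_64 :
    ((2356184508194327 / 1000000000) ≤ K 7 (((64 : ℕ) : ℝ) / 64 * q ^ (-31 : ℤ)) / hh ^ 7 ∧
      K 7 (((64 : ℕ) : ℝ) / 64 * q ^ (-31 : ℤ)) / hh ^ 7 ≤ (147261531785653 / 62500000)) ∧
    ((858585849921109 / 250000000) ≤ K 7 (((64 : ℕ) : ℝ) / 64 * q ^ (-33 : ℤ)) / hh ^ 7 ∧
      K 7 (((64 : ℕ) : ℝ) / 64 * q ^ (-33 : ℤ)) / hh ^ 7 ≤ (214646462510981 / 62500000)) ∧
    ((412510267017797 / 100000000) ≤ K 7 (((64 : ℕ) : ℝ) / 64 * q ^ (-34 : ℤ)) / hh ^ 7 ∧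
      K 7 (((64 : ℕ) : ℝ) / 64 * q ^ (-34 : ℤ)) / hh ^ 7 ≤ (412510267073941 / 100000000)) ∧
    ((4938514804109933 / 1000000000) ≤ K 7 (((64 : ℕ) : ℝ) / 64 * q ^ (-35 : ℤ)) / hh ^ 7 ∧
      K 7 (((64 : ℕ) : ℝ) / 64 * q ^ (-35 : ℤ)) / hh ^ 7 ≤ (4938514804751579 / 1000000000)) ∧
    ((5893425935341027 / 1000000000) ≤ K 7 (((64 : ℕ) : ℝ) / 64 * q ^ (-36 : ℤ)) / hh ^ 7 ∧
      K 7 (((64 : ℕ) : ℝ) / 64 * q ^ (-36 : ℤ)) / hh ^ 7 ≤ (184169560502323 / 31250000)) ∧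
    ((4157777754658643 / 500000000) ≤ K 7 (((64 : ℕ) : ℝ) / 64 * q ^ (-38 : ℤ)) / hh ^ 7 ∧
      K 7 (((64 : ℕ) : ℝ) / 64 * q ^ (-38 : ℤ)) / hh ^ 7 ≤ (4157777755137539 / 500000000)) ∧
    ((30008761485778397 / 500000000) ≤ K 7 (((64 : ℕ) : ℝ) / 64 * q ^ (-51 : ℤ)) / hh ^ 7 ∧
      K 7 (((64 : ℕ) : ℝ) / 64 * q ^ (-51 : ℤ)) / hh ^ 7 ≤ (15004380744247843 / 250000000)) ∧
    ((39288328443557723 / 500000000) ≤ K 7 (((64 : ℕ) : ℝ) / 64 * q ^ (-53 : ℤ)) / hh ^ 7 ∧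
      K 7 (((64 : ℕ) : ℝ) / 64 * q ^ (-53 : ℤ)) / hh ^ 7 ≤ (7857665689421367 / 100000000)) ∧
    ((44819141883413649 / 500000000) ≤ K 7 (((64 : ℕ) : ℝ) / 64 * q ^ (-54 : ℤ)) / hh ^ 7 ∧
      K 7 (((64 : ℕ) : ℝ) / 64 * q ^ (-54 : ℤ)) / hh ^ 7 ≤ (44819141887469777 / 500000000)) ∧
    ((14497532071381151 / 125000000) ≤ K 7 (((64 : ℕ) : ℝ) / 64 * q ^ (-56 : ℤ)) / hh ^ 7 ∧
      K 7 (((64 : ℕ) : ℝ) / 64 * q ^ (-56 : ℤ)) / hh ^ 7 ≤ (115980256581644807 / 1000000000)) := by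
  obtain ⟨t, hl, ht, e0, e1, e2, e3, e4, e5, e6, e7, e8, e9⟩ := tab8_64
  refine ⟨?_, ?_, ?_, ?_, ?_, ?_, ?_, ?_, ?_, ?_⟩
  · exact bounds (by norm_num) ht (by rw [hl]; norm_num) e0 (-31) (by norm_num) _ _ (by norm_num) (by norm_num)
  · exact bounds (by norm_num) ht (by rw [hl]; norm_num) e1 (-33) (by norm_num) _ _ (by norm_num) (by norm_num)
  · exact bounds (by norm_num) ht (by rw [hl]; norm_num) e2 (-34) (by norm_num) _ _ (by norm_num) (by norm_num)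
  · exact bounds (by norm_num) ht (by rw [hl]; norm_num) e3 (-35) (by norm_num) _ _ (by norm_num) (by norm_num)
  · exact bounds (by norm_num) ht (by rw [hl]; norm_num) e4 (-36) (by norm_num) _ _ (by norm_num) (by norm_num)
  · exact bounds (by norm_num) ht (by rw [hl]; norm_num) e5 (-38) (by norm_num) _ _ (by norm_num) (by norm_num)
  · exact bounds (by norm_num) ht (by rw [hl]; norm_num) e6 (-51) (by norm_num) _ _ (by norm_num) (by norm_num)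
  · exact bounds (by norm_num) ht (by rw [hl]; norm_num) e7 (-53) (by norm_num) _ _ (by norm_num) (by norm_num)
  · exact bounds (by norm_num) ht (by rw [hl]; norm_num) e8 (-54) (by norm_num) _ _ (by norm_num) (by norm_num)
  · exact bounds (by norm_num) ht (by rw [hl]; norm_num) e9 (-56) (by norm_num) _ _ (by norm_num) (by norm_num)

theorem val8_71 :
    ((2186245649254373 / 1000000000) ≤ K 7 (((71 : ℕ) : ℝ) / 64 * q ^ (-31 : ℤ)) / hh ^ 7 ∧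
      K 7 (((71 : ℕ) : ℝ) / 64 * q ^ (-31 : ℤ)) / hh ^ 7 ≤ (1093122824815247 / 500000000)) ∧
    ((3195327468439523 / 1000000000) ≤ K 7 (((71 : ℕ) : ℝ) / 64 * q ^ (-33 : ℤ)) / hh ^ 7 ∧
      K 7 (((71 : ℕ) : ℝ) / 64 * q ^ (-33 : ℤ)) / hh ^ 7 ≤ (3195327468930783 / 1000000000)) ∧
    ((3843022101739131 / 1000000000) ≤ K 7 (((71 : ℕ) : ℝ) / 64 * q ^ (-34 : ℤ)) / hh ^ 7 ∧
      K 7 (((71 : ℕ) : ℝ) / 64 * q ^ (-34 : ℤ)) / hh ^ 7 ≤ (3843022102300571 / 1000000000)) ∧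
    ((688022259331967 / 125000000) ≤ K 7 (((71 : ℕ) : ℝ) / 64 * q ^ (-36 : ℤ)) / hh ^ 7 ∧
      K 7 (((71 : ℕ) : ℝ) / 64 * q ^ (-36 : ℤ)) / hh ^ 7 ≤ (1100835615077809 / 200000000)) := by
  obtain ⟨t, hl, ht, e0, e1, e2, e3⟩ := tab8_71
  refine ⟨?_, ?_, ?_, ?_⟩
  · exact bounds (by norm_num) ht (by rw [hl]; norm_num) e0 (-31) (by norm_num) _ _ (by norm_num) (by norm_num)
  · exact bounds (by norm_num) ht (by rw [hl]; norm_num) e1 (-33) (by norm_num) _ _ (by norm_num) (by norm_num)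
  · exact bounds (by norm_num) ht (by rw [hl]; norm_num) e2 (-34) (by norm_num) _ _ (by norm_num) (by norm_num)
  · exact bounds (by norm_num) ht (by rw [hl]; norm_num) e3 (-36) (by norm_num) _ _ (by norm_num) (by norm_num)

theorem val8_72 :
    ((2164214002120853 / 1000000000) ≤ K 7 (((72 : ℕ) : ℝ) / 64 * q ^ (-31 : ℤ)) / hh ^ 7 ∧
      K 7 (((72 : ℕ) : ℝ) / 64 * q ^ (-31 : ℤ)) / hh ^ 7 ≤ (86568560099879 / 40000000)) ∧
    ((3164294401778851 / 1000000000) ≤ K 7 (((72 : ℕ) : ℝ) / 64 * q ^ (-33 : ℤ)) / hh ^ 7 ∧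
      K 7 (((72 : ℕ) : ℝ) / 64 * q ^ (-33 : ℤ)) / hh ^ 7 ≤ (3164294402270111 / 1000000000)) ∧
    ((1903185847383243 / 500000000) ≤ K 7 (((72 : ℕ) : ℝ) / 64 * q ^ (-34 : ℤ)) / hh ^ 7 ∧
      K 7 (((72 : ℕ) : ℝ) / 64 * q ^ (-34 : ℤ)) / hh ^ 7 ≤ (1903185847663963 / 500000000)) ∧
    ((2726767444966557 / 500000000) ≤ K 7 (((72 : ℕ) : ℝ) / 64 * q ^ (-36 : ℤ)) / hh ^ 7 ∧
      K 7 (((72 : ℕ) : ℝ) / 64 * q ^ (-36 : ℤ)) / hh ^ 7 ≤ (5453534890666423 / 1000000000)) := by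
  obtain ⟨t, hl, ht, e0, e1, e2, e3⟩ := tab8_72
  refine ⟨?_, ?_, ?_, ?_⟩
  · exact bounds (by norm_num) ht (by rw [hl]; norm_num) e0 (-31) (by norm_num) _ _ (by norm_num) (by norm_num)
  · exact bounds (by norm_num) ht (by rw [hl]; norm_num) e1 (-33) (by norm_num) _ _ (by norm_num) (by norm_num)
  · exact bounds (by norm_num) ht (by rw [hl]; norm_num) e2 (-34) (by norm_num) _ _ (by norm_num) (by norm_num)
  · exact bounds (by norm_num) ht (by rw [hl]; norm_num) e3 (-36) (by norm_num) _ _ (by norm_num) (by norm_num)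

theorem val8_73 :
    ((1071341416825839 / 500000000) ≤ K 7 (((73 : ℕ) : ℝ) / 64 * q ^ (-31 : ℤ)) / hh ^ 7 ∧
      K 7 (((73 : ℕ) : ℝ) / 64 * q ^ (-31 : ℤ)) / hh ^ 7 ≤ (2142682834027799 / 1000000000)) ∧
    ((3133955740374391 / 1000000000) ≤ K 7 (((73 : ℕ) : ℝ) / 64 * q ^ (-33 : ℤ)) / hh ^ 7 ∧
      K 7 (((73 : ℕ) : ℝ) / 64 * q ^ (-33 : ℤ)) / hh ^ 7 ≤ (3133955740865651 / 1000000000)) ∧
    ((94263385626509 / 25000000) ≤ K 7 (((73 : ℕ) : ℝ) / 64 * q ^ (-34 : ℤ)) / hh ^ 7 ∧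
      K 7 (((73 : ℕ) : ℝ) / 64 * q ^ (-34 : ℤ)) / hh ^ 7 ≤ (18852677128109 / 5000000)) ∧
    ((2702000446308611 / 500000000) ≤ K 7 (((73 : ℕ) : ℝ) / 64 * q ^ (-36 : ℤ)) / hh ^ 7 ∧
      K 7 (((73 : ℕ) : ℝ) / 64 * q ^ (-36 : ℤ)) / hh ^ 7 ≤ (5404000893350531 / 1000000000)) := by
  obtain ⟨t, hl, ht, e0, e1, e2, e3⟩ := tab8_73
  refine ⟨?_, ?_, ?_, ?_⟩
  · exact bounds (by norm_num) ht (by rw [hl]; norm_num) e0 (-31) (by norm_num) _ _ (by norm_num) (by norm_num)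
  · exact bounds (by norm_num) ht (by rw [hl]; norm_num) e1 (-33) (by norm_num) _ _ (by norm_num) (by norm_num)
  · exact bounds (by norm_num) ht (by rw [hl]; norm_num) e2 (-34) (by norm_num) _ _ (by norm_num) (by norm_num)
  · exact bounds (by norm_num) ht (by rw [hl]; norm_num) e3 (-36) (by norm_num) _ _ (by norm_num) (by norm_num)

theorem val8_74 :
    ((1060817170900573 / 500000000) ≤ K 7 (((74 : ℕ) : ℝ) / 64 * q ^ (-31 : ℤ)) / hh ^ 7 ∧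
      K 7 (((74 : ℕ) : ℝ) / 64 * q ^ (-31 : ℤ)) / hh ^ 7 ≤ (530408585544317 / 250000000)) ∧
    ((3104287004261401 / 1000000000) ≤ K 7 (((74 : ℕ) : ℝ) / 64 * q ^ (-33 : ℤ)) / hh ^ 7 ∧
      K 7 (((74 : ℕ) : ℝ) / 64 * q ^ (-33 : ℤ)) / hh ^ 7 ≤ (3104287004752661 / 1000000000)) ∧
    ((3735484715090317 / 1000000000) ≤ K 7 (((74 : ℕ) : ℝ) / 64 * q ^ (-34 : ℤ)) / hh ^ 7 ∧
      K 7 (((74 : ℕ) : ℝ) / 64 * q ^ (-34 : ℤ)) / hh ^ 7 ≤ (3735484715651757 / 1000000000)) ∧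
    ((2677768735049281 / 500000000) ≤ K 7 (((74 : ℕ) : ℝ) / 64 * q ^ (-36 : ℤ)) / hh ^ 7 ∧
      K 7 (((74 : ℕ) : ℝ) / 64 * q ^ (-36 : ℤ)) / hh ^ 7 ≤ (20920068245437 / 3906250)) := by
  obtain ⟨t, hl, ht, e0, e1, e2, e3⟩ := tab8_74
  refine ⟨?_, ?_, ?_, ?_⟩
  · exact bounds (by norm_num) ht (by rw [hl]; norm_num) e0 (-31) (by norm_num) _ _ (by norm_num) (by norm_num)
  · exact bounds (by norm_num) ht (by rw [hl]; norm_num) e1 (-33) (by norm_num) _ _ (by norm_num) (by norm_num)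
  · exact bounds (by norm_num) ht (by rw [hl]; norm_num) e2 (-34) (by norm_num) _ _ (by norm_num) (by norm_num)
  · exact bounds (by norm_num) ht (by rw [hl]; norm_num) e3 (-36) (by norm_num) _ _ (by norm_num) (by norm_num)

theorem val8_75 :
    ((2101051583250721 / 1000000000) ≤ K 7 (((75 : ℕ) : ℝ) / 64 * q ^ (-31 : ℤ)) / hh ^ 7 ∧
      K 7 (((75 : ℕ) : ℝ) / 64 * q ^ (-31 : ℤ)) / hh ^ 7 ≤ (1050525791813421 / 500000000)) ∧
    ((3075264886995493 / 1000000000) ≤ K 7 (((75 : ℕ) : ℝ) / 64 * q ^ (-33 : ℤ)) / hh ^ 7 ∧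
      K 7 (((75 : ℕ) : ℝ) / 64 * q ^ (-33 : ℤ)) / hh ^ 7 ≤ (3075264887486753 / 1000000000)) ∧
    ((3701192353182637 / 1000000000) ≤ K 7 (((75 : ℕ) : ℝ) / 64 * q ^ (-34 : ℤ)) / hh ^ 7 ∧
      K 7 (((75 : ℕ) : ℝ) / 64 * q ^ (-34 : ℤ)) / hh ^ 7 ≤ (3701192353744077 / 1000000000)) ∧
    ((1061621568933377 / 200000000) ≤ K 7 (((75 : ℕ) : ℝ) / 64 * q ^ (-36 : ℤ)) / hh ^ 7 ∧
      K 7 (((75 : ℕ) : ℝ) / 64 * q ^ (-36 : ℤ)) / hh ^ 7 ≤ (2654053922700097 / 500000000)) := by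
  obtain ⟨t, hl, ht, e0, e1, e2, e3⟩ := tab8_75
  refine ⟨?_, ?_, ?_, ?_⟩
  · exact bounds (by norm_num) ht (by rw [hl]; norm_num) e0 (-31) (by norm_num) _ _ (by norm_num) (by norm_num)
  · exact bounds (by norm_num) ht (by rw [hl]; norm_num) e1 (-33) (by norm_num) _ _ (by norm_num) (by norm_num)
  · exact bounds (by norm_num) ht (by rw [hl]; norm_num) e2 (-34) (by norm_num) _ _ (by norm_num) (by norm_num)
  · exact bounds (by norm_num) ht (by rw [hl]; norm_num) e3 (-36) (by norm_num) _ _ (by norm_num) (by norm_num)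

end H81.LP
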